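import Pool.Agent.Lib.H70.Top.Defs

/-!
# Interfaces: henselian DVR data, iterated integral, graded count
-/

namespace Pool.Agent.Lib.H70.Top

open MeasureTheory
open scoped ENNReal BigOperators

/-- A henselian discrete valuation ring `O` with uniformiser `π` and residue map `res : O → k`. -/
structure HDVR (O k : Type*) [CommRing O] [IsDomain O] [Field k] where
  /-- uniformiser -/
  π : O
  /-- residue map -/
  res : O →+* k
  surj : Function.Surjective res
  ker : ∀ x, res x = 0 ↔ π ∣ x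
  π_ne : π ≠ 0
  fact : ∀ x : O, x ≠ 0 → ∃ (n : ℕ) (u : O), x = π ^ n * u ∧ res u ≠ 0
  unit : ∀ x : O, res x ≠ 0 → IsUnit x
  hensel : ∀ (F : Polynomial O) (a : O), res (F.eval a) = 0 →
    res (F.derivative.eval a) ≠ 0 → ∃ b : O, F.eval b = 0 ∧ res b = res a

/-- `μ` gives mass `q^{-n}` to each ball `a + π^n O`. -/
structure IsUnif {O : Type*} [CommRing O] [MeasurableSpace O] (π : O) (q : ℕ)
    (μ : Measure O) : Prop where
  meas : ∀ (a : O) (n : ℕ), MeasurableSet {x : O | π ^ n ∣ x - a}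
  ball : ∀ (a : O) (n : ℕ), μ {x : O | π ^ n ∣ x - a} = ((q : ℝ≥0∞) ^ n)⁻¹

/-- Iterated integral over `O^m` (no measurability needed). -/
noncomputable def iint {O : Type*} [MeasurableSpace O] (μ : Measure O) :
    (m : ℕ) → ((Fin m → O) → ℝ≥0∞) → ℝ≥0∞
  | 0, f => f Fin.elim0
  | m + 1, f => iint μ m (fun x => ∫⁻ y, f (Fin.snoc x y) ∂μ)

/-- The matrix with entries `y`. -/
def mat {d : ℕ} {O : Type*} (y : Fin (d * d) → O) : Matrix (Fin d) (Fin d) O :=
  Matrix.of fun i j => y (finProdFinEquiv (i, j))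

/-- The action `h · m` on the block `V_i = ⟨v_i, w_i⟩`, coordinates `m = (m_v, m_w)`. -/
def hact (i : Fin 4) {R : Type*} [CommRing R] (h m : Fin 2 → R) : Fin 2 → R :=
  ![(h 0 - (aa i : R) * h 1) * m 1, (h 0 - (bb i : R) * h 1) * m 0]

/-- Closedness of a graded tuple. -/
def GrClosed {R : Type*} [CommRing R] (UH : Submodule R (Fin 2 → R))
    (U : Fin 4 → Submodule R (Fin 2 → R)) : Prop :=
  ∀ i, ∀ h ∈ UH, ∀ m ∈ U i, hact i h m ∈ U i

/-- The number of graded subalgebras of index `m` of the algebra with constants `cA`. -/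
noncomputable def gradedCount (R : Type*) [CommRing R] (m : ℕ) : ℕ :=
  Nat.card {T : Submodule R (Fin 2 → R) × (Fin 4 → Submodule R (Fin 2 → R)) //
    GrClosed T.1 T.2 ∧ T.1.toAddSubgroup.index * ∏ i, (T.2 i).toAddSubgroup.index = m}

end Pool.Agent.Lib.H70.Top
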