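import Pool.Agent.Lib.H70.Top.CellsDefs

/-!
# Tame functions: piecewise definitions, residual polynomials, values at regular points
-/

namespace Pool.Agent.Lib.H70.Top

open Polynomial
open scoped BigOperators

/-! ### piecewise definitions -/

section Piecewise

variable {ι : Type*} {Ω : ι → Type*} {k : ι → Type*} {B : Type*} {T : Coord Ω k B}

theorem TF.piecewise0 {κ : Type} [Finite κ] {V : κ → ∀ i, Ω i → ℤ} (hV : ∀ c, TF T (V c))
    {Q : κ → ∀ i, Ω i → Prop} (hQ : ∀ c, TP T (Q c)) {f : ∀ i, Ω i → ℤ}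
    (hcov : ∀ i x, ∃ c, Q c i x) (h : ∀ c i x, Q c i x → f i x = V c i x) : TF T f := by
  obtain ⟨κ', hκ', P, S, l, h1, h2, h3, h4⟩ := TF.family hV
  refine ⟨κ × κ', inferInstance, fun c i x => Q c.1 i x ∧ P c.2 i x, S,
    fun c γ => l c.2 c.1 γ, fun c => TP.and _ _ (hQ c.1) (h1 c.2), fun c => h2 c.2 c.1, ?_, ?_⟩
  · intro i x
    obtain ⟨c, hc⟩ := hcov i x
    obtain ⟨c', hc'⟩ := h3 i x
    exact ⟨(c, c'), hc, hc'⟩
  · rintro ⟨c, c'⟩ i x ⟨hc, hc'⟩
    rw [h c i x hc]
    exact h4 c' i x hc' c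

theorem TK.piecewise0 {κ : Type} [Finite κ] {V : κ → ∀ i, Ω i → k i} (hV : ∀ c, TK T (V c))
    {Q : κ → ∀ i, Ω i → Prop} (hQ : ∀ c, TP T (Q c)) {f : ∀ i, Ω i → k i}
    (hcov : ∀ i x, ∃ c, Q c i x) (h : ∀ c i x, Q c i x → f i x = V c i x) : TK T f := by
  obtain ⟨κ', hκ', P, S, l, h1, h3, h4⟩ := TK.family hV
  refine ⟨κ × κ', inferInstance, fun c i x => Q c.1 i x ∧ P c.2 i x, S,
    fun c i γ => l c.2 c.1 i γ, fun c => TP.and _ _ (hQ c.1) (h1 c.2), ?_, ?_⟩
  · intro i x
    obtain ⟨c, hc⟩ := hcov i x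
    obtain ⟨c', hc'⟩ := h3 i x
    exact ⟨(c, c'), hc, hc'⟩
  · rintro ⟨c, c'⟩ i x ⟨hc, hc'⟩
    rw [h c i x hc]
    exact h4 c' i x hc' c

theorem TF.piecewise {κ : Type*} [Finite κ] {V : κ → ∀ i, Ω i → ℤ} (hV : ∀ c, TF T (V c))
    {Q : κ → ∀ i, Ω i → Prop} (hQ : ∀ c, TP T (Q c)) {f : ∀ i, Ω i → ℤ}
    (hcov : ∀ i x, ∃ c, Q c i x) (h : ∀ c i x, Q c i x → f i x = V c i x) : TF T f := by
  obtain ⟨n, ⟨e⟩⟩ := Finite.exists_equiv_fin κ
  refine TF.piecewise0 (κ := Fin n) (V := fun c => V (e.symm c)) (fun c => hV _)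
    (Q := fun c => Q (e.symm c)) (fun c => hQ _) ?_ (fun c i x hc => h _ i x hc)
  intro i x
  obtain ⟨c, hc⟩ := hcov i x
  exact ⟨e c, by simpa using hc⟩

theorem TK.piecewise {κ : Type*} [Finite κ] {V : κ → ∀ i, Ω i → k i} (hV : ∀ c, TK T (V c))
    {Q : κ → ∀ i, Ω i → Prop} (hQ : ∀ c, TP T (Q c)) {f : ∀ i, Ω i → k i}
    (hcov : ∀ i x, ∃ c, Q c i x) (h : ∀ c i x, Q c i x → f i x = V c i x) : TK T f := by
  obtain ⟨n, ⟨e⟩⟩ := Finite.exists_equiv_fin κ
  refine TK.piecewise0 (κ := Fin n) (V := fun c => V (e.symm c)) (fun c => hV _)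
    (Q := fun c => Q (e.symm c)) (fun c => hQ _) ?_ (fun c i x hc => h _ i x hc)
  intro i x
  obtain ⟨c, hc⟩ := hcov i x
  exact ⟨e c, by simpa using hc⟩

/-- an if-then-else with value `0` outside -/
theorem TF.ite0 {f g : ∀ i, Ω i → ℤ} (hf : TF T f) {Q : ∀ i, Ω i → Prop} (hQ : TP T Q)
    (h1 : ∀ i x, Q i x → g i x = f i x) (h2 : ∀ i x, ¬ Q i x → g i x = 0) : TF T g := by
  refine TF.piecewise (κ := Bool) (V := fun b => if b then f else fun _ _ => 0)
    (fun b => by cases b; exacts [TF.const 0, hf])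
    (Q := fun b => if b then Q else fun i x => ¬ Q i x)
    (fun b => by cases b; exacts [TP.not _ hQ, hQ]) (fun i x => ?_) ?_
  · by_cases h : Q i x
    · exact ⟨true, h⟩
    · exact ⟨false, h⟩
  · intro b i x hb
    cases b
    · exact h2 i x hb
    · exact h1 i x hb

end Piecewise

section

variable {ι : Type*} {O k : ι → Type*} [∀ i, CommRing (O i)] [∀ i, IsDomain (O i)]
  [∀ i, Field (k i)] {R : ∀ i, HDVR (O i) (k i)} {X : ι → Type*} {B : Type*} {T : Coord X k B}

/-- polynomials with coefficients in a subring -/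
def PC (E : Subring (∀ i, X i → O i)) (F : Polynomial (∀ i, X i → O i)) : Prop :=
  ∀ j, F.coeff j ∈ E

omit [∀ i, IsDomain (O i)] in
theorem PC.eval {E : Subring (∀ i, X i → O i)} {F : Polynomial (∀ i, X i → O i)} (hF : PC E F)
    {c : ∀ i, X i → O i} (hc : c ∈ E) : F.eval c ∈ E := by
  rw [eval_eq_sum_range]
  exact sum_mem fun j _ => mul_mem (hF j) (pow_mem hc j)

omit [∀ i, IsDomain (O i)] in
theorem PC.hasseDeriv {E : Subring (∀ i, X i → O i)} {F : Polynomial (∀ i, X i → O i)}
    (hF : PC E F) (n : ℕ) : PC E (Polynomial.hasseDeriv n F) := by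
  intro j
  rw [hasseDeriv_coeff]
  exact mul_mem (natCast_mem E _) (hF _)

omit [∀ i, IsDomain (O i)] in
theorem PC.taylor {E : Subring (∀ i, X i → O i)} {F : Polynomial (∀ i, X i → O i)}
    (hF : PC E F) {c : ∀ i, X i → O i} (hc : c ∈ E) : PC E (Polynomial.taylor c F) := by
  intro j
  rw [taylor_coeff]
  exact (hF.hasseDeriv j).eval hc

omit [∀ i, IsDomain (O i)] in
theorem PC.derivative {E : Subring (∀ i, X i → O i)} {F : Polynomial (∀ i, X i → O i)}
    (hF : PC E F) : PC E (Polynomial.derivative F) := by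
  intro j
  rw [coeff_derivative]
  exact mul_mem (hF _) (add_mem (natCast_mem E _) (one_mem E))

omit [∀ i, IsDomain (O i)] in
theorem PC.mono {E E' : Subring (∀ i, X i → O i)} (h : E ≤ E')
    {F : Polynomial (∀ i, X i → O i)} (hF : PC E F) : PC E' F := fun j => h (hF j)

omit [∀ i, IsDomain (O i)] in
theorem eval_pt (F : Polynomial (∀ i, X i → O i)) (c : ∀ i, X i → O i) (i : ι) (x : X i) :
    (F.eval c) i x = (F.map (pt i x)).eval (c i x) := by
  rw [← pt_apply i x (F.eval c), ← pt_apply i x c, eval_map, eval₂_at_apply]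

omit [∀ i, IsDomain (O i)] in
theorem taylor_pt (F : Polynomial (∀ i, X i → O i)) (c : ∀ i, X i → O i) (i : ι) (x : X i) :
    (Polynomial.taylor c F).map (pt i x) = Polynomial.taylor (c i x) (F.map (pt i x)) := by
  rw [map_taylor, pt_apply]

omit [∀ i, IsDomain (O i)] in
theorem hasseDeriv_pt (n : ℕ) (F : Polynomial (∀ i, X i → O i)) (i : ι) (x : X i) :
    (Polynomial.hasseDeriv n F).map (pt i x) = Polynomial.hasseDeriv n (F.map (pt i x)) := by
  ext j
  rw [coeff_map, hasseDeriv_coeff, hasseDeriv_coeff, map_mul, map_natCast, coeff_map]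

omit [∀ i, IsDomain (O i)] in
theorem natDegree_pt_le {F : Polynomial (∀ i, X i → O i)} {n : ℕ} (h : F.natDegree ≤ n) (i : ι)
    (x : X i) : (F.map (pt i x)).natDegree ≤ n := natDegree_map_le.trans h

theorem TRV.v {g : ∀ i, X i → O i} (h : TRV R T g) : TF T (fun i x => ((R i).v (g i x) : ℤ)) :=
  h.1

theorem TRV.ac {g : ∀ i, X i → O i} (h : TRV R T g) : TK T (fun i x => (R i).ac (g i x)) := h.2

/-- vanishing is tame -/
theorem TRV.zero {g : ∀ i, X i → O i} (h : TRV R T g) : TP T (fun i x => g i x = 0) :=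
  (h.ac.arb1 fun _ a => a = 0).congr fun i x => by rw [HDVR.ac_eq_zero]

theorem TRV.neg {g : ∀ i, X i → O i} (h : TRV R T g) : TRV R T (-g) :=
  ⟨h.1.congr fun i x => by rw [Pi.neg_apply, Pi.neg_apply, (R i).v_neg],
    (h.2.comp1 fun _ a => -a).congr fun i x => by rw [Pi.neg_apply, Pi.neg_apply, (R i).ac_neg]⟩

theorem TRV.piecewise {κ : Type*} [Finite κ] {V : κ → ∀ i, X i → O i} (hV : ∀ c, TRV R T (V c))
    {Q : κ → ∀ i, X i → Prop} (hQ : ∀ c, TP T (Q c)) {f : ∀ i, X i → O i}
    (hcov : ∀ i x, ∃ c, Q c i x) (h : ∀ c i x, Q c i x → f i x = V c i x) : TRV R T f :=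
  ⟨TF.piecewise (fun c => (hV c).1) hQ hcov fun c i x hc => by rw [h c i x hc],
    TK.piecewise (fun c => (hV c).2) hQ hcov fun c i x hc => by rw [h c i x hc]⟩

/-! ### residual polynomials -/

section Red

variable {E : Subring (∀ i, X i → O i)} (hE : TameAlg R T E) {g : Polynomial (∀ i, X i → O i)}
  (hg : PC E g) {n : ℕ} (hn : g.natDegree ≤ n) {γ : ∀ i, X i → ℕ}
  (hγ : TF T (fun i x => ((γ i x : ℕ) : ℤ)))

include hE hg in
theorem coeff_trv (j : ℕ) : TRV R T (g.coeff j) := hE _ (hg j)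

include hE hg hn hγ in
theorem act_tame (j : ℕ) : TP T (fun i x => (R i).Act (g.map (pt i x)) (γ i x) j) := by
  have h1 : TP T (fun i x => ¬ (g.coeff j i x = 0) ∧ ∀ l : Fin (n + 1), ¬ (g.coeff l i x = 0) →
      ((R i).v (g.coeff j i x) : ℤ) + (γ i x : ℤ) * (j : ℤ) ≤
        ((R i).v (g.coeff l i x) : ℤ) + (γ i x : ℤ) * ((l : ℕ) : ℤ)) := by
    refine TP.and _ _ (TP.not _ (coeff_trv hE hg j).zero) (TP.all fun l => ?_)
    refine TP.imp (TP.not _ (coeff_trv hE hg l).zero) ?_
    exact TF.le ((coeff_trv hE hg j).v.add (hγ.mul_const _))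
      ((coeff_trv hE hg l).v.add (hγ.mul_const _))
  refine h1.congr fun i x => ?_
  simp only [HDVR.Act, coeff_map, pt_apply]
  constructor
  · rintro ⟨h2, h3⟩
    refine ⟨h2, fun l hl => ?_⟩
    have := h3 l hl
    exact_mod_cast this
  · rintro ⟨h2, h3⟩
    refine ⟨h2, fun l hl => ?_⟩
    have hln : l ≤ n := by
      by_contra hcon
      apply hl
      have : g.coeff l = 0 := coeff_eq_zero_of_natDegree_lt (by omega)
      rw [this]; rfl
    have := h3 ⟨l, by omega⟩ hl
    exact_mod_cast this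

include hE hg hn hγ in
theorem redC_tame (j : ℕ) : TK T (fun i x => (R i).redC (g.map (pt i x)) (γ i x) j) := by
  classical
  refine (TK.ite (coeff_trv hE hg j).ac (TK.const (T := T) fun i => (0 : k i))
    (act_tame hE hg hn hγ j)).congr fun i x => ?_
  rw [HDVR.redC]
  simp only [coeff_map, pt_apply]

include hE hg hn hγ in
/-- arbitrary predicates of the residual polynomial and one more residual variable -/
theorem redP_arb {ξ : ∀ i, X i → k i} (hξ : TK T ξ) (ρ : ∀ i, (k i)[X] → k i → Prop) :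
    TP T (fun i x => ρ i ((R i).redP (g.map (pt i x)) (γ i x)) (ξ i x)) := by
  have h := TK.arb (J := Option (Fin (n + 1)))
    (f := fun o => Option.elim o ξ
      (fun j => fun i x => (R i).redC (g.map (pt i x)) (γ i x) (j : ℕ)))
    (fun o => by
      cases o with
      | none => exact hξ
      | some j => exact redC_tame hE hg hn hγ j)
    (fun i b => ρ i (∑ j : Fin (n + 1), monomial (j : ℕ) (b (some j))) (b none))
  refine h.congr fun i x => ?_
  have : (R i).redP (g.map (pt i x)) (γ i x) = ∑ j : Fin (n + 1), monomial (j : ℕ)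
      ((R i).redC (g.map (pt i x)) (γ i x) (j : ℕ)) := by
    rw [HDVR.redP_eq_sum (natDegree_pt_le hn i x), Finset.sum_range]
  rw [this]
  exact Iff.rfl

include hE hg hn hγ in
/-- arbitrary functions of the residual polynomial and one more residual variable -/
theorem redP_fun {ξ : ∀ i, X i → k i} (hξ : TK T ξ) (ρ : ∀ i, (k i)[X] → k i → k i) :
    TK T (fun i x => ρ i ((R i).redP (g.map (pt i x)) (γ i x)) (ξ i x)) := by
  have h := TK.comp (J := Option (Fin (n + 1)))
    (f := fun o => Option.elim o ξ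
      (fun j => fun i x => (R i).redC (g.map (pt i x)) (γ i x) (j : ℕ)))
    (fun o => by
      cases o with
      | none => exact hξ
      | some j => exact redC_tame hE hg hn hγ j)
    (fun i b => ρ i (∑ j : Fin (n + 1), monomial (j : ℕ) (b (some j))) (b none))
  refine h.congr fun i x => ?_
  have : (R i).redP (g.map (pt i x)) (γ i x) = ∑ j : Fin (n + 1), monomial (j : ℕ)
      ((R i).redC (g.map (pt i x)) (γ i x) (j : ℕ)) := by
    rw [HDVR.redP_eq_sum (natDegree_pt_le hn i x), Finset.sum_range]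
  rw [this]
  rfl

end Red

/-! ### values at regular points -/

/-- There are tame functions giving the leading term of `F(y)` at all points where `y` is regular
with respect to `c` and `y ≠ c`, from the leading term of `y - c`. -/
theorem reg_tame {E : Subring (∀ i, X i → O i)} (hE : TameAlg R T E)
    {F : Polynomial (∀ i, X i → O i)} (hF : PC E F) {c y : ∀ i, X i → O i} (hc : c ∈ E)
    (hy : TRV R T (y - c)) :
    TP T (fun i x => ((R i).redP (Polynomial.taylor (c i x) (F.map (pt i x)))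
        ((R i).v (y i x - c i x))).eval ((R i).ac (y i x - c i x)) ≠ 0) ∧
    ∃ V : ∀ i, X i → ℤ, ∃ A : ∀ i, X i → k i, TF T V ∧ TK T A ∧
      ∀ i x, y i x ≠ c i x →
        ((R i).redP (Polynomial.taylor (c i x) (F.map (pt i x)))
          ((R i).v (y i x - c i x))).eval ((R i).ac (y i x - c i x)) ≠ 0 →
        ((R i).v ((F.map (pt i x)).eval (y i x)) : ℤ) = V i x ∧
          (R i).ac ((F.map (pt i x)).eval (y i x)) = A i x := by
  set n := F.natDegree with hn
  have hg : PC E (Polynomial.taylor c F) := hF.taylor hc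
  have hgn : (Polynomial.taylor c F).natDegree ≤ n := by rw [natDegree_taylor]
  have hγ : TF T (fun i x => (((R i).v (y i x - c i x) : ℕ) : ℤ)) := hy.v
  have hξ : TK T (fun i x => (R i).ac (y i x - c i x)) := hy.ac
  have hred := redP_fun hE hg hgn hγ hξ (fun i P a => P.eval a)
  have hredP := redP_arb hE hg hgn hγ hξ (fun i P a => P.eval a ≠ 0)
  simp only [taylor_pt] at hred hredP
  refine ⟨hredP, ?_⟩
  -- the valuation: first active index
  have hact : ∀ j, TP T (fun i x => (R i).Act (Polynomial.taylor (c i x) (F.map (pt i x)))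
      ((R i).v (y i x - c i x)) j) := by
    intro j
    have := act_tame hE hg hgn hγ j
    simpa only [taylor_pt] using this
  have hval : ∀ j, TF T (fun i x =>
      ((R i).v ((Polynomial.taylor (c i x) (F.map (pt i x))).coeff j) : ℤ) +
        ((R i).v (y i x - c i x) : ℤ) * (j : ℤ)) := by
    intro j
    have := (coeff_trv hE hg j).v.add (hγ.mul_const (j : ℤ))
    refine this.congr fun i x => ?_
    rw [← taylor_pt, coeff_map, pt_apply]
  classical
  let V : ℕ → ∀ i, X i → ℤ := fun m => Nat.rec (fun _ _ => 0)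
    (fun j f i x => if (R i).Act (Polynomial.taylor (c i x) (F.map (pt i x)))
      ((R i).v (y i x - c i x)) j then
      ((R i).v ((Polynomial.taylor (c i x) (F.map (pt i x))).coeff j) : ℤ) +
        ((R i).v (y i x - c i x) : ℤ) * (j : ℤ) else f i x) m
  have hV : ∀ m, TF T (V m) := by
    intro m
    induction m with
    | zero => exact TF.const 0
    | succ m ih => exact TF.ite (hval m) ih (hact m)
  refine ⟨V (n + 1), _, hV (n + 1), hred, fun i x h1 h2 => ?_⟩
  obtain ⟨h3, h4, h5, j, hj, hjact⟩ := HDVR.reg_value h1 h2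
  refine ⟨?_, h4⟩
  have hjn : j ≤ n := hj.trans (natDegree_pt_le le_rfl i x)
  have key : ∀ m, j < m → V m i x = ((R i).v ((F.map (pt i x)).eval (y i x)) : ℤ) := by
    intro m
    induction m with
    | zero => intro h; omega
    | succ m ih =>
      intro hm
      show (if (R i).Act (Polynomial.taylor (c i x) (F.map (pt i x)))
        ((R i).v (y i x - c i x)) m then _ else V m i x) = _
      by_cases ha : (R i).Act (Polynomial.taylor (c i x) (F.map (pt i x)))
        ((R i).v (y i x - c i x)) m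
      · rw [if_pos ha, h5 m ha]
        push_cast
        rfl
      · rw [if_neg ha]
        apply ih
        rcases Nat.lt_succ_iff_lt_or_eq.1 hm with h | h
        · exact h
        · exact absurd (h ▸ hjact) ha
  exact (key (n + 1) (by omega)).symm

/-- The leading term of `F(y)` is tame if `y` is everywhere regular for `F` with respect to
one of finitely many tame centres. -/
theorem eval_tame {E : Subring (∀ i, X i → O i)} (hE : TameAlg R T E)
    {F : Polynomial (∀ i, X i → O i)} (hF : PC E F) {y : ∀ i, X i → O i}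
    (C : Finset (∀ i, X i → O i)) (hC : ∀ c ∈ C, c ∈ E) (hy : ∀ c ∈ C, TRV R T (y - c))
    (hreg : ∀ i x, ∃ c ∈ C, (R i).Reg (F.map (pt i x)) (c i x) (y i x)) :
    TRV R T (F.eval y) := by
  classical
  have hd : ∀ c : C, _ := fun c => reg_tame hE hF (hC c c.2) (hy c c.2)
  choose h1 V A hV hA hVA using hd
  -- pieces: for each c: F = 0; y = c; regular
  have hz : TP T (fun i x => F.map (pt i x) = 0) := by
    have : TP T (fun i x => ∀ j : Fin (F.natDegree + 1), F.coeff j i x = 0) :=
      TP.all fun j => (coeff_trv hE hF j).zero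
    refine this.congr fun i x => ?_
    constructor
    · intro h j
      have := congrArg (fun P => Polynomial.coeff P (j : ℕ)) h
      simpa only [coeff_map, pt_apply, coeff_zero] using this
    · intro h
      ext j
      rw [coeff_map, pt_apply, coeff_zero]
      by_cases hj : j < F.natDegree + 1
      · exact h ⟨j, hj⟩
      · rw [coeff_eq_zero_of_natDegree_lt (by omega)]; rfl
  have hyc : ∀ c : C, TP T (fun i x => y i x = (c : ∀ i, X i → O i) i x) := fun c =>
    (hy c c.2).zero.congr fun i x => by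
      rw [Pi.sub_apply, Pi.sub_apply, sub_eq_zero]
  let Q : C × Fin 3 → ∀ i, X i → Prop := fun a =>
    if a.2 = 0 then fun i x => F.map (pt i x) = 0
    else if a.2 = 1 then fun i x => y i x = (a.1 : ∀ i, X i → O i) i x
    else fun i x => y i x ≠ (a.1 : ∀ i, X i → O i) i x ∧
      ((R i).redP (Polynomial.taylor ((a.1 : ∀ i, X i → O i) i x) (F.map (pt i x)))
        ((R i).v (y i x - (a.1 : ∀ i, X i → O i) i x))).eval
          ((R i).ac (y i x - (a.1 : ∀ i, X i → O i) i x)) ≠ 0
  let VV : C × Fin 3 → ∀ i, X i → ℤ := fun a =>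
    if a.2 = 0 then fun _ _ => 0
    else if a.2 = 1 then fun i x => ((R i).v (F.eval (a.1 : ∀ i, X i → O i) i x) : ℤ)
    else V a.1
  let AA : C × Fin 3 → ∀ i, X i → k i := fun a =>
    if a.2 = 0 then fun _ _ => 0
    else if a.2 = 1 then fun i x => (R i).ac (F.eval (a.1 : ∀ i, X i → O i) i x)
    else A a.1
  have hQ : ∀ a, TP T (Q a) := by
    rintro ⟨c, a⟩
    fin_cases a
    · exact hz
    · exact hyc c
    · exact TP.and _ _ (TP.not _ (hyc c)) (h1 c)
  have hVV : ∀ a, TF T (VV a) := by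
    rintro ⟨c, a⟩
    fin_cases a
    · exact TF.const 0
    · exact (hE _ (hF.eval (hC c c.2))).v
    · exact hV c
  have hAA : ∀ a, TK T (AA a) := by
    rintro ⟨c, a⟩
    fin_cases a
    · exact TK.const (T := T) fun i => (0 : k i)
    · exact (hE _ (hF.eval (hC c c.2))).ac
    · exact hA c
  have hcov : ∀ i x, ∃ a, Q a i x := by
    intro i x
    obtain ⟨c, hc, hr⟩ := hreg i x
    by_cases h0 : F.map (pt i x) = 0
    · exact ⟨(⟨c, hc⟩, 0), h0⟩
    by_cases h2 : y i x = c i x
    · exact ⟨(⟨c, hc⟩, 1), h2⟩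
    · exact ⟨(⟨c, hc⟩, 2), h2, (hr.resolve_left h0).resolve_left h2⟩
  have hval : ∀ a i x, Q a i x → ((R i).v (F.eval y i x) : ℤ) = VV a i x ∧
      (R i).ac (F.eval y i x) = AA a i x := by
    rintro ⟨c, a⟩ i x hq
    fin_cases a
    · have hq' : F.map (pt i x) = 0 := hq
      have : F.eval y i x = 0 := by rw [eval_pt, hq', eval_zero]
      rw [this]
      exact ⟨by rw [(R i).v_zero]; rfl, (R i).ac_zero⟩
    · have hq' : y i x = (c : ∀ i, X i → O i) i x := hq
      have : F.eval y i x = F.eval (c : ∀ i, X i → O i) i x := by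
        rw [eval_pt, eval_pt, hq']
      rw [this]
      exact ⟨rfl, rfl⟩
    · have hq' := hVA c i x hq.1 hq.2
      rw [eval_pt]
      exact hq'
  have e1 : TF T (fun i x => ((R i).v (F.eval y i x) : ℤ)) :=
    TF.piecewise (V := VV) (Q := Q) (f := fun i x => ((R i).v (F.eval y i x) : ℤ)) hVV hQ hcov
      (fun a i x ha => (hval a i x ha).1)
  have e2 : TK T (fun i x => (R i).ac (F.eval y i x)) :=
    TK.piecewise (V := AA) (Q := Q) (f := fun i x => (R i).ac (F.eval y i x)) hAA hQ hcov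
      (fun a i x ha => (hval a i x ha).2)
  exact ⟨e1, e2⟩

end

end Pool.Agent.Lib.H70.Top
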