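import Pool.Agent.Lib.H70.Top.Cells1

/-!
# Adjoining Hensel roots keeps an algebra tame
-/

namespace Pool.Agent.Lib.H70.Top

open Polynomial
open scoped BigOperators

/-! ### the distance to a Hensel root, pointwise -/

section Pointwise

variable {O k : Type*} [CommRing O] [IsDomain O] [Field k] {R : HDVR O k}

open Classical in
theorem dist_pt {G : O[X]} {c z c1 : O} {γ : ℕ} {ξ : k} (hz : G.eval z = 0)
    (hv : R.v (z - c) = γ) (ha : R.ac (z - c) = ξ) (hξ : ξ ≠ 0)
    (hder : (R.redP (taylor c G) γ).derivative.eval ξ ≠ 0) :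
    ((R.v (z - c1) : ℤ) = if c1 - c = 0 then (γ : ℤ) else
      if (R.v (c1 - c) : ℤ) < γ then (R.v (c1 - c) : ℤ) else
      if (γ : ℤ) < R.v (c1 - c) then (γ : ℤ) else
      if R.ac (c1 - c) = ξ then (if G.eval c1 = 0 then 0 else
        (R.v (G.eval c1) : ℤ) - (R.v (G.derivative.eval c1) : ℤ)) else (γ : ℤ)) ∧
    (R.ac (z - c1) = if c1 - c = 0 then ξ else
      if (R.v (c1 - c) : ℤ) < γ then - R.ac (c1 - c) else
      if (γ : ℤ) < R.v (c1 - c) then ξ else
      if R.ac (c1 - c) = ξ then (if G.eval c1 = 0 then 0 else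
        - (R.ac (G.eval c1) / R.ac (G.derivative.eval c1))) else ξ - R.ac (c1 - c)) := by
  have hzc : z - c ≠ 0 := by
    intro h0; rw [h0, R.ac_zero] at ha; exact hξ ha.symm
  have hsub : z - c1 = (z - c) - (c1 - c) := by ring
  by_cases h1 : c1 - c = 0
  · rw [if_pos h1, if_pos h1, hsub, h1, sub_zero, hv, ha]
    exact ⟨rfl, rfl⟩
  rw [if_neg h1, if_neg h1]
  by_cases h2 : (R.v (c1 - c) : ℤ) < γ
  · rw [if_pos h2, if_pos h2]
    have h2' : R.v (c1 - c) < R.v (z - c) := by rw [hv]; exact_mod_cast h2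
    obtain ⟨_, h3, h4⟩ := R.rv_sub_lt h1 (Or.inr h2')
    have : z - c1 = -((c1 - c) - (z - c)) := by ring
    rw [this, R.v_neg, R.ac_neg, h3, h4]
    exact ⟨rfl, rfl⟩
  rw [if_neg h2, if_neg h2]
  by_cases h3 : (γ : ℤ) < R.v (c1 - c)
  · rw [if_pos h3, if_pos h3]
    have h3' : R.v (z - c) < R.v (c1 - c) := by rw [hv]; exact_mod_cast h3
    obtain ⟨_, h4, h5⟩ := R.rv_sub_lt hzc (Or.inr h3')
    rw [hsub, h4, h5, hv, ha]
    exact ⟨rfl, rfl⟩
  rw [if_neg h3, if_neg h3]
  have h4 : R.v (z - c) = R.v (c1 - c) := by rw [hv]; omega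
  by_cases h5 : ¬ (R.ac (c1 - c) = ξ)
  · rw [if_neg h5, if_neg h5]
    obtain ⟨_, h6, h7⟩ := R.rv_sub_eq hzc h1 h4 (by rw [ha]; exact Ne.symm h5)
    rw [hsub, h6, h7, hv, ha]
    exact ⟨rfl, rfl⟩
  have h5' : R.ac (c1 - c) = ξ := not_not.1 h5
  rw [if_pos h5', if_pos h5']
  obtain ⟨h6, h7, h8⟩ := HDVR.newton' hξ hz hv ha (by rw [← h4, hv]) h5' hder
  by_cases h9 : G.eval c1 = 0
  · rw [if_pos h9, if_pos h9, h7 h9, sub_self, R.v_zero, R.ac_zero]
    exact ⟨rfl, rfl⟩
  · rw [if_neg h9, if_neg h9]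
    obtain ⟨h10, h11, h12⟩ := h8 h9
    have h13 : z - c1 = -(c1 - z) := by ring
    rw [h13, R.v_neg, R.ac_neg, h11, h12]
    have h14 := R.ac_ne h6
    refine ⟨by push_cast; ring, ?_⟩
    rw [mul_div_assoc, div_self h14, mul_one]

end Pointwise

section

variable {ι : Type*} {O k : ι → Type*} [∀ i, CommRing (O i)] [∀ i, IsDomain (O i)]
  [∀ i, Field (k i)] {R : ∀ i, HDVR (O i) (k i)} {X : ι → Type*} {B : Type*} {T : Coord X k B}

/-! ### polynomials with coefficients in a subring -/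

omit [∀ i, IsDomain (O i)] in
theorem PC.add {E : Subring (∀ i, X i → O i)} {F G : Polynomial (∀ i, X i → O i)} (hF : PC E F)
    (hG : PC E G) : PC E (F + G) := fun j => by
  rw [coeff_add]; exact add_mem (hF j) (hG j)

omit [∀ i, IsDomain (O i)] in
theorem PC.neg {E : Subring (∀ i, X i → O i)} {F : Polynomial (∀ i, X i → O i)} (hF : PC E F) :
    PC E (-F) := fun j => by
  rw [coeff_neg]; exact neg_mem (hF j)

omit [∀ i, IsDomain (O i)] in
theorem PC.sub {E : Subring (∀ i, X i → O i)} {F G : Polynomial (∀ i, X i → O i)} (hF : PC E F)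
    (hG : PC E G) : PC E (F - G) := fun j => by
  rw [coeff_sub]; exact sub_mem (hF j) (hG j)

omit [∀ i, IsDomain (O i)] in
theorem PC.mul {E : Subring (∀ i, X i → O i)} {F G : Polynomial (∀ i, X i → O i)} (hF : PC E F)
    (hG : PC E G) : PC E (F * G) := fun j => by
  rw [coeff_mul]; exact sum_mem fun x _ => mul_mem (hF _) (hG _)

omit [∀ i, IsDomain (O i)] in
theorem PC.monomial {E : Subring (∀ i, X i → O i)} (n : ℕ) {a : ∀ i, X i → O i} (ha : a ∈ E) :
    PC E (Polynomial.monomial n a) := fun j => by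
  rw [coeff_monomial]
  split_ifs
  · exact ha
  · exact zero_mem E

omit [∀ i, IsDomain (O i)] in
theorem PC.C {E : Subring (∀ i, X i → O i)} {a : ∀ i, X i → O i} (ha : a ∈ E) :
    PC E (Polynomial.C a) := PC.monomial 0 ha

omit [∀ i, IsDomain (O i)] in
theorem PC.var {E : Subring (∀ i, X i → O i)} : PC E (Polynomial.X) := fun j => by
  rw [coeff_X]
  split_ifs
  · exact one_mem E
  · exact zero_mem E

/-- the subring generated by `E` and `z` -/
def adj (E : Subring (∀ i, X i → O i)) (z : ∀ i, X i → O i) : Subring (∀ i, X i → O i) :=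
  Subring.closure ((E : Set (∀ i, X i → O i)) ∪ {z})

omit [∀ i, IsDomain (O i)] in
theorem le_adj (E : Subring (∀ i, X i → O i)) (z : ∀ i, X i → O i) : E ≤ adj E z :=
  fun _ hg => Subring.subset_closure (Or.inl hg)

omit [∀ i, IsDomain (O i)] in
theorem mem_adj_self (E : Subring (∀ i, X i → O i)) (z : ∀ i, X i → O i) : z ∈ adj E z :=
  Subring.subset_closure (Or.inr rfl)

omit [∀ i, IsDomain (O i)] in
theorem exists_of_mem_adj {E : Subring (∀ i, X i → O i)} {z g : ∀ i, X i → O i}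
    (hg : g ∈ adj E z) : ∃ F, PC E F ∧ g = F.eval z := by
  induction hg using Subring.closure_induction with
  | mem x hx =>
    rcases hx with hx | hx
    · exact ⟨Polynomial.C x, PC.C hx, by rw [eval_C]⟩
    · exact ⟨Polynomial.X, PC.var, by rw [eval_X]; exact hx⟩
  | zero => exact ⟨0, fun j => by rw [coeff_zero]; exact zero_mem E, by rw [eval_zero]⟩
  | one => exact ⟨Polynomial.C 1, PC.C (one_mem E), by rw [eval_C]⟩
  | add x y _ _ hx hy =>
    obtain ⟨F, hF, rfl⟩ := hx
    obtain ⟨G, hG, rfl⟩ := hy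
    exact ⟨F + G, hF.add hG, by rw [eval_add]⟩
  | neg x _ hx =>
    obtain ⟨F, hF, rfl⟩ := hx
    exact ⟨-F, hF.neg, by rw [eval_neg]⟩
  | mul x y _ _ hx hy =>
    obtain ⟨F, hF, rfl⟩ := hx
    obtain ⟨G, hG, rfl⟩ := hy
    exact ⟨F * G, hF.mul hG, by rw [eval_mul]⟩

variable (R T)

/-- `z` is a Hensel root, on a tame set, of a polynomial of degree at most `n`, in a disc with
tame data; outside this set `z` equals the centre. -/
def HR (E : Subring (∀ i, X i → O i)) (n : ℕ) (z : ∀ i, X i → O i) : Prop :=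
  ∃ (G : Polynomial (∀ i, X i → O i)) (c : ∀ i, X i → O i) (P : ∀ i, X i → Prop)
    (γ : ∀ i, X i → ℕ) (ξ : ∀ i, X i → k i),
    PC E G ∧ G.natDegree ≤ n ∧ c ∈ E ∧ TP T P ∧ TF T (fun i x => ((γ i x : ℕ) : ℤ)) ∧ TK T ξ ∧
    (∀ i x, ¬ P i x → z i x = c i x) ∧
    ∀ i x, P i x → (G.map (pt i x)).eval (z i x) = 0 ∧ (R i).v (z i x - c i x) = γ i x ∧
      (R i).ac (z i x - c i x) = ξ i x ∧ ξ i x ≠ 0 ∧
      ((R i).redP (Polynomial.taylor (c i x) (G.map (pt i x))) (γ i x)).derivative.eval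
        (ξ i x) ≠ 0

variable {R T}

theorem HR.mono {E E' : Subring (∀ i, X i → O i)} (h : E ≤ E') {n : ℕ} {z : ∀ i, X i → O i}
    (hz : HR R T E n z) : HR R T E' n z := by
  obtain ⟨G, c, P, γ, ξ, h1, h2, h3, h4⟩ := hz
  exact ⟨G, c, P, γ, ξ, h1.mono h, h2, h h3, h4⟩

/-- the distance from a Hensel root to an element of a tame algebra is tame -/
theorem dist_tame {E : Subring (∀ i, X i → O i)} (hE : TameAlg R T E) {n : ℕ}
    {z : ∀ i, X i → O i} (hz : HR R T E n z) {c1 : ∀ i, X i → O i} (hc1 : c1 ∈ E) :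
    TRV R T (z - c1) := by
  classical
  obtain ⟨G, c, P, γ, ξ, hG, hn, hc, hP, hγ, hξ, hout, hin⟩ := hz
  have hd : TRV R T (c1 - c) := hE _ (sub_mem hc1 hc)
  have hd' : TRV R T (c - c1) := hE _ (sub_mem hc hc1)
  have hGc : TRV R T (G.eval c1) := hE _ (hG.eval hc1)
  have hGd : TRV R T ((derivative G).eval c1) := hE _ (hG.derivative.eval hc1)
  have hle : ∀ i x, P i x → _ := fun i x hp =>
    dist_pt (R := R i) (c1 := c1 i x) (hin i x hp).1 (hin i x hp).2.1 (hin i x hp).2.2.1
      (hin i x hp).2.2.2.1 (hin i x hp).2.2.2.2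
  constructor
  · have h := TF.ite (TF.ite hγ (TF.ite hd.v (TF.ite hγ (TF.ite (TF.ite
      (TF.const (T := T) 0) (hGc.v.sub hGd.v) hGc.zero) hγ
      (hd.ac.eq hξ)) (hγ.lt hd.v)) (hd.v.lt hγ)) hd.zero) hd'.v hP
    refine h.congr fun i x => ?_
    by_cases hp : P i x
    · rw [if_pos hp]
      have := (hle i x hp).1
      rw [derivative_map, ← eval_pt, ← eval_pt] at this
      simp only [Pi.sub_apply]
      convert this
    · rw [if_neg hp, Pi.sub_apply, Pi.sub_apply, hout i x hp]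
      rfl
  · have h := TK.ite (TK.ite hξ (TK.ite (hd.ac.comp1 fun _ a => -a) (TK.ite hξ (TK.ite
      (TK.ite (TK.const (T := T) fun i => (0 : k i))
      (hGc.ac.comp2 hGd.ac fun _ a b => -(a / b)) hGc.zero)
      (hξ.comp2 hd.ac fun _ a b => a - b)
      (hd.ac.eq hξ)) (hγ.lt hd.v)) (hd.v.lt hγ)) hd.zero) hd'.ac hP
    refine h.congr fun i x => ?_
    by_cases hp : P i x
    · rw [if_pos hp]
      have := (hle i x hp).2
      rw [derivative_map, ← eval_pt, ← eval_pt] at this
      simp only [Pi.sub_apply]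
      convert this
    · rw [if_neg hp, Pi.sub_apply, Pi.sub_apply, hout i x hp]
      rfl

variable (R T)

/-- statement T(n) -/
def StT (n : ℕ) : Prop :=
  ∀ E : Subring (∀ i, X i → O i), TameAlg R T E → ∀ z, HR R T E n z →
    ∀ F, PC E F → TRV R T (F.eval z)

/-- statement CD(n) -/
def StCD (n : ℕ) : Prop :=
  ∀ E : Subring (∀ i, X i → O i), TameAlg R T E → ∀ F, PC E F → F.natDegree ≤ n →
    ∃ E' : Subring (∀ i, X i → O i), E ≤ E' ∧ TameAlg R T E' ∧
      ∃ C : Finset (∀ i, X i → O i), (∀ c ∈ C, c ∈ E') ∧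
        ∀ (i : ι) (x : X i) (y : O i), ∃ c ∈ C, (R i).Reg (F.map (pt i x)) (c i x) y

variable {R T}

theorem StT.adj_tame {n : ℕ} (h : StT R T n) {E : Subring (∀ i, X i → O i)}
    (hE : TameAlg R T E) {z : ∀ i, X i → O i} (hz : HR R T E n z) : TameAlg R T (adj E z) := by
  intro g hg
  obtain ⟨F, hF, rfl⟩ := exists_of_mem_adj hg
  exact h E hE z hz F hF

/-- small degree -/
theorem eval_small {n m : ℕ} (hCD : StCD R T n) {E : Subring (∀ i, X i → O i)}
    (hE : TameAlg R T E) {z : ∀ i, X i → O i} (hz : HR R T E m z)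
    {F : Polynomial (∀ i, X i → O i)} (hF : PC E F) (hn : F.natDegree ≤ n) :
    TRV R T (F.eval z) := by
  obtain ⟨E', hle, hE', C, hC, hreg⟩ := hCD E hE F hF hn
  exact eval_tame hE' (hF.mono hle) C hC (fun c hc => dist_tame hE' (hz.mono hle) (hC c hc))
    (fun i x => hreg i x (z i x))

/-- quotients -/
theorem TRV.quot {a b f f0 : ∀ i, X i → O i} (ha : TRV R T a) (hb : TRV R T b)
    (hf0 : TRV R T f0) {P : ∀ i, X i → Prop} (hP : TP T P)
    (h1 : ∀ i x, P i x → b i x ≠ 0 ∧ b i x * f i x = a i x)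
    (h2 : ∀ i x, ¬ P i x → f i x = f0 i x) : TRV R T f := by
  classical
  constructor
  · refine (TF.ite (TF.ite (TF.const (T := T) 0) (ha.v.sub hb.v) ha.zero) hf0.v hP).congr
      fun i x => ?_
    by_cases hp : P i x
    · rw [if_pos hp]
      obtain ⟨h3, h4⟩ := h1 i x hp
      by_cases h5 : a i x = 0
      · rw [if_pos h5]
        rw [h5] at h4
        rw [(mul_eq_zero.1 h4).resolve_left h3, (R i).v_zero]; rfl
      · rw [if_neg h5]
        have h6 : f i x ≠ 0 := by
          intro h0; rw [h0, mul_zero] at h4; exact h5 h4.symm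
        rw [← h4, (R i).v_mul h3 h6]; push_cast; ring
    · rw [if_neg hp, h2 i x hp]
  · refine (TK.ite (ha.ac.comp2 hb.ac fun _ a b => a / b) hf0.ac hP).congr fun i x => ?_
    by_cases hp : P i x
    · rw [if_pos hp]
      obtain ⟨h3, h4⟩ := h1 i x hp
      rw [← h4, (R i).ac_mul, mul_div_cancel_left₀ _ ((R i).ac_ne h3)]
    · rw [if_neg hp, h2 i x hp]

/-- all degrees, when the leading coefficient does not vanish on the relevant set -/
theorem eval_lead {n : ℕ} {E : Subring (∀ i, X i → O i)} (hE : TameAlg R T E)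
    {z c : ∀ i, X i → O i} {G : Polynomial (∀ i, X i → O i)} {P : ∀ i, X i → Prop}
    (hG : PC E G) (hGn : G.natDegree ≤ n + 1) (hc : c ∈ E) (hP : TP T P)
    (hout : ∀ i x, ¬ P i x → z i x = c i x)
    (hin : ∀ i x, P i x → (G.map (pt i x)).eval (z i x) = 0 ∧ G.coeff (n + 1) i x ≠ 0)
    (hsmall : ∀ F, PC E F → F.natDegree ≤ n → TRV R T (F.eval z)) :
    ∀ (N : ℕ) (F : Polynomial (∀ i, X i → O i)), PC E F → F.natDegree ≤ N →
      TRV R T (F.eval z) := by
  intro N
  induction N with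
  | zero => intro F hF hN; exact hsmall F hF (by omega)
  | succ N ih =>
    intro F hF hN
    by_cases hNn : N + 1 ≤ n
    · exact hsmall F hF (by omega)
    push Not at hNn
    set F2 : Polynomial (∀ i, X i → O i) := Polynomial.C (G.coeff (n + 1)) * F -
      Polynomial.C (F.coeff (N + 1)) * (Polynomial.X ^ (N - n) * G) with hF2
    have hF2' : PC E F2 := by
      refine ((PC.C (hG _)).mul hF).sub ((PC.C (hF _)).mul (PC.mul ?_ hG))
      rw [X_pow_eq_monomial]
      exact PC.monomial _ (one_mem E)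
    have hdeg : F2.natDegree ≤ N := by
      rw [natDegree_le_iff_coeff_eq_zero]
      intro j hj
      rw [hF2, coeff_sub, coeff_C_mul, coeff_C_mul, coeff_X_pow_mul', if_pos (by omega)]
      by_cases hj1 : j = N + 1
      · subst hj1
        have : N + 1 - (N - n) = n + 1 := by omega
        rw [this]; ring
      · rw [coeff_eq_zero_of_natDegree_lt (p := F) (by omega),
          coeff_eq_zero_of_natDegree_lt (p := G) (n := j - (N - n)) (by omega)]
        ring
    have h2 := ih F2 hF2' hdeg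
    refine TRV.quot h2 (hE _ (hG (n + 1))) (hE _ (hF.eval hc)) hP ?_ ?_
    · intro i x hp
      obtain ⟨h3, h4⟩ := hin i x hp
      refine ⟨h4, ?_⟩
      rw [hF2, eval_sub, eval_mul, eval_mul, eval_mul, eval_C, eval_C, Pi.sub_apply,
        Pi.sub_apply, Pi.mul_apply, Pi.mul_apply, Pi.mul_apply, Pi.mul_apply, Pi.mul_apply,
        Pi.mul_apply, eval_pt G, h3, mul_zero, mul_zero, sub_zero]
    · intro i x hp
      rw [eval_pt, eval_pt, hout i x hp]

theorem StT_zero : StT R T 0 := by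
  rintro E hE z ⟨G, c, P, γ, ξ, hG, hn, hc, hP, hγ, hξ, hout, hin⟩ F hF
  have hz : z = c := by
    funext i x
    apply hout
    intro hp
    obtain ⟨_, _, _, _, h5⟩ := hin i x hp
    apply h5
    have : ((R i).redP (Polynomial.taylor (c i x) (G.map (pt i x))) (γ i x)).natDegree ≤ 0 := by
      apply HDVR.redP_natDegree_le
      rw [natDegree_taylor]
      exact natDegree_pt_le hn i x
    rw [eq_C_of_natDegree_le_zero this, derivative_C, eval_zero]
  rw [hz]
  exact hE _ (hF.eval hc)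

theorem StT_succ {n : ℕ} (hT : StT R T n) (hCD : StCD R T n) : StT R T (n + 1) := by
  classical
  rintro E hE z ⟨G, c, P, γ, ξ, hG, hn, hc, hP, hγ, hξ, hout, hin⟩ F hF
  have hl : TRV R T (G.coeff (n + 1)) := hE _ (hG _)
  -- the part where the leading coefficient vanishes
  let G0 := G - monomial (n + 1) (G.coeff (n + 1))
  have hG0c : ∀ j, G0.coeff j = if j = n + 1 then 0 else G.coeff j := by
    intro j
    show (G - monomial (n + 1) (G.coeff (n + 1))).coeff j = _
    rw [coeff_sub, coeff_monomial]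
    by_cases hj : j = n + 1
    · subst hj; simp
    · rw [if_neg (Ne.symm hj), if_neg hj, sub_zero]
  let z0 : ∀ i, X i → O i := fun i x => if P i x ∧ G.coeff (n + 1) i x = 0 then z i x else c i x
  have hz0 : HR R T E n z0 := by
    refine ⟨G0, c, fun i x => P i x ∧ G.coeff (n + 1) i x = 0, γ, ξ, hG.sub (PC.monomial _ (hG _)),
      ?_, hc, TP.and _ _ hP hl.zero, hγ, hξ, ?_, ?_⟩
    · rw [natDegree_le_iff_coeff_eq_zero]
      intro j hj
      rw [hG0c]
      by_cases hj1 : j = n + 1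
      · rw [if_pos hj1]
      · rw [if_neg hj1, coeff_eq_zero_of_natDegree_lt]; omega
    · intro i x hp
      show (if P i x ∧ G.coeff (n + 1) i x = 0 then z i x else c i x) = _
      rw [if_neg hp]
    · intro i x hp
      have h1 : z0 i x = z i x := if_pos hp
      have h2 : G0.map (pt i x) = G.map (pt i x) := by
        ext j
        rw [coeff_map, coeff_map, hG0c]
        by_cases hj : j = n + 1
        · rw [if_pos hj, map_zero, hj, pt_apply]; exact hp.2.symm
        · rw [if_neg hj]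
      rw [h1, h2]
      exact hin i x hp.1
  -- the part where it does not vanish
  let z1 : ∀ i, X i → O i := fun i x =>
    if P i x ∧ ¬ (G.coeff (n + 1) i x = 0) then z i x else c i x
  have hP1 : TP T (fun i x => P i x ∧ ¬ (G.coeff (n + 1) i x = 0)) :=
    TP.and _ _ hP (TP.not _ hl.zero)
  have hout1 : ∀ i x, ¬ (P i x ∧ ¬ (G.coeff (n + 1) i x = 0)) → z1 i x = c i x := by
    intro i x hp
    show (if P i x ∧ ¬ (G.coeff (n + 1) i x = 0) then z i x else c i x) = _
    rw [if_neg hp]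
  have hin1 : ∀ i x, (P i x ∧ ¬ (G.coeff (n + 1) i x = 0)) → z1 i x = z i x := by
    intro i x hp
    show (if P i x ∧ ¬ (G.coeff (n + 1) i x = 0) then z i x else c i x) = _
    rw [if_pos hp]
  have hz1 : HR R T E (n + 1) z1 := by
    refine ⟨G, c, fun i x => P i x ∧ ¬ (G.coeff (n + 1) i x = 0), γ, ξ, hG, hn, hc, hP1,
      hγ, hξ, hout1, ?_⟩
    intro i x hp
    rw [hin1 i x hp]
    exact hin i x hp.1
  have e1 : TRV R T (F.eval z1) := by
    refine eval_lead hE hG hn hc hP1 hout1 ?_ ?_ F.natDegree F hF le_rfl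
    · intro i x hp
      rw [hin1 i x hp]
      exact ⟨(hin i x hp.1).1, hp.2⟩
    · intro F' hF' hn'
      exact eval_small hCD hE hz1 hF' hn'
  have e0 : TRV R T (F.eval z0) := hT E hE z0 hz0 F hF
  -- combine
  refine TRV.piecewise (κ := Bool) (V := fun b => if b then F.eval z0 else F.eval z1)
    (fun b => by cases b; exacts [e1, e0])
    (Q := fun b => if b then fun i x => P i x ∧ G.coeff (n + 1) i x = 0 else
      fun i x => ¬ (P i x ∧ G.coeff (n + 1) i x = 0))
    (fun b => by cases b; exacts [TP.not _ (TP.and _ _ hP hl.zero), TP.and _ _ hP hl.zero])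
    ?_ ?_
  · intro i x
    by_cases h : P i x ∧ G.coeff (n + 1) i x = 0
    · exact ⟨true, h⟩
    · exact ⟨false, h⟩
  · intro b i x hq
    cases b
    · have hq' : ¬ (P i x ∧ G.coeff (n + 1) i x = 0) := hq
      show F.eval z i x = F.eval z1 i x
      rw [eval_pt, eval_pt]
      congr 1
      by_cases hp : P i x
      · exact (hin1 i x ⟨hp, fun h => hq' ⟨hp, h⟩⟩).symm
      · rw [hout i x hp, hout1 i x (fun h => hp h.1)]
    · have hq' : P i x ∧ G.coeff (n + 1) i x = 0 := hq
      show F.eval z i x = F.eval z0 i x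
      rw [eval_pt, eval_pt]
      congr 1
      exact (if_pos hq').symm

end

end Pool.Agent.Lib.H70.Top
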