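import Pool.Agent.Lib.H70.Top.Cells2

/-!
# Cell decomposition: finitely many tame centres
-/

namespace Pool.Agent.Lib.H70.Top

open Polynomial
open scoped BigOperators

section

variable {ι : Type*} {O k : ι → Type*} [∀ i, CommRing (O i)] [∀ i, IsDomain (O i)]
  [∀ i, Field (k i)] {R : ∀ i, HDVR (O i) (k i)} {X : ι → Type*} {B : Type*} {T : Coord X k B}

theorem zero_tame {E : Subring (∀ i, X i → O i)} (hE : TameAlg R T E)
    {F : Polynomial (∀ i, X i → O i)} (hF : PC E F) : TP T (fun i x => F.map (pt i x) = 0) := by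
  have : TP T (fun i x => ∀ j : Fin (F.natDegree + 1), F.coeff j i x = 0) :=
    TP.all fun j => (coeff_trv hE hF j).zero
  refine this.congr fun i x => ?_
  constructor
  · intro h j
    have := congrArg (fun P => Polynomial.coeff P (j : ℕ)) h
    simpa only [coeff_map, pt_apply, coeff_zero] using this
  · intro h
    ext j
    rw [coeff_map, pt_apply, coeff_zero]
    by_cases hj : j < F.natDegree + 1
    · exact h ⟨j, hj⟩
    · rw [coeff_eq_zero_of_natDegree_lt (by omega)]; rfl

theorem TF.toNat {f : ∀ i, X i → ℤ} (hf : TF T f) : TF T (fun i x => ((f i x).toNat : ℤ)) := by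
  classical
  refine (TF.ite hf (TF.const (T := T) 0) hf.nonneg).congr fun i x => ?_
  split_ifs with h
  · exact Int.toNat_of_nonneg h
  · rw [Int.toNat_of_nonpos (by omega)]; rfl

open Classical in
/-- enumeration of the roots of a polynomial -/
noncomputable def rootNo {K : Type*} [Field K] (e : ℕ) (H : K[X]) : K :=
  H.roots.toFinset.toList.getD e 0

theorem exists_rootNo {K : Type*} [Field K] {H : K[X]} {n : ℕ} (hH : H ≠ 0)
    (hn : H.natDegree ≤ n) {ξ : K} (hξ : H.eval ξ = 0) : ∃ e < n, rootNo e H = ξ := by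
  classical
  have hmem : ξ ∈ H.roots.toFinset.toList := by
    rw [Finset.mem_toList, Multiset.mem_toFinset, mem_roots hH]; exact hξ
  obtain ⟨e, he, hee⟩ := List.mem_iff_getElem.1 hmem
  refine ⟨e, ?_, ?_⟩
  · rw [Finset.length_toList] at he
    exact lt_of_lt_of_le he ((Multiset.toFinset_card_le _).trans ((card_roots' H).trans hn))
  · rw [rootNo, List.getD_eq_getElem _ _ he]; exact hee

/-- multiplicity of `y` with respect to the centre `c` -/
noncomputable def mult (R : ∀ i, HDVR (O i) (k i)) (F : Polynomial (∀ i, X i → O i))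
    (c : ∀ i, X i → O i) (i : ι) (x : X i) (y : O i) : ℕ :=
  ((R i).redP (Polynomial.taylor (c i x) (F.map (pt i x)))
    ((R i).v (y - c i x))).rootMultiplicity ((R i).ac (y - c i x))

theorem adj_all {n : ℕ} (hT : StT R T n) {E : Subring (∀ i, X i → O i)} (hE : TameAlg R T E)
    {α : Type*} (s : Finset α) (z : α → ∀ i, X i → O i) (hz : ∀ a, HR R T E n (z a)) :
    ∃ E' : Subring (∀ i, X i → O i), E ≤ E' ∧ TameAlg R T E' ∧ ∀ a ∈ s, z a ∈ E' := by
  classical
  induction s using Finset.induction_on with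
  | empty => exact ⟨E, le_rfl, hE, fun a ha => absurd ha (Finset.notMem_empty a)⟩
  | insert a s _ ih =>
    obtain ⟨E1, h1, h2, h3⟩ := ih
    refine ⟨adj E1 (z a), h1.trans (le_adj _ _), hT.adj_tame h2 ((hz a).mono h1), ?_⟩
    intro b hb
    rcases Finset.mem_insert.1 hb with rfl | hb
    · exact mem_adj_self _ _
    · exact le_adj _ _ (h3 b hb)

/-- all the Hensel roots near the centre `c`. -/
theorem roots_lemma {n : ℕ} (hT : StT R T n)
    (hn : ∀ (i : ι) (j : ℕ), 1 ≤ j → j ≤ n → (j : k i) ≠ 0)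
    {E : Subring (∀ i, X i → O i)} (hE : TameAlg R T E) {F : Polynomial (∀ i, X i → O i)}
    (hF : PC E F) (hFn : F.natDegree ≤ n) {c : ∀ i, X i → O i} (hc : c ∈ E) :
    ∃ E' : Subring (∀ i, X i → O i), E ≤ E' ∧ TameAlg R T E' ∧
      ∃ Z : Finset (∀ i, X i → O i), (∀ z ∈ Z, z ∈ E') ∧
        ∀ (i : ι) (x : X i) (y : O i), F.map (pt i x) ≠ 0 → y ≠ c i x → 1 ≤ mult R F c i x y →
          ∃ z ∈ Z, (R i).v (z i x - c i x) = (R i).v (y - c i x) ∧
            (R i).ac (z i x - c i x) = (R i).ac (y - c i x) ∧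
            (Polynomial.hasseDeriv (mult R F c i x y - 1) (F.map (pt i x))).eval (z i x) = 0 := by
  classical
  let g := Polynomial.taylor c F
  have hg : PC E g := hF.taylor hc
  have hgn : g.natDegree ≤ n := by
    show (Polynomial.taylor c F).natDegree ≤ n
    rw [natDegree_taylor]; exact hFn
  have hgpt : ∀ i x, g.map (pt i x) = Polynomial.taylor (c i x) (F.map (pt i x)) := fun i x =>
    taylor_pt F c i x
  let α := Fin (n + 1) × Fin (n + 1) × Fin n × Fin n
  -- radius
  let γ : α → ∀ i, X i → ℕ := fun a i x =>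
    ((((R i).v (g.coeff a.1 i x) : ℤ) - ((R i).v (g.coeff a.2.1 i x) : ℤ)) /
      ((max 1 ((a.2.1 : ℕ) - (a.1 : ℕ)) : ℕ) : ℤ)).toNat
  have hγ : ∀ a, TF T (fun i x => ((γ a i x : ℕ) : ℤ)) := fun a =>
    TF.toNat (((coeff_trv hE hg _).v.sub (coeff_trv hE hg _).v).div _ (by omega))
  let ξ : α → ∀ i, X i → k i := fun a i x =>
    rootNo (a.2.2.1 : ℕ) ((R i).redP (g.map (pt i x)) (γ a i x))
  have hξ : ∀ a, TK T (ξ a) := fun a =>
    redP_fun hE hg hgn (hγ a) (TK.const (T := T) fun i => (0 : k i))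
      (fun i H _ => rootNo (a.2.2.1 : ℕ) H)
  let P : α → ∀ i, X i → Prop := fun a i x => (¬ (F.map (pt i x) = 0) ∧ ξ a i x ≠ 0) ∧
    ((R i).redP (g.map (pt i x)) (γ a i x)).rootMultiplicity (ξ a i x) = (a.2.2.2 : ℕ) + 1
  have hP : ∀ a, TP T (P a) := fun a =>
    TP.and _ _ (TP.and _ _ (TP.not _ (zero_tame hE hF)) ((hξ a).arb1 fun i b => b ≠ 0))
      (redP_arb hE hg hgn (hγ a) (hξ a)
        (fun i H b => H.rootMultiplicity b = (a.2.2.2 : ℕ) + 1))
  have hex : ∀ a i x, P a i x → ∃ z : O i, (R i).v (z - c i x) = γ a i x ∧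
      (R i).ac (z - c i x) = ξ a i x ∧
      (Polynomial.hasseDeriv (a.2.2.2 : ℕ) (F.map (pt i x))).eval z = 0 ∧
      ((R i).redP (Polynomial.taylor (c i x) (Polynomial.hasseDeriv (a.2.2.2 : ℕ)
        (F.map (pt i x)))) (γ a i x)).derivative.eval (ξ a i x) ≠ 0 := by
    intro a i x hp
    have h := HDVR.exists_root' (R := R i) (hn i) (natDegree_pt_le hFn i x) hp.1.1 (c := c i x)
      (γ := γ a i x) (ξ := ξ a i x) hp.1.2 (ν := (a.2.2.2 : ℕ) + 1) (by omega)
      (by rw [← hgpt]; exact hp.2)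
    simpa using h
  choose! zc hzc using hex
  let z : α → ∀ i, X i → O i := fun a i x => if P a i x then zc a i x else c i x
  have hz : ∀ a, HR R T E n (z a) := by
    intro a
    refine ⟨Polynomial.hasseDeriv (a.2.2.2 : ℕ) F, c, P a, γ a, ξ a, hF.hasseDeriv _,
      (natDegree_hasseDeriv_le _ _).trans (by omega), hc, hP a, hγ a, hξ a, ?_, ?_⟩
    · intro i x hp
      show (if P a i x then zc a i x else c i x) = _
      rw [if_neg hp]
    · intro i x hp
      have h1 : z a i x = zc a i x := if_pos hp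
      obtain ⟨h2, h3, h4, h5⟩ := hzc a i x hp
      rw [h1, hasseDeriv_pt]
      exact ⟨h4, h2, h3, hp.1.2, h5⟩
  obtain ⟨E', h1, h2, h3⟩ := adj_all hT hE Finset.univ z hz
  refine ⟨E', h1, h2, Finset.univ.image z, ?_, ?_⟩
  · intro w hw
    obtain ⟨a, ha, rfl⟩ := Finset.mem_image.1 hw
    exact h3 a ha
  · intro i x y hF0 hy hm
    set γ0 := (R i).v (y - c i x) with hγ0
    set ξ0 := (R i).ac (y - c i x) with hξ0
    have hξne : ξ0 ≠ 0 := (R i).ac_ne (sub_ne_zero.2 hy)
    have hgne : g.map (pt i x) ≠ 0 := by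
      rw [hgpt, Ne, taylor_eq_zero]; exact hF0
    have hredne := HDVR.redP_ne_zero (R := R i) hgne γ0
    have hmult : ((R i).redP (g.map (pt i x)) γ0).rootMultiplicity ξ0 = mult R F c i x y := by
      rw [mult, hgpt]
    have hroot : ((R i).redP (g.map (pt i x)) γ0).eval ξ0 = 0 := by
      have : 0 < ((R i).redP (g.map (pt i x)) γ0).rootMultiplicity ξ0 := by
        rw [hmult]; omega
      exact (rootMultiplicity_pos hredne).1 this
    obtain ⟨j, j', hjj, hj', hact, hact'⟩ := HDVR.two_act hξne hgne hroot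
    have hgd := natDegree_pt_le hgn i x
    obtain ⟨e, he, hee⟩ := exists_rootNo hredne (HDVR.redP_natDegree_le hgd γ0) hroot
    have hmn : mult R F c i x y ≤ n := by
      rw [← hmult]
      exact (HDVR.mult_le_natDegree hredne ξ0).trans (HDVR.redP_natDegree_le hgd γ0)
    let a : α := (⟨j, by omega⟩, ⟨j', by omega⟩, ⟨e, he⟩, ⟨mult R F c i x y - 1, by omega⟩)
    have hγa : γ a i x = γ0 := by
      show ((((R i).v (g.coeff j i x) : ℤ) - ((R i).v (g.coeff j' i x) : ℤ)) /
        ((max 1 (j' - j) : ℕ) : ℤ)).toNat = γ0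
      have h4 := hact.2 j' hact'.1
      have h5 := hact'.2 j hact.1
      simp only [coeff_map, pt_apply] at h4 h5
      have h6 : ((max 1 (j' - j) : ℕ) : ℤ) = (j' : ℤ) - j := by omega
      have h7 : ((R i).v (g.coeff j i x) : ℤ) - ((R i).v (g.coeff j' i x) : ℤ) =
          (γ0 : ℤ) * ((j' : ℤ) - j) := by
        have h8 : ((R i).v (g.coeff j i x) : ℤ) + γ0 * j =
            ((R i).v (g.coeff j' i x) : ℤ) + γ0 * j' := by
          exact_mod_cast le_antisymm h4 h5
        linear_combination h8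
      rw [h6, h7, Int.mul_ediv_cancel _ (by omega)]
      exact Int.toNat_natCast γ0
    have hξa : ξ a i x = ξ0 := by
      show rootNo e ((R i).redP (g.map (pt i x)) (γ a i x)) = ξ0
      rw [hγa]; exact hee
    have hPa : P a i x := by
      refine ⟨⟨hF0, by rw [hξa]; exact hξne⟩, ?_⟩
      rw [hγa, hξa, hmult]
      show mult R F c i x y = mult R F c i x y - 1 + 1
      omega
    refine ⟨z a, Finset.mem_image_of_mem _ (Finset.mem_univ _), ?_⟩
    have h1' : z a i x = zc a i x := if_pos hPa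
    obtain ⟨h2', h3', h4', h5'⟩ := hzc a i x hPa
    rw [h1']
    exact ⟨by rw [h2', hγa], by rw [h3', hξa], h4'⟩

/-- finitely many centres catch all points irregular at `c` of multiplicity at most `ν` -/
theorem claim {n : ℕ} (hT : StT R T n)
    (hn : ∀ (i : ι) (j : ℕ), 1 ≤ j → j ≤ n → (j : k i) ≠ 0)
    {F : Polynomial (∀ i, X i → O i)} (hFn : F.natDegree ≤ n) (ν : ℕ) :
    ∀ (E : Subring (∀ i, X i → O i)), TameAlg R T E → PC E F → ∀ c ∈ E,
    ∃ E' : Subring (∀ i, X i → O i), E ≤ E' ∧ TameAlg R T E' ∧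
      ∃ C : Finset (∀ i, X i → O i), (∀ c ∈ C, c ∈ E') ∧
        ∀ (i : ι) (x : X i) (y : O i), F.map (pt i x) ≠ 0 → y ≠ c i x →
          1 ≤ mult R F c i x y → mult R F c i x y ≤ ν →
          ∃ c' ∈ C, (R i).Reg (F.map (pt i x)) (c' i x) y := by
  classical
  induction ν with
  | zero =>
    intro E hE hF c hc
    exact ⟨E, le_rfl, hE, ∅, fun c hc => absurd hc (Finset.notMem_empty c),
      fun i x y _ _ h1 h2 => by omega⟩
  | succ ν ih =>
    intro E hE hF c hc
    obtain ⟨E1, h1, h2, Z, hZ, hroots⟩ := roots_lemma hT hn hE hF hFn hc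
    -- iterate the induction hypothesis over Z
    have hiter : ∀ s : Finset (∀ i, X i → O i), s ⊆ Z →
        ∃ E' : Subring (∀ i, X i → O i), E1 ≤ E' ∧ TameAlg R T E' ∧
          ∃ C : Finset (∀ i, X i → O i), (∀ c ∈ C, c ∈ E') ∧
            ∀ z ∈ s, ∀ (i : ι) (x : X i) (y : O i), F.map (pt i x) ≠ 0 → y ≠ z i x →
              1 ≤ mult R F z i x y → mult R F z i x y ≤ ν →
              ∃ c' ∈ C, (R i).Reg (F.map (pt i x)) (c' i x) y := by
      intro s
      induction s using Finset.induction_on with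
      | empty =>
        intro _
        exact ⟨E1, le_rfl, h2, ∅, fun c hc => absurd hc (Finset.notMem_empty c),
          fun z hz => absurd hz (Finset.notMem_empty z)⟩
      | insert z s _ ihs =>
        intro hs
        obtain ⟨E2, h3, h4, C, hC, hC2⟩ := ihs ((Finset.subset_insert _ _).trans hs)
        obtain ⟨E3, h5, h6, C', hC', hC2'⟩ := ih E2 h4 (hF.mono (h1.trans h3)) z
          (h3 (hZ z (hs (Finset.mem_insert_self _ _))))
        refine ⟨E3, h3.trans h5, h6, C ∪ C', ?_, ?_⟩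
        · intro c hc
          rcases Finset.mem_union.1 hc with hc | hc
          · exact h5 (hC c hc)
          · exact hC' c hc
        · intro w hw i x y hF0 hy hm1 hm2
          rcases Finset.mem_insert.1 hw with rfl | hw
          · obtain ⟨c', hc', hreg⟩ := hC2' i x y hF0 hy hm1 hm2
            exact ⟨c', Finset.mem_union_right _ hc', hreg⟩
          · obtain ⟨c', hc', hreg⟩ := hC2 w hw i x y hF0 hy hm1 hm2
            exact ⟨c', Finset.mem_union_left _ hc', hreg⟩
    obtain ⟨E', h3, h4, C, hC, hC2⟩ := hiter Z le_rfl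
    refine ⟨E', h1.trans h3, h4, C ∪ Z, ?_, ?_⟩
    · intro c hc
      rcases Finset.mem_union.1 hc with hc | hc
      · exact hC c hc
      · exact h3 (hZ c hc)
    · intro i x y hF0 hy hm1 hm2
      obtain ⟨z, hz, hz1, hz2, hz3⟩ := hroots i x y hF0 hy hm1
      by_cases hyz : y = z i x
      · exact ⟨z, Finset.mem_union_right _ hz, Or.inr (Or.inl hyz)⟩
      have hlt : mult R F z i x y < mult R F c i x y :=
        HDVR.descend' (hn i) (natDegree_pt_le hFn i x) hF0 hy hm1 rfl hz1 hz2 hz3 hyz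
      by_cases h0 : mult R F z i x y = 0
      · refine ⟨z, Finset.mem_union_right _ hz, Or.inr (Or.inr ?_)⟩
        intro hroot
        have hne : (R i).redP (Polynomial.taylor (z i x) (F.map (pt i x)))
            ((R i).v (y - z i x)) ≠ 0 :=
          HDVR.redP_ne_zero (by rwa [Ne, taylor_eq_zero]) _
        have := (rootMultiplicity_pos hne).2 hroot
        rw [mult] at h0
        omega
      · obtain ⟨c', hc', hreg⟩ := hC2 z hz i x y hF0 hyz (by omega) (by omega)
        exact ⟨c', Finset.mem_union_left _ hc', hreg⟩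

theorem StCD_of {n : ℕ} (hT : StT R T n)
    (hn : ∀ (i : ι) (j : ℕ), 1 ≤ j → j ≤ n → (j : k i) ≠ 0) : StCD R T n := by
  classical
  intro E hE F hF hFn
  obtain ⟨E', h1, h2, C, hC, hC2⟩ := claim hT hn hFn n E hE hF 0 (zero_mem E)
  refine ⟨E', h1, h2, insert 0 C, ?_, ?_⟩
  · intro c hc
    rcases Finset.mem_insert.1 hc with rfl | hc
    · exact zero_mem E'
    · exact hC c hc
  · intro i x y
    by_cases hF0 : F.map (pt i x) = 0
    · exact ⟨0, Finset.mem_insert_self _ _, Or.inl hF0⟩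
    by_cases hy : y = (0 : ∀ i, X i → O i) i x
    · exact ⟨0, Finset.mem_insert_self _ _, Or.inr (Or.inl hy)⟩
    have hne : (R i).redP (Polynomial.taylor ((0 : ∀ i, X i → O i) i x) (F.map (pt i x)))
        ((R i).v (y - (0 : ∀ i, X i → O i) i x)) ≠ 0 :=
      HDVR.redP_ne_zero (by rwa [Ne, taylor_eq_zero]) _
    by_cases h0 : mult R F 0 i x y = 0
    · refine ⟨0, Finset.mem_insert_self _ _, Or.inr (Or.inr ?_)⟩
      intro hroot
      have := (rootMultiplicity_pos hne).2 hroot
      rw [mult] at h0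
      omega
    · obtain ⟨c', hc', hreg⟩ := hC2 i x y hF0 hy (by omega) (by
        rw [mult]
        refine (HDVR.mult_le_natDegree hne _).trans (HDVR.redP_natDegree_le ?_ _)
        rw [natDegree_taylor]
        exact natDegree_pt_le hFn i x)
      exact ⟨c', Finset.mem_insert_of_mem hc', hreg⟩

theorem StT_all {n : ℕ} (hn : ∀ (i : ι) (j : ℕ), 1 ≤ j → j ≤ n → (j : k i) ≠ 0) :
    StT R T n := by
  induction n with
  | zero => exact StT_zero
  | succ n ih =>
    have hT := ih fun i j h1 h2 => hn i j h1 (by omega)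
    exact StT_succ hT (StCD_of hT fun i j h1 h2 => hn i j h1 (by omega))

theorem StCD_all {n : ℕ} (hn : ∀ (i : ι) (j : ℕ), 1 ≤ j → j ≤ n → (j : k i) ≠ 0) :
    StCD R T n := StCD_of (StT_all hn) hn

end

section

variable {ι : Type} {O k : ι → Type} [∀ i, CommRing (O i)] [∀ i, IsDomain (O i)]
  [∀ i, Field (k i)] (R : ∀ i, HDVR (O i) (k i)) {X : ι → Type} {B : Type} (T : Coord X k B)

theorem cells (E : Subring (∀ i, X i → O i)) (hE : TameAlg R T E) (n : ℕ)
    (hn : ∀ (i : ι) (j : ℕ), 1 ≤ j → j ≤ n → (j : k i) ≠ 0) {r : ℕ}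
    (P : Fin r → Polynomial (∀ i, X i → O i)) (hP : ∀ l j, (P l).coeff j ∈ E)
    (hd : ∀ l, (P l).natDegree ≤ n) :
    ∃ E' : Subring (∀ i, X i → O i), E ≤ E' ∧ TameAlg R T E' ∧
      ∃ C : Finset (∀ i, X i → O i), 0 ∈ C ∧ (∀ c ∈ C, c ∈ E') ∧
        ∀ (i : ι) (x : X i) (y : O i) (l : Fin r), ∃ c ∈ C,
          (R i).Reg ((P l).map (pt i x)) (c i x) y := by
  classical
  have hCD : StCD R T n := StCD_all hn
  have hiter : ∀ s : Finset (Fin r), ∃ E' : Subring (∀ i, X i → O i), E ≤ E' ∧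
      TameAlg R T E' ∧ ∃ C : Finset (∀ i, X i → O i), (∀ c ∈ C, c ∈ E') ∧
        ∀ (i : ι) (x : X i) (y : O i), ∀ l ∈ s, ∃ c ∈ C,
          (R i).Reg ((P l).map (pt i x)) (c i x) y := by
    intro s
    induction s using Finset.induction_on with
    | empty =>
      exact ⟨E, le_rfl, hE, ∅, fun c hc => absurd hc (Finset.notMem_empty c),
        fun i x y l hl => absurd hl (Finset.notMem_empty l)⟩
    | insert l s _ ih =>
      obtain ⟨E1, h1, h2, C, hC, hC2⟩ := ih
      obtain ⟨E2, h3, h4, C', hC', hC2'⟩ := hCD E1 h2 (P l) (fun j => h1 (hP l j)) (hd l)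
      refine ⟨E2, h1.trans h3, h4, C ∪ C', ?_, ?_⟩
      · intro c hc
        rcases Finset.mem_union.1 hc with hc | hc
        · exact h3 (hC c hc)
        · exact hC' c hc
      · intro i x y l' hl'
        rcases Finset.mem_insert.1 hl' with rfl | hl'
        · obtain ⟨c', hc', hreg⟩ := hC2' i x y
          exact ⟨c', Finset.mem_union_right _ hc', hreg⟩
        · obtain ⟨c', hc', hreg⟩ := hC2 i x y l' hl'
          exact ⟨c', Finset.mem_union_left _ hc', hreg⟩
  obtain ⟨E', h1, h2, C, hC, hC2⟩ := hiter Finset.univ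
  refine ⟨E', h1, h2, insert 0 C, Finset.mem_insert_self _ _, ?_, ?_⟩
  · intro c hc
    rcases Finset.mem_insert.1 hc with rfl | hc
    · exact zero_mem E'
    · exact hC c hc
  · intro i x y l
    obtain ⟨c, hc, hreg⟩ := hC2 i x y l (Finset.mem_univ l)
    exact ⟨c, Finset.mem_insert_of_mem hc, hreg⟩

end

end Pool.Agent.Lib.H70.Top
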