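import Pool.Agent.Lib.H70.Top.Semi

/-!
# Tame predicates and functions

Points of a family `Ω i` have integer coordinates `u b i x` and residual coordinates
`w b i x : k i` (`b : B`).  Tame predicates are Boolean combinations of semilinear conditions on
finitely many integer coordinates and arbitrary conditions on finitely many residual
coordinates.
-/

namespace Pool.Agent.Lib.H70.Top

open Set

/-- coordinates on a family of spaces -/
structure Coord {ι : Type*} (Ω : ι → Type*) (k : ι → Type*) (B : Type*) where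
  /-- integer coordinates -/
  u : B → ∀ i, Ω i → ℤ
  /-- residual coordinates -/
  w : B → ∀ i, Ω i → k i

variable {ι : Type*} {Ω : ι → Type*} {k : ι → Type*} {B : Type*}

/-- tame predicates -/
inductive TP (T : Coord Ω k B) : (∀ i, Ω i → Prop) → Prop
  | semi (S : Finset B) (A : Set (S → ℤ)) (hA : IsSemilinearSet A) :
      TP T (fun i x => (fun s : S => T.u s i x) ∈ A)
  | arb (S : Finset B) (ρ : ∀ i, (S → k i) → Prop) :
      TP T (fun i x => ρ i (fun s : S => T.w s i x))
  | and (P Q : ∀ i, Ω i → Prop) (hP : TP T P) (hQ : TP T Q) : TP T (fun i x => P i x ∧ Q i x)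
  | not (P : ∀ i, Ω i → Prop) (hP : TP T P) : TP T (fun i x => ¬ P i x)

variable {T : Coord Ω k B}

theorem TP.congr {P Q : ∀ i, Ω i → Prop} (hP : TP T P) (h : ∀ i x, Q i x ↔ P i x) : TP T Q := by
  have : Q = P := by funext i x; exact propext (h i x)
  rw [this]; exact hP

theorem TP.or {P Q : ∀ i, Ω i → Prop} (hP : TP T P) (hQ : TP T Q) :
    TP T (fun i x => P i x ∨ Q i x) :=
  (TP.not _ (TP.and _ _ (TP.not _ hP) (TP.not _ hQ))).congr fun i x => by tauto

theorem TP.imp {P Q : ∀ i, Ω i → Prop} (hP : TP T P) (hQ : TP T Q) :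
    TP T (fun i x => P i x → Q i x) :=
  (TP.or (TP.not _ hP) hQ).congr fun i x => by tauto

theorem TP.true : TP T (fun _ _ => True) :=
  (TP.arb (T := T) ∅ (fun _ _ => True)).congr fun _ _ => Iff.rfl

theorem TP.false : TP T (fun _ _ => False) :=
  (TP.arb (T := T) ∅ (fun _ _ => False)).congr fun _ _ => Iff.rfl

theorem TP.const (p : ∀ _ : ι, Prop) : TP T (fun i _ => p i) :=
  (TP.arb (T := T) ∅ (fun i _ => p i)).congr fun _ _ => Iff.rfl

theorem TP.exFinset {κ : Type*} (s : Finset κ) {P : κ → ∀ i, Ω i → Prop}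
    (hP : ∀ c, TP T (P c)) : TP T (fun i x => ∃ c ∈ s, P c i x) := by
  classical
  induction s using Finset.induction_on with
  | empty => exact TP.false.congr fun i x => by simp
  | insert a s _ ih =>
    refine ((hP a).or ih).congr fun i x => ?_
    constructor
    · rintro ⟨c, hc, hc2⟩
      rcases Finset.mem_insert.1 hc with rfl | hc
      · exact Or.inl hc2
      · exact Or.inr ⟨c, hc, hc2⟩
    · rintro (h | ⟨c, hc, hc2⟩)
      · exact ⟨a, Finset.mem_insert_self _ _, h⟩
      · exact ⟨c, Finset.mem_insert_of_mem hc, hc2⟩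

theorem TP.ex {κ : Type*} [Finite κ] {P : κ → ∀ i, Ω i → Prop}
    (hP : ∀ c, TP T (P c)) : TP T (fun i x => ∃ c, P c i x) := by
  have := Fintype.ofFinite κ
  refine (TP.exFinset Finset.univ hP).congr fun i x => by simp

theorem TP.all {κ : Type*} [Finite κ] {P : κ → ∀ i, Ω i → Prop}
    (hP : ∀ c, TP T (P c)) : TP T (fun i x => ∀ c, P c i x) :=
  (TP.not _ (TP.ex fun c => TP.not _ (hP c))).congr fun i x => by
    constructor
    · intro h ⟨c, hc⟩; exact hc (h c)
    · intro h c; by_contra hc; exact h ⟨c, hc⟩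

/-- tame integer valued functions -/
def TF (T : Coord Ω k B) (f : ∀ i, Ω i → ℤ) : Prop :=
  ∃ (κ : Type) (_ : Finite κ) (P : κ → ∀ i, Ω i → Prop) (S : Finset B)
    (l : κ → (S → ℤ) → ℤ), (∀ c, TP T (P c)) ∧ (∀ c, SemiFun (l c)) ∧ (∀ i x, ∃ c, P c i x) ∧
      ∀ c i x, P c i x → f i x = l c (fun s => T.u s i x)

/-- tame residual functions -/
def TK (T : Coord Ω k B) (f : ∀ i, Ω i → k i) : Prop :=
  ∃ (κ : Type) (_ : Finite κ) (P : κ → ∀ i, Ω i → Prop) (S : Finset B)
    (l : κ → ∀ i, (S → k i) → k i), (∀ c, TP T (P c)) ∧ (∀ i x, ∃ c, P c i x) ∧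
      ∀ c i x, P c i x → f i x = l c i (fun s => T.w s i x)

theorem TF.coord (b : B) : TF T (T.u b) := by
  classical
  refine ⟨Unit, inferInstance, fun _ _ _ => True, {b}, fun _ γ => γ ⟨b, by simp⟩,
    fun _ => TP.true, fun _ => SemiFun.eval _, fun _ _ => ⟨(), trivial⟩, fun _ _ _ _ => rfl⟩

theorem TF.const (a : ℤ) : TF T (fun _ _ => a) := by
  refine ⟨Unit, inferInstance, fun _ _ _ => True, ∅, fun _ _ => a,
    fun _ => TP.true, fun _ => SemiFun.const _, fun _ _ => ⟨(), trivial⟩, fun _ _ _ _ => rfl⟩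

theorem TK.coord (b : B) : TK T (T.w b) := by
  classical
  refine ⟨Unit, inferInstance, fun _ _ _ => True, {b}, fun _ _ γ => γ ⟨b, by simp⟩,
    fun _ => TP.true, fun _ _ => ⟨(), trivial⟩, fun _ _ _ _ => rfl⟩

theorem TK.const (a : ∀ i, k i) : TK T (fun i _ => a i) := by
  refine ⟨Unit, inferInstance, fun _ _ _ => True, ∅, fun _ i _ => a i,
    fun _ => TP.true, fun _ _ => ⟨(), trivial⟩, fun _ _ _ _ => rfl⟩

/-- finite families of tame functions over common pieces -/
theorem TF.family {J : Type} [Finite J] {f : J → ∀ i, Ω i → ℤ} (hf : ∀ j, TF T (f j)) :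
    ∃ (κ : Type) (_ : Finite κ) (P : κ → ∀ i, Ω i → Prop) (S : Finset B)
    (l : κ → J → (S → ℤ) → ℤ), (∀ c, TP T (P c)) ∧ (∀ c j, SemiFun (l c j)) ∧
      (∀ i x, ∃ c, P c i x) ∧
      ∀ c i x, P c i x → ∀ j, f j i x = l c j (fun s => T.u s i x) := by
  classical
  have := Fintype.ofFinite J
  choose κ hκ P S l h1 h2 h3 h4 using hf
  have hsub : ∀ j, S j ⊆ Finset.univ.biUnion S := fun j =>
    Finset.subset_biUnion_of_mem S (Finset.mem_univ j)
  refine ⟨∀ j, κ j, inferInstance, fun c i x => ∀ j, P j (c j) i x, Finset.univ.biUnion S,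
    fun c j γ => l j (c j) (fun s => γ ⟨s, hsub j s.2⟩), ?_, ?_, ?_, ?_⟩
  · intro c; exact TP.all fun j => h1 j (c j)
  · intro c j
    refine (h2 j (c j)).comp (φ := fun (γ : ↥(Finset.univ.biUnion S) → ℤ) =>
      (fun s : S j => γ ⟨s, hsub j s.2⟩)) ?_
    exact SemiFun.pi fun s => SemiFun.eval _
  · intro i x
    choose c hc using fun j => h3 j i x
    exact ⟨c, hc⟩
  · intro c i x hc j
    exact h4 j (c j) i x (hc j)

theorem TK.family {J : Type} [Finite J] {f : J → ∀ i, Ω i → k i} (hf : ∀ j, TK T (f j)) :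
    ∃ (κ : Type) (_ : Finite κ) (P : κ → ∀ i, Ω i → Prop) (S : Finset B)
    (l : κ → J → ∀ i, (S → k i) → k i), (∀ c, TP T (P c)) ∧
      (∀ i x, ∃ c, P c i x) ∧
      ∀ c i x, P c i x → ∀ j, f j i x = l c j i (fun s => T.w s i x) := by
  classical
  have := Fintype.ofFinite J
  choose κ hκ P S l h1 h3 h4 using hf
  have hsub : ∀ j, S j ⊆ Finset.univ.biUnion S := fun j =>
    Finset.subset_biUnion_of_mem S (Finset.mem_univ j)
  refine ⟨∀ j, κ j, inferInstance, fun c i x => ∀ j, P j (c j) i x, Finset.univ.biUnion S,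
    fun c j i γ => l j (c j) i (fun s => γ ⟨s, hsub j s.2⟩), ?_, ?_, ?_⟩
  · intro c; exact TP.all fun j => h1 j (c j)
  · intro i x
    choose c hc using fun j => h3 j i x
    exact ⟨c, hc⟩
  · intro c i x hc j
    exact h4 j (c j) i x (hc j)

/-- semilinear functions of tame functions -/
theorem TF.comp {J : Type} [Finite J] {f : J → ∀ i, Ω i → ℤ} (hf : ∀ j, TF T (f j))
    {φ : (J → ℤ) → ℤ} (hφ : SemiFun φ) : TF T (fun i x => φ (fun j => f j i x)) := by
  obtain ⟨κ, hκ, P, S, l, h1, h2, h3, h4⟩ := TF.family hf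
  refine ⟨κ, hκ, P, S, fun c γ => φ (fun j => l c j γ), h1, fun c => ?_, h3, ?_⟩
  · exact SemiFun.compPi (h2 c) hφ
  · intro c i x hc
    show φ (fun j => f j i x) = φ _
    congr 1
    funext j
    exact h4 c i x hc j

/-- semilinear conditions on tame functions -/
theorem TF.mem {J : Type} [Finite J] {f : J → ∀ i, Ω i → ℤ} (hf : ∀ j, TF T (f j))
    {A : Set (J → ℤ)} (hA : IsSemilinearSet A) : TP T (fun i x => (fun j => f j i x) ∈ A) := by
  obtain ⟨κ, hκ, P, S, l, h1, h2, h3, h4⟩ := TF.family hf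
  refine (TP.ex (κ := κ) (P := fun c i x => P c i x ∧
    (fun s : S => T.u s i x) ∈ {γ : S → ℤ | (fun j => l c j γ) ∈ A}) fun c =>
    TP.and _ _ (h1 c) (TP.semi S _ ((SemiFun.pi (h2 c)).preimage hA))).congr fun i x => ?_
  constructor
  · intro h
    obtain ⟨c, hc⟩ := h3 i x
    refine ⟨c, hc, ?_⟩
    show (fun j => l c j (fun s : S => T.u s i x)) ∈ A
    have : (fun j => l c j (fun s : S => T.u s i x)) = fun j => f j i x := by
      funext j; exact (h4 c i x hc j).symm
    rw [this]; exact h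
  · rintro ⟨c, hc, h⟩
    have h' : (fun j => l c j (fun s : S => T.u s i x)) ∈ A := h
    have : (fun j => f j i x) = (fun j => l c j (fun s : S => T.u s i x)) := by
      funext j; exact h4 c i x hc j
    rw [this]; exact h'

theorem TK.comp {J : Type} [Finite J] {f : J → ∀ i, Ω i → k i} (hf : ∀ j, TK T (f j))
    (φ : ∀ i, (J → k i) → k i) : TK T (fun i x => φ i (fun j => f j i x)) := by
  obtain ⟨κ, hκ, P, S, l, h1, h3, h4⟩ := TK.family hf
  refine ⟨κ, hκ, P, S, fun c i γ => φ i (fun j => l c j i γ), h1, h3, ?_⟩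
  intro c i x hc
  show φ i (fun j => f j i x) = φ i _
  congr 1
  funext j
  exact h4 c i x hc j

theorem TK.arb {J : Type} [Finite J] {f : J → ∀ i, Ω i → k i} (hf : ∀ j, TK T (f j))
    (ρ : ∀ i, (J → k i) → Prop) : TP T (fun i x => ρ i (fun j => f j i x)) := by
  obtain ⟨κ, hκ, P, S, l, h1, h3, h4⟩ := TK.family hf
  refine (TP.ex (κ := κ) (P := fun c i x => P c i x ∧
    ρ i (fun j => l c j i (fun s : S => T.w s i x))) fun c =>
    TP.and _ _ (h1 c) (TP.arb S (fun i γ => ρ i (fun j => l c j i γ)))).congr fun i x => ?_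
  constructor
  · intro h
    obtain ⟨c, hc⟩ := h3 i x
    refine ⟨c, hc, ?_⟩
    have : (fun j => l c j i (fun s : S => T.w s i x)) = fun j => f j i x := by
      funext j; exact (h4 c i x hc j).symm
    rw [this]; exact h
  · rintro ⟨c, hc, h⟩
    have : (fun j => f j i x) = (fun j => l c j i (fun s : S => T.w s i x)) := by
      funext j; exact h4 c i x hc j
    rw [this]; exact h

open Classical in
theorem TF.ite {f g : ∀ i, Ω i → ℤ} (hf : TF T f) (hg : TF T g) {Q : ∀ i, Ω i → Prop}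
    (hQ : TP T Q) : TF T (fun i x => if Q i x then f i x else g i x) := by
  obtain ⟨κ, hκ, P, S, l, h1, h2, h3, h4⟩ := TF.family (J := Bool)
    (f := fun b => if b then f else g) (fun b => by cases b; exacts [hg, hf])
  refine ⟨κ × Bool, inferInstance, fun c i x => P c.1 i x ∧ (Q i x ↔ c.2 = true), S,
    fun c γ => l c.1 c.2 γ, ?_, ?_, ?_, ?_⟩
  · rintro ⟨c, b⟩
    cases b
    · exact TP.and _ _ (h1 c) ((TP.not _ hQ).congr fun i x => by simp)
    · exact TP.and _ _ (h1 c) (hQ.congr fun i x => by simp)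
  · rintro ⟨c, b⟩; exact h2 c b
  · intro i x
    obtain ⟨c, hc⟩ := h3 i x
    by_cases hq : Q i x
    · exact ⟨(c, true), hc, by simp [hq]⟩
    · exact ⟨(c, false), hc, by simp [hq]⟩
  · rintro ⟨c, b⟩ i x ⟨hc, hq⟩
    cases b
    · have hq' : ¬ Q i x := by simpa using hq
      have := h4 c i x hc false
      simp only [Bool.false_eq_true, if_false] at this
      show (if Q i x then f i x else g i x) = _
      rw [if_neg hq', this]
    · have hq' : Q i x := by simpa using hq
      have := h4 c i x hc true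
      simp only [if_true] at this
      show (if Q i x then f i x else g i x) = _
      rw [if_pos hq', this]

open Classical in
theorem TK.ite {f g : ∀ i, Ω i → k i} (hf : TK T f) (hg : TK T g) {Q : ∀ i, Ω i → Prop}
    (hQ : TP T Q) : TK T (fun i x => if Q i x then f i x else g i x) := by
  obtain ⟨κ, hκ, P, S, l, h1, h3, h4⟩ := TK.family (J := Bool)
    (f := fun b => if b then f else g) (fun b => by cases b; exacts [hg, hf])
  refine ⟨κ × Bool, inferInstance, fun c i x => P c.1 i x ∧ (Q i x ↔ c.2 = true), S,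
    fun c i γ => l c.1 c.2 i γ, ?_, ?_, ?_⟩
  · rintro ⟨c, b⟩
    cases b
    · exact TP.and _ _ (h1 c) ((TP.not _ hQ).congr fun i x => by simp)
    · exact TP.and _ _ (h1 c) (hQ.congr fun i x => by simp)
  · intro i x
    obtain ⟨c, hc⟩ := h3 i x
    by_cases hq : Q i x
    · exact ⟨(c, true), hc, by simp [hq]⟩
    · exact ⟨(c, false), hc, by simp [hq]⟩
  · rintro ⟨c, b⟩ i x ⟨hc, hq⟩
    cases b
    · have hq' : ¬ Q i x := by simpa using hq
      have := h4 c i x hc false
      simp only [Bool.false_eq_true, if_false] at this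
      show (if Q i x then f i x else g i x) = _
      rw [if_neg hq', this]
    · have hq' : Q i x := by simpa using hq
      have := h4 c i x hc true
      simp only [if_true] at this
      show (if Q i x then f i x else g i x) = _
      rw [if_pos hq', this]

/-! ### derived closure properties -/

theorem TF.comp1 {f : ∀ i, Ω i → ℤ} (hf : TF T f) {φ : ℤ → ℤ} (hφ : SemiFun φ) :
    TF T (fun i x => φ (f i x)) :=
  TF.comp (J := Unit) (f := fun _ => f) (fun _ => hf) (φ := fun γ => φ (γ ()))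
    (hφ.comp (SemiFun.eval ()))

theorem TF.comp2 {f g : ∀ i, Ω i → ℤ} (hf : TF T f) (hg : TF T g) {φ : ℤ × ℤ → ℤ}
    (hφ : SemiFun φ) : TF T (fun i x => φ (f i x, g i x)) := by
  have h := TF.comp (J := Bool) (f := fun b => if b then f else g)
    (fun b => by cases b; exacts [hg, hf]) (φ := fun γ => φ (γ true, γ false))
    (hφ.comp ((SemiFun.eval true).prod (SemiFun.eval false)))
  simpa using h

theorem TF.add {f g : ∀ i, Ω i → ℤ} (hf : TF T f) (hg : TF T g) :
    TF T (fun i x => f i x + g i x) :=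
  hf.comp2 hg (SemiFun.hom (AddMonoidHom.fst ℤ ℤ + AddMonoidHom.snd ℤ ℤ))

theorem TF.sub {f g : ∀ i, Ω i → ℤ} (hf : TF T f) (hg : TF T g) :
    TF T (fun i x => f i x - g i x) :=
  hf.comp2 hg (SemiFun.hom (AddMonoidHom.fst ℤ ℤ - AddMonoidHom.snd ℤ ℤ))

theorem TF.mul_const {f : ∀ i, Ω i → ℤ} (hf : TF T f) (a : ℤ) :
    TF T (fun i x => f i x * a) :=
  hf.comp1 (SemiFun.hom (AddMonoidHom.mulRight a))

theorem TF.div {f : ∀ i, Ω i → ℤ} (hf : TF T f) (d : ℕ) (hd : 0 < d) :
    TF T (fun i x => f i x / (d : ℤ)) :=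
  hf.comp1 ((SemiFun.hom (AddMonoidHom.id ℤ)).div d hd)

theorem TF.nonneg {f : ∀ i, Ω i → ℤ} (hf : TF T f) : TP T (fun i x => 0 ≤ f i x) :=
  TF.mem (J := Unit) (f := fun _ => f) (fun _ => hf) (A := {γ | 0 ≤ γ ()})
    ((SemiFun.eval ()).preimage isSemilinearSet_nonneg)

theorem TF.le {f g : ∀ i, Ω i → ℤ} (hf : TF T f) (hg : TF T g) :
    TP T (fun i x => f i x ≤ g i x) :=
  (hg.sub hf).nonneg.congr fun i x => by rw [sub_nonneg]

theorem TF.lt {f g : ∀ i, Ω i → ℤ} (hf : TF T f) (hg : TF T g) :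
    TP T (fun i x => f i x < g i x) :=
  (TP.not _ (hg.le hf)).congr fun i x => by rw [not_le]

theorem TF.eq {f g : ∀ i, Ω i → ℤ} (hf : TF T f) (hg : TF T g) :
    TP T (fun i x => f i x = g i x) :=
  (TP.and _ _ (hf.le hg) (hg.le hf)).congr fun i x => by rw [le_antisymm_iff]

theorem TK.comp1 {f : ∀ i, Ω i → k i} (hf : TK T f) (φ : ∀ i, k i → k i) :
    TK T (fun i x => φ i (f i x)) :=
  TK.comp (J := Unit) (f := fun _ => f) (fun _ => hf) (fun i γ => φ i (γ ()))

theorem TK.comp2 {f g : ∀ i, Ω i → k i} (hf : TK T f) (hg : TK T g) (φ : ∀ i, k i → k i → k i) :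
    TK T (fun i x => φ i (f i x) (g i x)) := by
  have h := TK.comp (J := Bool) (f := fun b => if b then f else g)
    (fun b => by cases b; exacts [hg, hf]) (fun i γ => φ i (γ true) (γ false))
  simpa using h

theorem TK.arb1 {f : ∀ i, Ω i → k i} (hf : TK T f) (ρ : ∀ i, k i → Prop) :
    TP T (fun i x => ρ i (f i x)) :=
  TK.arb (J := Unit) (f := fun _ => f) (fun _ => hf) (fun i γ => ρ i (γ ()))

theorem TK.arb2 {f g : ∀ i, Ω i → k i} (hf : TK T f) (hg : TK T g) (ρ : ∀ i, k i → k i → Prop) :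
    TP T (fun i x => ρ i (f i x) (g i x)) := by
  have h := TK.arb (J := Bool) (f := fun b => if b then f else g)
    (fun b => by cases b; exacts [hg, hf]) (fun i γ => ρ i (γ true) (γ false))
  simpa using h

theorem TK.eq {f g : ∀ i, Ω i → k i} (hf : TK T f) (hg : TK T g) :
    TP T (fun i x => f i x = g i x) := hf.arb2 hg fun _ a b => a = b

theorem TF.congr {f g : ∀ i, Ω i → ℤ} (hf : TF T f) (h : ∀ i x, g i x = f i x) : TF T g := by
  have : g = f := by funext i x; exact h i x
  rw [this]; exact hf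

theorem TK.congr {f g : ∀ i, Ω i → k i} (hf : TK T f) (h : ∀ i x, g i x = f i x) : TK T g := by
  have : g = f := by funext i x; exact h i x
  rw [this]; exact hf

end Pool.Agent.Lib.H70.Top
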