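import Pool.Agent.Lib.H70.Top.Core2
import Pool.Agent.Lib.H70.Top.Tame

/-!
# Tame algebras of functions: definitions
-/

namespace Pool.Agent.Lib.H70.Top

open Polynomial
open scoped BigOperators

section

variable {ι : Type*} {O k : ι → Type*} [∀ i, CommRing (O i)] [∀ i, IsDomain (O i)]
  [∀ i, Field (k i)] (R : ∀ i, HDVR (O i) (k i)) {X : ι → Type*} {B : Type*} (T : Coord X k B)

/-- a function is tame if its leading term is -/
def TRV (g : ∀ i, X i → O i) : Prop :=
  TF T (fun i x => ((R i).v (g i x) : ℤ)) ∧ TK T (fun i x => (R i).ac (g i x))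

/-- an algebra of tame functions -/
def TameAlg (E : Subring (∀ i, X i → O i)) : Prop := ∀ g ∈ E, TRV R T g

/-- evaluation of functions at a point -/
def pt (i : ι) (x : X i) : (∀ i, X i → O i) →+* O i :=
  (Pi.evalRingHom (fun _ : X i => O i) x).comp (Pi.evalRingHom (fun i => X i → O i) i)

omit [∀ i, IsDomain (O i)] in
@[simp] theorem pt_apply (i : ι) (x : X i) (g : ∀ i, X i → O i) : pt i x g = g i x := rfl

/-- The space `X × ℤ^J × k^J` with its coordinates. -/
def Coord.ext {X : ι → Type*} {k : ι → Type*} {B : Type*} (T : Coord X k B) (J : Type) :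
    Coord (fun i => X i × (J → ℤ) × (J → k i)) k (B ⊕ J) where
  u b i x := Sum.elim (fun b => T.u b i x.1) (fun j => x.2.1 j) b
  w b i x := Sum.elim (fun b => T.w b i x.1) (fun j => x.2.2 j) b

/-- coordinates on `O^m` given by the leading terms of polynomials over `ℤ` -/
noncomputable def polyCoord (m : ℕ) :
    Coord (fun i => Fin m → O i) k (MvPolynomial (Fin m) ℤ) where
  u P i x := ((R i).v (MvPolynomial.aeval x P) : ℤ)
  w P i x := (R i).ac (MvPolynomial.aeval x P)

end

end Pool.Agent.Lib.H70.Top
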