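import Pool.Agent.Lib.H70.Top.Val

/-!
# Reduction of polynomials on discs; Hensel roots; multiplicities
-/

namespace Pool.Agent.Lib.H70.Top

open scoped BigOperators
open Polynomial

namespace HDVR

variable {O k : Type*} [CommRing O] [IsDomain O] [Field k] (R : HDVR O k)

/-- `g(π^γ T) = π^m H(T)` with `H` nonzero mod `π`. -/
def IsRed (g : O[X]) (γ m : ℕ) (H : O[X]) : Prop :=
  (∀ j, R.π ^ (γ * j) * g.coeff j = R.π ^ m * H.coeff j) ∧ H.map R.res ≠ 0

/-- the indices of minimal valuation on the circle of radius `γ`. -/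
def Act (g : O[X]) (γ j : ℕ) : Prop :=
  g.coeff j ≠ 0 ∧ ∀ i, g.coeff i ≠ 0 → R.v (g.coeff j) + γ * j ≤ R.v (g.coeff i) + γ * i

variable {R}

theorem v_pi_mul {a : ℕ} {x : O} (hx : x ≠ 0) : R.v (R.π ^ a * x) = a + R.v x := by
  rw [R.v_mul (R.pi_pow_ne a) hx, R.v_pi_pow]

theorem ac_pi_mul {a : ℕ} {x : O} : R.ac (R.π ^ a * x) = R.ac x := by
  rw [R.ac_mul, R.ac_pow, R.ac_pi, one_pow, one_mul]

theorem isRed_exists {g : O[X]} (hg : g ≠ 0) (γ : ℕ) : ∃ m H, R.IsRed g γ m H := by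
  classical
  obtain ⟨j0, hj0, hmin⟩ := Finset.exists_min_image g.support
    (fun j => R.v (g.coeff j) + γ * j) (by
      rw [Finset.nonempty_iff_ne_empty]; simpa [Polynomial.support_eq_empty] using hg)
  have hdvd : ∀ j, R.π ^ (R.v (g.coeff j0) + γ * j0) ∣ R.π ^ (γ * j) * g.coeff j := by
    intro j
    by_cases hj : g.coeff j = 0
    · simp [hj]
    · rw [R.dvd_iff (mul_ne_zero (R.pi_pow_ne _) hj), v_pi_mul hj]
      have := hmin j (by simpa using hj)
      omega
  choose h hh using hdvd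
  refine ⟨R.v (g.coeff j0) + γ * j0, ∑ j ∈ g.support, monomial j (h j), ?_, ?_⟩
  · intro j
    rw [finsetSum_coeff]
    simp only [coeff_monomial]
    rw [Finset.sum_ite_eq']
    split_ifs with hj
    · exact hh j
    · have : g.coeff j = 0 := by simpa using hj
      simp [this]
  · intro hz
    have hc : (∑ j ∈ g.support, monomial j (h j)).coeff j0 = h j0 := by
      rw [finsetSum_coeff]
      simp only [coeff_monomial]
      rw [Finset.sum_ite_eq', if_pos hj0]
    have h1 : R.res (h j0) = 0 := by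
      rw [← hc, ← coeff_map, hz, coeff_zero]
    have hj0' : g.coeff j0 ≠ 0 := by simpa using hj0
    have h2 := R.res_scaled (hh j0)
    rw [h1, v_pi_mul hj0', if_pos (by omega), ac_pi_mul] at h2
    exact R.ac_ne hj0' h2.symm

variable {g : O[X]} {γ m : ℕ} {H : O[X]}

theorem IsRed.comp (h : R.IsRed g γ m H) : g.comp (C (R.π ^ γ) * X) = C (R.π ^ m) * H := by
  ext j
  rw [comp_C_mul_X_coeff, coeff_C_mul, ← h.1 j, pow_mul]
  ring

theorem IsRed.eval (h : R.IsRed g γ m H) (t : O) :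
    g.eval (R.π ^ γ * t) = R.π ^ m * H.eval t := by
  have := congrArg (fun P => Polynomial.eval t P) h.comp
  simpa [eval_comp] using this

theorem IsRed.ne_zero (h : R.IsRed g γ m H) : g ≠ 0 := by
  rintro rfl
  apply h.2
  ext j
  have := h.1 j
  rw [coeff_zero, mul_zero] at this
  rcases mul_eq_zero.1 this.symm with h1 | h1
  · exact absurd h1 (R.pi_pow_ne m)
  · rw [coeff_map, h1, map_zero, coeff_zero]

theorem IsRed.coeff_ne (h : R.IsRed g γ m H) {j : ℕ} (hj : R.res (H.coeff j) ≠ 0) :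
    g.coeff j ≠ 0 ∧ R.v (g.coeff j) + γ * j = m ∧ R.ac (g.coeff j) = R.res (H.coeff j) := by
  obtain ⟨h1, h2, h3⟩ := R.rv_of_res_ne (h.1 j) hj
  have hg : g.coeff j ≠ 0 := by
    intro h0; rw [h0, mul_zero] at h1; exact h1 rfl
  rw [v_pi_mul hg] at h2
  rw [ac_pi_mul] at h3
  exact ⟨hg, by omega, h3⟩

theorem IsRed.le (h : R.IsRed g γ m H) {j : ℕ} (hj : g.coeff j ≠ 0) :
    m ≤ R.v (g.coeff j) + γ * j := by
  have : R.π ^ m ∣ R.π ^ (γ * j) * g.coeff j := ⟨_, h.1 j⟩
  rw [R.dvd_iff (mul_ne_zero (R.pi_pow_ne _) hj), v_pi_mul hj] at this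
  omega

theorem IsRed.exists_coeff (h : R.IsRed g γ m H) : ∃ j, R.res (H.coeff j) ≠ 0 := by
  by_contra hcon
  push Not at hcon
  apply h.2
  ext j
  rw [coeff_map, hcon j, coeff_zero]

theorem IsRed.act_iff (h : R.IsRed g γ m H) (j : ℕ) :
    R.Act g γ j ↔ g.coeff j ≠ 0 ∧ R.v (g.coeff j) + γ * j = m := by
  obtain ⟨j0, hj0⟩ := h.exists_coeff
  obtain ⟨h1, h2, _⟩ := h.coeff_ne hj0
  constructor
  · rintro ⟨ha, hb⟩
    refine ⟨ha, ?_⟩
    have := hb j0 h1
    have := h.le ha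
    omega
  · rintro ⟨ha, hb⟩
    refine ⟨ha, fun i hi => ?_⟩
    have := h.le hi
    omega

open Classical in
theorem IsRed.coeff_res (h : R.IsRed g γ m H) (j : ℕ) :
    R.res (H.coeff j) = if R.Act g γ j then R.ac (g.coeff j) else 0 := by
  rw [R.res_scaled (h.1 j)]
  by_cases hj : g.coeff j = 0
  · simp [hj, Act]
  · rw [v_pi_mul hj, ac_pi_mul]
    have := h.act_iff j
    by_cases ha : R.Act g γ j
    · rw [if_pos ha, if_pos]
      have := (this.1 ha).2; omega
    · rw [if_neg ha, if_neg]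
      intro hc
      exact ha (this.2 ⟨hj, by omega⟩)

/-- uniqueness of the reduction (residues) -/
theorem IsRed.unique {m' : ℕ} {H' : O[X]} (h : R.IsRed g γ m H) (h' : R.IsRed g γ m' H') :
    m = m' ∧ H.map R.res = H'.map R.res := by
  obtain ⟨j0, hj0⟩ := h.exists_coeff
  obtain ⟨h1, h2, _⟩ := h.coeff_ne hj0
  obtain ⟨j1, hj1⟩ := h'.exists_coeff
  obtain ⟨h3, h4, _⟩ := h'.coeff_ne hj1
  have := h.le h3
  have := h'.le h1
  refine ⟨by omega, ?_⟩
  ext j
  rw [coeff_map, coeff_map, h.coeff_res, h'.coeff_res]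

theorem IsRed.eval_rv (h : R.IsRed g γ m H) {t : O}
    (ht : (H.map R.res).eval (R.res t) ≠ 0) :
    g.eval (R.π ^ γ * t) ≠ 0 ∧ R.v (g.eval (R.π ^ γ * t)) = m ∧
      R.ac (g.eval (R.π ^ γ * t)) = (H.map R.res).eval (R.res t) := by
  have he : (H.map R.res).eval (R.res t) = R.res (H.eval t) := by
    rw [eval_map, eval₂_at_apply]
  rw [he] at ht ⊢
  exact R.rv_of_res_ne (h.eval t) ht

/-- changing the centre inside the disc of radius `γ` -/
theorem IsRed.shift {F : O[X]} {c : O} (h : R.IsRed (taylor c F) γ m H) (t : O) :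
    R.IsRed (taylor (c + R.π ^ γ * t) F) γ m (taylor t H) := by
  have hc : (taylor (c + R.π ^ γ * t) F).comp (C (R.π ^ γ) * X) =
      C (R.π ^ m) * taylor t H := by
    have h1 : (taylor (c + R.π ^ γ * t) F).comp (C (R.π ^ γ) * X) =
        ((taylor c F).comp (C (R.π ^ γ) * X)).comp (X + C t) := by
      rw [taylor_apply, taylor_apply, comp_assoc, comp_assoc, comp_assoc]
      congr 1
      simp only [add_comp, mul_comp, C_comp, X_comp, map_add, map_mul]
      ring
    rw [h1, h.comp, mul_comp, C_comp, taylor_apply]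
  refine ⟨fun j => ?_, ?_⟩
  · have := congrArg (fun P => Polynomial.coeff P j) hc
    simp only [comp_C_mul_X_coeff, coeff_C_mul] at this
    rw [← this, pow_mul]; ring
  · rw [map_taylor]
    intro h0
    exact h.2 ((taylor_eq_zero _ _).1 h0)

/-- going to a smaller disc around a centre of exact order `ν` -/
theorem IsRed.zoom {γ' m' ν : ℕ} {H' : O[X]} (h : R.IsRed g γ m H) (h' : R.IsRed g γ' m' H')
    (hγ : γ < γ') (hν : R.res (H.coeff ν) ≠ 0) {j : ℕ} (hj : ν < j) :
    R.res (H'.coeff j) = 0 := by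
  classical
  rw [h'.coeff_res, if_neg]
  rintro ⟨ha, hb⟩
  obtain ⟨h1, h2, _⟩ := h.coeff_ne hν
  have h3 := hb ν h1
  have h4 := h.le ha
  have h5 : γ' * j = γ * j + (γ' - γ) * j := by
    rw [← Nat.add_mul]; congr 1; omega
  have h6 : γ' * ν = γ * ν + (γ' - γ) * ν := by
    rw [← Nat.add_mul]; congr 1; omega
  have h7 : (γ' - γ) * ν < (γ' - γ) * j := Nat.mul_lt_mul_of_pos_left hj (by omega)
  omega

theorem mult_le_natDegree {P : k[X]} (hP : P ≠ 0) (ξ : k) :
    P.rootMultiplicity ξ ≤ P.natDegree := by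
  have h := natDegree_le_of_dvd (pow_rootMultiplicity_dvd P ξ) hP
  rwa [(monic_X_sub_C ξ).natDegree_pow, natDegree_X_sub_C, mul_one] at h

theorem mult_lt {P : k[X]} {ν : ℕ} {ξ : k} (hP : P ≠ 0) (hdeg : P.natDegree ≤ ν) (hν : 1 ≤ ν)
    (hν' : (ν : k) ≠ 0) (hξ : ξ ≠ 0) (hc : P.coeff (ν - 1) = 0) : P.rootMultiplicity ξ < ν := by
  by_contra hcon
  push Not at hcon
  have hd : (X - C ξ) ^ ν ∣ P := (pow_dvd_pow _ hcon).trans (pow_rootMultiplicity_dvd _ _)
  obtain ⟨Q, hQ⟩ := hd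
  have hQ0 : Q ≠ 0 := by rintro rfl; exact hP (by rw [hQ, mul_zero])
  have hmon : ((X - C ξ) ^ ν).Monic := (monic_X_sub_C ξ).pow ν
  have hdeg2 : P.natDegree = ν + Q.natDegree := by
    rw [hQ, hmon.natDegree_mul' hQ0, (monic_X_sub_C ξ).natDegree_pow, natDegree_X_sub_C, mul_one]
  have hQd : Q.natDegree = 0 := by omega
  obtain ⟨a, ha⟩ := natDegree_eq_zero.1 hQd
  rw [← ha] at hQ hQ0
  have ha0 : a ≠ 0 := by rintro rfl; exact hQ0 (by simp)
  have hnd : ((X - C ξ) ^ ν).natDegree = ν := by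
    rw [(monic_X_sub_C ξ).natDegree_pow, natDegree_X_sub_C, mul_one]
  have hnc : ((X - C ξ) ^ ν).coeff (ν - 1) = ν • (-ξ) := by
    rw [← nextCoeff_X_sub_C, ← (monic_X_sub_C ξ).nextCoeff_pow, nextCoeff_of_natDegree_pos
      (by rw [hnd]; omega), hnd]
  rw [hQ, coeff_mul_C, hnc, nsmul_eq_mul] at hc
  rcases mul_eq_zero.1 hc with h3 | h3
  · rcases mul_eq_zero.1 h3 with h4 | h4
    · exact hν' h4
    · exact hξ (neg_eq_zero.1 h4)
  · exact ha0 h3

/-- coefficients of the expansion around a root -/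
theorem taylor_coeff_of_mult {P : k[X]} (hP : P ≠ 0) (ξ : k) :
    (∀ j, j < P.rootMultiplicity ξ → (taylor ξ P).coeff j = 0) ∧
      (taylor ξ P).coeff (P.rootMultiplicity ξ) ≠ 0 := by
  obtain ⟨Q, hQ, hnd⟩ := exists_eq_pow_rootMultiplicity_mul_and_not_dvd P hP ξ
  set ν := P.rootMultiplicity ξ with hν
  have ht : taylor ξ P = X ^ ν * taylor ξ Q := by
    conv_lhs => rw [hQ]
    rw [taylor_mul, taylor_pow]
    congr 2
    rw [map_sub, taylor_X, taylor_C]; ring
  constructor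
  · intro j hj
    rw [ht, coeff_X_pow_mul', if_neg (by omega)]
  · rw [ht, coeff_X_pow_mul', if_pos le_rfl, Nat.sub_self, taylor_coeff_zero]
    intro h0
    exact hnd (dvd_iff_isRoot.2 h0)

/-- Descent: `z` is a point of the disc with vanishing Taylor coefficient of order `ν - 1`. -/
theorem descend {F : O[X]} {n : ℕ} (hn : ∀ j : ℕ, 1 ≤ j → j ≤ n → (j : k) ≠ 0)
    (hF : F.natDegree ≤ n) {c y z : O} (hy : y ≠ c)
    (h : R.IsRed (taylor c F) (R.v (y - c)) m H) {ν : ℕ} (hν : 1 ≤ ν)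
    (hmult : (H.map R.res).rootMultiplicity (R.ac (y - c)) = ν)
    (hzv : R.v (z - c) = R.v (y - c)) (hza : R.ac (z - c) = R.ac (y - c))
    (hz : (taylor z F).coeff (ν - 1) = 0) (hyz : y ≠ z) {m' : ℕ} {H' : O[X]}
    (h' : R.IsRed (taylor z F) (R.v (y - z)) m' H') :
    (H'.map R.res).rootMultiplicity (R.ac (y - z)) < ν := by
  set γ := R.v (y - c) with hγ
  have hyc : y - c ≠ 0 := sub_ne_zero.2 hy
  have hzc : z - c ≠ 0 := by
    intro h0
    rw [h0, R.ac_zero] at hza
    exact R.ac_ne hyc hza.symm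
  obtain ⟨t, ht, ht2, _⟩ := R.exists_rep hzc
  rw [hzv] at ht
  have hzt : z = c + R.π ^ γ * t := by rw [← ht]; ring
  have hs := h.shift t
  rw [← hzt] at hs
  have hmap : (taylor t H).map R.res = taylor (R.ac (y - c)) (H.map R.res) := by
    rw [map_taylor, ht2, hza]
  obtain ⟨hlow, htop⟩ := taylor_coeff_of_mult h.2 (R.ac (y - c))
  rw [hmult] at hlow htop
  have hres : R.res ((taylor t H).coeff ν) ≠ 0 := by
    rw [← coeff_map, hmap]; exact htop
  -- radius increases
  have hlt : γ < R.v (y - z) := by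
    have hd := R.dvd_sub_of_rv (x := z - c) (y := y - c) (by rw [hzv, hγ]) (by rw [hza])
    have hyz' : y - z ≠ 0 := sub_ne_zero.2 hyz
    rw [show y - c - (z - c) = y - z by ring, R.dvd_iff hyz', hzv] at hd
    omega
  have hνn : ν ≤ n := by
    have h1 : ν ≤ (H.map R.res).natDegree := by
      rw [← hmult]; exact mult_le_natDegree h.2 _
    refine h1.trans ?_
    rw [natDegree_le_iff_coeff_eq_zero]
    intro j hj
    classical
    rw [coeff_map, h.coeff_res, if_neg]
    rintro ⟨ha, _⟩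
    apply ha
    apply coeff_eq_zero_of_natDegree_lt
    rw [natDegree_taylor]; omega
  have hdeg : (H'.map R.res).natDegree ≤ ν := by
    rw [natDegree_le_iff_coeff_eq_zero]
    intro j hj
    rw [coeff_map]
    exact hs.zoom h' hlt hres hj
  apply mult_lt h'.2 hdeg hν (hn ν hν hνn) (R.ac_ne (sub_ne_zero.2 hyz))
  classical
  rw [coeff_map, h'.coeff_res, if_neg]
  rintro ⟨ha, _⟩
  exact ha hz

/-- Existence of the Hensel root of the derivative of order `ν - 1`. -/
theorem exists_root {F : O[X]} {n : ℕ} (hn : ∀ j : ℕ, 1 ≤ j → j ≤ n → (j : k) ≠ 0)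
    (hF : F.natDegree ≤ n) {c : O} (h : R.IsRed (taylor c F) γ m H) {ξ : k} (hξ : ξ ≠ 0)
    {ν : ℕ} (hν : 1 ≤ ν) (hmult : (H.map R.res).rootMultiplicity ξ = ν) :
    ∃ z, R.v (z - c) = γ ∧ R.ac (z - c) = ξ ∧ (hasseDeriv (ν - 1) F).eval z = 0 ∧
      ∃ m', R.IsRed (taylor c (hasseDeriv (ν - 1) F)) γ m' (hasseDeriv (ν - 1) H) ∧
        ((hasseDeriv (ν - 1) H).map R.res).derivative.eval ξ ≠ 0 := by
  obtain ⟨hlow, htop⟩ := taylor_coeff_of_mult h.2 ξ
  rw [hmult] at hlow htop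
  have hνn : ν ≤ n := by
    have h1 : ν ≤ (H.map R.res).natDegree := by
      rw [← hmult]; exact mult_le_natDegree h.2 _
    refine h1.trans ?_
    rw [natDegree_le_iff_coeff_eq_zero]
    intro j hj
    classical
    rw [coeff_map, h.coeff_res, if_neg]
    rintro ⟨ha, _⟩
    apply ha
    apply coeff_eq_zero_of_natDegree_lt
    rw [natDegree_taylor]; omega
  -- residues of the Hasse derivative
  have hmap : ∀ (i : ℕ) (P : O[X]), (hasseDeriv i P).map R.res = hasseDeriv i (P.map R.res) := by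
    intro i P
    ext j
    rw [coeff_map, hasseDeriv_coeff, hasseDeriv_coeff, map_mul, map_natCast, coeff_map]
  set Hd := hasseDeriv (ν - 1) H with hHd
  have hder : ((Hd.map R.res).derivative).eval ξ ≠ 0 := by
    rw [hHd, hmap]
    have h1 : derivative (hasseDeriv (ν - 1) (H.map R.res)) =
        (ν : k[X]) * hasseDeriv ν (H.map R.res) := by
      have h2 := congrArg (fun L => L (H.map R.res)) (hasseDeriv_comp (R := k) 1 (ν - 1))
      simp only [LinearMap.comp_apply, LinearMap.smul_apply, hasseDeriv_one] at h2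
      rw [h2]
      have h3 : 1 + (ν - 1) = ν := by omega
      rw [h3, Nat.choose_one_right, nsmul_eq_mul]
    rw [h1, eval_mul, ← taylor_coeff, eval_natCast]
    exact mul_ne_zero (hn ν hν hνn) htop
  have hval : (Hd.map R.res).eval ξ = 0 := by
    rw [hHd, hmap, ← taylor_coeff]
    exact hlow _ (by omega)
  obtain ⟨t0, ht0⟩ := R.surj ξ
  obtain ⟨t, ht, htr⟩ := R.hensel Hd t0 (by
    rw [← eval₂_at_apply, ← eval_map, ht0]; exact hval) (by
    rw [← eval₂_at_apply, ← eval_map, ← derivative_map, ht0]; exact hder)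
  rw [ht0] at htr
  have hzc : c + R.π ^ γ * t - c = R.π ^ γ * t := by ring
  have htne : R.res t ≠ 0 := by rw [htr]; exact hξ
  refine ⟨c + R.π ^ γ * t, ?_, ?_, ?_, ?_⟩
  · rw [hzc]; exact R.v_eq htne
  · rw [hzc, R.ac_eq htne, htr]
  · rw [← taylor_coeff]
    have hs := (h.shift t).1 (ν - 1)
    rw [taylor_coeff (f := H), ← hHd, ht, mul_zero] at hs
    exact (mul_eq_zero.1 hs).resolve_left (R.pi_pow_ne _)
  · -- the reduction of the derivative
    have hcoef : ∀ j, R.π ^ (γ * (ν - 1)) *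
        (R.π ^ (γ * j) * (taylor c (hasseDeriv (ν - 1) F)).coeff j) = R.π ^ m * Hd.coeff j := by
      intro j
      have h2 := congrArg (fun L => L F) (hasseDeriv_comp (R := O) j (ν - 1))
      simp only [LinearMap.comp_apply, LinearMap.smul_apply] at h2
      rw [taylor_coeff, h2, hHd, hasseDeriv_coeff, eval_smul, ← taylor_coeff, nsmul_eq_mul]
      have h3 := h.1 (j + (ν - 1))
      have h4 : (j + (ν - 1)).choose j = (j + (ν - 1)).choose (ν - 1) := Nat.choose_symm_add
      rw [mul_add, pow_add] at h3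
      rw [h4]
      linear_combination ((j + (ν - 1)).choose (ν - 1) : O) * h3
    have hne : Hd.map R.res ≠ 0 := by
      intro h0
      rw [h0] at hder
      simp at hder
    obtain ⟨j, hj⟩ : ∃ j, R.res (Hd.coeff j) ≠ 0 := by
      by_contra hcon
      push Not at hcon
      apply hne
      ext j
      rw [coeff_map, hcon j, coeff_zero]
    have hge : γ * (ν - 1) ≤ m := by
      obtain ⟨h1, h2, _⟩ := R.rv_of_res_ne (hcoef j) hj
      have h3 := right_ne_zero_of_mul h1
      rw [v_pi_mul h3] at h2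
      omega
    refine ⟨m - γ * (ν - 1), ⟨fun j => ?_, hne⟩, hder⟩
    have h5 := hcoef j
    rw [show m = γ * (ν - 1) + (m - γ * (ν - 1)) by omega, pow_add, mul_assoc] at h5
    exact mul_left_cancel₀ (R.pi_pow_ne _) h5

end HDVR

end Pool.Agent.Lib.H70.Top
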