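import Pool.Agent.Lib.H70.Top.Core

/-!
# Newton's formula for the distance to a Hensel root
-/

namespace Pool.Agent.Lib.H70.Top

open scoped BigOperators
open Polynomial

namespace HDVR

variable {O k : Type*} [CommRing O] [IsDomain O] [Field k] {R : HDVR O k}

/-- a point of a disc in normal form -/
theorem exists_param {γ : ℕ} {ξ : k} (hξ : ξ ≠ 0) {c z : O} (hv : R.v (z - c) = γ)
    (ha : R.ac (z - c) = ξ) : ∃ t, z = c + R.π ^ γ * t ∧ R.res t = ξ := by
  have hz : z - c ≠ 0 := by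
    intro h0; rw [h0, R.ac_zero] at ha; exact hξ ha.symm
  obtain ⟨t, ht, ht2, _⟩ := R.exists_rep hz
  refine ⟨t, ?_, by rw [ht2, ha]⟩
  rw [← hv, ← ht]; ring

theorem newton {F H : O[X]} {γ m : ℕ} {c z c1 : O} (h : R.IsRed (taylor c F) γ m H) {ξ : k}
    (hξ : ξ ≠ 0) (hz : F.eval z = 0) (hzv : R.v (z - c) = γ) (hza : R.ac (z - c) = ξ)
    (hcv : R.v (c1 - c) = γ) (hca : R.ac (c1 - c) = ξ)
    (hder : (H.map R.res).derivative.eval ξ ≠ 0) :
    F.derivative.eval c1 ≠ 0 ∧ (F.eval c1 = 0 → c1 = z) ∧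
      (F.eval c1 ≠ 0 → c1 - z ≠ 0 ∧
        R.v (F.eval c1) = R.v (c1 - z) + R.v (F.derivative.eval c1) ∧
        R.ac (F.eval c1) = R.ac (c1 - z) * R.ac (F.derivative.eval c1)) := by
  obtain ⟨t, rfl, ht⟩ := exists_param hξ hzv hza
  obtain ⟨s, rfl, hs⟩ := exists_param hξ hcv hca
  have h1 := (h.shift t).1 0
  have h2 := (h.shift s).1 0
  have h3 := (h.shift s).1 1
  rw [taylor_coeff_zero, taylor_coeff_zero, mul_zero, pow_zero, one_mul] at h1 h2
  rw [taylor_coeff_one, taylor_coeff_one, mul_one] at h3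
  rw [hz] at h1
  have hHt : H.eval t = 0 := (mul_eq_zero.1 h1.symm).resolve_left (R.pi_pow_ne m)
  obtain ⟨κ, hκ⟩ := Polynomial.binomExpansion H s (t - s)
  rw [add_sub_cancel, hHt] at hκ
  set Q := H.derivative.eval s + κ * (t - s) with hQ
  have hHs : H.eval s = (s - t) * Q := by rw [hQ]; linear_combination -hκ
  have hres : R.res (H.derivative.eval s) = (H.map R.res).derivative.eval ξ := by
    rw [← hs, derivative_map, eval_map, eval₂_at_apply]
  have hresQ : R.res Q = (H.map R.res).derivative.eval ξ := by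
    rw [hQ, map_add, map_mul, map_sub, ht, hs, sub_self, mul_zero, add_zero, hres]
  have hd : R.res (H.derivative.eval s) ≠ 0 := by rw [hres]; exact hder
  have hQ' : R.res Q ≠ 0 := by rw [hresQ]; exact hder
  obtain ⟨e1, e2, e3⟩ := R.rv_of_res_ne h3 hd
  have hF' := right_ne_zero_of_mul e1
  rw [v_pi_mul hF'] at e2
  rw [ac_pi_mul] at e3
  have hsub : c + R.π ^ γ * s - (c + R.π ^ γ * t) = R.π ^ γ * (s - t) := by ring
  refine ⟨hF', ?_, ?_⟩
  · intro h0
    rw [h2] at h0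
    have h4 := (mul_eq_zero.1 h0).resolve_left (R.pi_pow_ne m)
    rw [hHs] at h4
    have h5 := (mul_eq_zero.1 h4).resolve_right (R.ne_zero_of_res hQ')
    rw [sub_eq_zero.1 h5]
  · intro h0
    rw [h2, hHs] at h0
    have h4 := right_ne_zero_of_mul h0
    have h5 := left_ne_zero_of_mul h4
    rw [h2, hHs, hsub]
    refine ⟨mul_ne_zero (R.pi_pow_ne _) h5, ?_, ?_⟩
    · rw [v_pi_mul h4, R.v_mul h5 (R.ne_zero_of_res hQ'), v_pi_mul h5, R.v_unit hQ']
      omega
    · rw [ac_pi_mul, R.ac_mul, ac_pi_mul, R.ac_unit hQ', hresQ, e3, hres]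

open Classical in
/-- coefficients of the residual polynomial on the circle of radius `γ` around the centre of
the expansion `g` -/
noncomputable def redC (R : HDVR O k) (g : O[X]) (γ j : ℕ) : k :=
  if R.Act g γ j then R.ac (g.coeff j) else 0

/-- residual polynomial of `g` on the circle of radius `γ` -/
noncomputable def redP (R : HDVR O k) (g : O[X]) (γ : ℕ) : k[X] :=
  ∑ j ∈ Finset.range (g.natDegree + 1), monomial j (R.redC g γ j)

theorem redC_of_coeff_eq_zero {g : O[X]} {γ j : ℕ} (h : g.coeff j = 0) : R.redC g γ j = 0 := by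
  rw [redC, if_neg]
  rintro ⟨h1, _⟩
  exact h1 h

theorem redP_coeff (g : O[X]) (γ j : ℕ) : (R.redP g γ).coeff j = R.redC g γ j := by
  rw [redP, finsetSum_coeff]
  simp only [coeff_monomial]
  rw [Finset.sum_ite_eq']
  split_ifs with h
  · rfl
  · rw [redC_of_coeff_eq_zero]
    apply coeff_eq_zero_of_natDegree_lt
    simp only [Finset.mem_range, not_lt] at h
    omega

theorem redP_eq_sum {g : O[X]} {n : ℕ} (hn : g.natDegree ≤ n) (γ : ℕ) :
    R.redP g γ = ∑ j ∈ Finset.range (n + 1), monomial j (R.redC g γ j) := by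
  ext j
  rw [redP_coeff, finsetSum_coeff]
  simp only [coeff_monomial]
  rw [Finset.sum_ite_eq']
  split_ifs with h
  · rfl
  · rw [redC_of_coeff_eq_zero]
    apply coeff_eq_zero_of_natDegree_lt
    simp only [Finset.mem_range, not_lt] at h
    omega

theorem redP_natDegree_le {g : O[X]} {n : ℕ} (hn : g.natDegree ≤ n) (γ : ℕ) :
    (R.redP g γ).natDegree ≤ n := by
  rw [natDegree_le_iff_coeff_eq_zero]
  intro j hj
  rw [redP_coeff, redC_of_coeff_eq_zero]
  apply coeff_eq_zero_of_natDegree_lt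
  omega

theorem IsRed.map_eq {g H : O[X]} {γ m : ℕ} (h : R.IsRed g γ m H) :
    H.map R.res = R.redP g γ := by
  ext j
  rw [coeff_map, h.coeff_res, redP_coeff, redC]

theorem redP_ne_zero {g : O[X]} (hg : g ≠ 0) (γ : ℕ) : R.redP g γ ≠ 0 := by
  obtain ⟨m, H, h⟩ := isRed_exists (R := R) hg γ
  rw [← h.map_eq]; exact h.2

/-- `y` is regular for `F` with respect to the centre `c`. -/
def Reg (R : HDVR O k) (F : O[X]) (c y : O) : Prop :=
  F = 0 ∨ y = c ∨ (R.redP (taylor c F) (R.v (y - c))).eval (R.ac (y - c)) ≠ 0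

/-- value at a regular point -/
theorem reg_value {F : O[X]} {c y : O} (hy : y ≠ c)
    (hr : (R.redP (taylor c F) (R.v (y - c))).eval (R.ac (y - c)) ≠ 0) :
    F.eval y ≠ 0 ∧
      R.ac (F.eval y) = (R.redP (taylor c F) (R.v (y - c))).eval (R.ac (y - c)) ∧
      (∀ j, R.Act (taylor c F) (R.v (y - c)) j →
        R.v (F.eval y) = R.v ((taylor c F).coeff j) + R.v (y - c) * j) ∧
      ∃ j, j ≤ F.natDegree ∧ R.Act (taylor c F) (R.v (y - c)) j := by
  have hF : F ≠ 0 := by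
    rintro rfl
    apply hr
    have : R.redP (taylor c 0) (R.v (y - c)) = 0 := by
      ext j
      rw [redP_coeff, redC_of_coeff_eq_zero (by simp), coeff_zero]
    rw [this, eval_zero]
  obtain ⟨m, H, h⟩ := isRed_exists (R := R) (g := taylor c F)
    (by rwa [Ne, taylor_eq_zero]) (R.v (y - c))
  rw [← h.map_eq] at hr ⊢
  obtain ⟨t, ht, ht2⟩ := exists_param (R := R) (R.ac_ne (sub_ne_zero.2 hy)) rfl rfl
  rw [← ht2] at hr ⊢
  obtain ⟨h1, h2, h3⟩ := h.eval_rv hr
  have he : F.eval y = (taylor c F).eval (R.π ^ (R.v (y - c)) * t) := by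
    rw [taylor_eval]
    congr 1
    conv_lhs => rw [ht]
    ring
  rw [he]
  refine ⟨h1, h3, fun j hj => ?_, ?_⟩
  · rw [h2, ← ((h.act_iff j).1 hj).2]
  · obtain ⟨j, hj⟩ := h.exists_coeff
    obtain ⟨h4, h5, _⟩ := h.coeff_ne hj
    refine ⟨j, ?_, (h.act_iff j).2 ⟨h4, h5⟩⟩
    have := le_natDegree_of_ne_zero h4
    rwa [natDegree_taylor] at this

/-- Descent in terms of `redP`. -/
theorem descend' {F : O[X]} {n : ℕ} (hn : ∀ j : ℕ, 1 ≤ j → j ≤ n → (j : k) ≠ 0)
    (hF : F.natDegree ≤ n) (hF0 : F ≠ 0) {c y z : O} (hy : y ≠ c) {ν : ℕ} (hν : 1 ≤ ν)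
    (hmult : (R.redP (taylor c F) (R.v (y - c))).rootMultiplicity (R.ac (y - c)) = ν)
    (hzv : R.v (z - c) = R.v (y - c)) (hza : R.ac (z - c) = R.ac (y - c))
    (hz : (hasseDeriv (ν - 1) F).eval z = 0) (hyz : y ≠ z) :
    (R.redP (taylor z F) (R.v (y - z))).rootMultiplicity (R.ac (y - z)) < ν := by
  obtain ⟨m, H, h⟩ := isRed_exists (R := R) (g := taylor c F)
    (by rwa [Ne, taylor_eq_zero]) (R.v (y - c))
  obtain ⟨m', H', h'⟩ := isRed_exists (R := R) (g := taylor z F)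
    (by rwa [Ne, taylor_eq_zero]) (R.v (y - z))
  rw [← h'.map_eq]
  rw [← h.map_eq] at hmult
  exact descend hn hF hy h hν hmult hzv hza (by rw [taylor_coeff]; exact hz) hyz h'

/-- Existence of the Hensel root in terms of `redP`. -/
theorem exists_root' {F : O[X]} {n : ℕ} (hn : ∀ j : ℕ, 1 ≤ j → j ≤ n → (j : k) ≠ 0)
    (hF : F.natDegree ≤ n) (hF0 : F ≠ 0) {c : O} {γ : ℕ} {ξ : k} (hξ : ξ ≠ 0)
    {ν : ℕ} (hν : 1 ≤ ν) (hmult : (R.redP (taylor c F) γ).rootMultiplicity ξ = ν) :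
    ∃ z, R.v (z - c) = γ ∧ R.ac (z - c) = ξ ∧ (hasseDeriv (ν - 1) F).eval z = 0 ∧
      (R.redP (taylor c (hasseDeriv (ν - 1) F)) γ).derivative.eval ξ ≠ 0 := by
  obtain ⟨m, H, h⟩ := isRed_exists (R := R) (g := taylor c F)
    (by rwa [Ne, taylor_eq_zero]) γ
  rw [← h.map_eq] at hmult
  obtain ⟨z, h1, h2, h3, m', h4, h5⟩ := exists_root hn hF h hξ hν hmult
  exact ⟨z, h1, h2, h3, by rw [← h4.map_eq]; exact h5⟩

/-- Newton's formula in terms of `redP`. -/
theorem newton' {F : O[X]} {γ : ℕ} {c z c1 : O} {ξ : k}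
    (hξ : ξ ≠ 0) (hz : F.eval z = 0) (hzv : R.v (z - c) = γ) (hza : R.ac (z - c) = ξ)
    (hcv : R.v (c1 - c) = γ) (hca : R.ac (c1 - c) = ξ)
    (hder : (R.redP (taylor c F) γ).derivative.eval ξ ≠ 0) :
    F.derivative.eval c1 ≠ 0 ∧ (F.eval c1 = 0 → c1 = z) ∧
      (F.eval c1 ≠ 0 → c1 - z ≠ 0 ∧
        R.v (F.eval c1) = R.v (c1 - z) + R.v (F.derivative.eval c1) ∧
        R.ac (F.eval c1) = R.ac (c1 - z) * R.ac (F.derivative.eval c1)) := by
  have hF : F ≠ 0 := by
    rintro rfl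
    apply hder
    have : R.redP (taylor c 0) γ = 0 := by
      ext j
      rw [redP_coeff, redC_of_coeff_eq_zero (by simp), coeff_zero]
    rw [this, derivative_zero, eval_zero]
  obtain ⟨m, H, h⟩ := isRed_exists (R := R) (g := taylor c F)
    (by rwa [Ne, taylor_eq_zero]) γ
  rw [← h.map_eq] at hder
  exact newton h hξ hz hzv hza hcv hca hder

/-- A nonzero root of the residual polynomial needs two active indices. -/
theorem two_act {g : O[X]} {γ : ℕ} {ξ : k} (hξ : ξ ≠ 0) (hg : g ≠ 0)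
    (h : (R.redP g γ).eval ξ = 0) : ∃ j j', j < j' ∧ j' ≤ g.natDegree ∧ R.Act g γ j ∧
      R.Act g γ j' := by
  classical
  have hne := redP_ne_zero (R := R) hg γ
  have hact : ∀ j, (R.redP g γ).coeff j ≠ 0 → R.Act g γ j := by
    intro j hj
    rw [redP_coeff, redC] at hj
    by_contra hcon
    rw [if_neg hcon] at hj
    exact hj rfl
  by_contra hcon
  push Not at hcon
  -- the support is a singleton
  obtain ⟨j, hj⟩ : ∃ j, (R.redP g γ).coeff j ≠ 0 := by
    by_contra hz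
    push Not at hz
    exact hne (by ext j; rw [hz j, coeff_zero])
  have huniq : ∀ j', (R.redP g γ).coeff j' ≠ 0 → j' = j := by
    intro j' hj'
    by_contra hne'
    rcases lt_or_gt_of_ne hne' with hlt | hlt
    · exact hcon j' j hlt (le_natDegree_of_ne_zero (hact j hj).1) (hact j' hj') (hact j hj)
    · exact hcon j j' hlt (le_natDegree_of_ne_zero (hact j' hj').1) (hact j hj) (hact j' hj')
  have hmono : R.redP g γ = monomial j ((R.redP g γ).coeff j) := by
    ext i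
    rw [coeff_monomial]
    split_ifs with hi
    · rw [hi]
    · by_contra hi2
      exact hi (huniq i hi2).symm
  rw [hmono, eval_monomial] at h
  rcases mul_eq_zero.1 h with h1 | h1
  · exact hj h1
  · exact pow_ne_zero j hξ h1

end HDVR

end Pool.Agent.Lib.H70.Top
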