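import Pool.Agent.Lib.H70.Top.Base

/-!
# Chunk I: finite differences
-/

namespace Pool.Agent.Lib.H70.Top.II

open Filter Topology
open scoped BigOperators Nat fwdDiff

/-! ### The sequence `p^{D j!}` in `ℚ_l` -/

section seq

variable (p l : ℕ) [Fact p.Prime] [Fact l.Prime]

lemma x_ne_zero (n : ℕ) : ((p : ℚ_[l]) ^ n) ≠ 0 := by
  have : (p : ℚ_[l]) ≠ 0 := by exact_mod_cast (Fact.out : p.Prime).ne_zero
  exact pow_ne_zero _ this

lemma x_ne_one {n : ℕ} (hn : n ≠ 0) : ((p : ℚ_[l]) ^ n) ≠ 1 := by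
  intro h
  have h1 : (p ^ n : ℕ) = 1 := by exact_mod_cast h
  exact (Nat.one_lt_pow hn (Fact.out : p.Prime).one_lt).ne' h1

lemma tendsto_x (hpl : p ≠ l) (D : ℕ) :
    Tendsto (fun j : ℕ => (p : ℚ_[l]) ^ (D * j !)) atTop (𝓝 1) := by
  rw [Metric.tendsto_atTop]
  intro ε hε
  have hl1 : (1 : ℝ) < l := by exact_mod_cast (Fact.out : l.Prime).one_lt
  obtain ⟨n, hn⟩ := exists_pow_lt_of_lt_one hε (inv_lt_one_of_one_lt₀ hl1)
  refine ⟨Nat.totient (l ^ n), fun j hj => ?_⟩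
  have hcop : Nat.Coprime p (l ^ n) :=
    Nat.Coprime.pow_right _ ((Nat.coprime_primes Fact.out Fact.out).2 hpl)
  have hpos : 0 < Nat.totient (l ^ n) := Nat.totient_pos.2 (pow_pos (Fact.out : l.Prime).pos _)
  obtain ⟨k, hk⟩ := Nat.dvd_factorial hpos hj
  have h1 : p ^ (D * j !) ≡ 1 [MOD l ^ n] := by
    have h2 := (Nat.ModEq.pow_totient hcop).pow (D * k)
    rw [one_pow, ← pow_mul] at h2
    have e : D * j ! = Nat.totient (l ^ n) * (D * k) := by rw [hk]; ring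
    rw [e]; exact h2
  have h3 : ((l ^ n : ℕ) : ℤ) ∣ ((p ^ (D * j !) : ℕ) : ℤ) - 1 := by
    have := (Nat.modEq_iff_dvd.1 h1.symm)
    exact_mod_cast this
  have h4 := (Padic.norm_int_le_pow_iff_dvd (p := l) (((p ^ (D * j !) : ℕ) : ℤ) - 1) n).2
    (by exact_mod_cast h3)
  rw [dist_eq_norm]
  refine lt_of_le_of_lt ?_ hn
  have e2 : (((((p ^ (D * j !) : ℕ) : ℤ) - 1 : ℤ)) : ℚ_[l]) = (p : ℚ_[l]) ^ (D * j !) - 1 := by
    push_cast; ring
  rw [e2] at h4
  calc _ ≤ (l : ℝ) ^ (-(n : ℤ)) := h4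
    _ = ((l : ℝ)⁻¹) ^ n := by rw [zpow_neg, zpow_natCast, inv_pow]

end seq

section lim

variable {K : Type*} [NormedField K] {x : ℕ → K}

lemma tendsto_zpow (hx : Tendsto x atTop (𝓝 1)) (u : ℤ) :
    Tendsto (fun j => x j ^ u) atTop (𝓝 1) := by
  have := hx.zpow₀ u (Or.inl one_ne_zero)
  simpa using this

lemma tendsto_quot_nat (hx : Tendsto x atTop (𝓝 1)) (hx1 : ∀ j, x j ≠ 1) (n : ℕ) :
    Tendsto (fun j => (x j ^ n - 1) / (x j - 1)) atTop (𝓝 (n : K)) := by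
  have h1 : (fun j => (x j ^ n - 1) / (x j - 1)) = fun j => ∑ i ∈ Finset.range n, x j ^ i := by
    funext j
    rw [div_eq_iff (sub_ne_zero.2 (hx1 j)), geom_sum_mul]
  rw [h1]
  have h2 : (n : K) = ∑ i ∈ Finset.range n, (1 : K) ^ i := by simp
  rw [h2]
  exact tendsto_finsetSum _ fun i _ => hx.pow i

lemma tendsto_quot (hx : Tendsto x atTop (𝓝 1)) (hx0 : ∀ j, x j ≠ 0) (hx1 : ∀ j, x j ≠ 1)
    (u : ℤ) : Tendsto (fun j => (x j ^ u - 1) / (x j - 1)) atTop (𝓝 (u : K)) := by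
  obtain ⟨n, rfl | rfl⟩ := u.eq_nat_or_neg
  · simpa using tendsto_quot_nat hx hx1 n
  · have h := ((tendsto_zpow hx (-(n : ℤ))).mul (tendsto_quot_nat hx hx1 n)).neg
    rw [one_mul] at h
    have e : (((-(n : ℤ)) : ℤ) : K) = -(n : K) := by push_cast; ring
    rw [e]
    refine h.congr fun j => ?_
    have h1 : x j - 1 ≠ 0 := sub_ne_zero.2 (hx1 j)
    have h2 : x j ^ n ≠ 0 := pow_ne_zero _ (hx0 j)
    rw [zpow_neg, zpow_natCast]
    field_simp
    ring

end lim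

/-! ### Coefficientwise convergence of power series -/

section CT

variable {K : Type*} [NormedField K]

/-- Coefficientwise convergence. -/
def CT (A : ℕ → PowerSeries K) (B : PowerSeries K) : Prop :=
  ∀ n, Tendsto (fun j => PowerSeries.coeff n (A j)) atTop (𝓝 (PowerSeries.coeff n B))

lemma CT.mul {A A' : ℕ → PowerSeries K} {B B' : PowerSeries K} (h : CT A B) (h' : CT A' B') :
    CT (fun j => A j * A' j) (B * B') := by
  intro n
  simp only [PowerSeries.coeff_mul]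
  exact tendsto_finsetSum _ fun i _ => (h i.1).mul (h' i.2)

lemma CT_den {x : ℕ → K} (hx : Tendsto x atTop (𝓝 1)) (J : List (ℤ × ℕ)) :
    CT (fun j => (J.map fun y => (1 - PowerSeries.C (x j ^ y.1) * PowerSeries.X ^ y.2 :
      PowerSeries K)).prod)
      ((J.map fun y => (1 - PowerSeries.X ^ y.2 : PowerSeries K)).prod) := by
  induction J with
  | nil => intro n; simp
  | cons y J ih =>
    simp only [List.map_cons, List.prod_cons]
    refine CT.mul ?_ ih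
    intro n
    simp only [map_sub, PowerSeries.coeff_C_mul, PowerSeries.coeff_X_pow]
    refine tendsto_const_nhds.sub ?_
    have h := (tendsto_zpow hx y.1).mul_const (if n = y.2 then (1 : K) else 0)
    rwa [one_mul] at h

end CT

/-! ### The real generating function -/

section real

lemma hasSum_mul_one_sub (A : PowerSeries ℝ) (L t : ℝ) (b : ℕ)
    (h : HasSum (fun n => PowerSeries.coeff n A * t ^ n) L) :
    HasSum (fun n => PowerSeries.coeff n (A * (1 - PowerSeries.X ^ b)) * t ^ n)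
      (L * (1 - t ^ b)) := by
  have h1 : HasSum (fun n => (if b ≤ n then PowerSeries.coeff (n - b) A else 0) * t ^ n)
      (L * t ^ b) := by
    have hinj : Function.Injective fun n : ℕ => n + b := fun a c h => by simpa using h
    rw [← hinj.hasSum_iff]
    · refine (h.mul_right (t ^ b)).congr_fun ?_
      intro n
      simp only [Function.comp_apply]
      rw [if_pos (Nat.le_add_left _ _), Nat.add_sub_cancel, pow_add]
      ring
    · intro n hn
      have : ¬ b ≤ n := fun h => hn ⟨n - b, Nat.sub_add_cancel h⟩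
      simp [this]
  have h2 := h.sub h1
  have e : L * (1 - t ^ b) = L - L * t ^ b := by ring
  rw [e]
  refine h2.congr_fun ?_
  intro n
  rw [mul_sub, mul_one, map_sub, PowerSeries.coeff_mul_X_pow']
  ring

lemma hasSum_mul_den (J : List (ℤ × ℕ)) : ∀ (A : PowerSeries ℝ) (L t : ℝ)
    (_ : HasSum (fun n => PowerSeries.coeff n A * t ^ n) L),
    HasSum (fun n => PowerSeries.coeff n
        (A * (J.map fun y => (1 - PowerSeries.X ^ y.2 : PowerSeries ℝ)).prod) * t ^ n)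
      (L * (J.map fun y => (1 - t ^ y.2)).prod) := by
  induction J with
  | nil => intro A L t h; simpa using h
  | cons y J ih =>
    intro A L t h
    have := ih _ _ t (hasSum_mul_one_sub A L t y.2 h)
    simpa only [List.map_cons, List.prod_cons, mul_assoc] using this

end real

/-! ### Divisibility by powers of `X - 1` -/

section poly

open Polynomial

/-- `X d/dX` -/
noncomputable def theta (P : ℝ[X]) : ℝ[X] := X * derivative P

lemma coeff_theta (P : ℝ[X]) (n : ℕ) : (theta P).coeff n = n * P.coeff n := by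
  rcases n with _ | n
  · simp [theta]
  · rw [theta, coeff_X_mul, coeff_derivative]
    push_cast
    ring

lemma coeff_theta_iter (k : ℕ) (P : ℝ[X]) (n : ℕ) :
    (theta^[k] P).coeff n = (n : ℝ) ^ k * P.coeff n := by
  induction k with
  | zero => simp
  | succ k ih =>
    rw [Function.iterate_succ_apply', coeff_theta, ih]
    ring

lemma dvd_theta (m : ℕ) (P : ℝ[X]) (h : (X - 1) ^ (m + 1) ∣ P) : (X - 1) ^ m ∣ theta P := by
  obtain ⟨Q, rfl⟩ := h
  refine ⟨X * ((m + 1 : ℝ[X]) * Q + (X - 1) * derivative Q), ?_⟩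
  rw [theta, derivative_mul, derivative_pow]
  simp
  ring

lemma dvd_theta_iter (k : ℕ) : ∀ (m : ℕ) (P : ℝ[X]), (X - 1) ^ (m + k) ∣ P →
    (X - 1) ^ m ∣ theta^[k] P := by
  induction k with
  | zero => intro m P h; simpa using h
  | succ k ih =>
    intro m P h
    rw [Function.iterate_succ_apply]
    refine ih m _ ?_
    exact dvd_theta (m + k) P h

lemma sum_pow_eq_zero (k M : ℕ) (P : ℝ[X]) (hM : P.natDegree ≤ M) (h : (X - 1) ^ (k + 1) ∣ P) :
    ∑ n ∈ Finset.range (M + 1), (n : ℝ) ^ k * P.coeff n = 0 := by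
  have h1 : (X - 1) ^ 1 ∣ theta^[k] P := dvd_theta_iter k 1 P (by rwa [add_comm])
  rw [pow_one] at h1
  have h2 : (theta^[k] P).eval 1 = 0 := by
    obtain ⟨Q, hQ⟩ := h1
    rw [hQ]; simp
  have h3 : (theta^[k] P).natDegree < M + 1 := by
    rw [Nat.lt_succ_iff, natDegree_le_iff_coeff_eq_zero]
    intro N hN
    rw [coeff_theta_iter, coeff_eq_zero_of_natDegree_lt (lt_of_le_of_lt hM hN), mul_zero]
  rw [eval_eq_sum_range' h3] at h2
  rw [← h2]
  refine Finset.sum_congr rfl fun n _ => ?_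
  rw [coeff_theta_iter, one_pow, mul_one]

lemma root_of_tendsto (P : ℝ[X]) (h : Tendsto (fun t => P.eval t) (𝓝[<] 1) (𝓝 0)) :
    (X - 1) ∣ P := by
  have h1 : Tendsto (fun t => P.eval t) (𝓝[<] 1) (𝓝 (P.eval 1)) :=
    (P.continuous.tendsto 1).mono_left nhdsWithin_le_nhds
  have h2 := tendsto_nhds_unique h1 h
  have h3 := dvd_iff_isRoot.2 (show P.IsRoot 1 from h2)
  simpa using h3

lemma dvd_of_tendsto (k : ℕ) : ∀ P : ℝ[X],
    Tendsto (fun t => P.eval t / (1 - t) ^ k) (𝓝[<] 1) (𝓝 0) → (X - 1) ^ (k + 1) ∣ P := by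
  induction k with
  | zero =>
    intro P h
    simp only [pow_zero, div_one] at h
    simpa using root_of_tendsto P h
  | succ k ih =>
    intro P h
    have h1 : Tendsto (fun t : ℝ => (1 - t)) (𝓝[<] 1) (𝓝 0) := by
      have : Continuous fun t : ℝ => (1 - t) := by fun_prop
      have h2 := (this.tendsto 1).mono_left (nhdsWithin_le_nhds (s := Set.Iio 1))
      simpa using h2
    have hne : ∀ᶠ t : ℝ in 𝓝[<] 1, (1 - t) ≠ 0 := by
      filter_upwards [self_mem_nhdsWithin] with t ht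
      exact (sub_pos.2 ht).ne'
    have h2 : Tendsto (fun t => P.eval t / (1 - t) ^ k) (𝓝[<] 1) (𝓝 0) := by
      have := h1.mul h
      rw [mul_zero] at this
      refine this.congr' ?_
      filter_upwards [hne] with t ht
      field_simp
      ring
    obtain ⟨Q, rfl⟩ := ih P h2
    have h3 : Tendsto (fun t => (C ((-1) ^ (k + 1)) * Q).eval t) (𝓝[<] 1) (𝓝 0) := by
      refine h.congr' ?_
      filter_upwards [hne] with t ht
      simp only [eval_mul, eval_pow, eval_sub, eval_X, eval_one, eval_C]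
      have e : (t - 1) ^ (k + 1) = (-1) ^ (k + 1) * (1 - t) ^ (k + 1) := by
        rw [← mul_pow]; congr 1; ring
      rw [e]
      field_simp
    have h4 := root_of_tendsto _ h3
    obtain ⟨Q', hQ'⟩ := h4
    have h5 : Q = (X - 1) * (C ((-1) ^ (k + 1)) * Q') := by
      have : C ((-1 : ℝ) ^ (k + 1)) * (C ((-1) ^ (k + 1)) * Q) = Q := by
        rw [← mul_assoc, ← C_mul, ← pow_add, ← two_mul, pow_mul]; simp
      rw [← this, hQ']; ring
    rw [h5]
    exact ⟨C ((-1) ^ (k + 1)) * Q', by ring⟩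

lemma newton (κ : ℕ) (f : ℕ → ℚ)
    (h : ∀ n, ∑ i ∈ Finset.range (κ + 1), ((-1 : ℚ) ^ (κ - i) * κ.choose i) * f (n + i) = 0) :
    ∃ Q : ℚ[X], Q.degree < κ ∧ ∀ n : ℕ, f n = Q.eval (n : ℚ) := by
  have h0 : (fwdDiff (1 : ℕ))^[κ] f = fun _ => 0 := by
    funext n
    rw [fwdDiff_iter_eq_sum_shift, ← h n]
    refine Finset.sum_congr rfl fun i _ => ?_
    simp
  have h1 : ∀ k, κ ≤ k → (fwdDiff (1 : ℕ))^[k] f 0 = 0 := by
    intro k hk
    obtain ⟨m, rfl⟩ := Nat.exists_eq_add_of_le' hk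
    rw [Function.iterate_add_apply, h0]
    clear hk
    have : ∀ m : ℕ, (fwdDiff (1 : ℕ))^[m] (fun _ : ℕ => (0 : ℚ)) = fun _ => 0 := by
      intro m
      induction m with
      | zero => rfl
      | succ m ih => rw [Function.iterate_succ_apply', ih, fwdDiff_const]
    rw [this]
  refine ⟨∑ k ∈ Finset.range κ, C ((fwdDiff (1 : ℕ))^[k] f 0 / (k ! : ℚ)) * descPochhammer ℚ k, ?_, ?_⟩
  · refine lt_of_le_of_lt (degree_sum_le _ _) ?_
    rw [Finset.sup_lt_iff (by exact WithBot.bot_lt_coe κ)]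
    intro k hk
    rw [← smul_eq_C_mul]
    refine lt_of_le_of_lt (degree_smul_le _ _) ?_
    rw [degree_eq_natDegree (monic_descPochhammer ℚ k).ne_zero, descPochhammer_natDegree]
    exact_mod_cast Finset.mem_range.1 hk
  · intro n
    have h2 := shift_eq_sum_fwdDiff_iter 1 f n 0
    simp only [smul_eq_mul, mul_one, zero_add, nsmul_eq_mul] at h2
    rw [h2, eval_finsetSum]
    have h3 : ∀ k : ℕ, (C ((fwdDiff (1 : ℕ))^[k] f 0 / (k ! : ℚ)) * descPochhammer ℚ k).eval (n : ℚ) =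
        (n.choose k : ℚ) * (fwdDiff (1 : ℕ))^[k] f 0 := by
      intro k
      rw [eval_mul, eval_C, descPochhammer_eval_eq_descFactorial,
        Nat.descFactorial_eq_factorial_mul_choose]
      push_cast
      have : (k ! : ℚ) ≠ 0 := by exact_mod_cast k.factorial_ne_zero
      field_simp
    rw [Finset.sum_congr rfl fun k _ => h3 k]
    have h4 : ∀ N, N ≥ κ → N ≥ n + 1 → ∑ k ∈ Finset.range N, (n.choose k : ℚ) * (fwdDiff (1 : ℕ))^[k] f 0 =
        ∑ k ∈ Finset.range κ, (n.choose k : ℚ) * (fwdDiff (1 : ℕ))^[k] f 0 := by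
      intro N hN _
      symm
      refine Finset.sum_subset (Finset.range_subset_range.2 hN) fun k _ hk => ?_
      rw [h1 k (by simpa using hk), mul_zero]
    have h5 : ∀ N, N ≥ κ → N ≥ n + 1 → ∑ k ∈ Finset.range N, (n.choose k : ℚ) * (fwdDiff (1 : ℕ))^[k] f 0 =
        ∑ k ∈ Finset.range (n + 1), (n.choose k : ℚ) * (fwdDiff (1 : ℕ))^[k] f 0 := by
      intro N _ hN
      symm
      refine Finset.sum_subset (Finset.range_subset_range.2 hN) fun k _ hk => ?_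
      rw [Nat.choose_eq_zero_of_lt (by simpa [Nat.lt_succ_iff] using hk)]
      simp
    rw [← h5 (max κ (n + 1)) (le_max_left _ _) (le_max_right _ _),
      h4 (max κ (n + 1)) (le_max_left _ _) (le_max_right _ _)]

lemma ratfunc_concl (R : RatFunc ℚ) (J : List (ℤ × ℕ)) (hJ : ∀ x ∈ J, 1 ≤ x.2) (κ : ℕ)
    (Q : ℚ[X]) (hQ : Q.degree < κ) (s0 : ℤ)
    (h : ∀ n : ℕ, R.eval (RingHom.id ℚ) ((s0 + n : ℤ) : ℚ) *
      (J.map fun x => ((x.2 : ℚ) * ((s0 + n : ℤ) : ℚ) - x.1)).prod = Q.eval (n : ℚ)) :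
    R = 0 ∨ R.intDegree < (κ : ℤ) - J.length := by
  set W : ℚ[X] := (J.map fun x => (C (x.2 : ℚ) * X - C (x.1 : ℚ))).prod with hW
  set Q' : ℚ[X] := Q.comp (X - C (s0 : ℚ)) with hQ'
  have hWeval : ∀ s : ℚ, W.eval s = (J.map fun x => ((x.2 : ℚ) * s - x.1)).prod := by
    intro s
    rw [hW, eval_list_prod, List.map_map]
    congr 1
    refine List.map_congr_left fun x _ => ?_
    simp
  have hlin : ∀ x ∈ J, (C (x.2 : ℚ) * X - C (x.1 : ℚ)).natDegree = 1 ∧
      (C (x.2 : ℚ) * X - C (x.1 : ℚ)) ≠ 0 := by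
    intro x hx
    have hx2 : (x.2 : ℚ) ≠ 0 := by
      have := hJ x hx
      exact_mod_cast (by omega : x.2 ≠ 0)
    have h1 : (C (x.2 : ℚ) * X - C (x.1 : ℚ)).natDegree = 1 := by
      rw [natDegree_sub_C, natDegree_C_mul_X _ hx2]
    refine ⟨h1, fun h2 => ?_⟩
    rw [h2] at h1
    simp at h1
  have hWdeg : W.natDegree = J.length ∧ W ≠ 0 := by
    rw [hW]
    clear_value W
    clear h hW hWeval
    induction J with
    | nil => simp
    | cons y J ih =>
      obtain ⟨ih1, ih2⟩ := ih (fun x hx => hJ x (List.mem_cons_of_mem _ hx))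
        (fun x hx => hlin x (List.mem_cons_of_mem _ hx))
      obtain ⟨h1, h2⟩ := hlin y List.mem_cons_self
      rw [List.map_cons, List.prod_cons]
      refine ⟨?_, mul_ne_zero h2 ih2⟩
      rw [natDegree_mul h2 ih2, h1, ih1, List.length_cons, add_comm]
  have key : R.num * W = Q' * R.denom := by
    have h1 : (R.num * W - Q' * R.denom) * R.denom = 0 := by
      refine eq_zero_of_infinite_isRoot _ ?_
      have hinj : Function.Injective fun n : ℕ => ((s0 + n : ℤ) : ℚ) := by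
        intro a b hab
        simp only [Int.cast_inj, add_right_inj] at hab
        exact_mod_cast hab
      refine (Set.infinite_range_of_injective hinj).mono ?_
      rintro _ ⟨n, rfl⟩
      show IsRoot _ _
      rw [IsRoot.def, eval_mul]
      by_cases hd : R.denom.eval (((s0 + n : ℤ) : ℚ)) = 0
      · rw [hd, mul_zero]
      · have h2 := h n
        rw [RatFunc.eval, eval₂_id, eval₂_id, ← hWeval] at h2
        have h3 : Q'.eval (((s0 + n : ℤ) : ℚ)) = Q.eval (n : ℚ) := by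
          rw [hQ', eval_comp]; simp
        rw [eval_sub, eval_mul, eval_mul, h3, ← h2]
        field_simp
        ring
    have h2 := (mul_eq_zero.1 h1).resolve_right R.denom_ne_zero
    exact sub_eq_zero.1 h2
  by_cases hR : R = 0
  · exact Or.inl hR
  right
  have hnum : R.num ≠ 0 := RatFunc.num_ne_zero hR
  have hne : R.num * W ≠ 0 := mul_ne_zero hnum hWdeg.2
  have hQ'0 : Q' ≠ 0 := by
    intro h0
    rw [key, h0, zero_mul] at hne
    exact hne rfl
  have hQ0 : Q ≠ 0 := by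
    rintro rfl
    simp [hQ'] at hQ'0
  have h1 : R.num.natDegree + J.length = Q'.natDegree + R.denom.natDegree := by
    rw [← hWdeg.1, ← natDegree_mul hnum hWdeg.2, key, natDegree_mul hQ'0 R.denom_ne_zero]
  have h2 : Q'.natDegree = Q.natDegree := by
    rw [hQ', natDegree_comp, natDegree_X_sub_C, mul_one]
  have h3 : Q.natDegree < κ := by
    rw [degree_eq_natDegree hQ0] at hQ
    exact_mod_cast hQ
  rw [RatFunc.intDegree]
  omega

end poly

/-! ### Assembly -/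

section asm

open Polynomial

/-- The coefficients of the limit polynomial. -/
noncomputable def pc (J : List (ℤ × ℕ)) (e : ℕ → ℤ) (n : ℕ) : ℤ :=
  PowerSeries.coeff n (PowerSeries.mk e *
    (J.map fun y => (1 - PowerSeries.X ^ y.2 : PowerSeries ℤ)).prod)

lemma map_pc {A : Type*} [CommRing A] (J : List (ℤ × ℕ)) (e : ℕ → ℤ) (n : ℕ) :
    ((pc J e n : ℤ) : A) = PowerSeries.coeff n ((PowerSeries.mk fun n => ((e n : ℤ) : A)) *
      (J.map fun y => (1 - PowerSeries.X ^ y.2 : PowerSeries A)).prod) := by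
  have h := PowerSeries.coeff_map (Int.castRingHom A) n (PowerSeries.mk e *
    (J.map fun y => (1 - PowerSeries.X ^ y.2 : PowerSeries ℤ)).prod)
  have h2 : ((pc J e n : ℤ) : A) = (Int.castRingHom A) (PowerSeries.coeff n (PowerSeries.mk e *
    (J.map fun y => (1 - PowerSeries.X ^ y.2 : PowerSeries ℤ)).prod)) := rfl
  rw [h2, ← h, map_mul, map_list_prod, List.map_map]
  congr 2
  congr 1
  refine List.map_congr_left fun y _ => ?_
  simp

lemma map_den {A B : Type*} [Field A] [Field B] (ff : A →+* B) (J : List (ℤ × ℕ)) (q : A) :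
    PowerSeries.map ff ((J.map fun x => (1 - PowerSeries.C (q ^ x.1) *
        PowerSeries.X ^ x.2 : PowerSeries A)).prod) =
      (J.map fun x => (1 - PowerSeries.C ((ff q) ^ x.1) * PowerSeries.X ^ x.2 :
        PowerSeries B)).prod := by
  rw [map_list_prod, List.map_map]
  congr 1
  refine List.map_congr_left fun y _ => ?_
  simp

/-- The denominators as polynomials. -/
noncomputable def denP (J : List (ℤ × ℕ)) (q : ℚ) : ℚ[X] :=
  (J.map fun x => (1 - C (q ^ x.1) * X ^ x.2 : ℚ[X])).prod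

lemma denP_coe (J : List (ℤ × ℕ)) (q : ℚ) : ((denP J q : ℚ[X]) : PowerSeries ℚ) =
    (J.map fun x => (1 - PowerSeries.C (q ^ x.1) * PowerSeries.X ^ x.2 : PowerSeries ℚ)).prod := by
  rw [denP, ← Polynomial.coeToPowerSeries.ringHom_apply, map_list_prod, List.map_map]
  congr 1
  refine List.map_congr_left fun y _ => ?_
  simp

lemma denP_eval (J : List (ℤ × ℕ)) (q : ℚ) (hq : q ≠ 0) (s : ℤ) :
    (denP J q).eval (q ^ (-s)) = (J.map fun x => 1 - q ^ (x.1 - x.2 * s)).prod := by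
  rw [denP, eval_list_prod, List.map_map]
  congr 1
  refine List.map_congr_left fun y _ => ?_
  simp only [Function.comp_apply, eval_sub, eval_one, eval_mul, eval_C, eval_pow, eval_X]
  congr 1
  rw [← zpow_natCast, ← zpow_mul, ← zpow_add₀ hq]
  congr 1
  ring

lemma exists_s0 (S : Finset ℤ) (J : List (ℤ × ℕ)) (hJ : ∀ x ∈ J, 1 ≤ x.2) :
    ∃ s0 : ℤ, ∀ s, s0 ≤ s → s ∉ S ∧ ∀ x ∈ J, x.1 < x.2 * s := by
  obtain ⟨B, hB⟩ := S.exists_le
  have h2 : ∃ B' : ℤ, 0 ≤ B' ∧ ∀ x ∈ J, x.1 ≤ B' := by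
    clear hJ
    induction J with
    | nil => exact ⟨0, le_rfl, by simp⟩
    | cons y J ih =>
      obtain ⟨B', hB0, hB'⟩ := ih
      refine ⟨max B' y.1, le_max_of_le_left hB0, fun x hx => ?_⟩
      rcases List.mem_cons.1 hx with rfl | hx
      · exact le_max_right _ _
      · exact (hB' x hx).trans (le_max_left _ _)
  obtain ⟨B', hB0, hB'⟩ := h2
  refine ⟨max B B' + 1, fun s hs => ⟨fun hsS => ?_, fun x hx => ?_⟩⟩
  · have := hB s hsS
    have := le_max_left B B'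
    omega
  · have h1 := hB' x hx
    have h2 := hJ x hx
    have h3 := le_max_right B B'
    have h4 : B' + 1 ≤ s := by omega
    have h5 : (1 : ℤ) ≤ x.2 := by exact_mod_cast h2
    nlinarith

lemma prod_one_sub_ne_zero (J : List (ℤ × ℕ)) (q : ℚ) (hq : 1 < q) (s : ℤ)
    (hs : ∀ x ∈ J, x.1 < x.2 * s) : (J.map fun x => 1 - q ^ (x.1 - x.2 * s)).prod ≠ 0 := by
  rw [Ne, List.prod_eq_zero_iff]
  intro h
  obtain ⟨x, hx, h0⟩ := List.mem_map.1 h
  have h1 : q ^ (x.1 - x.2 * s) < 1 := zpow_lt_one_of_neg₀ hq (by linarith [hs x hx])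
  linarith

lemma tendsto_den {K : Type*} [NormedField K] {x : ℕ → K} (hx : Tendsto x atTop (𝓝 1))
    (hx0 : ∀ j, x j ≠ 0) (hx1 : ∀ j, x j ≠ 1) (J : List (ℤ × ℕ)) (s : ℤ) :
    Tendsto (fun j => (J.map fun y => 1 - x j ^ (y.1 - y.2 * s)).prod / (x j - 1) ^ J.length)
      atTop (𝓝 (J.map fun y => ((y.2 : K) * s - y.1)).prod) := by
  induction J with
  | nil => simp
  | cons y J ih =>
    simp only [List.map_cons, List.prod_cons, List.length_cons]
    have h1 := (tendsto_quot hx hx0 hx1 (y.1 - y.2 * s)).neg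
    have e : -(((y.1 - y.2 * s : ℤ)) : K) = (y.2 : K) * s - y.1 := by push_cast; ring
    rw [e] at h1
    refine (h1.mul ih).congr fun j => ?_
    have h2 : x j - 1 ≠ 0 := sub_ne_zero.2 (hx1 j)
    rw [← neg_div, neg_sub, div_mul_div_comm, pow_succ']

/-- The finite difference of `s ↦ P(x^{-s})`. -/
lemma fin_diff {K : Type*} [Field K] (P : K[X]) (M : ℕ) (hM : P.natDegree ≤ M) (κ : ℕ) (x : K)
    (hx0 : x ≠ 0) (s : ℤ) :
    ∑ i ∈ Finset.range (κ + 1), ((-1 : K) ^ (κ - i) * κ.choose i) *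
        (P.eval (x ^ (-(s + i))) / (x - 1) ^ κ) =
      ∑ m ∈ Finset.range (M + 1), P.coeff m * x ^ (-(m * s : ℤ)) *
        ((x ^ (-(m : ℤ)) - 1) / (x - 1)) ^ κ := by
  have h1 : ∀ y : K, P.eval y = ∑ m ∈ Finset.range (M + 1), P.coeff m * y ^ m := fun y =>
    eval_eq_sum_range' (Nat.lt_succ_of_le hM) y
  simp only [h1, Finset.sum_div, Finset.mul_sum]
  rw [Finset.sum_comm]
  refine Finset.sum_congr rfl fun m _ => ?_
  rw [div_pow, sub_eq_add_neg (x ^ (-(m : ℤ))) 1, add_pow, Finset.sum_div, Finset.mul_sum]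
  refine Finset.sum_congr rfl fun i _ => ?_
  have e : (x ^ (-(s + i))) ^ m = x ^ (-(m * s : ℤ)) * (x ^ (-(m : ℤ))) ^ i := by
    rw [← zpow_natCast, ← zpow_natCast, ← zpow_mul, ← zpow_mul, ← zpow_add₀ hx0]
    congr 1
    ring
  rw [e]
  ring

/-- The key limit: `P_j(x_j^{-s})/(x_j - 1)^κ → R(s) ∏ (b s - a)`. -/
lemma key_limit {d : ℕ} (c : Fin d → Fin d → Fin d → ℤ) (p l : ℕ) [Fact p.Prime]
    [Fact l.Prime] (hpl : p ≠ l) (D : ℕ) (hD : 1 ≤ D) (S : Finset ℤ) (R : RatFunc ℚ)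
    (htop : TopConv c R l p D S) (J : List (ℤ × ℕ)) (κ : ℕ) (hlen : J.length = d + κ)
    (P : ℕ → ℚ[X])
    (hP : ∀ j, zetaSeries c p (D * j !) * (J.map fun x => (1 - PowerSeries.C
      (((p : ℚ) ^ (D * j !)) ^ x.1) * PowerSeries.X ^ x.2 : PowerSeries ℚ)).prod =
        (P j : PowerSeries ℚ))
    (s : ℤ) (hs : s ∉ S) (hsJ : ∀ x ∈ J, x.1 < x.2 * s) :
    Tendsto (fun j => ((P j).map (algebraMap ℚ ℚ_[l])).eval
        (((p : ℚ_[l]) ^ (D * j !)) ^ (-s)) / ((p : ℚ_[l]) ^ (D * j !) - 1) ^ κ) atTop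
      (𝓝 ((R.eval (RingHom.id ℚ) (s : ℚ) *
        (J.map fun x => ((x.2 : ℚ) * (s : ℚ) - x.1)).prod : ℚ) : ℚ_[l])) := by
  have hx := tendsto_x p l hpl D
  have hD0 : ∀ j : ℕ, D * j ! ≠ 0 := fun j => mul_ne_zero (by omega) j.factorial_ne_zero
  have hx0 : ∀ j : ℕ, (p : ℚ_[l]) ^ (D * j !) ≠ 0 := fun j => x_ne_zero p l _
  have hx1 : ∀ j : ℕ, (p : ℚ_[l]) ^ (D * j !) ≠ 1 := fun j => x_ne_one p l (hD0 j)
  -- the zeta values
  set z : ℕ → ℚ := fun j => (1 - ((p : ℚ) ^ (D * j !))⁻¹) ^ d *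
    ((P j).eval (((p : ℚ) ^ (D * j !)) ^ (-s)) /
      (denP J ((p : ℚ) ^ (D * j !))).eval (((p : ℚ) ^ (D * j !)) ^ (-s))) with hz
  have hp1 : (1 : ℚ) < p := by exact_mod_cast (Fact.out : p.Prime).one_lt
  have hp0 : (p : ℚ) ≠ 0 := by positivity
  have hq1 : ∀ j : ℕ, (1 : ℚ) < (p : ℚ) ^ (D * j !) := fun j => one_lt_pow₀ hp1 (hD0 j)
  have hq0 : ∀ j : ℕ, (p : ℚ) ^ (D * j !) ≠ 0 := fun j => pow_ne_zero _ hp0
  have hden : ∀ j : ℕ, (denP J ((p : ℚ) ^ (D * j !))).eval (((p : ℚ) ^ (D * j !)) ^ (-s)) ≠ 0 := by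
    intro j
    rw [denP_eval _ _ (hq0 j)]
    exact prod_one_sub_ne_zero J _ (hq1 j) s hsJ
  have hexp : ∀ j : ℕ, (p : ℚ) ^ (-(((D * j ! : ℕ) : ℤ) * s)) = ((p : ℚ) ^ (D * j !)) ^ (-s) := by
    intro j
    rw [← zpow_natCast, ← zpow_mul]
    congr 1
    ring
  have hzv : ∀ j : ℕ, IsZetaValue c p (D * j !) s (z j) := by
    intro j
    refine ⟨P j, denP J ((p : ℚ) ^ (D * j !)), ?_, ?_, ?_⟩
    · rw [denP_coe, hP]
    · rw [hexp]; exact hden j
    · rw [hexp]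
  have hlim : Tendsto (fun j => ((z j : ℚ) : ℚ_[l])) atTop
      (𝓝 ((R.eval (RingHom.id ℚ) (s : ℚ) : ℚ) : ℚ_[l])) := by
    rw [Metric.tendsto_atTop]
    intro ε hε
    obtain ⟨M', hM'⟩ := htop s hs ε hε
    refine ⟨l ^ M', fun j hj => ?_⟩
    have h1 := hM' (j !) (Nat.one_le_iff_ne_zero.2 j.factorial_ne_zero)
      (Nat.dvd_factorial (pow_pos (Fact.out : l.Prime).pos _) hj) (z j) (hzv j)
    rw [dist_eq_norm]
    push_cast at h1
    exact h1
  have h2 := (hlim.mul (tendsto_den hx hx0 hx1 J s)).mul (hx.pow d)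
  rw [one_pow, mul_one] at h2
  have e : ((R.eval (RingHom.id ℚ) (s : ℚ) *
        (J.map fun x => ((x.2 : ℚ) * (s : ℚ) - x.1)).prod : ℚ) : ℚ_[l]) =
      ((R.eval (RingHom.id ℚ) (s : ℚ) : ℚ) : ℚ_[l]) *
        (J.map fun y => ((y.2 : ℚ_[l]) * (s : ℚ_[l]) - y.1)).prod := by
    have e0 : (((J.map fun x => ((x.2 : ℚ) * (s : ℚ) - x.1)).prod : ℚ) : ℚ_[l]) =
        (J.map fun y => ((y.2 : ℚ_[l]) * (s : ℚ_[l]) - y.1)).prod := by
      rw [← Rat.coe_castHom, map_list_prod, List.map_map]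
      refine congrArg List.prod (List.map_congr_left fun y _ => ?_)
      simp
    rw [Rat.cast_mul, e0]
  rw [e]
  refine h2.congr fun j => ?_
  have hxs : (p : ℚ_[l]) ^ (D * j !) - 1 ≠ 0 := sub_ne_zero.2 (hx1 j)
  have hcast : (((p : ℚ) ^ (D * j !) : ℚ) : ℚ_[l]) = (p : ℚ_[l]) ^ (D * j !) := by push_cast; rfl
  have hPe : (((P j).eval (((p : ℚ) ^ (D * j !)) ^ (-s)) : ℚ) : ℚ_[l]) =
      ((P j).map (algebraMap ℚ ℚ_[l])).eval (((p : ℚ_[l]) ^ (D * j !)) ^ (-s)) := by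
    rw [← hcast]
    have : ((((p : ℚ) ^ (D * j !) : ℚ) : ℚ_[l])) ^ (-s) =
        algebraMap ℚ ℚ_[l] (((p : ℚ) ^ (D * j !)) ^ (-s)) := by
      rw [map_zpow₀]; rfl
    rw [this, eval_map_algebraMap, aeval_algebraMap_apply]
    rfl
  have hDe : (((denP J ((p : ℚ) ^ (D * j !))).eval (((p : ℚ) ^ (D * j !)) ^ (-s)) : ℚ) : ℚ_[l]) =
      (J.map fun y => 1 - ((p : ℚ_[l]) ^ (D * j !)) ^ (y.1 - y.2 * s)).prod := by
    rw [denP_eval _ _ (hq0 j), ← Rat.coe_castHom, map_list_prod, List.map_map]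
    congr 1
    refine List.map_congr_left fun y _ => ?_
    simp
  have hDne : (J.map fun y => 1 - ((p : ℚ_[l]) ^ (D * j !)) ^ (y.1 - y.2 * s)).prod ≠ 0 := by
    rw [← hDe]
    exact_mod_cast hden j
  have hzc : ((z j : ℚ) : ℚ_[l]) = (1 - ((p : ℚ_[l]) ^ (D * j !))⁻¹) ^ d *
      (((P j).map (algebraMap ℚ ℚ_[l])).eval (((p : ℚ_[l]) ^ (D * j !)) ^ (-s)) /
        (J.map fun y => 1 - ((p : ℚ_[l]) ^ (D * j !)) ^ (y.1 - y.2 * s)).prod) := by
    rw [← hPe, ← hDe, hz]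
    push_cast
    ring
  rw [hzc, hlen]
  generalize (J.map fun y => 1 - ((p : ℚ_[l]) ^ (D * j !)) ^ (y.1 - y.2 * s)).prod = Dn at hDne
  generalize ((P j).map (algebraMap ℚ ℚ_[l])).eval (((p : ℚ_[l]) ^ (D * j !)) ^ (-s)) = Pe
  have hx0j := hx0 j
  generalize (p : ℚ_[l]) ^ (D * j !) = x at hxs hx0j
  have e1 : (1 - x⁻¹) = (x - 1) / x := by field_simp
  rw [e1, pow_add, div_pow]
  field_simp

/-- Coefficientwise convergence of the numerators. -/
lemma coeff_limit {d : ℕ} (c : Fin d → Fin d → Fin d → ℤ) (p l : ℕ) [Fact p.Prime]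
    [Fact l.Prime] (hpl : p ≠ l) (D : ℕ) (J : List (ℤ × ℕ)) (P : ℕ → ℚ[X])
    (hP : ∀ j, zetaSeries c p (D * j !) * (J.map fun x => (1 - PowerSeries.C
      (((p : ℚ) ^ (D * j !)) ^ x.1) * PowerSeries.X ^ x.2 : PowerSeries ℚ)).prod =
        (P j : PowerSeries ℚ))
    (e : ℕ → ℤ)
    (he : ∀ n : ℕ, Tendsto (fun j : ℕ =>
      (subCount c (OO p (D * j !)) (p ^ ((D * j !) * n)) : ℚ_[l])) atTop (𝓝 ((e n : ℤ) : ℚ_[l])))
    (n : ℕ) :
    Tendsto (fun j => ((P j).map (algebraMap ℚ ℚ_[l])).coeff n) atTop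
      (𝓝 ((pc J e n : ℤ) : ℚ_[l])) := by
  have hx := tendsto_x p l hpl D
  have h1 : CT (fun j => PowerSeries.map (algebraMap ℚ ℚ_[l]) (zetaSeries c p (D * j !)))
      (PowerSeries.mk fun n => ((e n : ℤ) : ℚ_[l])) := by
    intro n
    simp only [PowerSeries.coeff_map, zetaSeries, PowerSeries.coeff_mk]
    refine (he n).congr fun j => ?_
    simp
  have h2 := (h1.mul (CT_den hx J)) n
  rw [← map_pc] at h2
  refine h2.congr fun j => ?_
  have h3 := congrArg (PowerSeries.map (algebraMap ℚ ℚ_[l])) (hP j)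
  rw [map_mul, map_den] at h3
  have h4 : (algebraMap ℚ ℚ_[l]) ((p : ℚ) ^ (D * j !)) = (p : ℚ_[l]) ^ (D * j !) := by simp
  rw [h4] at h3
  beta_reduce
  rw [h3, PowerSeries.coeff_map, coeff_map, Polynomial.coeff_coe]

/-- The real numerator and the vanishing of `∑ p_n n^κ`. -/
lemma sum_pc_eq_zero (d κ M : ℕ) (J : List (ℤ × ℕ)) (hlen : J.length = d + κ)
    (e : ℕ → ℤ) (hM : ∀ n, M < n → pc J e n = 0)
    (hs : ∀ t : ℝ, 0 < t → t < 1 → Summable fun n => (e n : ℝ) * t ^ n)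
    (has : Tendsto (fun t : ℝ => (1 - t) ^ d * ∑' n, (e n : ℝ) * t ^ n) (𝓝[<] 1) (𝓝 0)) :
    ∑ n ∈ Finset.range (M + 1), (n : ℤ) ^ κ * pc J e n = 0 := by
  set PR : ℝ[X] := ∑ n ∈ Finset.range (M + 1), C (pc J e n : ℝ) * X ^ n with hPR
  have hcoeff : ∀ n, PR.coeff n = pc J e n := by
    intro n
    rw [hPR, finsetSum_coeff]
    simp only [coeff_C_mul, coeff_X_pow]
    by_cases hn : n ≤ M
    · rw [Finset.sum_eq_single n]
      · simp
      · intro b _ hb; simp [hb.symm]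
      · intro h; exact absurd (Finset.mem_range.2 (Nat.lt_succ_of_le hn)) h
    · rw [hM n (by omega)]
      rw [Finset.sum_eq_zero]
      · simp
      · intro b hb
        have : n ≠ b := by have := Finset.mem_range.1 hb; omega
        simp [this]
  have hdeg : PR.natDegree ≤ M := by
    rw [natDegree_le_iff_coeff_eq_zero]
    intro N hN
    rw [hcoeff, hM N hN]; simp
  have heval : ∀ t : ℝ, 0 < t → t < 1 → PR.eval t =
      (∑' n, (e n : ℝ) * t ^ n) * (J.map fun y => (1 - t ^ y.2)).prod := by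
    intro t h0 h1
    have h2 := hasSum_mul_den J (PowerSeries.mk fun n => ((e n : ℤ) : ℝ)) _ t (by
      simpa only [PowerSeries.coeff_mk] using (hs t h0 h1).hasSum)
    simp only [← map_pc] at h2
    refine HasSum.unique ?_ h2
    rw [eval_eq_sum_range' (Nat.lt_succ_of_le hdeg)]
    simp only [hcoeff]
    refine hasSum_sum_of_ne_finset_zero fun n hn => ?_
    rw [hM n (by simpa [Nat.lt_succ_iff] using hn)]
    simp
  have hq : ∀ J' : List (ℤ × ℕ), ∃ L : ℝ, Tendsto (fun t : ℝ =>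
      (J'.map fun y => (1 - t ^ y.2)).prod / (1 - t) ^ J'.length) (𝓝[<] 1) (𝓝 L) := by
    intro J'
    induction J' with
    | nil => exact ⟨1, by simp⟩
    | cons y J' ih =>
      obtain ⟨L, hL⟩ := ih
      have h1 : Tendsto (fun t : ℝ => ∑ i ∈ Finset.range y.2, t ^ i) (𝓝[<] 1)
          (𝓝 (∑ i ∈ Finset.range y.2, (1 : ℝ) ^ i)) := by
        have : Continuous fun t : ℝ => ∑ i ∈ Finset.range y.2, t ^ i := by fun_prop
        exact (this.tendsto 1).mono_left nhdsWithin_le_nhds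
      refine ⟨_, (h1.mul hL).congr' ?_⟩
      filter_upwards [self_mem_nhdsWithin] with t ht
      have h2 : (1 - t) ≠ 0 := (sub_pos.2 ht).ne'
      have h3 : (1 - t ^ y.2) = (∑ i ∈ Finset.range y.2, t ^ i) * (1 - t) := by
        rw [geom_sum_mul_neg]
      rw [List.map_cons, List.prod_cons, List.length_cons, h3, pow_succ]
      field_simp
  obtain ⟨L, hL⟩ := hq J
  have hlim : Tendsto (fun t => PR.eval t / (1 - t) ^ κ) (𝓝[<] 1) (𝓝 0) := by
    have h1 := has.mul hL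
    rw [zero_mul] at h1
    refine h1.congr' ?_
    filter_upwards [Ioo_mem_nhdsLT (zero_lt_one' ℝ)] with t ht
    have h2 : (1 - t) ≠ 0 := (sub_pos.2 ht.2).ne'
    rw [heval t ht.1 ht.2, hlen, pow_add]
    field_simp
  have h1 := sum_pow_eq_zero κ M PR hdeg (dvd_of_tendsto κ PR hlim)
  simp only [hcoeff] at h1
  exact_mod_cast h1

theorem aux {d : ℕ} (c : Fin d → Fin d → Fin d → ℤ) (p l : ℕ) [Fact p.Prime]
    [Fact l.Prime] (hpl : p ≠ l) (D : ℕ) (hD : 1 ≤ D) (S : Finset ℤ) (R : RatFunc ℚ)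
    (htop : TopConv c R l p D S)
    (J : List (ℤ × ℕ)) (hJ : ∀ x ∈ J, 1 ≤ x.2) (κ : ℕ) (hlen : J.length = d + κ) (M : ℕ)
    (hrat : ∀ f : ℕ, 1 ≤ f → ∃ P : Polynomial ℚ, P.natDegree ≤ M ∧
      zetaSeries c p f * (J.map fun x => (1 - PowerSeries.C (((p : ℚ) ^ f) ^ x.1) *
        PowerSeries.X ^ x.2 : PowerSeries ℚ)).prod = (P : PowerSeries ℚ))
    (e : ℕ → ℤ)
    (he : ∀ n : ℕ, Tendsto (fun j : ℕ =>
      (subCount c (OO p (D * j !)) (p ^ ((D * j !) * n)) : ℚ_[l])) atTop (𝓝 ((e n : ℤ) : ℚ_[l])))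
    (hs : ∀ t : ℝ, 0 < t → t < 1 → Summable fun n => (e n : ℝ) * t ^ n)
    (has : Tendsto (fun t : ℝ => (1 - t) ^ d * ∑' n, (e n : ℝ) * t ^ n) (𝓝[<] 1) (𝓝 0)) :
    R = 0 ∨ R.intDegree < -(d : ℤ) := by
  choose P hPM hP using fun j : ℕ => hrat (D * j !)
    (Nat.one_le_iff_ne_zero.2 (mul_ne_zero (by omega) j.factorial_ne_zero))
  have hcl := coeff_limit c p l hpl D J P hP e he
  have hM : ∀ n, M < n → pc J e n = 0 := by
    intro n hn
    have h1 := hcl n
    have h2 : (fun j => ((P j).map (algebraMap ℚ ℚ_[l])).coeff n) = fun _ => 0 := by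
      funext j
      rw [coeff_map, coeff_eq_zero_of_natDegree_lt (lt_of_le_of_lt (hPM j) hn), map_zero]
    rw [h2] at h1
    have h3 := tendsto_nhds_unique h1 tendsto_const_nhds
    exact_mod_cast h3
  have hsum := sum_pc_eq_zero d κ M J hlen e hM hs has
  obtain ⟨s0, hs0⟩ := exists_s0 S J hJ
  have hx := tendsto_x p l hpl D
  have hD0 : ∀ j : ℕ, D * j ! ≠ 0 := fun j => mul_ne_zero (by omega) j.factorial_ne_zero
  have hx0 : ∀ j : ℕ, (p : ℚ_[l]) ^ (D * j !) ≠ 0 := fun j => x_ne_zero p l _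
  have hx1 : ∀ j : ℕ, (p : ℚ_[l]) ^ (D * j !) ≠ 1 := fun j => x_ne_one p l (hD0 j)
  set G : ℕ → ℚ := fun n => R.eval (RingHom.id ℚ) ((s0 + n : ℤ) : ℚ) *
      (J.map fun x => ((x.2 : ℚ) * ((s0 + n : ℤ) : ℚ) - x.1)).prod with hG
  have hdiff : ∀ n, ∑ i ∈ Finset.range (κ + 1), ((-1 : ℚ) ^ (κ - i) * κ.choose i) * G (n + i) = 0 := by
    intro n
    have h1 : ∀ i : ℕ, Tendsto (fun j => ((P j).map (algebraMap ℚ ℚ_[l])).eval
        (((p : ℚ_[l]) ^ (D * j !)) ^ (-((s0 + n) + i : ℤ))) / ((p : ℚ_[l]) ^ (D * j !) - 1) ^ κ)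
        atTop (𝓝 ((G (n + i) : ℚ) : ℚ_[l])) := by
      intro i
      obtain ⟨h2, h3⟩ := hs0 ((s0 + n) + i) (by omega)
      have h4 := key_limit c p l hpl D hD S R htop J κ hlen P hP ((s0 + n) + i) h2 h3
      have e1 : ((s0 + (n + i : ℕ) : ℤ) : ℚ) = ((s0 + n + i : ℤ) : ℚ) := by push_cast; ring
      rw [hG]
      simp only [e1]
      exact h4
    have h2 : Tendsto (fun j => ∑ i ∈ Finset.range (κ + 1), ((-1 : ℚ_[l]) ^ (κ - i) * κ.choose i) *
        (((P j).map (algebraMap ℚ ℚ_[l])).eval (((p : ℚ_[l]) ^ (D * j !)) ^ (-((s0 + n) + i : ℤ))) /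
          ((p : ℚ_[l]) ^ (D * j !) - 1) ^ κ)) atTop
        (𝓝 (∑ i ∈ Finset.range (κ + 1), ((-1 : ℚ_[l]) ^ (κ - i) * κ.choose i) *
          ((G (n + i) : ℚ) : ℚ_[l]))) :=
      tendsto_finsetSum _ fun i _ => (h1 i).const_mul _
    have h3 : ∀ j, ∑ i ∈ Finset.range (κ + 1), ((-1 : ℚ_[l]) ^ (κ - i) * κ.choose i) *
        (((P j).map (algebraMap ℚ ℚ_[l])).eval (((p : ℚ_[l]) ^ (D * j !)) ^ (-((s0 + n) + i : ℤ))) /
          ((p : ℚ_[l]) ^ (D * j !) - 1) ^ κ) =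
        ∑ m ∈ Finset.range (M + 1), ((P j).map (algebraMap ℚ ℚ_[l])).coeff m *
          ((p : ℚ_[l]) ^ (D * j !)) ^ (-(m * (s0 + n) : ℤ)) *
          ((((p : ℚ_[l]) ^ (D * j !)) ^ (-(m : ℤ)) - 1) / ((p : ℚ_[l]) ^ (D * j !) - 1)) ^ κ :=
      fun j => fin_diff _ M (natDegree_map_le.trans (hPM j)) κ _ (hx0 j) (s0 + n)
    simp only [h3] at h2
    have h4 : Tendsto (fun j => ∑ m ∈ Finset.range (M + 1),
          ((P j).map (algebraMap ℚ ℚ_[l])).coeff m *
          ((p : ℚ_[l]) ^ (D * j !)) ^ (-(m * (s0 + n) : ℤ)) *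
          ((((p : ℚ_[l]) ^ (D * j !)) ^ (-(m : ℤ)) - 1) / ((p : ℚ_[l]) ^ (D * j !) - 1)) ^ κ)
        atTop (𝓝 (∑ m ∈ Finset.range (M + 1), ((pc J e m : ℤ) : ℚ_[l]) * 1 *
          (((-(m : ℤ) : ℤ)) : ℚ_[l]) ^ κ)) :=
      tendsto_finsetSum _ fun m _ => ((hcl m).mul (tendsto_zpow hx _)).mul
        ((tendsto_quot hx hx0 hx1 _).pow κ)
    have h5 := tendsto_nhds_unique h2 h4
    have h6 : (∑ m ∈ Finset.range (M + 1), ((pc J e m : ℤ) : ℚ_[l]) * 1 *
          (((-(m : ℤ) : ℤ)) : ℚ_[l]) ^ κ) =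
        (-1) ^ κ * ((∑ n ∈ Finset.range (M + 1), (n : ℤ) ^ κ * pc J e n : ℤ) : ℚ_[l]) := by
      push_cast
      rw [Finset.mul_sum]
      refine Finset.sum_congr rfl fun m _ => ?_
      rw [neg_pow]
      ring
    rw [h6, hsum, Int.cast_zero, mul_zero] at h5
    have h7 : ((∑ i ∈ Finset.range (κ + 1), ((-1 : ℚ) ^ (κ - i) * κ.choose i) * G (n + i) : ℚ) :
        ℚ_[l]) = 0 := by
      rw [← h5]
      push_cast
      rfl
    exact_mod_cast h7
  obtain ⟨Q, hQ1, hQ2⟩ := newton κ G hdiff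
  rcases ratfunc_concl R J hJ κ Q hQ1 s0 hQ2 with h | h
  · exact Or.inl h
  · right
    rw [hlen] at h
    push_cast at h
    linarith

end asm

end Pool.Agent.Lib.H70.Top.II

namespace Pool.Agent.Lib.H70.Top

open MeasureTheory Filter Topology II
open scoped ENNReal BigOperators Nat

theorem degree_drop {d : ℕ} (c : Fin d → Fin d → Fin d → ℤ) (p l : ℕ) [Fact p.Prime]
    [Fact l.Prime] (hpl : p ≠ l) (D : ℕ) (hD : 1 ≤ D) (S : Finset ℤ) (R : RatFunc ℚ)
    (htop : TopConv c R l p D S)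
    (J : List (ℤ × ℕ)) (hJ : ∀ x ∈ J, 1 ≤ x.2) (M : ℕ)
    (hrat : ∀ f : ℕ, 1 ≤ f → ∃ P : Polynomial ℚ, P.natDegree ≤ M ∧
      zetaSeries c p f * (J.map fun x => (1 - PowerSeries.C (((p : ℚ) ^ f) ^ x.1) *
        PowerSeries.X ^ x.2 : PowerSeries ℚ)).prod = (P : PowerSeries ℚ))
    (e : ℕ → ℤ)
    (he : ∀ n : ℕ, Tendsto (fun j : ℕ =>
      (subCount c (OO p (D * j !)) (p ^ ((D * j !) * n)) : ℚ_[l])) atTop (𝓝 ((e n : ℤ) : ℚ_[l])))
    (hs : ∀ t : ℝ, 0 < t → t < 1 → Summable fun n => (e n : ℝ) * t ^ n)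
    (has : Tendsto (fun t : ℝ => (1 - t) ^ d * ∑' n, (e n : ℝ) * t ^ n) (𝓝[<] 1) (𝓝 0)) :
    R = 0 ∨ R.intDegree < -(d : ℤ) := by
  refine aux c p l hpl D hD S R htop (List.replicate d (0, 1) ++ J) ?_ J.length (by simp) (M + d)
    ?_ e he hs has
  · intro x hx
    rcases List.mem_append.1 hx with hx | hx
    · rw [List.eq_of_mem_replicate hx]
    · exact hJ x hx
  · intro f hf
    obtain ⟨P, hP1, hP2⟩ := hrat f hf
    refine ⟨(1 - Polynomial.X) ^ d * P, ?_, ?_⟩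
    · refine (Polynomial.natDegree_mul_le).trans ?_
      have h1 : ((1 - Polynomial.X : Polynomial ℚ) ^ d).natDegree ≤ d := by
        refine (Polynomial.natDegree_pow_le).trans ?_
        have h2 : (1 - Polynomial.X : Polynomial ℚ).natDegree ≤ 1 := by
          refine (Polynomial.natDegree_sub_le _ _).trans ?_
          simp
        nlinarith
      omega
    · rw [List.map_append, List.prod_append, mul_left_comm, hP2]
      simp

end Pool.Agent.Lib.H70.Top
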