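import Pool.Agent.Lib.H70.Top.KCount

/-!
# Chunk K: the graded count
-/

namespace Pool.Agent.Lib.H70.Top.K

open Finset
open scoped BigOperators

variable {O k : Type*} [CommRing O] [IsDomain O] [Field k] (R : HDVR O k) [Fintype k]
  [DecidableEq k]

omit [IsDomain O] in
theorem Q_left (i : Fin 4) (h : Fin 2 → O) (z : O) :
    Q i h ![z, 1] = (h 0 - (aa i : O) * h 1) - (h 0 - (bb i : O) * h 1) * z ^ 2 := by
  simp [Q]

omit [IsDomain O] in
theorem Q_right (i : Fin 4) (h : Fin 2 → O) (z : O) :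
    Q i h ![1, z] = (h 0 - (aa i : O) * h 1) * z ^ 2 - (h 0 - (bb i : O) * h 1) := by
  simp [Q]

open Classical in
theorem inner_le (i : Fin 4) {x N w : ℕ} (hw : w ≤ x) (h : Fin 2 → O) :
    ∑ m ∈ PV R w, (if w ≤ x + N ∧ R.π ^ w ∣ R.π ^ x * Q i h m then (1 : ℤ) else 0)
      = (PP (Fintype.card k) w : ℤ) := by
  rw [← card_PV R w, card_eq_sum_ones]
  push_cast
  refine sum_congr rfl (fun m _ => ?_)
  rw [if_pos ⟨by omega, pow_dvd_of_le R hw _⟩]

omit [DecidableEq k] in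
open Classical in
theorem inner_gt (i : Fin 4) {x N w : ℕ} (hw : x + N < w) (h : Fin 2 → O) :
    ∑ m ∈ PV R w, (if w ≤ x + N ∧ R.π ^ w ∣ R.π ^ x * Q i h m then (1 : ℤ) else 0) = 0 := by
  refine sum_eq_zero (fun m _ => ?_)
  rw [if_neg]
  rintro ⟨h1, _⟩
  omega

omit [Fintype k] [DecidableEq k] in
theorem dvd_congr {j : ℕ} {u v : O} (h : R.π ^ j ∣ u - v) : R.π ^ j ∣ u ↔ R.π ^ j ∣ v := by
  have : u = (u - v) + v := by ring
  rw [this]
  exact dvd_add_right h

open Classical in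
theorem inner_mid (i : Fin 4) {x N w : ℕ} (hw : x < w) (hw2 : w ≤ x + N) (h : Fin 2 → O) :
    ∑ m ∈ PV R w, (if w ≤ x + N ∧ R.π ^ w ∣ R.π ^ x * Q i h m then (1 : ℤ) else 0)
      = (Fintype.card k : ℤ) ^ x *
        rr R (h 0 - (aa i : O) * h 1) (h 0 - (bb i : O) * h 1) (w - x) := by
  obtain ⟨j, rfl⟩ : ∃ j, w = x + j := ⟨w - x, by omega⟩
  have hj : 1 ≤ j := by omega
  have h1 : ∀ m ∈ PV R (x + j), (if x + j ≤ x + N ∧ R.π ^ (x + j) ∣ R.π ^ x * Q i h m
      then (1 : ℤ) else 0) = if R.π ^ j ∣ Q i h m then (1 : ℤ) else 0 := by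
    intro m _
    rw [pow_add_dvd]
    by_cases h2 : R.π ^ j ∣ Q i h m
    · rw [if_pos ⟨hw2, h2⟩, if_pos h2]
    · rw [if_neg (fun hh => h2 hh.2), if_neg h2]
  rw [sum_congr rfl h1, sum_PV_pos R (by omega), Nat.add_sub_cancel_left]
  simp only [Q_left, Q_right]
  unfold rr
  rw [sum_rep_lift R (j := j) (n := x + j) _ ?_ (by omega),
    sum_rep_lift R (j := j) (n := x + j) _ ?_ (by omega), Nat.add_sub_cancel, mul_add]
  · intro u v huv
    have h2 : R.π ∣ u ↔ R.π ∣ v := by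
      have := dvd_congr R (j := 1) (u := u) (v := v)
        (dvd_trans (pow_dvd_pow _ hj) huv)
      rwa [pow_one] at this
    have h3 : R.π ^ j ∣ (h 0 - (aa i : O) * h 1) * u ^ 2 - (h 0 - (bb i : O) * h 1) ↔
        R.π ^ j ∣ (h 0 - (aa i : O) * h 1) * v ^ 2 - (h 0 - (bb i : O) * h 1) := by
      apply dvd_congr
      have : (h 0 - (aa i : O) * h 1) * u ^ 2 - (h 0 - (bb i : O) * h 1)
          - ((h 0 - (aa i : O) * h 1) * v ^ 2 - (h 0 - (bb i : O) * h 1))
          = (u - v) * ((h 0 - (aa i : O) * h 1) * (u + v)) := by ring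
      rw [this]
      exact huv.mul_right _
    simp only [h2, h3]
  · intro u v huv
    have h3 : R.π ^ j ∣ (h 0 - (aa i : O) * h 1) - (h 0 - (bb i : O) * h 1) * u ^ 2 ↔
        R.π ^ j ∣ (h 0 - (aa i : O) * h 1) - (h 0 - (bb i : O) * h 1) * v ^ 2 := by
      apply dvd_congr
      have : (h 0 - (aa i : O) * h 1) - (h 0 - (bb i : O) * h 1) * u ^ 2
          - ((h 0 - (aa i : O) * h 1) - (h 0 - (bb i : O) * h 1) * v ^ 2)
          = (u - v) * (-((h 0 - (bb i : O) * h 1) * (u + v))) := by ring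
      rw [this]
      exact huv.mul_right _
    simp only [h3]

omit [Fintype k] [DecidableEq k] in
theorem cast_ne (hk : ∀ m : ℕ, 1 ≤ m → m ≤ 7 → (m : k) ≠ 0) {u v : ℕ} (hu : u ≤ 7) (hv : v ≤ 7)
    (huv : u ≠ v) : (u : k) ≠ (v : k) := by
  intro h
  rcases Nat.lt_or_gt_of_ne huv with h1 | h1
  · obtain ⟨d, rfl⟩ : ∃ d, v = u + d := ⟨v - u, by omega⟩
    refine hk d (by omega) (by omega) ?_
    push_cast at h
    linear_combination -h
  · obtain ⟨d, rfl⟩ : ∃ d, u = v + d := ⟨u - v, by omega⟩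
    refine hk d (by omega) (by omega) ?_
    push_cast at h
    linear_combination h

omit [Fintype k] [DecidableEq k] in
theorem aa_cast (i : Fin 4) : ((aa i : ℤ) : k) = ((2 * (i : ℕ) : ℕ) : k) := by
  simp [aa]

omit [Fintype k] [DecidableEq k] in
theorem bb_cast (i : Fin 4) : ((bb i : ℤ) : k) = ((2 * (i : ℕ) + 1 : ℕ) : k) := by
  simp [bb]

omit [Fintype k] [DecidableEq k] in
theorem aa_ne_aa (hk : ∀ m : ℕ, 1 ≤ m → m ≤ 7 → (m : k) ≠ 0) {i i' : Fin 4} (h : i ≠ i') :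
    ((aa i : ℤ) : k) ≠ ((aa i' : ℤ) : k) := by
  rw [aa_cast, aa_cast]
  have h1 := i.2
  have h2 := i'.2
  have h3 : (i : ℕ) ≠ (i' : ℕ) := fun hh => h (Fin.ext hh)
  exact cast_ne hk (by omega) (by omega) (by omega)

omit [Fintype k] [DecidableEq k] in
theorem bb_ne_bb (hk : ∀ m : ℕ, 1 ≤ m → m ≤ 7 → (m : k) ≠ 0) {i i' : Fin 4} (h : i ≠ i') :
    ((bb i : ℤ) : k) ≠ ((bb i' : ℤ) : k) := by
  rw [bb_cast, bb_cast]
  have h1 := i.2
  have h2 := i'.2
  have h3 : (i : ℕ) ≠ (i' : ℕ) := fun hh => h (Fin.ext hh)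
  exact cast_ne hk (by omega) (by omega) (by omega)

omit [Fintype k] [DecidableEq k] in
theorem aa_ne_bb (hk : ∀ m : ℕ, 1 ≤ m → m ≤ 7 → (m : k) ≠ 0) (i i' : Fin 4) :
    ((aa i : ℤ) : k) ≠ ((bb i' : ℤ) : k) := by
  rw [aa_cast, bb_cast]
  have h1 := i.2
  have h2 := i'.2
  exact cast_ne hk (by omega) (by omega) (by omega)

/-- the local factor -/
def fac (i : Fin 4) (c : k) : ℤ := 1 + quadraticChar k ((c - (aa i : k)) * (c - (bb i : k)))

theorem rr_eq_fac (hk : ∀ m : ℕ, 1 ≤ m → m ≤ 7 → (m : k) ≠ 0) (i : Fin 4) {t : O} {c : k}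
    (ht : R.res t = c) (hca : c ≠ (aa i : k)) (hcb : c ≠ (bb i : k)) {j : ℕ} (hj : 1 ≤ j) :
    rr R (t - (aa i : O)) (t - (bb i : O)) j = fac i c := by
  have h2 : (2 : k) ≠ 0 := by exact_mod_cast hk 2 (by omega) (by omega)
  have ha : R.res (t - (aa i : O)) = c - (aa i : k) := by rw [map_sub, ht, map_intCast]
  have hb : R.res (t - (bb i : O)) = c - (bb i : k) := by rw [map_sub, ht, map_intCast]
  rw [rr_unit R h2 (by rw [ha]; exact sub_ne_zero.mpr hca)
    (by rw [hb]; exact sub_ne_zero.mpr hcb) hj, ha, hb]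
  rfl

theorem fac_branch (i : Fin 4) {c : k} (h : c = (aa i : k) ∨ c = (bb i : k)) :
    fac i c = 1 := by
  unfold fac
  rcases h with h | h <;> rw [h] <;> simp

open Classical in
/-- the contribution of one residue class -/
theorem class_sum (hk : ∀ m : ℕ, 1 ≤ m → m ≤ 7 → (m : k) ≠ 0) {N : ℕ} (hN : 1 ≤ N)
    (I : Finset (Fin 4)) (j : Fin 4 → ℕ) (hj : ∀ i ∈ I, 1 ≤ j i ∧ j i ≤ N) (c : k) :
    ∑ t ∈ Rep R N, (if R.res t = c then
      ∏ i ∈ I, rr R (t - (aa i : O)) (t - (bb i : O)) (j i) else 0)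
      = (Fintype.card k : ℤ) ^ (N - 1) * ∏ i ∈ I, fac i c := by
  by_cases hbr : ∃ i₀ ∈ I, c = (aa i₀ : k) ∨ c = (bb i₀ : k)
  · obtain ⟨i₀, hi₀, hc⟩ := hbr
    have hothers : ∀ t, R.res t = c → ∏ i ∈ I.erase i₀, rr R (t - (aa i : O)) (t - (bb i : O)) (j i)
        = ∏ i ∈ I.erase i₀, fac i c := by
      intro t ht
      refine prod_congr rfl (fun i hi => ?_)
      rw [mem_erase] at hi
      refine rr_eq_fac R hk i ht ?_ ?_ (hj i hi.2).1
      · rcases hc with hc | hc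
        · rw [hc]; exact aa_ne_aa hk (Ne.symm hi.1)
        · rw [hc]; exact (aa_ne_bb hk _ _).symm
      · rcases hc with hc | hc
        · rw [hc]; exact aa_ne_bb hk _ _
        · rw [hc]; exact bb_ne_bb hk (Ne.symm hi.1)
    have h1 : ∀ t ∈ Rep R N, (if R.res t = c then
        ∏ i ∈ I, rr R (t - (aa i : O)) (t - (bb i : O)) (j i) else 0)
        = (∏ i ∈ I.erase i₀, fac i c) * (if R.res t = c then
          rr R (t - (aa i₀ : O)) (t - (bb i₀ : O)) (j i₀) else 0) := by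
      intro t _
      by_cases ht : R.res t = c
      · rw [if_pos ht, if_pos ht, ← mul_prod_erase I _ hi₀, hothers t ht, mul_comm]
      · rw [if_neg ht, if_neg ht, mul_zero]
    rw [sum_congr rfl h1, ← mul_sum, ← mul_prod_erase I _ hi₀, fac_branch i₀ hc, one_mul, mul_comm]
    congr 1
    have hab : R.res ((aa i₀ : ℤ) : O) ≠ R.res ((bb i₀ : ℤ) : O) := by
      rw [map_intCast, map_intCast]
      exact aa_ne_bb hk i₀ i₀
    rcases hc with hc | hc
    · have := branch_a R hab (hj i₀ hi₀).1 (hj i₀ hi₀).2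
      rw [map_intCast R.res (aa i₀), ← hc] at this
      exact this
    · have := branch_b R hab (hj i₀ hi₀).1 (hj i₀ hi₀).2
      rw [map_intCast R.res (bb i₀), ← hc] at this
      exact this
  · push Not at hbr
    have h1 : ∀ t ∈ Rep R N, (if R.res t = c then
        ∏ i ∈ I, rr R (t - (aa i : O)) (t - (bb i : O)) (j i) else 0)
        = (∏ i ∈ I, fac i c) * (if R.res t = c then (1 : ℤ) else 0) := by
      intro t _
      by_cases ht : R.res t = c
      · rw [if_pos ht, if_pos ht, mul_one]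
        refine prod_congr rfl (fun i hi => ?_)
        exact rr_eq_fac R hk i ht (hbr i hi).1 (hbr i hi).2 (hj i hi).1
      · rw [if_neg ht, if_neg ht, mul_zero]
    rw [sum_congr rfl h1, ← mul_sum, sum_rep_res R hN, mul_comm]

theorem main_sum (hk : ∀ m : ℕ, 1 ≤ m → m ≤ 7 → (m : k) ≠ 0) {N : ℕ} (hN : 1 ≤ N)
    (I : Finset (Fin 4)) (j : Fin 4 → ℕ) (hj : ∀ i ∈ I, 1 ≤ j i ∧ j i ≤ N) :
    ∑ h ∈ PV R N, ∏ i ∈ I, rr R (h 0 - (aa i : O) * h 1) (h 0 - (bb i : O) * h 1) (j i)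
      = (Fintype.card k : ℤ) ^ (N - 1) * SI k I := by
  classical
  rw [sum_PV_pos R hN]
  simp only [Matrix.cons_val_zero, Matrix.cons_val_one, Matrix.cons_val_fin_one, mul_one]
  unfold SI
  rw [mul_add]
  congr 1
  · have hgroup : ∀ t ∈ Rep R N, ∏ i ∈ I, rr R (t - (aa i : O)) (t - (bb i : O)) (j i)
        = ∑ c : k, (if R.res t = c then
          ∏ i ∈ I, rr R (t - (aa i : O)) (t - (bb i : O)) (j i) else 0) := by
      intro t _
      rw [sum_ite_eq]
      simp
    rw [sum_congr rfl hgroup, sum_comm, mul_sum]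
    exact sum_congr rfl (fun c _ => class_sum R hk hN I j hj c)
  · have h2 : (2 : k) ≠ 0 := by exact_mod_cast hk 2 (by omega) (by omega)
    have h1 : ∀ t ∈ Rep R N, (if R.π ∣ t then
        ∏ i ∈ I, rr R (1 - (aa i : O) * t) (1 - (bb i : O) * t) (j i) else 0)
        = 2 ^ I.card * (if R.π ∣ t then (1 : ℤ) else 0) := by
      intro t _
      by_cases ht : R.π ∣ t
      · rw [if_pos ht, if_pos ht, mul_one]
        have ht0 : R.res t = 0 := (R.ker t).mpr ht
        rw [prod_congr rfl (g := fun _ => (2 : ℤ)), prod_const]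
        intro i hi
        have ha : R.res (1 - (aa i : O) * t) = 1 := by
          rw [map_sub, map_mul, ht0, map_one, mul_zero, sub_zero]
        have hb : R.res (1 - (bb i : O) * t) = 1 := by
          rw [map_sub, map_mul, ht0, map_one, mul_zero, sub_zero]
        rw [rr_unit R h2 (by rw [ha]; exact one_ne_zero) (by rw [hb]; exact one_ne_zero)
          (hj i hi).1, ha, hb, mul_one, map_one]
        norm_num
      · rw [if_neg ht, if_neg ht, mul_zero]
    rw [sum_congr rfl h1, ← mul_sum, sum_rep_dvd R hN, mul_comm]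

open Classical in
theorem term_eq (hk : ∀ m : ℕ, 1 ≤ m → m ≤ 7 → (m : k) ≠ 0) (x N : ℕ) (w : Fin 4 → ℕ) :
    ∑ h ∈ PV R N, ∏ i, ∑ m ∈ PV R (w i),
      (if w i ≤ x + N ∧ R.π ^ (w i) ∣ R.π ^ x * Q i h m then (1 : ℤ) else 0)
      = gTerm k x N w := by
  unfold gTerm
  rcases Nat.eq_zero_or_pos N with rfl | hN
  · rw [if_pos rfl, sum_PV_zero]
    by_cases hall : ∀ i, w i ≤ x
    · rw [if_pos hall]
      exact prod_congr rfl (fun i _ => inner_le R i (hall i) _)
    · rw [if_neg hall]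
      push Not at hall
      obtain ⟨i, hi⟩ := hall
      exact prod_eq_zero (mem_univ i) (inner_gt R i (by omega) _)
  · rw [if_neg (by omega)]
    by_cases hall : ∀ i, w i ≤ x + N
    · rw [if_pos hall]
      have h1 : ∀ h ∈ PV R N, ∏ i, ∑ m ∈ PV R (w i),
          (if w i ≤ x + N ∧ R.π ^ (w i) ∣ R.π ^ x * Q i h m then (1 : ℤ) else 0)
          = ((∏ i ∈ univ.filter (fun i => w i ≤ x), (PP (Fintype.card k) (w i) : ℤ)) *
            (Fintype.card k : ℤ) ^ (x * (univ.filter (fun i => x < w i)).card)) *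
            ∏ i ∈ univ.filter (fun i => x < w i),
              rr R (h 0 - (aa i : O) * h 1) (h 0 - (bb i : O) * h 1) (w i - x) := by
        intro h _
        rw [← prod_filter_mul_prod_filter_not univ (fun i => w i ≤ x), mul_assoc]
        congr 1
        · refine prod_congr rfl (fun i hi => ?_)
          exact inner_le R i (mem_filter.mp hi).2 h
        · have hf : univ.filter (fun i => ¬ w i ≤ x) = univ.filter (fun i => x < w i) := by
            ext i; simp
          rw [hf, pow_mul, ← prod_const, ← prod_mul_distrib]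
          refine prod_congr rfl (fun i hi => ?_)
          exact inner_mid R i (mem_filter.mp hi).2 (hall i) h
      rw [sum_congr rfl h1, ← mul_sum, main_sum R hk hN _ (fun i => w i - x) ?_]
      · rw [pow_add]
        ring
      · intro i hi
        have h2 := (mem_filter.mp hi).2
        have h3 := hall i
        change 1 ≤ w i - x ∧ w i - x ≤ N
        omega
    · rw [if_neg hall]
      push Not at hall
      obtain ⟨i, hi⟩ := hall
      refine sum_eq_zero (fun h _ => ?_)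
      exact prod_eq_zero (mem_univ i) (inner_gt R i hi _)

end Pool.Agent.Lib.H70.Top.K

namespace Pool.Agent.Lib.H70.Top

open scoped BigOperators

theorem gradedCount_eq {O k : Type*} [CommRing O] [IsDomain O] [Field k] [Fintype k]
    [DecidableEq k] (R : HDVR O k) (hk : ∀ m : ℕ, 1 ≤ m → m ≤ 7 → (m : k) ≠ 0) (n : ℕ) :
    (gradedCount O (Fintype.card k ^ n) : ℤ) = ∑ t ∈ boxes n, gTerm k t.1 t.2.1 t.2.2.2 := by
  classical
  rw [K.gradedCount_sum R]
  refine Finset.sum_congr rfl (fun t _ => ?_)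
  rw [← K.term_eq R hk]
  refine Finset.sum_congr rfl (fun h _ => Finset.prod_congr rfl (fun i _ =>
    Finset.sum_congr rfl (fun m _ => ?_)))
  by_cases hc : K.Cond R t h i m
  · rw [if_pos hc, if_pos (show t.2.2.2 i ≤ t.1 + t.2.1 ∧
      R.π ^ (t.2.2.2 i) ∣ R.π ^ t.1 * K.Q i h m from hc)]
  · rw [if_neg hc, if_neg (show ¬ (t.2.2.2 i ≤ t.1 + t.2.1 ∧
      R.π ^ (t.2.2.2 i) ∣ R.π ^ t.1 * K.Q i h m) from hc)]

end Pool.Agent.Lib.H70.Top
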