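import Pool.Agent.Lib.H70.Top.LFun

/-!
# Character sums over finite extensions
-/

namespace Pool.Agent.Lib.H70.Top.L

open Polynomial Finset
open scoped BigOperators Classical IntermediateField

variable {F K : Type*} [Field F] [Fintype F] [Field K] [Fintype K] [DecidableEq K] [Algebra F K]

theorem ringChar_ne (hF : ringChar F ≠ 2) : ringChar K ≠ 2 := by
  rwa [← Algebra.ringChar_eq F K]

/-- the quadratic character and the norm -/
theorem quadraticChar_norm (hF : ringChar F ≠ 2) (y : K) :
    quadraticChar K y = quadraticChar F (Algebra.norm F y) := by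
  have hK : ringChar K ≠ 2 := ringChar_ne (F := F) hF
  rcases eq_or_ne y 0 with rfl | hy
  · rw [Algebra.norm_zero, quadraticChar_zero, quadraticChar_zero]
  have hn : Algebra.norm F y ≠ 0 := Algebra.norm_ne_zero_iff.2 hy
  have h1 := quadraticChar_eq_pow_of_char_ne_two' hK y
  have h2 := quadraticChar_eq_pow_of_char_ne_two' hF (Algebra.norm F y)
  have h3 := congrArg (algebraMap F K) h2
  rw [map_intCast, map_pow, FiniteField.algebraMap_norm_eq_pow, ← pow_mul] at h3
  have hcard : ((Nat.card K - 1) / (Nat.card F - 1)) * (Fintype.card F / 2) =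
      Fintype.card K / 2 := by
    rw [Nat.card_eq_fintype_card, Nat.card_eq_fintype_card]
    have ho1 : Fintype.card F % 2 = 1 := FiniteField.odd_card_of_char_ne_two hF
    have ho2 : Fintype.card K % 2 = 1 := FiniteField.odd_card_of_char_ne_two hK
    have h4 : Fintype.card K = Fintype.card F ^ Module.finrank F K :=
      Module.card_eq_pow_finrank
    have h5 : (Fintype.card F - 1) ∣ (Fintype.card K - 1) := by
      rw [h4]
      simpa using Nat.sub_dvd_pow_sub_pow (Fintype.card F) 1 (Module.finrank F K)
    obtain ⟨t, ht⟩ := h5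
    have h6 : 1 < Fintype.card F := Fintype.one_lt_card
    rw [ht, Nat.mul_div_cancel_left _ (by omega)]
    obtain ⟨a, ha⟩ : ∃ a, Fintype.card F = 2 * a + 1 := ⟨Fintype.card F / 2, by omega⟩
    obtain ⟨b, hb⟩ : ∃ b, Fintype.card K = 2 * b + 1 := ⟨Fintype.card K / 2, by omega⟩
    rw [ha, hb] at ht ⊢
    simp only [Nat.add_sub_cancel] at ht
    have h7 : b = a * t := by
      apply Nat.eq_of_mul_eq_mul_left (show 0 < 2 by norm_num)
      rw [ht]; ring
    rw [show (2 * a + 1) / 2 = a by omega, show (2 * b + 1) / 2 = b by omega, h7, mul_comm]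
  rw [hcard, ← h1] at h3
  -- both are ±1
  have hne : (1 : K) ≠ -1 := by
    intro h
    exact Ring.neg_one_ne_one_of_char_ne_two hK h.symm
  rcases quadraticChar_dichotomy hy with h | h <;> rcases quadraticChar_dichotomy hn with h' | h' <;>
    rw [h, h'] at h3 ⊢
  · push_cast at h3; exact absurd h3.symm hne
  · push_cast at h3; exact absurd h3 hne

theorem norm_sub_algebraMap (x : K) (β : F) :
    Algebra.norm F (x - algebraMap F K β) =
      ((-1) ^ (minpoly F x).natDegree * (minpoly F x).eval β) ^
        (Module.finrank F K / (minpoly F x).natDegree) := by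
  set y := x - algebraMap F K β with hy
  have hint : IsIntegral F x := Algebra.IsIntegral.isIntegral x
  have hinty : IsIntegral F y := Algebra.IsIntegral.isIntegral y
  have hmin : minpoly F y = (minpoly F x).comp (X + C β) := minpoly.sub_algebraMap x β
  have hdeg : (minpoly F y).natDegree = (minpoly F x).natDegree := by
    rw [hmin, natDegree_comp, natDegree_X_add_C, mul_one]
  rw [Algebra.norm_eq_norm_adjoin]
  have hgen : Algebra.norm F (IntermediateField.AdjoinSimple.gen F y) =
      (-1) ^ (minpoly F x).natDegree * (minpoly F x).eval β := by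
    have := Algebra.PowerBasis.norm_gen_eq_coeff_zero_minpoly
      (IntermediateField.adjoin.powerBasis hinty)
    rw [IntermediateField.adjoin.powerBasis_gen, IntermediateField.adjoin.powerBasis_dim,
      IntermediateField.minpoly_gen, hdeg] at this
    rw [this, coeff_zero_eq_eval_zero, hmin, eval_comp, eval_add, eval_X, eval_C, zero_add]
  rw [hgen]
  congr 1
  have h1 := Module.finrank_mul_finrank F F⟮y⟯ K
  rw [IntermediateField.adjoin.finrank hinty, hdeg] at h1
  have hpos : 0 < (minpoly F x).natDegree := minpoly.natDegree_pos hint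
  rw [← h1, Nat.mul_div_cancel_left _ hpos]

theorem quadraticChar_prod (hF : ringChar F ≠ 2) (B : Finset F) (hB : Even B.card) (x : K) :
    quadraticChar K (∏ β ∈ B, (x - algebraMap F K β)) =
      chi B (minpoly F x) ^ (Module.finrank F K / (minpoly F x).natDegree) := by
  rw [quadraticChar_norm hF, map_prod]
  simp only [norm_sub_algebraMap]
  rw [Finset.prod_pow, map_pow]
  congr 1
  rw [Finset.prod_mul_distrib, Finset.prod_const, ← pow_mul, mul_comm _ B.card,
    pow_mul, hB.neg_one_pow, one_pow, one_mul, map_prod]
  rfl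

theorem splits_aux : Splits ((X ^ Fintype.card K - X : K[X])) := by
  rw [splits_iff_card_roots, FiniteField.roots_X_pow_card_sub_X K,
    FiniteField.X_pow_card_sub_X_natDegree_eq K Fintype.one_lt_card]
  rfl

theorem splits_of_dvd_finrank (P : F[X]) (hi : Irreducible P)
    (hdvd : P.natDegree ∣ Module.finrank F K) : Splits (P.map (algebraMap F K)) := by
  have h1 : P ∣ X ^ (Nat.card F) ^ (Module.finrank F K) - X :=
    (hi.natDegree_dvd_iff_dvd_X_pow_card_pow_sub_X).1 hdvd
  have hcard : Nat.card F ^ Module.finrank F K = Fintype.card K := by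
    rw [Nat.card_eq_fintype_card]; exact Module.card_eq_pow_finrank.symm
  rw [hcard] at h1
  have h2 : (X ^ Fintype.card K - X : F[X]).map (algebraMap F K) = X ^ Fintype.card K - X := by
    rw [Polynomial.map_sub, Polynomial.map_pow, Polynomial.map_X]
  have h3 := Polynomial.map_dvd (algebraMap F K) h1
  rw [h2] at h3
  exact Splits.of_dvd splits_aux
    (FiniteField.X_pow_card_sub_X_ne_zero K Fintype.one_lt_card) h3

theorem card_fiber (P : F[X]) (hm : P.Monic) (hi : Irreducible P) :
    ((Finset.univ : Finset K).filter fun x => minpoly F x = P).card =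
      if P.natDegree ∣ Module.finrank F K then P.natDegree else 0 := by
  have hiff : ∀ x : K, minpoly F x = P ↔ aeval x P = 0 := by
    intro x
    constructor
    · rintro rfl; exact minpoly.aeval F x
    · intro h; exact (minpoly.eq_of_irreducible_of_monic hi h hm).symm
  split_ifs with hdvd
  · have h3 := splits_of_dvd_finrank (K := K) P hi hdvd
    have h4 : P.Separable := PerfectField.separable_of_irreducible hi
    have h5 := card_rootSet_eq_natDegree (K := K) h4 h3
    have h6 : (Finset.univ : Finset K).filter (fun x => minpoly F x = P) =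
        (P.rootSet K).toFinset := by
      ext x
      rw [Finset.mem_filter, Set.mem_toFinset, mem_rootSet, hiff]
      exact ⟨fun h => ⟨hi.ne_zero, h.2⟩, fun h => ⟨Finset.mem_univ _, h.2⟩⟩
    rw [h6, Set.toFinset_card, h5]
  · rw [Finset.card_eq_zero, Finset.filter_eq_empty_iff]
    intro x _ hx
    apply hdvd
    rw [← hx]
    exact minpoly.degree_dvd (Algebra.IsIntegral.isIntegral x)

/-- the character sum over `K` in terms of closed points -/
theorem charSum_eq (hF : ringChar F ≠ 2) (B : Finset F) (hB : Even B.card) :
    ∑ x : K, quadraticChar K (∏ β ∈ B, (x - algebraMap F K β)) =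
      SS B (Module.finrank F K) := by
  have hmaps : ∀ x ∈ (Finset.univ : Finset K), minpoly F x ∈ Irr F (Module.finrank F K) := by
    intro x _
    have hint : IsIntegral F x := Algebra.IsIntegral.isIntegral x
    exact mem_Irr.2 ⟨minpoly.monic hint, minpoly.irreducible hint,
      Nat.le_of_dvd Module.finrank_pos (minpoly.degree_dvd hint)⟩
  rw [← Finset.sum_fiberwise_of_maps_to hmaps, SS]
  apply Finset.sum_congr rfl
  intro P hP
  obtain ⟨h1, h2, h3⟩ := mem_Irr.1 hP
  have h4 : ∀ x ∈ (Finset.univ : Finset K).filter (fun x => minpoly F x = P),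
      quadraticChar K (∏ β ∈ B, (x - algebraMap F K β)) =
        chi B P ^ (Module.finrank F K / P.natDegree) := by
    intro x hx
    rw [Finset.mem_filter] at hx
    rw [quadraticChar_prod hF B hB, hx.2]
  rw [Finset.sum_congr rfl h4, Finset.sum_const, card_fiber P h1 h2, nsmul_eq_mul]
  split_ifs
  · rfl
  · simp

end Pool.Agent.Lib.H70.Top.L
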