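import Mathlib

/-!
# Periodicity of linear recurrences modulo `l^r` and `l`-adic limits along `D * j!`
-/

namespace Pool.Agent.Lib.H70.Top.L

open Filter Topology
open scoped Nat BigOperators

/-- A linear recurrence with constant coefficients, whose last coefficient is invertible mod `N`,
is purely periodic mod `N`. -/
theorem exists_period {N : ℕ} [NeZero N] (m : ℕ) (c : ℕ → ℤ) (b : ℕ → ℤ) (h0 : c 0 = 1)
    (hu : IsUnit ((c m : ℤ) : ZMod N))
    (hrec : ∀ n, ∑ i ∈ Finset.range (m + 1), c i * b (n + (m - i)) = 0) :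
    ∃ π : ℕ, 1 ≤ π ∧ ∀ n, ((b (n + π) : ℤ) : ZMod N) = ((b n : ℤ) : ZMod N) := by
  -- the recurrence mod N
  have hrec' : ∀ n, ∑ i ∈ Finset.range (m + 1),
      ((c i : ℤ) : ZMod N) * ((b (n + (m - i)) : ℤ) : ZMod N) = 0 := by
    intro n
    have := congrArg (fun z : ℤ => (z : ZMod N)) (hrec n)
    simpa using this
  -- forward
  have hfwd : ∀ n n', (∀ i < m, ((b (n + i) : ℤ) : ZMod N) = ((b (n' + i) : ℤ) : ZMod N)) →
      ((b (n + m) : ℤ) : ZMod N) = ((b (n' + m) : ℤ) : ZMod N) := by
    intro n n' h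
    have h1 := hrec' n
    have h2 := hrec' n'
    rw [Finset.sum_range_succ'] at h1 h2
    have h3 : ∑ i ∈ Finset.range m, ((c (i + 1) : ℤ) : ZMod N) *
        ((b (n + (m - (i + 1))) : ℤ) : ZMod N) = ∑ i ∈ Finset.range m,
        ((c (i + 1) : ℤ) : ZMod N) * ((b (n' + (m - (i + 1))) : ℤ) : ZMod N) := by
      apply Finset.sum_congr rfl
      intro i hi
      rw [Finset.mem_range] at hi
      rw [h (m - (i + 1)) (by omega)]
    rw [h3] at h1
    have h4 := h1.trans h2.symm
    have h5 := add_left_cancel h4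
    simpa [h0] using h5
  -- backward
  have hbwd : ∀ n n', (∀ i < m, ((b (n + 1 + i) : ℤ) : ZMod N) =
      ((b (n' + 1 + i) : ℤ) : ZMod N)) →
      ((b n : ℤ) : ZMod N) = ((b n' : ℤ) : ZMod N) := by
    intro n n' h
    have h1 := hrec' n
    have h2 := hrec' n'
    rw [Finset.sum_range_succ] at h1 h2
    have h3 : ∑ i ∈ Finset.range m, ((c i : ℤ) : ZMod N) *
        ((b (n + (m - i)) : ℤ) : ZMod N) = ∑ i ∈ Finset.range m,
        ((c i : ℤ) : ZMod N) * ((b (n' + (m - i)) : ℤ) : ZMod N) := by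
      apply Finset.sum_congr rfl
      intro i hi
      rw [Finset.mem_range] at hi
      have := h (m - i - 1) (by omega)
      rw [show n + 1 + (m - i - 1) = n + (m - i) by omega,
        show n' + 1 + (m - i - 1) = n' + (m - i) by omega] at this
      rw [this]
    rw [h3] at h1
    have h4 := h1.trans h2.symm
    have h5 := add_left_cancel h4
    simpa using hu.mul_left_cancel h5
  -- pigeonhole
  obtain ⟨n1, n2, hne, heq⟩ := Finite.exists_ne_map_eq_of_infinite
    (fun n : ℕ => fun i : Fin m => ((b (n + i) : ℤ) : ZMod N))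
  wlog hlt : n1 < n2 generalizing n1 n2
  · exact this n2 n1 hne.symm heq.symm (by omega)
  have hst : ∀ i < m, ((b (n1 + i) : ℤ) : ZMod N) = ((b (n2 + i) : ℤ) : ZMod N) := by
    intro i hi
    exact congrFun heq ⟨i, hi⟩
  -- go down to zero
  have hdown : ∀ k, k ≤ n1 → ∀ i < m, ((b (n1 - k + i) : ℤ) : ZMod N) =
      ((b (n2 - k + i) : ℤ) : ZMod N) := by
    intro k
    induction k with
    | zero => intro _ i hi; simpa using hst i hi
    | succ k ih =>
      intro hk i hi
      have ih' := ih (by omega)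
      rcases Nat.eq_zero_or_pos i with rfl | hpos
      · have := hbwd (n1 - (k + 1)) (n2 - (k + 1)) (by
          intro i hi
          have := ih' i hi
          rwa [show n1 - (k + 1) + 1 + i = n1 - k + i by omega,
            show n2 - (k + 1) + 1 + i = n2 - k + i by omega])
        simpa using this
      · have := ih' (i - 1) (by omega)
        rwa [show n1 - k + (i - 1) = n1 - (k + 1) + i by omega,
          show n2 - k + (i - 1) = n2 - (k + 1) + i by omega] at this
  have h0' := hdown n1 le_rfl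
  refine ⟨n2 - n1, by omega, ?_⟩
  have hup : ∀ n, ∀ i ≤ n, ((b i : ℤ) : ZMod N) = ((b (n2 - n1 + i) : ℤ) : ZMod N) := by
    intro n
    induction n with
    | zero =>
      intro i hi
      obtain rfl : i = 0 := by omega
      rcases Nat.eq_zero_or_pos m with rfl | hm
      · have := hfwd 0 (n2 - n1) (by intro i hi; omega)
        simpa using this
      · simpa using h0' 0 hm
    | succ n ih =>
      intro i hi
      rcases Nat.lt_or_ge i m with him | him
      · simpa using h0' i him
      · rcases Nat.eq_or_lt_of_le hi with rfl | hlt'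
        · have := hfwd (n + 1 - m) (n2 - n1 + (n + 1 - m)) (by
            intro i hi
            have := ih (n + 1 - m + i) (by omega)
            rwa [← add_assoc] at this)
          rwa [show n + 1 - m + m = n + 1 by omega,
            show n2 - n1 + (n + 1 - m) + m = n2 - n1 + (n + 1) by omega] at this
        · exact ih i (by omega)
  intro n
  rw [add_comm, ← hup n n le_rfl]

/-- periodicity mod all powers of `l` implies convergence along `D * j!` to the value at `0` -/
theorem tendsto_of_period (l : ℕ) [Fact l.Prime] (D : ℕ) (b : ℕ → ℤ)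
    (hper : ∀ r : ℕ, ∃ π : ℕ, 1 ≤ π ∧ ∀ n, ((b (n + π) : ℤ) : ZMod (l ^ r)) =
      ((b n : ℤ) : ZMod (l ^ r))) :
    Tendsto (fun j : ℕ => ((b (D * j !) : ℤ) : ℚ_[l])) atTop (𝓝 ((b 0 : ℤ) : ℚ_[l])) := by
  rw [Metric.tendsto_atTop]
  intro ε hε
  obtain ⟨r, hr⟩ := exists_pow_lt_of_lt_one hε (show ((l : ℝ)⁻¹) < 1 by
    apply inv_lt_one_of_one_lt₀
    exact_mod_cast (Fact.out : l.Prime).one_lt)
  obtain ⟨π, hπ, hp⟩ := hper r
  refine ⟨π, fun j hj => ?_⟩
  have hmul : ∀ k, ((b (k * π) : ℤ) : ZMod (l ^ r)) = ((b 0 : ℤ) : ZMod (l ^ r)) := by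
    intro k
    induction k with
    | zero => simp
    | succ k ih => rw [Nat.succ_mul, hp, ih]
  obtain ⟨k, hk⟩ := (Nat.dvd_factorial hπ hj).mul_left D
  have h1 : ((b (D * j !) : ℤ) : ZMod (l ^ r)) = ((b 0 : ℤ) : ZMod (l ^ r)) := by
    rw [hk, mul_comm]; exact hmul k
  rw [ZMod.intCast_eq_intCast_iff_dvd_sub] at h1
  rw [dist_eq_norm, ← Int.cast_sub]
  refine lt_of_le_of_lt ?_ hr
  have h2 : ((l ^ r : ℕ) : ℤ) ∣ b (D * j !) - b 0 := by
    have := (dvd_neg (α := ℤ)).2 h1
    rwa [neg_sub] at this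
  have := (Padic.norm_int_le_pow_iff_dvd (p := l) (b (D * j !) - b 0) r).2 (by exact_mod_cast h2)
  refine this.trans (le_of_eq ?_)
  rw [zpow_neg, zpow_natCast, inv_pow]

/-- powers of a number prime to `l` -/
theorem tendsto_pow (l : ℕ) [Fact l.Prime] (D : ℕ) (p : ℕ) (hp : p.Coprime l) :
    Tendsto (fun j : ℕ => (((p : ℤ) ^ (D * j !) : ℤ) : ℚ_[l])) atTop (𝓝 1) := by
  have := tendsto_of_period l D (fun n => (p : ℤ) ^ n) (by
    intro r
    have : NeZero (l ^ r) := ⟨pow_ne_zero _ (Fact.out : l.Prime).ne_zero⟩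
    refine exists_period 1 (fun i => if i = 0 then 1 else -(p : ℤ)) _ (by simp) ?_ ?_
    · simp only [one_ne_zero, if_false, Int.cast_neg, Int.cast_natCast, IsUnit.neg_iff]
      exact (ZMod.isUnit_iff_coprime p (l ^ r)).2 (hp.pow_right r)
    · intro n
      simp [Finset.sum_range_succ, pow_succ]
      ring)
  simpa using this

end Pool.Agent.Lib.H70.Top.L
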