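import Pool.Agent.Lib.H70.Top.LFun

/-!
# Vanishing and the last coefficient of the `L`-function
-/

namespace Pool.Agent.Lib.H70.Top.L

open Polynomial Finset
open scoped BigOperators Classical

variable {F : Type*} [Field F] [Fintype F]

theorem LL_vanish (hF : ringChar F ≠ 2) (B : Finset F) (hB : B.Nonempty) {n : ℕ}
    (hn : B.card ≤ n) : LL B n = 0 := by
  obtain ⟨β, hβ⟩ := hB
  set Q : F[X] := ∏ b ∈ B.erase β, (X - C b) with hQ
  have hQd : Q.degree < ((n : ℕ) : WithBot ℕ) := by
    rw [hQ, degree_prod]
    simp only [degree_X_sub_C, Finset.sum_const, nsmul_one, Finset.card_erase_of_mem hβ]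
    have : 0 < B.card := Finset.card_pos.2 ⟨β, hβ⟩
    exact_mod_cast (show B.card - 1 < n by omega)
  have hQβ : Q.eval β ≠ 0 := by
    rw [hQ, eval_prod, Finset.prod_ne_zero_iff]
    intro b hb
    rw [eval_sub, eval_X, eval_C, sub_ne_zero]
    exact fun h => (Finset.ne_of_mem_erase hb) h.symm
  have hQb : ∀ b ∈ B.erase β, Q.eval b = 0 := by
    intro b hb
    rw [hQ, eval_prod]
    apply Finset.prod_eq_zero hb
    rw [eval_sub, eval_X, eval_C, sub_self]
  have hshift : ∀ c : F, LL B n = ∑ h ∈ Mon F n, chi B (h + C c * Q) := by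
    intro c
    rw [LL]
    symm
    have hcd : ∀ c : F, (C c * Q).degree < ((n : ℕ) : WithBot ℕ) := by
      intro c
      refine lt_of_le_of_lt ?_ hQd
      rw [degree_mul]
      calc (C c).degree + Q.degree ≤ 0 + Q.degree := add_le_add_left degree_C_le _
        _ = Q.degree := zero_add _
    have hmem : ∀ (c : F) (h : F[X]), h ∈ Mon F n → h + C c * Q ∈ Mon F n := by
      intro c h hh
      obtain ⟨h1, h2⟩ := mem_Mon.1 hh
      have h3 : (C c * Q).degree < h.degree := by
        rw [degree_eq_natDegree h1.ne_zero, h2]; exact hcd c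
      refine mem_Mon.2 ⟨h1.add_of_left h3, ?_⟩
      rw [natDegree_add_eq_left_of_degree_lt h3, h2]
    apply Finset.sum_bij' (fun h _ => h + C c * Q) (fun h _ => h + C (-c) * Q)
    · intro h hh; exact hmem c h hh
    · intro h hh; exact hmem (-c) h hh
    · intro h _; rw [C_neg]; ring
    · intro h _; rw [C_neg]; ring
    · intro h _; rfl
  have hinner : ∀ h : F[X], ∑ c : F, chi B (h + C c * Q) = 0 := by
    intro h
    have h1 : ∀ c : F, chi B (h + C c * Q) =
        quadraticChar F (h.eval β + c * Q.eval β) *
          ∏ b ∈ B.erase β, quadraticChar F (h.eval b) := by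
      intro c
      rw [chi, ← Finset.mul_prod_erase B _ hβ]
      congr 1
      · rw [eval_add, eval_mul, eval_C]
      · apply Finset.prod_congr rfl
        intro b hb
        rw [eval_add, eval_mul, hQb b hb, mul_zero, add_zero]
    rw [Finset.sum_congr rfl (fun c _ => h1 c), ← Finset.sum_mul]
    have h2 : ∑ c : F, quadraticChar F (h.eval β + c * Q.eval β) = 0 := by
      rw [← quadraticChar_sum_zero hF]
      apply Fintype.sum_bijective (fun c : F => h.eval β + c * Q.eval β)
      · constructor
        · intro a b hab
          exact mul_right_cancel₀ hQβ (add_left_cancel hab)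
        · intro y
          exact ⟨(y - h.eval β) / Q.eval β, by field_simp; ring⟩
      · intro c; rfl
    rw [h2, zero_mul]
  have hsum : (Fintype.card F : ℤ) * LL B n = 0 := by
    calc (Fintype.card F : ℤ) * LL B n = ∑ c : F, LL B n := by
          rw [Finset.sum_const, Finset.card_univ, nsmul_eq_mul]
      _ = ∑ c : F, ∑ h ∈ Mon F n, chi B (h + C c * Q) :=
          Finset.sum_congr rfl fun c _ => hshift c
      _ = ∑ h ∈ Mon F n, ∑ c : F, chi B (h + C c * Q) := Finset.sum_comm
      _ = 0 := Finset.sum_eq_zero fun h _ => hinner h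
  rcases mul_eq_zero.1 hsum with h | h
  · exact absurd h (by exact_mod_cast Fintype.card_ne_zero)
  · exact h

/-- sums of products of characters over `∑ y = c` -/
noncomputable def WW (r : ℕ) (c : F) : ℤ :=
  ∑ y : Fin r → F, if ∑ i, y i = c then ∏ i, quadraticChar F (y i) else 0

theorem WW_succ (r : ℕ) (c : F) :
    WW (r + 1) c = ∑ a : F, quadraticChar F a * WW r (c - a) := by
  rw [WW, ← (Fin.consEquiv (fun _ => F)).sum_comp]
  rw [Fintype.sum_prod_type]
  apply Finset.sum_congr rfl
  intro a _
  rw [WW, Finset.mul_sum]
  apply Finset.sum_congr rfl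
  intro y _
  simp only [Fin.consEquiv_apply, Fin.sum_univ_succ, Fin.prod_univ_succ, Fin.cons_zero,
    Fin.cons_succ]
  by_cases h : ∑ i, y i = c - a
  · rw [if_pos h, if_pos (by rw [h]; ring)]
  · rw [if_neg h, if_neg, mul_zero]
    intro h'
    exact h (by rw [← h']; ring)

theorem conv_chi (hF : ringChar F ≠ 2) (c : F) :
    ∑ a : F, quadraticChar F a * quadraticChar F (c - a) =
      quadraticChar F (-1) * ((if c = 0 then (Fintype.card F : ℤ) else 0) - 1) := by
  by_cases hc : c = 0
  · subst hc
    rw [if_pos rfl]
    have h1 : ∀ a : F, quadraticChar F a * quadraticChar F (0 - a) =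
        if a = 0 then 0 else quadraticChar F (-1) := by
      intro a
      split_ifs with ha
      · rw [ha, quadraticChar_zero, zero_mul]
      · rw [zero_sub, ← map_mul, show a * -a = (-1) * a ^ 2 by ring, map_mul,
          quadraticChar_sq_one' ha, mul_one]
    rw [Finset.sum_congr rfl (fun a _ => h1 a), Finset.sum_ite, Finset.sum_const_zero, zero_add,
      Finset.sum_const, Finset.filter_ne', Finset.card_erase_of_mem (Finset.mem_univ _),
      Finset.card_univ, nsmul_eq_mul, Nat.cast_sub Fintype.card_pos]
    push_cast
    ring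
  · rw [if_neg hc]
    have h1 : ∑ a : F, quadraticChar F a * quadraticChar F (c - a) =
        jacobiSum (quadraticChar F) (quadraticChar F) := by
      rw [jacobiSum]
      symm
      apply Fintype.sum_bijective (fun a : F => c * a)
      · exact mulLeft_bijective₀ c hc
      · intro a
        rw [show c - c * a = c * (1 - a) by ring, map_mul, map_mul]
        have := quadraticChar_sq_one hc
        linear_combination (-(quadraticChar F a * quadraticChar F (1 - a))) * this
    rw [h1]
    have h2 := jacobiSum_nontrivial_inv (quadraticChar_ne_one hF)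
    rw [(quadraticChar_isQuadratic F).inv] at h2
    rw [h2]
    ring

theorem WW_even (hF : ringChar F ≠ 2) (s : ℕ) (c : F) :
    WW (2 * (s + 1)) c = (quadraticChar F (-1)) ^ (s + 1) * (Fintype.card F : ℤ) ^ s *
      ((if c = 0 then (Fintype.card F : ℤ) else 0) - 1) := by
  have hodd : ∀ (r : ℕ) (A : ℤ), (∀ c : F, WW r c = A *
      ((if c = 0 then (Fintype.card F : ℤ) else 0) - 1)) →
      ∀ c : F, WW (r + 1) c = A * (Fintype.card F : ℤ) * quadraticChar F c := by
    intro r A hA c
    rw [WW_succ]
    simp only [hA]
    have h1 : ∀ a : F, quadraticChar F a *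
        (A * ((if c - a = 0 then (Fintype.card F : ℤ) else 0) - 1)) =
        (if a = c then A * (Fintype.card F : ℤ) * quadraticChar F c else 0) -
          A * quadraticChar F a := by
      intro a
      by_cases h : a = c
      · subst h; rw [if_pos rfl, sub_self, if_pos rfl]; ring
      · rw [if_neg h, if_neg (fun h' => h (sub_eq_zero.1 h').symm)]; ring
    rw [Finset.sum_congr rfl (fun a _ => h1 a), Finset.sum_sub_distrib, ← Finset.mul_sum,
      quadraticChar_sum_zero hF, mul_zero, sub_zero, Finset.sum_ite_eq' Finset.univ c,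
      if_pos (Finset.mem_univ _)]
  have heven : ∀ (r : ℕ) (A : ℤ), (∀ c : F, WW r c = A * quadraticChar F c) →
      ∀ c : F, WW (r + 1) c = A * quadraticChar F (-1) *
        ((if c = 0 then (Fintype.card F : ℤ) else 0) - 1) := by
    intro r A hA c
    rw [WW_succ]
    simp only [hA]
    rw [mul_assoc, ← conv_chi hF, Finset.mul_sum]
    apply Finset.sum_congr rfl
    intro a _
    ring
  have hone : ∀ c : F, WW 1 c = 1 * quadraticChar F c := by
    intro c
    rw [WW_succ, one_mul]
    have h1 : ∀ a : F, quadraticChar F a * WW 0 (c - a) =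
        if a = c then quadraticChar F c else 0 := by
      intro a
      rw [WW]
      simp only [Finset.univ_unique, Finset.univ_eq_empty, Finset.sum_empty,
        Finset.prod_empty, Finset.sum_singleton]
      by_cases h : a = c
      · subst h; rw [if_pos (sub_self _).symm, if_pos rfl, mul_one]
      · rw [if_neg h, if_neg (fun h' => h (sub_eq_zero.1 h'.symm).symm), mul_zero]
    rw [Finset.sum_congr rfl (fun a _ => h1 a), Finset.sum_ite_eq' Finset.univ c,
      if_pos (Finset.mem_univ _)]
  induction s generalizing c with
  | zero =>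
    have := heven 1 1 hone c
    rw [zero_add, mul_one, pow_one, pow_zero, mul_one]
    rw [this, one_mul]
  | succ s ih =>
    have h1 := hodd _ _ ih
    have h2 := heven _ _ h1 c
    rw [show 2 * (s + 1 + 1) = 2 * (s + 1) + 1 + 1 by ring, h2]
    ring

/-- the last coefficient -/
theorem LL_last (hF : ringChar F ≠ 2) (B : Finset F) {s : ℕ} (hB : B.card = 2 * (s + 1)) :
    ∃ ε : ℤ, (ε = 1 ∨ ε = -1) ∧ LL B (B.card - 1) = ε * (Fintype.card F : ℤ) ^ s := by
  set w : F → F := fun β => (∏ j ∈ B.erase β, (β - j))⁻¹ with hw
  have hwne : ∀ β ∈ B, w β ≠ 0 := by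
    intro β _
    rw [hw]
    apply inv_ne_zero
    rw [Finset.prod_ne_zero_iff]
    intro j hj
    rw [sub_ne_zero]
    exact (Finset.ne_of_mem_erase hj).symm
  have hcoef : ∀ h : F[X], h.degree < B.card → h.coeff (B.card - 1) = ∑ β ∈ B, w β * h.eval β := by
    intro h hh
    rw [Lagrange.coeff_eq_sum (s := B) (v := id) Function.injective_id.injOn hh]
    apply Finset.sum_congr rfl
    intro β _
    simp only [id, hw]
    rw [div_eq_inv_mul]
  -- sum over value vectors
  have h1 : LL B (B.card - 1) = ∑ v : B → F, if ∑ β : B, w β * v β = 1 then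
      ∏ β : B, quadraticChar F (v β) else 0 := by
    rw [← Finset.sum_filter, LL]
    apply Finset.sum_bij (fun h _ => fun β : B => h.eval (β : F))
    · intro h hh
      obtain ⟨h1, h2⟩ := mem_Mon.1 hh
      rw [Finset.mem_filter]
      refine ⟨Finset.mem_univ _, ?_⟩
      have h3 := hcoef h (by
        rw [degree_eq_natDegree h1.ne_zero, h2]
        exact_mod_cast (show B.card - 1 < B.card by omega))
      rw [← h2, coeff_natDegree, h1.leadingCoeff] at h3
      rw [h3, ← Finset.sum_coe_sort B]
    · intro a ha b hb hab
      obtain ⟨ha1, ha2⟩ := mem_Mon.1 ha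
      obtain ⟨hb1, hb2⟩ := mem_Mon.1 hb
      apply Polynomial.eq_of_degree_sub_lt_of_eval_finset_eq B
      · have hdeg : a.degree = b.degree := by
          rw [degree_eq_natDegree ha1.ne_zero, degree_eq_natDegree hb1.ne_zero, ha2, hb2]
        refine (degree_sub_lt_left hdeg ha1.ne_zero (by rw [ha1.leadingCoeff,
          hb1.leadingCoeff])).trans ?_
        rw [degree_eq_natDegree ha1.ne_zero, ha2]
        exact_mod_cast (show B.card - 1 < B.card by omega)
      · intro x hx
        exact congrFun hab ⟨x, hx⟩
    · intro v hv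
      rw [Finset.mem_filter] at hv
      set r : F → F := fun x => if hx : x ∈ B then v ⟨x, hx⟩ else 0 with hr
      set h := Lagrange.interpolate B id r with hh
      have hinj : Set.InjOn (id : F → F) (B : Set F) := Function.injective_id.injOn
      have hdeg : h.degree < B.card := Lagrange.degree_interpolate_lt r hinj
      have hval : ∀ β : B, h.eval (β : F) = v β := by
        intro β
        have := Lagrange.eval_interpolate_at_node r hinj β.2
        rw [id] at this
        rw [hh, this, hr]
        simp
      have hc : h.coeff (B.card - 1) = 1 := by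
        rw [hcoef h hdeg, ← Finset.sum_coe_sort B, ← hv.2]
        apply Finset.sum_congr rfl
        intro β _
        rw [hval]
      have hle : h.natDegree ≤ B.card - 1 := by
        rcases eq_or_ne h 0 with h0 | h0
        · rw [h0]; simp
        · rw [degree_eq_natDegree h0] at hdeg
          have : h.natDegree < B.card := by exact_mod_cast hdeg
          omega
      refine ⟨h, mem_Mon.2 ⟨monic_of_natDegree_le_of_coeff_eq_one _ hle hc, ?_⟩, ?_⟩
      · apply le_antisymm hle
        apply le_natDegree_of_ne_zero
        rw [hc]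
        exact one_ne_zero
      · funext β
        exact hval β
    · intro h _
      rw [chi, ← Finset.prod_coe_sort B]
  -- rescale
  have e : B ≃ Fin (2 * (s + 1)) := B.equivFin.trans (finCongr hB)
  have h2 : LL B (B.card - 1) = (∏ β : B, quadraticChar F (w β)) * WW (2 * (s + 1)) (1 : F) := by
    rw [h1, WW, Finset.mul_sum]
    let E : (B → F) ≃ (Fin (2 * (s + 1)) → F) :=
      { toFun := fun v i => w (e.symm i) * v (e.symm i)
        invFun := fun y β => (w β)⁻¹ * y (e β)
        left_inv := by
          intro v
          funext β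
          simp only [Equiv.symm_apply_apply]
          rw [← mul_assoc, inv_mul_cancel₀ (hwne β β.2), one_mul]
        right_inv := by
          intro y
          funext i
          simp only [Equiv.apply_symm_apply]
          rw [← mul_assoc, mul_inv_cancel₀ (hwne _ (e.symm i).2), one_mul] }
    rw [← E.sum_comp]
    apply Finset.sum_congr rfl
    intro v _
    have h3 : ∑ i, E v i = ∑ β : B, w β * v β := by
      rw [← e.symm.sum_comp (fun β : B => w β * v β)]
      rfl
    have h4 : ∏ i, quadraticChar F (E v i) = ∏ β : B, (quadraticChar F (w β) *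
        quadraticChar F (v β)) := by
      rw [← e.symm.prod_comp (fun β : B => quadraticChar F (w β) * quadraticChar F (v β))]
      apply Finset.prod_congr rfl
      intro i _
      show quadraticChar F (w (e.symm i) * v (e.symm i)) = _
      rw [map_mul]
    rw [h3, h4, Finset.prod_mul_distrib]
    have h5 : (∏ β : B, quadraticChar F (w β)) * (∏ β : B, quadraticChar F (w β)) = 1 := by
      rw [← Finset.prod_mul_distrib]
      apply Finset.prod_eq_one
      intro β _
      rw [← sq]
      exact quadraticChar_sq_one (hwne β β.2)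
    split_ifs
    · linear_combination (-(∏ β : B, quadraticChar F (v β))) * h5
    · rw [mul_zero]
  rw [h2, WW_even hF, if_neg one_ne_zero]
  have hpm : ∀ x : F, x ≠ 0 → (quadraticChar F x = 1 ∨ quadraticChar F x = -1) := fun x hx =>
    quadraticChar_dichotomy hx
  have hpmprod : (∏ β : B, quadraticChar F (w β)) = 1 ∨ (∏ β : B, quadraticChar F (w β)) = -1 := by
    have h5 : (∏ β : B, quadraticChar F (w β)) ^ 2 = 1 := by
      rw [← Finset.prod_pow]
      apply Finset.prod_eq_one
      intro β _
      exact quadraticChar_sq_one (hwne β β.2)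
    have h6 : ((∏ β : B, quadraticChar F (w β)) - 1) *
        ((∏ β : B, quadraticChar F (w β)) + 1) = 0 := by linear_combination h5
    rcases mul_eq_zero.1 h6 with h | h
    · left; linarith
    · right; linarith
  have hm1 : (quadraticChar F (-1)) ^ (s + 1) = 1 ∨ (quadraticChar F (-1)) ^ (s + 1) = -1 := by
    rcases hpm (-1) (by norm_num) with h | h
    · left; rw [h, one_pow]
    · rw [h]; exact neg_one_pow_eq_or ℤ (s + 1)
  refine ⟨-((∏ β : B, quadraticChar F (w β)) * (quadraticChar F (-1)) ^ (s + 1)), ?_, by ring⟩
  rcases hpmprod with h | h <;> rcases hm1 with h' | h' <;> rw [h, h'] <;> simp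

end Pool.Agent.Lib.H70.Top.L
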