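import Pool.Agent.Lib.H70.Top.Base
import Pool.Agent.Lib.H70.Top.LPeriod
import Pool.Agent.Lib.H70.Top.LVal
import Pool.Agent.Lib.H70.Top.LExt

/-!
# Chunk L: `l`-adic limit of the character sums
-/

namespace Pool.Agent.Lib.H70.Top

open Filter Topology
open scoped Nat BigOperators

namespace L

/-- the nodes `2 i`, `2 i + 1` -/
def node (x : Fin 4 × Fin 2) : ℕ := 2 * (x.1 : ℕ) + (x.2 : ℕ)

/-- the finite set of nodes attached to `S` -/
def BS (p : ℕ) (S : Finset (Fin 4)) : Finset (ZMod p) :=
  (S ×ˢ (Finset.univ : Finset (Fin 2))).image fun x => ((node x : ℕ) : ZMod p)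

theorem node_inj {p : ℕ} (hp : 7 < p) :
    Function.Injective fun x : Fin 4 × Fin 2 => ((node x : ℕ) : ZMod p) := by
  intro x y h
  have hx : node x < p := by unfold node; omega
  have hy : node y < p := by unfold node; omega
  have h1 : node x = node y := by
    have h2 := (ZMod.natCast_eq_natCast_iff' _ _ _).1 h
    rwa [Nat.mod_eq_of_lt hx, Nat.mod_eq_of_lt hy] at h2
  unfold node at h1
  ext <;> omega

theorem card_BS {p : ℕ} (hp : 7 < p) (S : Finset (Fin 4)) : (BS p S).card = 2 * S.card := by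
  rw [BS, Finset.card_image_of_injective _ (node_inj hp), Finset.card_product, Finset.card_univ,
    Fintype.card_fin, mul_comm]

theorem prod_BS {p : ℕ} [Fact p.Prime] (hp : 7 < p) (S : Finset (Fin 4)) {K : Type*} [Field K]
    [Algebra (ZMod p) K] (x : K) :
    ∏ β ∈ BS p S, (x - algebraMap (ZMod p) K β) =
      ∏ i ∈ S, ((x - ((aa i : ℤ) : K)) * (x - ((bb i : ℤ) : K))) := by
  rw [BS, Finset.prod_image (fun a _ b _ h => node_inj hp h), Finset.prod_product]
  apply Finset.prod_congr rfl
  intro i _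
  rw [Fin.prod_univ_two]
  simp only [map_natCast, node, aa, bb]
  push_cast
  simp

/-- the interpolating sequence -/
noncomputable def bS (p : ℕ) [Fact p.Prime] (S : Finset (Fin 4)) (n : ℕ) : ℤ :=
  if S = ∅ then (p : ℤ) ^ n else if n = 0 then 1 - 2 * S.card else SS (BS p S) n

theorem bS_zero (p : ℕ) [Fact p.Prime] (S : Finset (Fin 4)) : bS p S 0 = 1 - 2 * S.card := by
  rw [bS]
  split_ifs with h h
  · rw [h]; simp
  · rfl
  · exact absurd rfl h

theorem ringChar_zmod {p : ℕ} [Fact p.Prime] (hp : 7 < p) : ringChar (ZMod p) ≠ 2 := by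
  rw [ZMod.ringChar_zmod_n]; omega

theorem bS_period (p l : ℕ) [Fact p.Prime] [Fact l.Prime] (hp : 7 < p) (hpl : p ≠ l)
    (S : Finset (Fin 4)) (r : ℕ) : ∃ π : ℕ, 1 ≤ π ∧ ∀ n, ((bS p S (n + π) : ℤ) : ZMod (l ^ r)) =
      ((bS p S n : ℤ) : ZMod (l ^ r)) := by
  have hl0 : NeZero (l ^ r) := ⟨pow_ne_zero _ (Fact.out : l.Prime).ne_zero⟩
  have hcop : Nat.Coprime p (l ^ r) :=
    Nat.Coprime.pow_right r ((Nat.coprime_primes Fact.out Fact.out).2 hpl)
  have hpu : IsUnit ((p : ℕ) : ZMod (l ^ r)) := (ZMod.isUnit_iff_coprime p (l ^ r)).2 hcop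
  by_cases hS : S = ∅
  · refine exists_period 1 (fun i => if i = 0 then 1 else -(p : ℤ)) _ (by simp) ?_ ?_
    · simp only [one_ne_zero, if_false, Int.cast_neg, Int.cast_natCast, IsUnit.neg_iff]
      exact hpu
    · intro n
      simp only [bS, if_pos hS]
      simp [Finset.sum_range_succ, pow_succ]
      ring
  · have hcard := card_BS hp S
    have hSc : 0 < S.card := Finset.card_pos.2 (Finset.nonempty_iff_ne_empty.2 hS)
    obtain ⟨s, hs⟩ : ∃ s, S.card = s + 1 := ⟨S.card - 1, by omega⟩
    have hB : (BS p S).Nonempty := by rw [← Finset.card_pos]; omega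
    refine exists_period ((BS p S).card - 1) (LL (BS p S)) _ (LL_zero _) ?_ ?_
    · obtain ⟨ε, hε, h1⟩ := LL_last (ringChar_zmod hp) (BS p S) (s := s) (by rw [hcard, hs])
      rw [h1, ZMod.card]
      push_cast
      apply IsUnit.mul
      · rcases hε with rfl | rfl
        · simp
        · simp
      · exact hpu.pow s
    · intro n
      have hv : ∀ i, (BS p S).card ≤ i → LL (BS p S) i = 0 := fun i hi =>
        LL_vanish (ringChar_zmod hp) _ hB hi
      set m := (BS p S).card - 1 with hm
      have hm1 : 1 ≤ m := by omega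
      have hman := mangoldt (BS p S) (n + m)
      -- reindex k ↦ n + m - k
      have h2 : ∑ k ∈ Finset.Icc 1 (n + m), SS (BS p S) k * LL (BS p S) (n + m - k) =
          ∑ i ∈ Finset.range (n + m), LL (BS p S) i * SS (BS p S) (n + m - i) := by
        apply Finset.sum_bij' (fun k _ => n + m - k) (fun i _ => n + m - i)
        · intro k hk; rw [Finset.mem_Icc] at hk; rw [Finset.mem_range]; omega
        · intro i hi; rw [Finset.mem_range] at hi; rw [Finset.mem_Icc]; omega
        · intro k hk; rw [Finset.mem_Icc] at hk; omega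
        · intro i hi; rw [Finset.mem_range] at hi; omega
        · intro k hk
          rw [Finset.mem_Icc] at hk
          rw [show n + m - (n + m - k) = k by omega, mul_comm]
      rw [h2] at hman
      rcases Nat.eq_zero_or_pos n with rfl | hn
      · rw [Finset.sum_range_succ]
        have h3 : ∑ i ∈ Finset.range m, LL (BS p S) i * bS p S (0 + (m - i)) =
            ∑ i ∈ Finset.range m, LL (BS p S) i * SS (BS p S) (0 + m - i) := by
          apply Finset.sum_congr rfl
          intro i hi
          rw [Finset.mem_range] at hi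
          rw [bS, if_neg hS, if_neg (by omega), show 0 + (m - i) = 0 + m - i by omega]
        rw [zero_add] at h3 hman
        simp only [zero_add] at h3 ⊢
        rw [h3, ← hman, Nat.sub_self, bS_zero]
        have h4 : (m : ℤ) = 2 * S.card - 1 := by rw [hm, hcard]; omega
        rw [h4]
        ring
      · rw [hv (n + m) (by omega), mul_zero] at hman
        have h3 : ∑ i ∈ Finset.range (m + 1), LL (BS p S) i * bS p S (n + (m - i)) =
            ∑ i ∈ Finset.range (m + 1), LL (BS p S) i * SS (BS p S) (n + m - i) := by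
          apply Finset.sum_congr rfl
          intro i hi
          rw [Finset.mem_range] at hi
          rw [bS, if_neg hS, if_neg (by omega), show n + (m - i) = n + m - i by omega]
        rw [h3, hman]
        apply Finset.sum_subset
        · intro i hi
          rw [Finset.mem_range] at hi ⊢
          omega
        · intro i _ hi
          rw [Finset.mem_range] at hi
          rw [hv i (by omega), zero_mul]

theorem SI_eq (p : ℕ) [Fact p.Prime] (hp : 7 < p) {n : ℕ} (hn : 1 ≤ n)
    (inst : Fintype (GaloisField p n)) (inst' : DecidableEq (GaloisField p n))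
    (I : Finset (Fin 4)) :
    SI (GaloisField p n) I = ∑ S ∈ I.powerset, bS p S n + 2 ^ I.card := by
  rw [SI]
  congr 1
  have h1 : ∀ x : GaloisField p n, ∏ i ∈ I, (1 + quadraticChar (GaloisField p n)
      ((x - ((aa i : ℤ) : GaloisField p n)) * (x - ((bb i : ℤ) : GaloisField p n)))) =
      ∑ S ∈ I.powerset, quadraticChar (GaloisField p n)
        (∏ β ∈ BS p S, (x - algebraMap (ZMod p) (GaloisField p n) β)) := by
    intro x
    rw [Finset.prod_one_add]
    apply Finset.sum_congr rfl
    intro S _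
    rw [prod_BS hp, map_prod]
  rw [Finset.sum_congr rfl (fun x _ => h1 x), Finset.sum_comm]
  apply Finset.sum_congr rfl
  intro S _
  have hfin : Module.finrank (ZMod p) (GaloisField p n) = n := GaloisField.finrank p (by omega)
  by_cases hS : S = ∅
  · subst hS
    have : BS p ∅ = ∅ := by simp [BS]
    rw [this, bS, if_pos rfl]
    simp only [Finset.prod_empty, map_one, Finset.sum_const, Finset.card_univ, nsmul_eq_mul,
      mul_one]
    have hc := GaloisField.card p n (by omega)
    rw [Nat.card_eq_fintype_card] at hc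
    rw [hc]
    push_cast
    ring
  · rw [charSum_eq (ringChar_zmod hp) (BS p S) (by rw [card_BS hp]; exact even_two_mul _), hfin,
      bS, if_neg hS, if_neg (by omega)]

theorem powerset_sum (I : Finset (Fin 4)) :
    ∑ S ∈ I.powerset, (1 - 2 * (S.card : ℤ)) + 2 ^ I.card = 2 ^ I.card * (2 - (I.card : ℤ)) := by
  revert I
  decide

end L

theorem SI_tendsto (p l : ℕ) [Fact p.Prime] [Fact l.Prime] (hp : 7 < p) (hpl : p ≠ l) (D : ℕ)
    (hD : 1 ≤ D) (inst : ∀ f, Fintype (GaloisField p f)) (inst' : ∀ f, DecidableEq (GaloisField p f))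
    (I : Finset (Fin 4)) :
    Tendsto (fun j : ℕ => ((SI (GaloisField p (D * j !)) I : ℤ) : ℚ_[l])) atTop
      (𝓝 (((2 ^ I.card * (2 - I.card) : ℤ)) : ℚ_[l])) := by
  have h1 : ∀ j : ℕ, SI (GaloisField p (D * j !)) I =
      ∑ S ∈ I.powerset, L.bS p S (D * j !) + 2 ^ I.card := fun j =>
    L.SI_eq p hp (Nat.mul_pos hD (Nat.factorial_pos j)) _ _ I
  simp only [h1]
  have h2 : Tendsto (fun j : ℕ => ∑ S ∈ I.powerset, ((L.bS p S (D * j !) : ℤ) : ℚ_[l]) +
      ((2 ^ I.card : ℤ) : ℚ_[l])) atTop
      (𝓝 (∑ S ∈ I.powerset, ((L.bS p S 0 : ℤ) : ℚ_[l]) + ((2 ^ I.card : ℤ) : ℚ_[l]))) := by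
    apply Tendsto.add _ tendsto_const_nhds
    apply tendsto_finsetSum
    intro S _
    exact L.tendsto_of_period l D (L.bS p S) (L.bS_period p l hp hpl S)
  have h3 : (∑ S ∈ I.powerset, ((L.bS p S 0 : ℤ) : ℚ_[l]) + ((2 ^ I.card : ℤ) : ℚ_[l])) =
      (((2 ^ I.card * (2 - I.card) : ℤ)) : ℚ_[l]) := by
    rw [← L.powerset_sum I]
    simp only [L.bS_zero]
    push_cast
    rfl
  rw [← h3]
  refine h2.congr fun j => ?_
  push_cast
  rfl

end Pool.Agent.Lib.H70.Top
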