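import Pool.Agent.Lib.H70.Top.J
import Pool.Agent.Lib.H70.Top.K
import Pool.Agent.Lib.H70.Top.L
import Pool.Agent.Lib.H70.Top.I

/-!
# The limit of the number of subalgebras
-/

namespace Pool.Agent.Lib.H70.Top

open Filter Topology
open scoped BigOperators Nat

theorem count_tendsto (p l : ℕ) [Fact p.Prime] [Fact l.Prime] (hp : 7 < p) (hpl : p ≠ l)
    (D : ℕ) (hD : 1 ≤ D) (n : ℕ) :
    Tendsto (fun j : ℕ => (subCount cA (OO p (D * j !)) (p ^ ((D * j !) * n)) : ℚ_[l])) atTop
      (𝓝 ((eCoef n : ℤ) : ℚ_[l])) := by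
  classical
  let inst : ∀ f, Fintype (GaloisField p f) := fun f => Fintype.ofFinite _
  have hx := II.tendsto_x p l hpl D
  have hF : ∀ j : ℕ, 1 ≤ D * j ! := fun j => Nat.mul_pos hD (Nat.factorial_pos j)
  have hcard : ∀ j : ℕ, Fintype.card (GaloisField p (D * j !)) = p ^ (D * j !) := fun j => by
    rw [← Nat.card_eq_fintype_card]
    exact GaloisField.card p (D * j !) (by have := hF j; omega)
  -- the graded count
  have hgr : ∀ j : ℕ, (gradedCount (OO p (D * j !)) (p ^ ((D * j !) * n)) : ℤ) =
      ∑ t ∈ boxes n, gTerm (GaloisField p (D * j !)) t.1 t.2.1 t.2.2.2 := by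
    intro j
    obtain ⟨R, _⟩ := exists_HDVR p (D * j !) (hF j)
    have h := gradedCount_eq R (fun m h1 h2 h3 => by
      have h4 : (p : ℕ) ∣ m := (CharP.cast_eq_zero_iff (GaloisField p (D * j !)) p m).1 h3
      have := Nat.le_of_dvd (by omega) h4
      omega) n
    rw [hcard, ← pow_mul] at h
    exact h
  -- termwise limit
  have hq : Tendsto (fun j : ℕ => ((Fintype.card (GaloisField p (D * j !)) : ℤ) : ℚ_[l])) atTop
      (𝓝 1) := by
    refine hx.congr fun j => ?_
    rw [hcard]; push_cast; rfl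
  have hPP : ∀ w : ℕ, Tendsto (fun j : ℕ =>
      (((PP (Fintype.card (GaloisField p (D * j !))) w : ℕ) : ℤ) : ℚ_[l])) atTop
      (𝓝 ((wt w : ℤ) : ℚ_[l])) := by
    intro w
    unfold PP wt
    by_cases hw : w = 0
    · simp [hw]
    · simp only [if_neg hw]
      have h := (hq.add_const 1).mul (hq.pow (w - 1))
      have e : ((2 : ℤ) : ℚ_[l]) = (1 + 1) * 1 ^ (w - 1) := by rw [one_pow]; norm_num
      rw [e]
      refine h.congr fun j => ?_
      push_cast
      ring
  have hterm : ∀ (x N : ℕ) (w : Fin 4 → ℕ), Tendsto (fun j : ℕ =>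
      ((gTerm (GaloisField p (D * j !)) x N w : ℤ) : ℚ_[l])) atTop
      (𝓝 ((eTerm x N w : ℤ) : ℚ_[l])) := by
    intro x N w
    unfold gTerm eTerm
    by_cases hN : N = 0
    · simp only [if_pos hN]
      by_cases hw : ∀ i, w i ≤ x
      · simp only [if_pos hw]
        have h := tendsto_finsetProd (Finset.univ : Finset (Fin 4)) fun i _ => hPP (w i)
        push_cast at h ⊢
        exact h
      · simp only [if_neg hw]; simp
    · simp only [if_neg hN]
      by_cases hw : ∀ i, w i ≤ x + N
      · simp only [if_pos hw]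
        have h1 := tendsto_finsetProd (Finset.univ.filter (fun i => w i ≤ x))
          fun i _ => hPP (w i)
        have h2 := hq.pow (x * (Finset.univ.filter (fun i => x < w i)).card + (N - 1))
        have h3 := SI_tendsto p l hp hpl D hD inst (fun _ => inferInstance)
          (Finset.univ.filter (fun i => x < w i))
        have h := h1.mul (h2.mul h3)
        rw [one_pow, one_mul] at h
        push_cast at h ⊢
        exact h
      · simp only [if_neg hw]; simp
  have hglim : Tendsto (fun j : ℕ =>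
      (((gradedCount (OO p (D * j !)) (p ^ ((D * j !) * n)) : ℕ) : ℤ) : ℚ_[l])) atTop
      (𝓝 ((eCoef n : ℤ) : ℚ_[l])) := by
    simp only [hgr, eCoef]
    push_cast
    exact tendsto_finsetSum _ fun t _ => hterm t.1 t.2.1 t.2.2.2
  -- the torus congruence
  have hdiff : Tendsto (fun j : ℕ => (((subCount cA (OO p (D * j !)) (p ^ ((D * j !) * n)) : ℤ) -
      (gradedCount (OO p (D * j !)) (p ^ ((D * j !) * n)) : ℤ) : ℤ) : ℚ_[l])) atTop (𝓝 0) := by
    have h0 : Tendsto (fun j : ℕ => ‖(p : ℚ_[l]) ^ (D * j !) - 1‖) atTop (𝓝 0) := by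
      have := (hx.sub_const 1).norm
      simpa using this
    refine squeeze_zero_norm (fun j => ?_) h0
    obtain ⟨m, hm⟩ := torus p (D * j !) (hF j) n
    rw [hm]
    push_cast
    rw [norm_mul]
    refine mul_le_of_le_one_right (norm_nonneg _) ?_
    exact_mod_cast Padic.norm_int_le_one (p := l) m
  have h := hdiff.add hglim
  rw [zero_add] at h
  refine h.congr fun j => ?_
  push_cast
  ring

end Pool.Agent.Lib.H70.Top
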