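import Mathlib

/-!
# Topological subalgebra zeta functions: definitions

`subCount c R m` counts the subalgebras of index `m` of the algebra `R^d` with structure
constants `c`; `IsZetaValue` says that a rational number is the value at `s` of
`(1 - q^{-1})^d * zeta(s)` for the unramified extension of degree `f` of `Q_p`; `IsTop` is the
defining property of the topological subalgebra zeta function.
-/

namespace Pool.Agent.Lib.H70.Top

open scoped BigOperators

/-- The ring of integers of the unramified extension of degree `f` of `Q_p`. -/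
abbrev OO (p f : ℕ) [Fact p.Prime] : Type := WittVector p (GaloisField p f)

/-- The bilinear product on `R^d` with integral structure constants `c`. -/
def amul {d : ℕ} (c : Fin d → Fin d → Fin d → ℤ) {R : Type*} [CommRing R]
    (x y : Fin d → R) : Fin d → R :=
  fun k => ∑ i, ∑ j, (c i j k : R) * (x i * y j)

/-- A submodule closed under the product. -/
def IsSubalg {d : ℕ} (c : Fin d → Fin d → Fin d → ℤ) {R : Type*} [CommRing R]
    (U : Submodule R (Fin d → R)) : Prop :=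
  ∀ x ∈ U, ∀ y ∈ U, amul c x y ∈ U

/-- The number of subalgebras of index `m`. -/
noncomputable def subCount {d : ℕ} (c : Fin d → Fin d → Fin d → ℤ) (R : Type*) [CommRing R]
    (m : ℕ) : ℕ :=
  Nat.card {U : Submodule R (Fin d → R) // IsSubalg c U ∧ U.toAddSubgroup.index = m}

/-- The power series `∑ a_n t^n`, `a_n` the number of subalgebras of index `q^n`, `q = p^f`. -/
noncomputable def zetaSeries {d : ℕ} (c : Fin d → Fin d → Fin d → ℤ) (p f : ℕ)
    [Fact p.Prime] : PowerSeries ℚ :=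
  PowerSeries.mk fun n => (subCount c (OO p f) (p ^ (f * n)) : ℚ)

/-- `z` is the value at `s` of (the continuation of) `(1 - q^{-1})^d ζ(s)`, `q = p^f`:
the series `∑ a_n t^n` is the expansion of `N(t)/D(t)`, `D(q^{-s}) ≠ 0` and
`z = (1 - q^{-1})^d N(q^{-s}) / D(q^{-s})`. -/
def IsZetaValue {d : ℕ} (c : Fin d → Fin d → Fin d → ℤ) (p f : ℕ) [Fact p.Prime]
    (s : ℤ) (z : ℚ) : Prop :=
  ∃ N D : Polynomial ℚ, zetaSeries c p f * (D : PowerSeries ℚ) = (N : PowerSeries ℚ) ∧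
    D.eval ((p : ℚ) ^ (-((f : ℤ) * s))) ≠ 0 ∧
    z = (1 - ((p : ℚ) ^ f)⁻¹) ^ d *
      (N.eval ((p : ℚ) ^ (-((f : ℤ) * s))) / D.eval ((p : ℚ) ^ (-((f : ℤ) * s))))

/-- Convergence of `Z_p(D f; s)` to `R(s)` as `f → 0` in `ℤ_ℓ`, for all integers `s ∉ S`. -/
def TopConv {d : ℕ} (c : Fin d → Fin d → Fin d → ℤ) (R : RatFunc ℚ) (l p : ℕ) [Fact l.Prime]
    [Fact p.Prime] (D : ℕ) (S : Finset ℤ) : Prop :=
  ∀ s : ℤ, s ∉ S → ∀ ε : ℝ, 0 < ε → ∃ M : ℕ, ∀ f : ℕ, 1 ≤ f → l ^ M ∣ f →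
    ∀ z : ℚ, IsZetaValue c p (D * f) s z →
      ‖((z - R.eval (RingHom.id ℚ) (s : ℚ) : ℚ) : ℚ_[l])‖ < ε

/-- The defining property of the topological subalgebra zeta function. -/
def IsTop {d : ℕ} (c : Fin d → Fin d → Fin d → ℤ) (R : RatFunc ℚ) : Prop :=
  ∀ (l : ℕ) (_ : Fact l.Prime), ∃ B : Finset ℕ, ∀ (p : ℕ) (_ : Fact p.Prime), p ∉ B →
    ∃ D : ℕ, 1 ≤ D ∧ ∃ S : Finset ℤ, TopConv c R l p D S

/-! ## The algebra of rank 10 -/

/-- The eight distinct integers. -/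
def aa (i : Fin 4) : ℤ := 2 * (i : ℕ)
/-- The eight distinct integers. -/
def bb (i : Fin 4) : ℤ := 2 * (i : ℕ) + 1

/-- Index of `h_1`, `h_2`, `v_i`, `w_i` in `Fin 10`. -/
def iH (j : Fin 2) : Fin 10 := ⟨j, by omega⟩
/-- Index of `v_i`. -/
def iV (i : Fin 4) : Fin 10 := ⟨2 + 2 * i, by omega⟩
/-- Index of `w_i`. -/
def iW (i : Fin 4) : Fin 10 := ⟨3 + 2 * i, by omega⟩

/-- Structure constants: `h v_i = (h_1 - b_i h_2) w_i`, `h w_i = (h_1 - a_i h_2) v_i`, all other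
products of basis vectors are zero. -/
def cA : Fin 10 → Fin 10 → Fin 10 → ℤ := fun x y z =>
  ∑ i : Fin 4,
    ((if x = iH 0 ∧ y = iV i ∧ z = iW i then 1 else 0)
      + (if x = iH 1 ∧ y = iV i ∧ z = iW i then - bb i else 0)
      + (if x = iH 0 ∧ y = iW i ∧ z = iV i then 1 else 0)
      + (if x = iH 1 ∧ y = iW i ∧ z = iV i then - aa i else 0))

/-- `∑_{L ∈ P^1(k)} ∏_{i ∈ I} (1 + χ(l_i(L) l'_i(L)))`. -/
noncomputable def SI (k : Type*) [Field k] [Fintype k] [DecidableEq k] (I : Finset (Fin 4)) : ℤ :=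
  ∑ x : k, ∏ i ∈ I, (1 + quadraticChar k ((x - (aa i : k)) * (x - (bb i : k)))) + 2 ^ I.card

/-- Number of points of `P^1(O/p^w)`. -/
def PP (q w : ℕ) : ℕ := if w = 0 then 1 else (q + 1) * q ^ (w - 1)

/-- Limit of `PP`. -/
def wt (w : ℕ) : ℤ := if w = 0 then 1 else 2

/-- The limiting weight attached to `(x, N, w)`. -/
def eTerm (x N : ℕ) (w : Fin 4 → ℕ) : ℤ :=
  if N = 0 then (if ∀ i, w i ≤ x then ∏ i, wt (w i) else 0)
  else if ∀ i, w i ≤ x + N then
    (∏ i ∈ Finset.univ.filter (fun i => w i ≤ x), wt (w i)) *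
      (2 ^ (Finset.univ.filter (fun i => x < w i)).card *
        (2 - ((Finset.univ.filter (fun i => x < w i)).card : ℤ)))
  else 0

/-- Tuples `(x, N, a, w)` with `2x + N + ∑ (2 a_i + w_i) = n`. -/
def boxes (n : ℕ) : Finset (ℕ × ℕ × (Fin 4 → ℕ) × (Fin 4 → ℕ)) :=
  (Finset.range (n + 1) ×ˢ Finset.range (n + 1) ×ˢ (Fintype.piFinset fun _ => Finset.range (n + 1))
    ×ˢ (Fintype.piFinset fun _ => Finset.range (n + 1))).filter
    fun t => 2 * t.1 + t.2.1 + ∑ i, (2 * t.2.2.1 i + t.2.2.2 i) = n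

/-- The limit `e_n` of `a_n` as `q → 1`. -/
def eCoef (n : ℕ) : ℤ := ∑ t ∈ boxes n, eTerm t.1 t.2.1 t.2.2.2

/-- Exact number of graded closed tuples with invariants `(x, N, a, w)`. -/
noncomputable def gTerm (k : Type*) [Field k] [Fintype k] [DecidableEq k] (x N : ℕ)
    (w : Fin 4 → ℕ) : ℤ :=
  if N = 0 then (if ∀ i, w i ≤ x then ∏ i, (PP (Fintype.card k) (w i) : ℤ) else 0)
  else if ∀ i, w i ≤ x + N then
    (∏ i ∈ Finset.univ.filter (fun i => w i ≤ x), (PP (Fintype.card k) (w i) : ℤ)) *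
      ((Fintype.card k : ℤ) ^ (x * (Finset.univ.filter (fun i => x < w i)).card + (N - 1)) *
        SI k (Finset.univ.filter (fun i => x < w i)))
  else 0

end Pool.Agent.Lib.H70.Top
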