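import Pool.Agent.Lib.H70.Top.Fibre3
import Pool.Agent.Lib.H70.Top.Cells3

/-!
# Law of the leading terms on a fibre
-/

namespace Pool.Agent.Lib.H70.Top.Fibre

open Polynomial MeasureTheory
open scoped BigOperators ENNReal

section ball

variable {O k : Type} [CommRing O] [IsDomain O] [Field k] (R : HDVR O k)

theorem cell_eq_ball {c : O} {g : ℕ} {ξ : k} (hξ : ξ ≠ 0) {t : O} (ht : R.res t = ξ) :
    {y : O | y - c ≠ 0 ∧ R.v (y - c) = g ∧ R.ac (y - c) = ξ} =
      {y : O | R.π ^ (g + 1) ∣ y - (c + R.π ^ g * t)} := by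
  have ht' : R.res t ≠ 0 := by rw [ht]; exact hξ
  obtain ⟨h1, h2, h3⟩ := R.rv_of_res_ne (x := R.π ^ g * t) rfl ht'
  ext y
  simp only [Set.mem_setOf_eq]
  constructor
  · rintro ⟨_, e2, e3⟩
    have := R.dvd_sub_of_rv (x := R.π ^ g * t) (y := y - c) (by rw [h2, e2])
      (by rw [h3, e3, ht])
    rw [h2] at this
    rwa [show y - (c + R.π ^ g * t) = y - c - R.π ^ g * t by ring]
  · intro h
    have := R.rv_congr (x := R.π ^ g * t) (y := y - c) h1 (by
      rw [h2, show y - c - R.π ^ g * t = y - (c + R.π ^ g * t) by ring]; exact h)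
    rw [h2, h3, ht] at this
    exact this

variable {R} [MeasurableSpace O] {μ : Measure O} {q : ℕ}

theorem point_null (hμ : IsUnif R.π q μ) (hq : 2 ≤ q) (c : O) : μ {c} = 0 := by
  have h : ∀ n : ℕ, μ {c} ≤ (((q : ℝ≥0∞))⁻¹) ^ n := by
    intro n
    refine (measure_mono ?_).trans (hμ.ball c n).le |>.trans ?_
    · intro y hy
      rw [Set.mem_singleton_iff] at hy
      rw [hy]; simp
    · rw [ENNReal.inv_pow]
  have hlt : ((q : ℝ≥0∞))⁻¹ < 1 := by
    rw [ENNReal.inv_lt_one]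
    exact_mod_cast (by omega : 1 < q)
  have ht := ENNReal.tendsto_pow_atTop_nhds_zero_of_lt_one hlt
  exact le_antisymm (ge_of_tendsto' ht h) zero_le

end ball

section

variable {ι : Type} {O k : ι → Type} [∀ i, CommRing (O i)] [∀ i, IsDomain (O i)]
  [∀ i, Field (k i)] {R : ∀ i, HDVR (O i) (k i)} {X : ι → Type}
  {N r : ℕ} {c : Fin N → ∀ i, X i → O i} {P : Fin r → Polynomial (∀ i, X i → O i)} {n : ℕ}

/-- index type of the cells -/
abbrev Idx (k : ι → Type) (N r : ℕ) (i : ι) : Type :=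
  Fin N × (Option (Fin r) → k i) × (Option (Fin r) → ℤ)

/-- the cells -/
def SS (R : ∀ i, HDVR (O i) (k i)) (c : Fin N → ∀ i, X i → O i)
    (P : Fin r → Polynomial (∀ i, X i → O i)) (n : ℕ) (i : ι) (x : X i) (p : Idx k N r i) :
    Set (O i) :=
  {y | DD R c P n p.1 i (x, p.2.2, p.2.1) ∧ y - c p.1 i x ≠ 0 ∧
    ((R i).v (y - c p.1 i x) : ℤ) = p.2.2 none ∧ (R i).ac (y - c p.1 i x) = p.2.1 none}

variable {i : ι} {x : X i}

theorem SS_of_not {p : Idx k N r i} (h : ¬ DD R c P n p.1 i (x, p.2.2, p.2.1)) :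
    SS R c P n i x p = ∅ := by
  ext y
  simp only [SS, Set.mem_setOf_eq, Set.mem_empty_iff_false, iff_false]
  exact fun h' => h h'.1

theorem SS_of {p : Idx k N r i} (h : DD R c P n p.1 i (x, p.2.2, p.2.1)) :
    ∃ (g : ℕ) (e : O i), p.2.2 none = g ∧
      SS R c P n i x p = {y | (R i).π ^ (g + 1) ∣ y - e} := by
  obtain ⟨g, hg⟩ := Int.eq_ofNat_of_zero_le h.1.1.1
  have hg' : p.2.2 none = (g : ℤ) := hg
  obtain ⟨t, ht⟩ := (R i).surj (p.2.1 none)
  refine ⟨g, c p.1 i x + (R i).π ^ g * t, hg', ?_⟩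
  rw [← cell_eq_ball (R i) h.1.1.2 ht]
  ext y
  simp only [SS, Set.mem_setOf_eq, hg', Nat.cast_inj]
  exact ⟨fun h' => h'.2, fun h' => ⟨h, h'⟩⟩

theorem SS_disj (hd : ∀ l, (P l).natDegree ≤ n)
    (hreg : ∀ (y : O i) (l : Fin r), ∃ b, (R i).Reg ((P l).map (pt i x)) (c b i x) y) :
    Pairwise (Function.onFun Disjoint (SS R c P n i x)) := by
  intro p p' hne
  refine Set.disjoint_left.2 fun y hy hy' => hne ?_
  obtain ⟨h1, h2, h3, h4⟩ := hy
  obtain ⟨h1', h2', h3', h4'⟩ := hy'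
  obtain ⟨f1, f2⟩ := (DD_iff (z := (x, p.2.2, p.2.1)) hd (hreg y) h2 h3 h4).1 h1
  obtain ⟨f1', f2'⟩ := (DD_iff (z := (x, p'.2.2, p'.2.1)) hd (hreg y) h2' h3' h4').1 h1'
  have e1 := FN_unique f1 f1'
  rw [← e1] at h3' h4'
  obtain ⟨a, b, γ⟩ := p
  obtain ⟨a', b', γ'⟩ := p'
  simp only at e1 h3 h4 h3' h4' f2 f2'
  subst e1
  have e2 : b = b' := by
    funext o
    cases o with
    | none => rw [← h4, h4']
    | some l => rw [← (f2 l).2, (f2' l).2]
  have e3 : γ = γ' := by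
    funext o
    cases o with
    | none => rw [← h3, h3']
    | some l => rw [← (f2 l).1, (f2' l).1]
  rw [e2, e3]

theorem SS_union (hd : ∀ l, (P l).natDegree ≤ n) (hN : 0 < N)
    (hreg : ∀ (y : O i) (l : Fin r), ∃ b, (R i).Reg ((P l).map (pt i x)) (c b i x) y)
    {y : O i} (hy : ∀ b, y ≠ c b i x) : y ∈ ⋃ p, SS R c P n i x p := by
  obtain ⟨a, ha⟩ := exists_FN (R := R) (y := y) hN fun b => sub_ne_zero.2 (hy b)
  rw [Set.mem_iUnion]
  refine ⟨(a, fun o => o.elim ((R i).ac (y - c a i x))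
      (fun l => (R i).ac (((P l).map (pt i x)).eval y)),
    fun o => o.elim ((R i).v (y - c a i x) : ℤ)
      (fun l => ((R i).v (((P l).map (pt i x)).eval y) : ℤ))), ?_, sub_ne_zero.2 (hy a), rfl, rfl⟩
  refine (DD_iff (z := (x, _, _)) hd (hreg y) (sub_ne_zero.2 (hy a)) rfl rfl).2 ⟨ha, fun l => ?_⟩
  exact ⟨rfl, rfl⟩

theorem fibre_int [∀ i, MeasurableSpace (O i)] (hd : ∀ l, (P l).natDegree ≤ n) (hN : 0 < N)
    (hreg : ∀ (y : O i) (l : Fin r), ∃ b, (R i).Reg ((P l).map (pt i x)) (c b i x) y)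
    [Finite (k i)] (μ : Measure (O i)) (q : ℕ) (hq : Nat.card (k i) = q)
    (hμ : IsUnif (R i).π q μ) (Φ : (Fin r → ℤ) → (Fin r → k i) → ℝ≥0∞) :
    ∫⁻ y, Φ (fun l => ((R i).v (((P l).map (pt i x)).eval y) : ℤ))
            (fun l => (R i).ac (((P l).map (pt i x)).eval y)) ∂μ =
      ∑ a : Fin N, ∑' (b : Option (Fin r) → k i), ∑' (γ : Option (Fin r) → ℤ),
        (by classical exact if DD R c P n a i (x, γ, b) then
          (q : ℝ≥0∞) ^ (-(γ none + 1)) * Φ (fun l => γ (some l)) (fun l => b (some l))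
          else 0) := by
  classical
  have hq2 : 2 ≤ q := by
    rw [← hq]; exact Finite.one_lt_card
  set f : O i → ℝ≥0∞ := fun y => Φ (fun l => ((R i).v (((P l).map (pt i x)).eval y) : ℤ))
            (fun l => (R i).ac (((P l).map (pt i x)).eval y)) with hf
  have hmeas : ∀ p : Idx k N r i, MeasurableSet (SS R c P n i x p) := by
    intro p
    by_cases h : DD R c P n p.1 i (x, p.2.2, p.2.1)
    · obtain ⟨g, e, _, h2⟩ := SS_of h
      rw [h2]; exact hμ.meas _ _
    · rw [SS_of_not h]; exact MeasurableSet.empty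
  have hae : ∀ᵐ y ∂μ, y ∈ ⋃ p, SS R c P n i x p := by
    have h0 : μ (⋃ b : Fin N, {c b i x}) = 0 :=
      measure_iUnion_null fun b => point_null hμ hq2 _
    refine measure_mono_null ?_ h0
    intro y hy
    by_contra hcon
    apply hy
    apply SS_union hd hN hreg
    intro b hb
    exact hcon (Set.mem_iUnion.2 ⟨b, hb⟩)
  calc ∫⁻ y, f y ∂μ = ∫⁻ y in ⋃ p, SS R c P n i x p, f y ∂μ := by
        rw [Measure.restrict_eq_self_of_ae_mem hae]
    _ = ∑' p : Idx k N r i, ∫⁻ y in SS R c P n i x p, f y ∂μ :=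
        lintegral_iUnion hmeas (SS_disj hd hreg) f
    _ = ∑' p : Idx k N r i, (if DD R c P n p.1 i (x, p.2.2, p.2.1) then
          (q : ℝ≥0∞) ^ (-(p.2.2 none + 1)) * Φ (fun l => p.2.2 (some l))
            (fun l => p.2.1 (some l)) else 0) := by
        refine tsum_congr fun p => ?_
        by_cases h : DD R c P n p.1 i (x, p.2.2, p.2.1)
        · rw [if_pos h]
          have hc : ∀ y ∈ SS R c P n i x p, f y = Φ (fun l => p.2.2 (some l))
              (fun l => p.2.1 (some l)) := by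
            rintro y ⟨_, h2, h3, h4⟩
            obtain ⟨_, f2⟩ := (DD_iff (z := (x, p.2.2, p.2.1)) hd (hreg y) h2 h3 h4).1 h
            rw [hf]
            have e1 : (fun l => ((R i).v (((P l).map (pt i x)).eval y) : ℤ)) =
                fun l => p.2.2 (some l) := by funext l; exact (f2 l).1
            have e2 : (fun l => (R i).ac (((P l).map (pt i x)).eval y)) =
                fun l => p.2.1 (some l) := by funext l; exact (f2 l).2
            simp only [e1, e2]
          rw [setLIntegral_congr_fun (hmeas p) hc, setLIntegral_const, mul_comm]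
          congr 1
          obtain ⟨g, e, h1, h2⟩ := SS_of h
          rw [h2, hμ.ball, h1]
          have h3 : (-((g : ℤ) + 1)) = Int.negSucc g := by
            rw [Int.negSucc_eq]
          rw [h3, zpow_negSucc]
        · rw [if_neg h, SS_of_not h, Measure.restrict_empty, lintegral_zero_measure]
    _ = _ := by
        rw [ENNReal.tsum_prod', tsum_fintype]
        refine Finset.sum_congr rfl fun a _ => ?_
        rw [ENNReal.tsum_prod']

end

end Pool.Agent.Lib.H70.Top.Fibre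

namespace Pool.Agent.Lib.H70.Top

open Polynomial MeasureTheory
open scoped BigOperators ENNReal

section

variable {ι : Type} {O k : ι → Type} [∀ i, CommRing (O i)] [∀ i, IsDomain (O i)]
  [∀ i, Field (k i)] (R : ∀ i, HDVR (O i) (k i)) {X : ι → Type} {B : Type} (T : Coord X k B)

theorem fibre (E : Subring (∀ i, X i → O i)) (hE : TameAlg R T E) (n : ℕ)
    (hn : ∀ (i : ι) (j : ℕ), 1 ≤ j → j ≤ n → (j : k i) ≠ 0) {r : ℕ}
    (P : Fin r → Polynomial (∀ i, X i → O i)) (hP : ∀ l j, (P l).coeff j ∈ E)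
    (hd : ∀ l, (P l).natDegree ≤ n) [∀ i, MeasurableSpace (O i)] (μ : ∀ i, Measure (O i))
    (q : ι → ℕ) (hq : ∀ i, Nat.card (k i) = q i) [∀ i, Finite (k i)]
    (hμ : ∀ i, IsUnif (R i).π (q i) (μ i)) :
    ∃ (κ : Type) (_ : Fintype κ) (D : κ → ∀ i, X i × (Option (Fin r) → ℤ) × (Option (Fin r) → k i)
        → Prop),
      (∀ c, TP (T.ext (Option (Fin r))) (D c)) ∧
      ∀ (i : ι) (x : X i) (Φ : (Fin r → ℤ) → (Fin r → k i) → ℝ≥0∞),
        ∫⁻ y, Φ (fun l => ((R i).v (((P l).map (pt i x)).eval y) : ℤ))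
            (fun l => (R i).ac (((P l).map (pt i x)).eval y)) ∂(μ i) =
          ∑ c : κ, ∑' (b : Option (Fin r) → k i), ∑' (γ : Option (Fin r) → ℤ),
            (by classical exact if D c i (x, γ, b) then
              (q i : ℝ≥0∞) ^ (-(γ none + 1)) * Φ (fun l => γ (some l)) (fun l => b (some l))
              else 0) := by
  obtain ⟨E', hEE', hE', C, h0, hC, hreg⟩ := cells R T E hE n hn P hP hd
  set c : Fin C.card → ∀ i, X i → O i := fun a => (C.equivFin.symm a : ∀ i, X i → O i) with hc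
  have hcE : ∀ a, c a ∈ E' := fun a => hC _ (C.equivFin.symm a).2
  have hreg' : ∀ (i : ι) (x : X i) (y : O i) (l : Fin r),
      ∃ b, (R i).Reg ((P l).map (pt i x)) (c b i x) y := by
    intro i x y l
    obtain ⟨e, he, h⟩ := hreg i x y l
    refine ⟨C.equivFin ⟨e, he⟩, ?_⟩
    have : c (C.equivFin ⟨e, he⟩) = e := by rw [hc]; simp
    rw [this]; exact h
  have hN : 0 < C.card := Finset.card_pos.2 ⟨0, h0⟩
  refine ⟨Fin C.card, inferInstance, fun a i z => Fibre.DD R c P n a i z,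
    fun a => Fibre.TP_DD hE' hcE (fun l j => hEE' (hP l j)) a, fun i x Φ => ?_⟩
  exact Fibre.fibre_int hd hN (hreg' i x) (μ i) (q i) (hq i) (hμ i) Φ

end

end Pool.Agent.Lib.H70.Top
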