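import Pool.Agent.Lib.H70.Top.CellsDefs

/-!
# Pullback of tame predicates; leading terms of differences
-/

namespace Pool.Agent.Lib.H70.Top.Fibre

open Polynomial
open scoped BigOperators

section pull

variable {ι : Type*} {Ω Ω' : ι → Type*} {k : ι → Type*} {B B' : Type}
  {T : Coord Ω k B} {T' : Coord Ω' k B'}

theorem TP_pull (h : ∀ i, Ω' i → Ω i) (g : B → B')
    (hu : ∀ b i x, T.u b i (h i x) = T'.u (g b) i x)
    (hw : ∀ b i x, T.w b i (h i x) = T'.w (g b) i x) {P : ∀ i, Ω i → Prop} (hP : TP T P) :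
    TP T' (fun i x => P i (h i x)) := by
  induction hP with
  | semi S A hA =>
    refine (TF.mem (T := T') (J := S) (f := fun s i x => T'.u (g s) i x)
      (fun s => TF.coord _) hA).congr fun i x => ?_
    simp only [hu]
  | arb S ρ =>
    refine (TK.arb (T := T') (J := S) (f := fun s i x => T'.w (g s) i x)
      (fun s => TK.coord _) ρ).congr fun i x => ?_
    simp only [hw]
  | and P Q _ _ h1 h2 => exact TP.and _ _ h1 h2
  | not P _ h1 => exact TP.not _ h1

theorem TF_pull (h : ∀ i, Ω' i → Ω i) (g : B → B')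
    (hu : ∀ b i x, T.u b i (h i x) = T'.u (g b) i x)
    (hw : ∀ b i x, T.w b i (h i x) = T'.w (g b) i x) {f : ∀ i, Ω i → ℤ} (hf : TF T f) :
    TF T' (fun i x => f i (h i x)) := by
  classical
  obtain ⟨κ, hκ, P, S, l, h1, h2, h3, h4⟩ := hf
  have hS : ∀ s : S, g s ∈ S.image g := fun s => Finset.mem_image_of_mem g s.2
  refine ⟨κ, hκ, fun c i x => P c i (h i x), S.image g,
    fun c γ => l c (fun s => γ ⟨g s, hS s⟩), fun c => TP_pull h g hu hw (h1 c), fun c => ?_,
    fun i x => h3 i (h i x), fun c i x hc => ?_⟩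
  · refine (h2 c).comp (φ := fun (γ : ↥(S.image g) → ℤ) => (fun s : S => γ ⟨g s, hS s⟩)) ?_
    exact SemiFun.pi fun s => SemiFun.eval _
  · refine (h4 c i (h i x) hc).trans ?_
    simp only [hu]

theorem TK_pull (h : ∀ i, Ω' i → Ω i) (g : B → B')
    (hu : ∀ b i x, T.u b i (h i x) = T'.u (g b) i x)
    (hw : ∀ b i x, T.w b i (h i x) = T'.w (g b) i x) {f : ∀ i, Ω i → k i} (hf : TK T f) :
    TK T' (fun i x => f i (h i x)) := by
  classical
  obtain ⟨κ, hκ, P, S, l, h1, h3, h4⟩ := hf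
  have hS : ∀ s : S, g s ∈ S.image g := fun s => Finset.mem_image_of_mem g s.2
  refine ⟨κ, hκ, fun c i x => P c i (h i x), S.image g,
    fun c i γ => l c i (fun s => γ ⟨g s, hS s⟩), fun c => TP_pull h g hu hw (h1 c),
    fun i x => h3 i (h i x), fun c i x hc => ?_⟩
  refine (h4 c i (h i x) hc).trans ?_
  simp only [hw]

end pull

section ext

variable {ι : Type*} {k : ι → Type*} {X : ι → Type*} {B : Type} {T : Coord X k B} {J : Type}

theorem TP_ext {P : ∀ i, X i → Prop} (hP : TP T P) :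
    TP (T.ext J) (fun i z => P i z.1) :=
  TP_pull (T' := T.ext J) (fun _ z => z.1) Sum.inl (fun _ _ _ => rfl) (fun _ _ _ => rfl) hP

theorem TF_ext {f : ∀ i, X i → ℤ} (hf : TF T f) : TF (T.ext J) (fun i z => f i z.1) :=
  TF_pull (T' := T.ext J) (fun _ z => z.1) Sum.inl (fun _ _ _ => rfl) (fun _ _ _ => rfl) hf

theorem TK_ext {f : ∀ i, X i → k i} (hf : TK T f) : TK (T.ext J) (fun i z => f i z.1) :=
  TK_pull (T' := T.ext J) (fun _ z => z.1) Sum.inl (fun _ _ _ => rfl) (fun _ _ _ => rfl) hf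

theorem TF_γ (j : J) : TF (T.ext J) (fun _ z => z.2.1 j) :=
  (TF.coord (T := T.ext J) (Sum.inr j)).congr fun _ _ => rfl

theorem TK_b (j : J) : TK (T.ext J) (fun _ z => z.2.2 j) :=
  (TK.coord (T := T.ext J) (Sum.inr j)).congr fun _ _ => rfl

end ext

section sums

variable {ι : Type*} {Ω : ι → Type*} {k : ι → Type*} [∀ i, Field (k i)] {B : Type}
  {T : Coord Ω k B}

theorem TK_sum {s : Finset ℕ} {f : ℕ → ∀ i, Ω i → k i} (hf : ∀ m, TK T (f m)) :
    TK T (fun i x => ∑ m ∈ s, f m i x) := by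
  classical
  induction s using Finset.induction_on with
  | empty => exact (TK.const (T := T) (fun i => (0 : k i))).congr fun i x => by simp
  | insert a s ha ih =>
    refine ((hf a).comp2 ih (fun i u w => u + w)).congr fun i x => ?_
    rw [Finset.sum_insert ha]

theorem TP_ball {n : ℕ} {P : ℕ → ∀ i, Ω i → Prop} (hP : ∀ m, TP T (P m)) :
    TP T (fun i x => ∀ m, m ≤ n → P m i x) := by
  refine (TP.all (κ := Fin (n + 1)) (P := fun m => P m) fun m => hP m).congr fun i x => ?_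
  constructor
  · intro h m
    exact h m (by omega)
  · intro h m hm
    exact h ⟨m, by omega⟩

theorem TP_bex {n : ℕ} {P : ℕ → ∀ i, Ω i → Prop} (hP : ∀ m, TP T (P m)) :
    TP T (fun i x => ∃ m, m ≤ n ∧ P m i x) := by
  refine (TP.ex (κ := Fin (n + 1)) (P := fun m => P m) fun m => hP m).congr fun i x => ?_
  constructor
  · rintro ⟨m, hm, h⟩
    exact ⟨⟨m, by omega⟩, h⟩
  · rintro ⟨m, h⟩
    exact ⟨m, by omega, h⟩

end sums

section diff

variable {O k : Type*} [CommRing O] [IsDomain O] [Field k] (R : HDVR O k)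

open Classical in
/-- leading valuation of `y - c'` from those of `y - c` and `c - c'` -/
noncomputable def dV (γ : ℤ) (δ : ℤ) (η : k) : ℤ := if η ≠ 0 ∧ δ < γ then δ else γ

open Classical in
/-- leading coefficient of `y - c'` from those of `y - c` and `c - c'` -/
noncomputable def dA (γ : ℤ) (ξ : k) (δ : ℤ) (η : k) : k :=
  if η = 0 ∨ γ < δ then ξ else if δ < γ then η else ξ + η

variable {R}

/-- leading term of `x + d` -/
theorem rv_add {x d : O} (hx : x ≠ 0)
    (h : ¬ (R.ac d ≠ 0 ∧ (R.v d : ℤ) = R.v x ∧ R.ac x + R.ac d = 0)) :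
    x + d ≠ 0 ∧ (R.v (x + d) : ℤ) = dV (R.v x) (R.v d) (R.ac d) ∧
      R.ac (x + d) = dA (R.v x) (R.ac x) (R.v d) (R.ac d) := by
  classical
  unfold dV dA
  by_cases hd : d = 0
  · subst hd
    simp [hx]
  have hd' : R.ac d ≠ 0 := R.ac_ne hd
  rcases lt_trichotomy (R.v d) (R.v x) with hlt | heq | hgt
  · have h1 := R.rv_sub_lt (x := d) (y := -x) hd (Or.inr (by rw [R.v_neg]; exact hlt))
    rw [show d - -x = x + d by ring] at h1
    refine ⟨h1.1, ?_, ?_⟩
    · rw [if_pos ⟨hd', by exact_mod_cast hlt⟩, h1.2.1]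
    · rw [if_neg, if_pos (by exact_mod_cast hlt), h1.2.2]
      rintro (h2 | h2)
      · exact hd' h2
      · have : R.v x < R.v d := by exact_mod_cast h2
        omega
  · have hne : R.ac x ≠ R.ac (-d) := by
      rw [R.ac_neg]
      intro h2
      apply h
      refine ⟨hd', by exact_mod_cast heq, ?_⟩
      rw [h2]; ring
    have h1 := R.rv_sub_eq (x := x) (y := -d) hx (neg_ne_zero.2 hd) (by rw [R.v_neg, heq]) hne
    rw [show x - -d = x + d by ring] at h1
    refine ⟨h1.1, ?_, ?_⟩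
    · rw [if_neg, h1.2.1]
      rintro ⟨_, h2⟩
      have : R.v d < R.v x := by exact_mod_cast h2
      omega
    · rw [if_neg, if_neg, h1.2.2, R.ac_neg, sub_neg_eq_add]
      · intro h2
        have : R.v d < R.v x := by exact_mod_cast h2
        omega
      · rintro (h2 | h2)
        · exact hd' h2
        · have : R.v x < R.v d := by exact_mod_cast h2
          omega
  · have h1 := R.rv_sub_lt (x := x) (y := -d) hx (Or.inr (by rw [R.v_neg]; exact hgt))
    rw [show x - -d = x + d by ring] at h1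
    refine ⟨h1.1, ?_, ?_⟩
    · rw [if_neg, h1.2.1]
      rintro ⟨_, h2⟩
      have : R.v d < R.v x := by exact_mod_cast h2
      omega
    · rw [if_pos (Or.inr (by exact_mod_cast hgt)), h1.2.2]

/-- when leading terms cancel -/
theorem rv_add_cancel {x d : O} (hx : x ≠ 0) (h1 : R.v d = R.v x)
    (h2 : R.ac x + R.ac d = 0) : x + d = 0 ∨ R.v x < R.v (x + d) := by
  have h3 := R.dvd_sub_of_rv (x := x) (y := -d) (by rw [R.v_neg, h1])
    (by rw [R.ac_neg]; exact eq_neg_of_add_eq_zero_left h2)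
  have h4 : -d - x = -(x + d) := by ring
  rw [h4, dvd_neg] at h3
  by_cases h5 : x + d = 0
  · exact Or.inl h5
  · rw [R.dvd_iff h5] at h3
    exact Or.inr (by omega)

end diff

section tame

variable {ι : Type*} {Ω : ι → Type*} {k : ι → Type*} [∀ i, Field (k i)] {B : Type}
  {T : Coord Ω k B}

theorem TK_eq_zero {f : ∀ i, Ω i → k i} (hf : TK T f) : TP T (fun i x => f i x = 0) :=
  hf.arb1 fun _ a => a = 0

theorem TK_ne_zero {f : ∀ i, Ω i → k i} (hf : TK T f) : TP T (fun i x => f i x ≠ 0) :=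
  hf.arb1 fun _ a => a ≠ 0

theorem TF_dV {γ δ : ∀ i, Ω i → ℤ} {η : ∀ i, Ω i → k i} (hγ : TF T γ) (hδ : TF T δ)
    (hη : TK T η) : TF T (fun i x => dV (γ i x) (δ i x) (η i x)) := by
  classical
  exact (hδ.ite hγ (TP.and _ _ (TK_ne_zero hη) (hδ.lt hγ))).congr fun i x => by
    unfold dV; split_ifs <;> rfl

theorem TK_dA {γ δ : ∀ i, Ω i → ℤ} {ξ η : ∀ i, Ω i → k i} (hγ : TF T γ) (hξ : TK T ξ)
    (hδ : TF T δ) (hη : TK T η) : TK T (fun i x => dA (γ i x) (ξ i x) (δ i x) (η i x)) := by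
  classical
  exact (hξ.ite (hη.ite (hξ.comp2 hη fun _ a b => a + b) (hδ.lt hγ))
    (TP.or (TK_eq_zero hη) (hγ.lt hδ))).congr fun i x => by
    unfold dA; split_ifs <;> rfl

end tame

end Pool.Agent.Lib.H70.Top.Fibre
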