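import Pool.Agent.Lib.H70.Top.Fibre1

/-!
# The tame description of the cells
-/

namespace Pool.Agent.Lib.H70.Top.Fibre

open Polynomial
open scoped BigOperators

section

variable {ι : Type} {O k : ι → Type} [∀ i, CommRing (O i)] [∀ i, IsDomain (O i)]
  [∀ i, Field (k i)] (R : ∀ i, HDVR (O i) (k i)) {X : ι → Type} {B : Type} (T : Coord X k B)
  {N r : ℕ} (c : Fin N → ∀ i, X i → O i) (P : Fin r → Polynomial (∀ i, X i → O i)) (n : ℕ)

/-- points of the extended space -/
abbrev Z (X k : ι → Type) (r : ℕ) (i : ι) : Type :=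
  X i × (Option (Fin r) → ℤ) × (Option (Fin r) → k i)

/-- valuation of the difference of two centres -/
noncomputable def dv (a b : Fin N) (i : ι) (x : X i) : ℤ := ((R i).v (c a i x - c b i x) : ℤ)

/-- leading coefficient of the difference of two centres -/
noncomputable def da (a b : Fin N) (i : ι) (x : X i) : k i := (R i).ac (c a i x - c b i x)

/-- valuation of `y - c_b` -/
noncomputable def cV (a b : Fin N) (i : ι) (z : Z X k r i) : ℤ :=
  dV (z.2.1 none) (dv R c a b i z.1) (da R c a b i z.1)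

/-- leading coefficient of `y - c_b` -/
noncomputable def cA (a b : Fin N) (i : ι) (z : Z X k r i) : k i :=
  dA (z.2.1 none) (z.2.2 none) (dv R c a b i z.1) (da R c a b i z.1)

/-- the cell of centre `a` is nonempty and `a` is the first nearest centre -/
def Near (a : Fin N) (i : ι) (z : Z X k r i) : Prop :=
  (0 ≤ z.2.1 none ∧ z.2.2 none ≠ 0) ∧
    (∀ b : Fin N, ¬ (da R c a b i z.1 ≠ 0 ∧ dv R c a b i z.1 = z.2.1 none ∧
      z.2.2 none + da R c a b i z.1 = 0)) ∧
    ∀ b : Fin N, b < a → da R c a b i z.1 ≠ 0 ∧ dv R c a b i z.1 < z.2.1 none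

/-- Taylor coefficients at the centres -/
noncomputable def tc (b : Fin N) (l : Fin r) (m : ℕ) : ∀ i, X i → O i :=
  (taylor (c b) (P l)).coeff m

/-- active indices -/
def ActZ (a b : Fin N) (l : Fin r) (m : ℕ) (i : ι) (z : Z X k r i) : Prop :=
  (R i).ac (tc c P b l m i z.1) ≠ 0 ∧ ∀ m', m' ≤ n → (R i).ac (tc c P b l m' i z.1) ≠ 0 →
    ((R i).v (tc c P b l m i z.1) : ℤ) + cV R c a b i z * m ≤
      ((R i).v (tc c P b l m' i z.1) : ℤ) + cV R c a b i z * m'

open Classical in
/-- value of the residual polynomial -/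
noncomputable def RE (a b : Fin N) (l : Fin r) (i : ι) (z : Z X k r i) : k i :=
  ∑ m ∈ Finset.range (n + 1), (if ActZ R c P n a b l m i z then (R i).ac (tc c P b l m i z.1)
    else 0) * cA R c a b i z ^ m

/-- the polynomial vanishes identically -/
def Zer (l : Fin r) (i : ι) (z : Z X k r i) : Prop :=
  ∀ m, m ≤ n → (R i).ac ((P l).coeff m i z.1) = 0

/-- the cell predicate -/
def DD (a : Fin N) (i : ι) (z : Z X k r i) : Prop :=
  Near R c a i z ∧ ∀ l : Fin r,
    (Zer R P n l i z ∧ z.2.1 (some l) = 0 ∧ z.2.2 (some l) = 0) ∨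
    (¬ Zer R P n l i z ∧ ∃ b : Fin N, RE R c P n a b l i z ≠ 0 ∧
      z.2.2 (some l) = RE R c P n a b l i z ∧
      ∃ m, m ≤ n ∧ ActZ R c P n a b l m i z ∧
        z.2.1 (some l) = ((R i).v (tc c P b l m i z.1) : ℤ) + cV R c a b i z * m)

variable {R T c P n}

variable {E : Subring (∀ i, X i → O i)} (hE : TameAlg R T E) (hc : ∀ a, c a ∈ E)
  (hP : ∀ l j, (P l).coeff j ∈ E)

include hE hc in
theorem TF_dv (a b : Fin N) : TF T (dv R c a b) :=
  (hE (c a - c b) (E.sub_mem (hc a) (hc b))).1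

include hE hc in
theorem TK_da (a b : Fin N) : TK T (da R c a b) :=
  (hE (c a - c b) (E.sub_mem (hc a) (hc b))).2

include hE hc in
theorem TF_cV (a b : Fin N) : TF (T.ext (Option (Fin r))) (cV (r := r) R c a b) :=
  TF_dV (TF_γ none) (TF_ext (TF_dv hE hc a b)) (TK_ext (TK_da hE hc a b))

include hE hc in
theorem TK_cA (a b : Fin N) : TK (T.ext (Option (Fin r))) (cA (r := r) R c a b) :=
  TK_dA (TF_γ none) (TK_b none) (TF_ext (TF_dv hE hc a b)) (TK_ext (TK_da hE hc a b))

include hE hc in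
theorem TP_Near (a : Fin N) : TP (T.ext (Option (Fin r))) (Near (r := r) R c a) := by
  have h1 := fun b => TF_ext (J := Option (Fin r)) (TF_dv hE hc a b)
  have h2 := fun b => TK_ext (J := Option (Fin r)) (TK_da hE hc a b)
  refine TP.and _ _ (TP.and _ _ (TF_γ none).nonneg (TK_ne_zero (TK_b none))) (TP.and _ _ ?_ ?_)
  · refine TP.all fun b => TP.not _ (TP.and _ _ (TK_ne_zero (h2 b)) (TP.and _ _
      ((h1 b).eq (TF_γ none)) ?_))
    exact (TK_b none).arb2 (h2 b) fun _ u w => u + w = 0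
  · exact TP.all fun b => TP.imp (TP.const fun _ => b < a)
      (TP.and _ _ (TK_ne_zero (h2 b)) ((h1 b).lt (TF_γ none)))

include hE hc hP in
theorem tc_mem (b : Fin N) (l : Fin r) (m : ℕ) : tc c P b l m ∈ E := by
  unfold tc
  rw [taylor_coeff, eval_eq_sum_range]
  refine E.sum_mem fun j _ => E.mul_mem ?_ (E.pow_mem (hc b) j)
  rw [hasseDeriv_coeff]
  exact E.mul_mem (natCast_mem E _) (hP l _)

include hE hc hP in
theorem TP_ActZ (a b : Fin N) (l : Fin r) (m : ℕ) :
    TP (T.ext (Option (Fin r))) (ActZ R c P n a b l m) := by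
  have h := fun m => hE _ (tc_mem hE hc hP b l m)
  have hV := TF_cV (r := r) hE hc a b
  refine TP.and _ _ (TK_ne_zero (TK_ext (h m).2)) (TP_ball fun m' => TP.imp
    (TK_ne_zero (TK_ext (h m').2)) ?_)
  exact ((TF_ext (h m).1).add (hV.mul_const m)).le ((TF_ext (h m').1).add (hV.mul_const m'))

include hE hc hP in
theorem TK_RE (a b : Fin N) (l : Fin r) :
    TK (T.ext (Option (Fin r))) (RE R c P n a b l) := by
  classical
  have h := fun m => hE _ (tc_mem hE hc hP b l m)
  refine TK_sum fun m => TK.comp2 (TK.ite (TK_ext (h m).2) (TK.const fun _ => 0)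
    (TP_ActZ hE hc hP a b l m)) ((TK_cA hE hc a b).comp1 fun _ u => u ^ m) fun _ u w => u * w

include hE hP in
theorem TP_Zer (l : Fin r) : TP (T.ext (Option (Fin r))) (Zer R P n l) :=
  TP_ball fun m => TK_eq_zero (TK_ext (hE _ (hP l m)).2)

include hE hc hP in
theorem TP_DD (a : Fin N) : TP (T.ext (Option (Fin r))) (DD R c P n a) := by
  refine TP.and _ _ (TP_Near hE hc a) (TP.all fun l => TP.or ?_ ?_)
  · exact TP.and _ _ (TP_Zer hE hP l) (TP.and _ _ ((TF_γ (some l)).eq (TF.const 0))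
      (TK_eq_zero (TK_b (some l))))
  · refine TP.and _ _ (TP.not _ (TP_Zer hE hP l)) (TP.ex fun b => TP.and _ _
      (TK_ne_zero (TK_RE hE hc hP a b l)) (TP.and _ _ ((TK_b (some l)).eq (TK_RE hE hc hP a b l))
      (TP_bex fun m => TP.and _ _ (TP_ActZ hE hc hP a b l m) ((TF_γ (some l)).eq ?_))))
    exact (TF_ext (hE _ (tc_mem hE hc hP b l m)).1).add ((TF_cV hE hc a b).mul_const m)

end

end Pool.Agent.Lib.H70.Top.Fibre
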