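import Pool.Agent.Lib.H70.Top.Fibre2

/-!
# The cell predicate describes the leading terms
-/

namespace Pool.Agent.Lib.H70.Top.Fibre

open Polynomial
open scoped BigOperators

section

variable {ι : Type} {O k : ι → Type} [∀ i, CommRing (O i)] [∀ i, IsDomain (O i)]
  [∀ i, Field (k i)] {R : ∀ i, HDVR (O i) (k i)} {X : ι → Type}
  {N r : ℕ} {c : Fin N → ∀ i, X i → O i} {P : Fin r → Polynomial (∀ i, X i → O i)} {n : ℕ}

/-- `a` is the first nearest centre to `y` -/
def FN (R : ∀ i, HDVR (O i) (k i)) (c : Fin N → ∀ i, X i → O i) (a : Fin N) (i : ι) (x : X i)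
    (y : O i) : Prop :=
  (∀ b : Fin N, y - c b i x ≠ 0 ∧ (R i).v (y - c b i x) ≤ (R i).v (y - c a i x)) ∧
    ∀ b : Fin N, b < a → (R i).v (y - c b i x) < (R i).v (y - c a i x)

variable {a : Fin N} {i : ι} {z : Z X k r i} {y : O i}

theorem dV_le (γ δ : ℤ) (η : k i) : dV γ δ η ≤ γ := by
  unfold dV
  split_ifs with h
  · exact h.2.le
  · exact le_rfl

theorem near_iff (hy : y - c a i z.1 ≠ 0) (hv : ((R i).v (y - c a i z.1) : ℤ) = z.2.1 none)
    (ha : (R i).ac (y - c a i z.1) = z.2.2 none) : Near R c a i z ↔ FN R c a i z.1 y := by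
  have key : ∀ b : Fin N, y - c b i z.1 = (y - c a i z.1) + (c a i z.1 - c b i z.1) :=
    fun b => by ring
  constructor
  · rintro ⟨_, h2, h3⟩
    have h4 : ∀ b, y - c b i z.1 ≠ 0 ∧ ((R i).v (y - c b i z.1) : ℤ) =
        dV ((R i).v (y - c a i z.1) : ℤ) ((R i).v (c a i z.1 - c b i z.1))
          ((R i).ac (c a i z.1 - c b i z.1)) := by
      intro b
      have := rv_add (R := R i) (x := y - c a i z.1) (d := c a i z.1 - c b i z.1) hy (by
        rintro ⟨e1, e2, e3⟩
        exact h2 b ⟨e1, by rw [dv, e2, hv], by rw [da, ← ha]; exact e3⟩)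
      rw [← key b] at this
      exact ⟨this.1, this.2.1⟩
    refine ⟨fun b => ⟨(h4 b).1, ?_⟩, fun b hb => ?_⟩
    · have h5 := dV_le (i := i) ((R i).v (y - c a i z.1) : ℤ) ((R i).v (c a i z.1 - c b i z.1))
          ((R i).ac (c a i z.1 - c b i z.1))
      rw [← (h4 b).2] at h5
      exact_mod_cast h5
    · obtain ⟨h5, h6⟩ := h3 b hb
      have h7 := (h4 b).2
      rw [hv] at h7
      unfold dV at h7
      rw [if_pos ⟨h5, h6⟩] at h7
      have h8 : ((R i).v (y - c b i z.1) : ℤ) < (R i).v (y - c a i z.1) := by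
        rw [h7, hv]; exact h6
      exact_mod_cast h8
  · rintro ⟨h1, h2⟩
    have hnc : ∀ b, ¬ (da R c a b i z.1 ≠ 0 ∧ dv R c a b i z.1 = z.2.1 none ∧
      z.2.2 none + da R c a b i z.1 = 0) := by
      rintro b ⟨e1, e2, e3⟩
      have h3 := rv_add_cancel (R := R i) (x := y - c a i z.1) (d := c a i z.1 - c b i z.1) hy
        (by have : (dv R c a b i z.1) = ((R i).v (y - c a i z.1) : ℤ) := by rw [e2, hv]
            unfold dv at this; exact_mod_cast this)
        (by rw [ha]; exact e3)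
      rw [← key b] at h3
      rcases h3 with h3 | h3
      · exact (h1 b).1 h3
      · have := (h1 b).2
        omega
    refine ⟨⟨by rw [← hv]; exact Int.natCast_nonneg _, by rw [← ha]; exact (R i).ac_ne hy⟩,
      hnc, fun b hb => ?_⟩
    have h4 := rv_add (R := R i) (x := y - c a i z.1) (d := c a i z.1 - c b i z.1) hy (by
        rintro ⟨e1, e2, e3⟩
        exact hnc b ⟨e1, by rw [dv, e2, hv], by rw [da, ← ha]; exact e3⟩)
    rw [← key b] at h4
    have h5 := h4.2.1
    have h6 := h2 b hb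
    unfold dV at h5
    by_contra hcon
    rw [if_neg (by rw [hv]; exact hcon)] at h5
    have : (R i).v (y - c b i z.1) = (R i).v (y - c a i z.1) := by exact_mod_cast h5
    omega

theorem near_rv (hy : y - c a i z.1 ≠ 0) (hv : ((R i).v (y - c a i z.1) : ℤ) = z.2.1 none)
    (ha : (R i).ac (y - c a i z.1) = z.2.2 none) (hN : Near R c a i z) (b : Fin N) :
    y - c b i z.1 ≠ 0 ∧ ((R i).v (y - c b i z.1) : ℤ) = cV R c a b i z ∧
      (R i).ac (y - c b i z.1) = cA R c a b i z := by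
  have h4 := rv_add (R := R i) (x := y - c a i z.1) (d := c a i z.1 - c b i z.1) hy (by
        rintro ⟨e1, e2, e3⟩
        exact hN.2.1 b ⟨e1, by rw [dv, e2, hv], by rw [da, ← ha]; exact e3⟩)
  rw [show y - c a i z.1 + (c a i z.1 - c b i z.1) = y - c b i z.1 by ring] at h4
  refine ⟨h4.1, ?_, ?_⟩
  · rw [h4.2.1, hv]; rfl
  · rw [h4.2.2, hv, ha]; rfl

theorem tc_eq (b : Fin N) (l : Fin r) (m : ℕ) (x : X i) :
    tc c P b l m i x = (taylor (c b i x) ((P l).map (pt i x))).coeff m := by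
  have h : taylor (c b i x) ((P l).map (pt i x)) = (taylor (c b) (P l)).map (pt i x) := by
    rw [map_taylor]; rfl
  rw [h, coeff_map]; rfl

theorem natDegree_le (hd : ∀ l, (P l).natDegree ≤ n) (b : Fin N) (l : Fin r) (x : X i) :
    (taylor (c b i x) ((P l).map (pt i x))).natDegree ≤ n := by
  rw [natDegree_taylor]
  exact natDegree_map_le.trans (hd l)

theorem actZ_iff (hd : ∀ l, (P l).natDegree ≤ n) (b : Fin N) (l : Fin r) (m : ℕ)
    (hcv : ((R i).v (y - c b i z.1) : ℤ) = cV R c a b i z) :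
    ActZ R c P n a b l m i z ↔
      (R i).Act (taylor (c b i z.1) ((P l).map (pt i z.1))) ((R i).v (y - c b i z.1)) m := by
  unfold ActZ HDVR.Act
  simp only [tc_eq, ← hcv, ne_eq, HDVR.ac_eq_zero]
  constructor
  · rintro ⟨h1, h2⟩
    refine ⟨h1, fun m' hm' => ?_⟩
    have hle : m' ≤ n := by
      by_contra hcon
      exact hm' (coeff_eq_zero_of_natDegree_lt (by
        have := natDegree_le (c := c) hd b l z.1
        omega))
    have := h2 m' hle hm'
    exact_mod_cast this
  · rintro ⟨h1, h2⟩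
    refine ⟨h1, fun m' _ hm' => ?_⟩
    have := h2 m' hm'
    exact_mod_cast this

theorem RE_eq (hd : ∀ l, (P l).natDegree ≤ n) (b : Fin N) (l : Fin r)
    (hcv : ((R i).v (y - c b i z.1) : ℤ) = cV R c a b i z)
    (hca : (R i).ac (y - c b i z.1) = cA R c a b i z) :
    RE R c P n a b l i z = ((R i).redP (taylor (c b i z.1) ((P l).map (pt i z.1)))
      ((R i).v (y - c b i z.1))).eval ((R i).ac (y - c b i z.1)) := by
  classical
  rw [HDVR.redP_eq_sum (natDegree_le (c := c) hd b l z.1), eval_finsetSum]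
  unfold RE
  refine Finset.sum_congr rfl fun m _ => ?_
  rw [eval_monomial, hca, HDVR.redC, tc_eq]
  have := actZ_iff (y := y) hd b l m hcv
  by_cases h : ActZ R c P n a b l m i z
  · rw [if_pos h, if_pos (this.1 h)]
  · rw [if_neg h, if_neg (fun h' => h (this.2 h'))]

theorem zer_iff (hd : ∀ l, (P l).natDegree ≤ n) (l : Fin r) :
    Zer R P n l i z ↔ (P l).map (pt i z.1) = 0 := by
  unfold Zer
  constructor
  · intro h
    ext m
    rw [coeff_map, coeff_zero, pt_apply]
    by_cases hm : m ≤ n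
    · exact (R i).ac_eq_zero.1 (h m hm)
    · rw [coeff_eq_zero_of_natDegree_lt (by have := hd l; omega)]; rfl
  · intro h m _
    have := congrArg (fun Q => Polynomial.coeff Q m) h
    simp only [coeff_map, pt_apply, coeff_zero] at this
    rw [this, HDVR.ac_zero]

/-- The cell predicate describes the leading terms of the polynomials. -/
theorem DD_iff (hd : ∀ l, (P l).natDegree ≤ n)
    (hreg : ∀ l, ∃ b, (R i).Reg ((P l).map (pt i z.1)) (c b i z.1) y)
    (hy : y - c a i z.1 ≠ 0) (hv : ((R i).v (y - c a i z.1) : ℤ) = z.2.1 none)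
    (ha : (R i).ac (y - c a i z.1) = z.2.2 none) :
    DD R c P n a i z ↔ FN R c a i z.1 y ∧ ∀ l : Fin r,
      (((R i).v (((P l).map (pt i z.1)).eval y) : ℤ) = z.2.1 (some l) ∧
        (R i).ac (((P l).map (pt i z.1)).eval y) = z.2.2 (some l)) := by
  unfold DD
  rw [near_iff hy hv ha]
  refine and_congr_right fun hFN => forall_congr' fun l => ?_
  have hN : Near R c a i z := (near_iff hy hv ha).2 hFN
  rw [zer_iff hd]
  by_cases h0 : (P l).map (pt i z.1) = 0
  · constructor
    · rintro (⟨_, h2, h3⟩ | ⟨h1, _⟩)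
      · rw [h0, eval_zero, HDVR.v_zero, HDVR.ac_zero, h2, h3]
        exact ⟨rfl, rfl⟩
      · exact absurd h0 h1
    · rintro ⟨h1, h2⟩
      rw [h0, eval_zero] at h1 h2
      rw [HDVR.v_zero] at h1
      rw [HDVR.ac_zero] at h2
      exact Or.inl ⟨h0, h1.symm, h2.symm⟩
  · constructor
    · rintro (⟨h1, _⟩ | ⟨_, b, h2, h3, m, hm, h4, h5⟩)
      · exact absurd h1 h0
      obtain ⟨e1, e2, e3⟩ := near_rv hy hv ha hN b
      rw [RE_eq hd b l e2 e3] at h2 h3
      obtain ⟨_, f2, f3, _⟩ := HDVR.reg_value (sub_ne_zero.1 e1) h2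
      rw [actZ_iff (y := y) hd b l m e2] at h4
      refine ⟨?_, by rw [f2, h3]⟩
      rw [f3 m h4, h5, tc_eq, ← e2]
      push_cast
      rfl
    · rintro ⟨h1, h2⟩
      refine Or.inr ⟨h0, ?_⟩
      obtain ⟨b, hb⟩ := hreg l
      obtain ⟨e1, e2, e3⟩ := near_rv hy hv ha hN b
      rcases hb with hb | hb | hb
      · exact absurd hb h0
      · exact absurd (sub_eq_zero.2 hb) e1
      refine ⟨b, by rw [RE_eq hd b l e2 e3]; exact hb, ?_, ?_⟩
      · rw [RE_eq hd b l e2 e3, ← h2]
        exact (HDVR.reg_value (sub_ne_zero.1 e1) hb).2.1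
      · obtain ⟨_, _, f3, m, hm, f4⟩ := HDVR.reg_value (sub_ne_zero.1 e1) hb
        refine ⟨m, hm.trans (natDegree_map_le.trans (hd l)),
          (actZ_iff (y := y) hd b l m e2).2 f4, ?_⟩
        rw [← h1, f3 m f4, tc_eq, ← e2]
        push_cast
        rfl

/-- existence of the first nearest centre -/
theorem exists_FN {x : X i} (hN : 0 < N) (hy : ∀ b, y - c b i x ≠ 0) :
    ∃ a, FN R c a i x y := by
  classical
  have : Nonempty (Fin N) := ⟨⟨0, hN⟩⟩
  obtain ⟨a0, ha0⟩ := Finite.exists_max (fun b => (R i).v (y - c b i x))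
  -- first index with the maximal value
  have hne : ∃ j : ℕ, ∃ h : j < N, (R i).v (y - c ⟨j, h⟩ i x) = (R i).v (y - c a0 i x) :=
    ⟨a0, a0.2, rfl⟩
  obtain ⟨hj, hj2⟩ := Nat.find_spec hne
  refine ⟨⟨Nat.find hne, hj⟩, fun b => ⟨hy b, by rw [hj2]; exact ha0 b⟩, fun b hb => ?_⟩
  rw [hj2]
  refine lt_of_le_of_ne (ha0 b) fun heq => ?_
  exact Nat.find_min hne (m := b) hb ⟨b.2, heq⟩

theorem FN_unique {x : X i} {a b : Fin N} (ha : FN R c a i x y) (hb : FN R c b i x y) :
    a = b := by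
  by_contra hne
  rcases lt_or_gt_of_ne hne with h | h
  · have h1 := hb.2 a h
    have h2 := (ha.1 b).2
    omega
  · have h1 := ha.2 b h
    have h2 := (hb.1 a).2
    omega

end

end Pool.Agent.Lib.H70.Top.Fibre
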