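import Pool.Agent.Lib.H70.Top.Base

/-!
# Chunk G: Witt vectors
-/

namespace Pool.Agent.Lib.H70.Top

open MeasureTheory Filter Topology
open scoped ENNReal BigOperators Nat

namespace G

open Polynomial in
open scoped Ring in
/-- Newton iteration, no monic hypothesis. -/
theorem newton {R : Type*} [CommRing R] (I : Ideal R) [IsAdicComplete I R] (f : Polynomial R)
    (a₀ : R) (h₁ : f.eval a₀ ∈ I) (h₂ : IsUnit (Ideal.Quotient.mk I (f.derivative.eval a₀))) :
    ∃ a, f.eval a = 0 ∧ a - a₀ ∈ I := by
  classical
    let f' := derivative f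
    let c : ℕ → R := fun n => Nat.recOn n a₀ fun _ b => b - f.eval b * (f'.eval b)⁻¹ʳ
    have hc : ∀ n, c (n + 1) = c n - f.eval (c n) * (f'.eval (c n))⁻¹ʳ := by
      intro n
      simp only [c]
    have hc_mod : ∀ n, c n ≡ a₀ [SMOD I] := by
      intro n
      induction n with
      | zero => rfl
      | succ n ih => ?_
      rw [hc, sub_eq_add_neg, ← add_zero a₀]
      refine ih.add ?_
      rw [SModEq.zero, Ideal.neg_mem_iff]
      refine I.mul_mem_right _ ?_
      rw [← SModEq.zero] at h₁ ⊢
      exact (ih.eval f).trans h₁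
    have hf'c : ∀ n, IsUnit (f'.eval (c n)) := by
      intro n
      have := isLocalHom_of_le_jacobson_bot I (IsAdicComplete.le_jacobson_bot I)
      apply IsUnit.of_map (Ideal.Quotient.mk I)
      convert! h₂ using 1
      exact SModEq.def.mp ((hc_mod n).eval _)
    have hfcI : ∀ n, f.eval (c n) ∈ I ^ (n + 1) := by
      intro n
      induction n with
      | zero => simpa only [Nat.rec_zero, zero_add, pow_one] using! h₁
      | succ n ih => ?_
      rw [← taylor_eval_sub (c n), hc, sub_eq_add_neg, sub_eq_add_neg,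
        add_neg_cancel_comm]
      rw [eval_eq_sum, sum_over_range' _ _ _ (lt_add_of_pos_right _ zero_lt_two), ←
        Finset.sum_range_add_sum_Ico _ (Nat.le_add_left _ _)]
      swap
      · intro i
        rw [zero_mul]
      refine Ideal.add_mem _ ?_ ?_
      · rw [← one_add_one_eq_two, Finset.sum_range_succ, Finset.range_one, Finset.sum_singleton,
          taylor_coeff_zero, taylor_coeff_one, pow_zero, pow_one, mul_one, mul_neg,
          mul_left_comm, Ring.mul_inverse_cancel _ (hf'c n), mul_one, add_neg_cancel]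
        exact Ideal.zero_mem _
      · refine Submodule.sum_mem _ ?_
        simp only [Finset.mem_Ico]
        rintro i ⟨h2i, _⟩
        have aux : n + 2 ≤ i * (n + 1) := by trans 2 * (n + 1) <;> nlinarith only [h2i]
        refine Ideal.mul_mem_left _ _ (Ideal.pow_le_pow_right aux ?_)
        rw [pow_mul']
        exact Ideal.pow_mem_pow ((Ideal.neg_mem_iff _).2 <| Ideal.mul_mem_right _ _ ih) _
    have aux : ∀ m n, m ≤ n → c m ≡ c n [SMOD (I ^ m • ⊤ : Ideal R)] := by
      intro m n hmn
      rw [← Ideal.one_eq_top, Ideal.smul_eq_mul, mul_one]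
      obtain ⟨k, rfl⟩ := Nat.exists_eq_add_of_le hmn
      clear hmn
      induction k with
      | zero => rw [add_zero]
      | succ k ih => ?_
      rw [← add_assoc, hc, ← add_zero (c m), sub_eq_add_neg]
      refine ih.add ?_
      symm
      rw [SModEq.zero, Ideal.neg_mem_iff]
      refine Ideal.mul_mem_right _ _ (Ideal.pow_le_pow_right ?_ (hfcI _))
      rw [add_assoc]
      exact le_self_add
    obtain ⟨a, ha⟩ := IsPrecomplete.prec' c (aux _ _)
    refine ⟨a, ?_, ?_⟩
    · suffices ∀ n, f.eval a ≡ 0 [SMOD (I ^ n • ⊤ : Ideal R)] by exact IsHausdorff.haus' _ this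
      intro n
      specialize ha n
      rw [← Ideal.one_eq_top, Ideal.smul_eq_mul, mul_one] at ha ⊢
      refine (ha.symm.eval f).trans ?_
      rw [SModEq.zero]
      exact Ideal.pow_le_pow_right le_self_add (hfcI _)
    · show a - a₀ ∈ I
      specialize ha (0 + 1)
      rw [hc, pow_one, ← Ideal.one_eq_top, Ideal.smul_eq_mul, mul_one, sub_eq_add_neg] at ha
      rw [← SModEq.sub_mem, ← add_zero a₀]
      refine ha.symm.trans (SModEq.rfl.add ?_)
      rw [SModEq.zero, Ideal.neg_mem_iff]
      exact Ideal.mul_mem_right _ _ h₁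

end G

theorem exists_HDVR (p f : ℕ) [Fact p.Prime] (hf : 1 ≤ f) :
    ∃ R : HDVR (OO p f) (GaloisField p f), R.π = (p : OO p f) := by
  have hker : ∀ x : OO p f, WittVector.constantCoeff x = 0 ↔ (p : OO p f) ∣ x := by
    intro x
    rw [← Ideal.mem_span_singleton, WittVector.mem_span_p_iff_coeff_zero_eq_zero]
    rfl
  have hunit : ∀ x : OO p f, WittVector.constantCoeff x ≠ 0 → IsUnit x := by
    intro x hx
    exact WittVector.isUnit_of_coeff_zero_ne_zero x hx
  refine ⟨{ π := (p : OO p f)
            res := WittVector.constantCoeff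
            surj := WittVector.constantCoeff_surjective p
            ker := hker
            π_ne := WittVector.p_nonzero p _
            fact := ?_
            unit := hunit
            hensel := ?_ }, rfl⟩
  · intro x hx
    obtain ⟨m, b, hb, rfl⟩ := WittVector.exists_eq_pow_p_mul x hx
    exact ⟨m, b, rfl, hb⟩
  · intro F a h1 h2
    obtain ⟨b, hb, hb'⟩ := G.newton (Ideal.span {(p : OO p f)}) F a
      (by rw [Ideal.mem_span_singleton]; exact (hker _).1 h1)
      ((hunit _ h2).map _)
    refine ⟨b, hb, ?_⟩
    rw [Ideal.mem_span_singleton, ← hker, map_sub, sub_eq_zero] at hb'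
    exact hb'

theorem exists_unif (p f : ℕ) [Fact p.Prime] (hf : 1 ≤ f) :
    ∃ (_ : MeasurableSpace (OO p f)) (μ : Measure (OO p f)), IsUnif (p : OO p f) (p ^ f) μ := by
  classical
  let k := GaloisField p f
  have : Finite k := inferInstance
  haveI : Fintype k := Fintype.ofFinite k
  letI mk : MeasurableSpace k := ⊤
  haveI : DiscreteMeasurableSpace k := ⟨fun _ => trivial⟩
  have hcard : Fintype.card k = p ^ f := by
    rw [← Nat.card_eq_fintype_card]; exact GaloisField.card p f (by omega)
  have hp0 : (0 : ℕ) < p := (Fact.out : p.Prime).pos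
  let ν : Measure k := ((p ^ f : ℕ) : ℝ≥0∞)⁻¹ • Measure.count
  have hq0 : ((p ^ f : ℕ) : ℝ≥0∞) ≠ 0 := by
    simp only [ne_eq, Nat.cast_eq_zero]; positivity
  have hqt : ((p ^ f : ℕ) : ℝ≥0∞) ≠ ∞ := ENNReal.natCast_ne_top _
  have hν1 : IsProbabilityMeasure ν := by
    constructor
    simp only [ν, Measure.smul_apply, smul_eq_mul]
    rw [Measure.count_apply_finite _ (Set.toFinite _)]
    have : (Set.toFinite (Set.univ : Set k)).toFinset.card = p ^ f := by
      simp [← hcard]
    rw [this]
    exact ENNReal.inv_mul_cancel hq0 hqt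
  have hνs : ∀ a : k, ν {a} = ((p ^ f : ℕ) : ℝ≥0∞)⁻¹ := by
    intro a
    simp only [ν, Measure.smul_apply, smul_eq_mul, Measure.count_singleton, mul_one]
  letI mO : MeasurableSpace (OO p f) :=
    MeasurableSpace.comap (fun x : OO p f => (x.coeff : ℕ → k)) MeasurableSpace.pi
  have hcm : Measurable (fun x : OO p f => (x.coeff : ℕ → k)) := comap_measurable _
  have hmk : Measurable (fun x : ℕ → k => (WittVector.mk p x : OO p f)) := by
    rw [measurable_comap_iff]
    exact measurable_id
  have hset : ∀ (a : OO p f) (n : ℕ), {x : OO p f | (p : OO p f) ^ n ∣ x - a} =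
      (fun x : OO p f => (x.coeff : ℕ → k)) ⁻¹'
        (Set.pi (Finset.range n : Finset ℕ) fun i => {a.coeff i}) := by
    intro a n
    ext x
    simp only [Set.mem_setOf_eq, Set.mem_preimage, Set.mem_pi, Finset.coe_range, Set.mem_Iio,
      Set.mem_singleton_iff]
    rw [← Ideal.mem_span_singleton]
    rw [WittVector.mem_span_p_pow_iff_le_coeff_eq_zero,
      ← WittVector.le_coeff_eq_iff_le_sub_coeff_eq_zero]
  refine ⟨mO, (Measure.infinitePi fun _ : ℕ => ν).map
    (fun x : ℕ → k => (WittVector.mk p x : OO p f)), ⟨?_, ?_⟩⟩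
  · intro a n
    rw [hset]
    refine hcm ?_
    exact MeasurableSet.pi (Finset.countable_toSet _) (fun i _ => MeasurableSet.singleton _)
  · intro a n
    rw [Measure.map_apply hmk]
    · rw [hset]
      have : (fun x : ℕ → k => (WittVector.mk p x : OO p f)) ⁻¹'
          ((fun x : OO p f => (x.coeff : ℕ → k)) ⁻¹'
            (Set.pi (Finset.range n : Finset ℕ) fun i => {a.coeff i})) =
          (Set.pi (Finset.range n : Finset ℕ) fun i => {a.coeff i}) := by
        rw [← Set.preimage_comp]; rfl
      rw [this, Measure.infinitePi_pi _ (fun i _ => MeasurableSet.singleton _)]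
      simp only [hνs, Finset.prod_const, Finset.card_range]
      rw [ENNReal.inv_pow]
    · rw [hset]
      refine hcm ?_
      exact MeasurableSet.pi (Finset.countable_toSet _) (fun i _ => MeasurableSet.singleton _)

end Pool.Agent.Lib.H70.Top
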