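import Pool.Agent.Lib.H70.Top.Base

/-!
# Chunk A: generating functions of semilinear sets

The generating function of a semilinear subset `A` of `ℤ^α` is rational, with denominators
`1 - w(x)`, `x` a nonzero direction in which `A` is infinite.
-/

namespace Pool.Agent.Lib.H70.Top.GenFun

open Set Pointwise

section Dickson

/-- Every subset of a well-quasi-order lies above a finite subset. -/
lemma exists_finite_min {N : Type*} [PartialOrder N] [WellQuasiOrderedLE N] (Y : Set N) :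
    ∃ M : Set N, M.Finite ∧ M ⊆ Y ∧ ∀ y ∈ Y, ∃ m ∈ M, m ≤ y := by
  refine ⟨{x | Minimal (· ∈ Y) x}, WellQuasiOrderedLE.finite_of_isAntichain
    (setOfPred_minimal_antichain _), fun x hx => hx.1, fun y hy => ?_⟩
  obtain ⟨z, hz, hz'⟩ := exists_minimal_le_of_wellFoundedLT (· ∈ Y) y hy
  exact ⟨z, hz', hz⟩

variable {G : Type*} [AddCommGroup G]

lemma exists_hom (T : AddSubmonoid G) (hT : T.FG) :
    ∃ (n : ℕ) (f : (Fin n → ℕ) →+ G), ∀ x, x ∈ T ↔ ∃ c, f c = x := by
  obtain ⟨n, f, hf⟩ := AddSubmonoid.fg_iff_exists_fin_addMonoidHom.1 hT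
  refine ⟨n, f, fun x => ?_⟩
  rw [← hf]
  simp

lemma dickson_gen (T : AddSubmonoid G) (hT : T.FG) (F : Set G) (hF : F.Finite) (X : Set G)
    (hX : X ⊆ F + (T : Set G)) :
    ∃ F' : Set G, F'.Finite ∧ F' ⊆ X ∧ X ⊆ F' + (T : Set G) := by
  obtain ⟨n, f, hf⟩ := exists_hom T hT
  choose M hM hMY hMle using fun g : G => exists_finite_min {c : Fin n → ℕ | g + f c ∈ X}
  refine ⟨⋃ g ∈ F, (fun c => g + f c) '' M g, hF.biUnion fun g _ => (hM g).image _, ?_, ?_⟩
  · intro x hx
    simp only [mem_iUnion, mem_image] at hx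
    obtain ⟨g, -, c, hc, rfl⟩ := hx
    exact hMY g hc
  · intro x hx
    obtain ⟨g, hg, t, ht, rfl⟩ := hX hx
    obtain ⟨c, rfl⟩ := (hf t).1 ht
    obtain ⟨m, hm, hmc⟩ := hMle g c hx
    obtain ⟨d, rfl⟩ := exists_add_of_le hmc
    refine ⟨g + f m, ?_, f d, (hf _).2 ⟨d, rfl⟩, ?_⟩
    · simp only [mem_iUnion, mem_image]
      exact ⟨g, hg, m, hm, rfl⟩
    · simp [map_add, add_assoc]

/-- A finite union of cosets of one finitely generated submonoid. -/
def Cos (B : Set G) : Prop :=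
  ∃ (T : AddSubmonoid G) (F : Set G), T.FG ∧ F.Finite ∧ B = F + (T : Set G)

lemma inter_fg (T T' : AddSubmonoid G) (hT : T.FG) (hT' : T'.FG) : (T ⊓ T').FG := by
  obtain ⟨n, f, hf⟩ := exists_hom T hT
  obtain ⟨n', f', hf'⟩ := exists_hom T' hT'
  have h := AddSubmonoid.fg_eqLocusM (f.comp (AddMonoidHom.fst (Fin n → ℕ) (Fin n' → ℕ)))
    (f'.comp (AddMonoidHom.snd (Fin n → ℕ) (Fin n' → ℕ)))
  have h2 := h.map (f.comp (AddMonoidHom.fst (Fin n → ℕ) (Fin n' → ℕ)))
  suffices hs : T ⊓ T' = AddSubmonoid.map (f.comp (AddMonoidHom.fst (Fin n → ℕ) (Fin n' → ℕ)))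
      ((f.comp (AddMonoidHom.fst (Fin n → ℕ) (Fin n' → ℕ))).eqLocusM
        (f'.comp (AddMonoidHom.snd (Fin n → ℕ) (Fin n' → ℕ)))) by
    rw [hs]; exact h2
  ext x
  simp only [AddSubmonoid.mem_inf, AddSubmonoid.mem_map, AddMonoidHom.mem_eqLocusM,
    AddMonoidHom.comp_apply, AddMonoidHom.coe_fst, AddMonoidHom.coe_snd, Prod.exists]
  constructor
  · rintro ⟨h1, h2⟩
    obtain ⟨c, rfl⟩ := (hf _).1 h1
    obtain ⟨c', hc'⟩ := (hf' _).1 h2
    exact ⟨c, c', hc'.symm, rfl⟩
  · rintro ⟨c, c', h1, rfl⟩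
    exact ⟨(hf _).2 ⟨c, rfl⟩, (hf' _).2 ⟨c', h1.symm⟩⟩

lemma coset_inter (T T' : AddSubmonoid G) (hT : T.FG) (hT' : T'.FG) (m m' : G) :
    ∃ F : Set G, F.Finite ∧
      (({m} : Set G) + (T : Set G)) ∩ (({m'} : Set G) + (T' : Set G)) =
        F + ((T ⊓ T' : AddSubmonoid G) : Set G) := by
  obtain ⟨n, f, hf⟩ := exists_hom T hT
  obtain ⟨n', f', hf'⟩ := exists_hom T' hT'
  obtain ⟨M, hM, hMY, hMle⟩ := exists_finite_min
    {x : (Fin n → ℕ) × (Fin n' → ℕ) | m + f x.1 = m' + f' x.2}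
  refine ⟨(fun x => m + f x.1) '' M, hM.image _, ?_⟩
  ext u
  simp only [mem_inter_iff, Set.mem_add, mem_singleton_iff, exists_eq_left, SetLike.mem_coe,
    mem_image, AddSubmonoid.mem_inf]
  constructor
  · rintro ⟨⟨t, ht, rfl⟩, t', ht', h⟩
    obtain ⟨c, rfl⟩ := (hf t).1 ht
    obtain ⟨c', rfl⟩ := (hf' t').1 ht'
    obtain ⟨⟨x, x'⟩, hx, hle⟩ := hMle (c, c') h.symm
    have hx2 := hMY hx
    obtain ⟨d, rfl⟩ := exists_add_of_le hle.1
    obtain ⟨d', rfl⟩ := exists_add_of_le hle.2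
    simp only [mem_ofPred_eq, map_add] at hx2 h ⊢
    have hdd : f d = f' d' := by
      have h1 : m' + (f' x' + f' d') = m + (f x + f d) := h
      have h3 : m + f x + f d = m + f x + f' d' := by
        calc m + f x + f d = m' + (f' x' + f' d') := by rw [h1]; abel
          _ = (m' + f' x') + f' d' := by abel
          _ = m + f x + f' d' := by rw [← hx2]
      exact add_left_cancel h3
    refine ⟨m + f x, ⟨(x, x'), hx, rfl⟩, f d, ⟨(hf _).2 ⟨d, rfl⟩, (hf' _).2 ⟨d', hdd.symm⟩⟩, ?_⟩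
    abel
  · rintro ⟨_, ⟨⟨x, x'⟩, hx, rfl⟩, t, ⟨ht, ht'⟩, rfl⟩
    have hx2 := hMY hx
    simp only [mem_ofPred_eq] at hx2
    refine ⟨⟨f x + t, T.add_mem ((hf _).2 ⟨x, rfl⟩) ht, by abel⟩,
      ⟨f' x' + t, T'.add_mem ((hf' _).2 ⟨x', rfl⟩) ht', ?_⟩⟩
    show m' + (f' x' + t) = m + f x + t
    rw [hx2]; abel

lemma Cos.inter {B B' : Set G} (h : Cos B) (h' : Cos B') : Cos (B ∩ B') := by
  obtain ⟨T, F, hT, hF, rfl⟩ := h
  obtain ⟨T', F', hT', hF', rfl⟩ := h'
  choose Φ hΦ hΦ' using fun m m' : G => coset_inter T T' hT hT' m m'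
  refine ⟨T ⊓ T', ⋃ m ∈ F, ⋃ m' ∈ F', Φ m m', inter_fg T T' hT hT',
    hF.biUnion fun m _ => hF'.biUnion fun m' _ => hΦ m m', ?_⟩
  ext u
  constructor
  · rintro ⟨⟨m, hm, t, ht, rfl⟩, ⟨m', hm', t', ht', h⟩⟩
    have : m + t ∈ (({m} : Set G) + (T : Set G)) ∩ (({m'} : Set G) + (T' : Set G)) :=
      ⟨⟨m, rfl, t, ht, rfl⟩, ⟨m', rfl, t', ht', h⟩⟩
    rw [hΦ'] at this
    obtain ⟨a, ha, b, hb, hab⟩ := this
    refine ⟨a, ?_, b, hb, hab⟩
    simp only [mem_iUnion]
    exact ⟨m, hm, m', hm', ha⟩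
  · rintro ⟨a, ha, b, hb, rfl⟩
    simp only [mem_iUnion] at ha
    obtain ⟨m, hm, m', hm', ha⟩ := ha
    have : a + b ∈ (({m} : Set G) + (T : Set G)) ∩ (({m'} : Set G) + (T' : Set G)) := by
      rw [hΦ']
      exact ⟨a, ha, b, hb, rfl⟩
    obtain ⟨⟨x, hx, t, ht, h1⟩, ⟨x', hx', t', ht', h2⟩⟩ := this
    rw [mem_singleton_iff] at hx hx'
    subst hx; subst hx'
    exact ⟨⟨x, hm, t, ht, h1⟩, ⟨x', hm', t', ht', h2⟩⟩

end Dickson

section HilbertSerre

variable {G : Type*} [AddCommGroup G]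

/-- The weight of `u`. -/
def W (w : Multiplicative G →* ℝ) (u : G) : ℝ := w (Multiplicative.ofAdd u)

@[simp] lemma W_add (w : Multiplicative G →* ℝ) (u v : G) : W w (u + v) = W w u * W w v := by
  simp [W]

@[simp] lemma W_zero (w : Multiplicative G →* ℝ) : W w (0 : G) = 1 := by
  simp [W]

lemma W_nsmul (w : Multiplicative G →* ℝ) (n : ℕ) (u : G) : W w (n • u) = W w u ^ n := by
  simp [W, ofAdd_nsmul]

/-- Evaluation of a Laurent polynomial at the weight `w`. -/
noncomputable def ev (w : Multiplicative G →* ℝ) : AddMonoidAlgebra ℤ G →ₐ[ℤ] ℝ :=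
  AddMonoidAlgebra.lift ℤ ℝ G w

lemma ev_single (w : Multiplicative G →* ℝ) (u : G) (n : ℤ) :
    ev w (AddMonoidAlgebra.single u n) = n * W w u := by
  simp [ev, W]

/-- `T`-convexity. -/
def Convex' (T : AddSubmonoid G) (B : Set G) : Prop :=
  ∀ b ∈ B, ∀ s ∈ T, ∀ s' ∈ T, b + s + s' ∈ B → b + s ∈ B

/-- Translate of a set. -/
def shift (a : G) (X : Set G) : Set G := {u | u - a ∈ X}

lemma tsum_shift (w : Multiplicative G →* ℝ) (a : G) (X : Set G) :
    ∑' u, (shift a X).indicator (W w) u = W w a * ∑' u, X.indicator (W w) u := by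
  rw [← (Equiv.addRight a).tsum_eq, ← tsum_mul_left]
  refine tsum_congr fun u => ?_
  by_cases hu : u ∈ X
  · rw [indicator_of_mem hu, indicator_of_mem (by simpa [shift] using hu)]
    simp [mul_comm]
  · rw [indicator_of_notMem hu, indicator_of_notMem (by simpa [shift] using hu)]
    simp

lemma summable_shift (w : Multiplicative G →* ℝ) (a : G) (X : Set G)
    (h : Summable (X.indicator (W w))) : Summable ((shift a X).indicator (W w)) := by
  rw [← (Equiv.addRight a).summable_iff]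
  refine (h.mul_left (W w a)).congr fun u => ?_
  by_cases hu : u ∈ X
  · rw [indicator_of_mem hu]
    simp only [Function.comp_apply, Equiv.coe_addRight]
    rw [indicator_of_mem (by simpa [shift] using hu)]
    simp [mul_comm]
  · rw [indicator_of_notMem hu]
    simp only [Function.comp_apply, Equiv.coe_addRight]
    rw [indicator_of_notMem (by simpa [shift] using hu)]
    simp

lemma summable_sub (w : Multiplicative G →* ℝ) {X Y : Set G} (hXY : X ⊆ Y)
    (h : Summable (Y.indicator (W w))) : Summable (X.indicator (W w)) := by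
  have := h.indicator X
  rwa [indicator_indicator, inter_eq_left.2 hXY] at this

lemma step_identity (w : Multiplicative G →* ℝ) (a : G) (B : Set G)
    (h : Summable (B.indicator (W w))) :
    (∑' u, B.indicator (W w) u) * (1 - W w a) =
      ∑' u, (B \ shift a B).indicator (W w) u -
        W w a * ∑' u, {b | b ∈ B ∧ b + a ∉ B}.indicator (W w) u := by
  have h1 := summable_shift w a B h
  have hK : Summable ({b | b ∈ B ∧ b + a ∉ B}.indicator (W w)) :=
    summable_sub w (fun u hu => hu.1) h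
  have h2 := summable_shift w a _ hK
  have hC : Summable ((B \ shift a B).indicator (W w)) :=
    summable_sub w (fun u hu => hu.1) h
  rw [mul_sub, mul_one, mul_comm, ← tsum_shift, ← tsum_shift, ← h.tsum_sub h1, ← hC.tsum_sub h2]
  refine tsum_congr fun u => ?_
  have key : u ∈ shift a {b | b ∈ B ∧ b + a ∉ B} ↔ u ∈ shift a B ∧ u ∉ B := by
    simp [shift]
  classical
  simp only [indicator_apply, key, mem_sdiff]
  by_cases h3 : u ∈ B <;> by_cases h4 : u ∈ shift a B <;> simp [h3, h4]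

/-- The `T`-module generated by the members of a list. -/
def Tl (l : List G) : AddSubmonoid G := AddSubmonoid.closure {x | x ∈ l}

lemma Tl_fg (l : List G) : (Tl l).FG :=
  (AddSubmonoid.fg_iff _).2 ⟨_, rfl, l.finite_toSet⟩

lemma mem_Tl_cons (a : G) (l : List G) (x : G) :
    x ∈ Tl (a :: l) ↔ ∃ s ∈ Tl l, ∃ n : ℕ, s + n • a = x := by
  have : ({x | x ∈ a :: l} : Set G) = {a} ∪ {x | x ∈ l} := by
    ext; simp
  rw [Tl, this, AddSubmonoid.closure_union, AddSubmonoid.mem_sup]
  constructor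
  · rintro ⟨y, hy, z, hz, rfl⟩
    obtain ⟨n, rfl⟩ := AddSubmonoid.mem_closure_singleton.1 hy
    exact ⟨z, hz, n, add_comm _ _⟩
  · rintro ⟨s, hs, n, rfl⟩
    exact ⟨n • a, AddSubmonoid.mem_closure_singleton.2 ⟨n, rfl⟩, s, hs, add_comm _ _⟩

lemma Tl_le_cons (a : G) (l : List G) : Tl l ≤ Tl (a :: l) := fun x hx =>
  (mem_Tl_cons a l x).2 ⟨x, hx, 0, by simp⟩

lemma mem_Tl_self (a : G) (l : List G) : a ∈ Tl (a :: l) :=
  (mem_Tl_cons a l a).2 ⟨0, zero_mem _, 1, by simp⟩

lemma nsmul_mem_Tl (a : G) (l : List G) (n : ℕ) : n • a ∈ Tl (a :: l) :=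
  nsmul_mem (mem_Tl_self a l) n

theorem hilbert_serre (l : List G) : ∀ (B F : Set G), F.Finite → B ⊆ F + (Tl l : Set G) →
    Convex' (Tl l) B → ∃ S : AddMonoidAlgebra ℤ G, ∀ w : Multiplicative G →* ℝ,
      Summable (B.indicator (W w)) →
      (∑' u, B.indicator (W w) u) * (l.map fun a => 1 - W w a).prod = ev w S := by
  classical
  induction l with
  | nil =>
    intro B F hF hB _
    have hBF : B ⊆ F := by
      intro b hb
      obtain ⟨f, hf, t, ht, rfl⟩ := hB hb
      have : t = 0 := by simpa [Tl] using ht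
      simpa [this] using hf
    have hBf := hF.subset hBF
    refine ⟨∑ u ∈ hBf.toFinset, AddMonoidAlgebra.single u 1, fun w _ => ?_⟩
    rw [tsum_eq_sum (s := hBf.toFinset)]
    · simp only [List.map_nil, List.prod_nil, mul_one, map_sum, ev_single, Int.cast_one, one_mul]
      refine Finset.sum_congr rfl fun u hu => ?_
      rw [indicator_of_mem (by simpa using hu)]
    · intro u hu
      rw [indicator_of_notMem (by simpa using hu)]
  | cons a l ih =>
    intro B F0 hF0 hB0 hconv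
    obtain ⟨F, hF, hFB, hB⟩ := dickson_gen (Tl (a :: l)) (Tl_fg _) F0 hF0 B hB0
    -- the cokernel
    obtain ⟨S1, hS1⟩ := ih (B \ shift a B) F hF (by
      rintro b ⟨hb, hb'⟩
      obtain ⟨f, hf, t, ht, rfl⟩ := hB hb
      obtain ⟨s, hs, n, rfl⟩ := (mem_Tl_cons a l t).1 ht
      rcases n with _ | n
      · exact ⟨f, hf, s, hs, by simp⟩
      · exfalso
        apply hb'
        show f + (s + (n + 1) • a) - a ∈ B
        have e : f + (s + (n + 1) • a) - a = f + (s + n • a) := by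
          rw [add_smul, one_smul]; abel
        rw [e]
        refine hconv f (hFB hf) (s + n • a)
          (add_mem (Tl_le_cons a l hs) (nsmul_mem_Tl a l n)) a (mem_Tl_self a l) ?_
        have e2 : f + (s + n • a) + a = f + (s + (n + 1) • a) := by
          rw [add_smul, one_smul]; abel
        rw [e2]
        exact hb) (by
      rintro b ⟨hb, hb'⟩ s hs s' hs' ⟨h1, h2⟩
      refine ⟨hconv b hb s (Tl_le_cons a l hs) s' (Tl_le_cons a l hs') h1, fun h3 => h2 ?_⟩
      show b + s + s' - a ∈ B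
      have h3' : b + s - a ∈ B := h3
      have e1 : b + s - a + s' + a = b + s + s' := by abel
      have e2 : b + s + s' - a = b + s - a + s' := by abel
      rw [e2]
      exact hconv (b + s - a) h3' s' (Tl_le_cons a l hs') a (mem_Tl_self a l) (by
        rw [e1]; exact h1))
    -- the kernel
    obtain ⟨FK, hFK, hFKK, hKK⟩ := dickson_gen (Tl (a :: l)) (Tl_fg _) F0 hF0
      {b | b ∈ B ∧ b + a ∉ B} (fun b hb => hB0 hb.1)
    obtain ⟨S2, hS2⟩ := ih {b | b ∈ B ∧ b + a ∉ B} FK hFK (by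
      rintro b hb
      obtain ⟨f, hf, t, ht, rfl⟩ := hKK hb
      obtain ⟨s, hs, n, rfl⟩ := (mem_Tl_cons a l t).1 ht
      rcases n with _ | n
      · exact ⟨f, hf, s, hs, by simp⟩
      · exfalso
        apply (hFKK hf).2
        refine hconv f (hFKK hf).1 a (mem_Tl_self a l) (s + n • a)
          (add_mem (Tl_le_cons a l hs) (nsmul_mem_Tl a l n)) ?_
        have e2 : f + a + (s + n • a) = f + (s + (n + 1) • a) := by
          rw [add_smul, one_smul]; abel
        rw [e2]
        exact hb.1) (by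
      rintro b ⟨hb, hb'⟩ s hs s' hs' ⟨h1, h2⟩
      refine ⟨hconv b hb s (Tl_le_cons a l hs) s' (Tl_le_cons a l hs') h1, fun h3 => hb' ?_⟩
      refine hconv b hb a (mem_Tl_self a l) s (Tl_le_cons a l hs) ?_
      have e1 : b + a + s = b + s + a := by abel
      rw [e1]
      exact h3)
    refine ⟨S1 - AddMonoidAlgebra.single a 1 * S2, fun w hw => ?_⟩
    have e1 := hS1 w (summable_sub w (fun u hu => hu.1) hw)
    have e2 := hS2 w (summable_sub w (fun u hu => hu.1) hw)
    rw [List.map_cons, List.prod_cons, ← mul_assoc, step_identity w a B hw, sub_mul, e1,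
      mul_assoc, e2, map_sub, map_mul, ev_single]
    simp

end HilbertSerre

section Good

variable {G : Type*} [AddCommGroup G]

/-- The indicator function of a set. -/
noncomputable def ind (B : Set G) : G → ℤ := B.indicator 1

lemma ind_mul_W (w : Multiplicative G →* ℝ) (B : Set G) (u : G) :
    (ind B u : ℝ) * W w u = B.indicator (W w) u := by
  by_cases hu : u ∈ B <;> simp [ind, hu]

/-- The generating function of `f` is rational for all weights which are summable on `A`. -/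
def Good (A : Set G) (f : G → ℤ) : Prop :=
  ∃ (J : List G) (S : AddMonoidAlgebra ℤ G), (∀ x ∈ J, x ≠ 0 ∧ ∃ m, ∀ n : ℕ, m + n • x ∈ A) ∧
    ∀ w : Multiplicative G →* ℝ, Summable (A.indicator (W w)) →
      Summable (fun u => (f u : ℝ) * W w u) ∧
      (∑' u, (f u : ℝ) * W w u) * (J.map fun a => 1 - W w a).prod = ev w S

/-- The product of the denominators as a Laurent polynomial. -/
noncomputable def den (J : List G) : AddMonoidAlgebra ℤ G :=
  (J.map fun a => 1 - AddMonoidAlgebra.single a 1).prod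

lemma ev_den (w : Multiplicative G →* ℝ) (J : List G) :
    ev w (den J) = (J.map fun a => 1 - W w a).prod := by
  rw [den, map_list_prod, List.map_map]
  congr 1
  refine List.map_congr_left fun a _ => ?_
  simp [ev_single]

lemma Good.add {A : Set G} {f g : G → ℤ} (hf : Good A f) (hg : Good A g) :
    Good A (fun u => f u + g u) := by
  obtain ⟨J, S, hJ, h⟩ := hf
  obtain ⟨J', S', hJ', h'⟩ := hg
  refine ⟨J ++ J', S * den J' + S' * den J, ?_, fun w hw => ?_⟩
  · intro x hx
    rcases List.mem_append.1 hx with hx | hx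
    · exact hJ x hx
    · exact hJ' x hx
  · obtain ⟨h1, h2⟩ := h w hw
    obtain ⟨h1', h2'⟩ := h' w hw
    have e : (fun u => ((f u + g u : ℤ) : ℝ) * W w u) =
        fun u => (f u : ℝ) * W w u + (g u : ℝ) * W w u := by
      funext u; push_cast; ring
    rw [e]
    refine ⟨h1.add h1', ?_⟩
    rw [h1.tsum_add h1', List.map_append, List.prod_append, map_add, map_mul, map_mul, ev_den,
      ev_den, ← h2, ← h2']
    ring

lemma Good.neg {A : Set G} {f : G → ℤ} (hf : Good A f) : Good A (fun u => - f u) := by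
  obtain ⟨J, S, hJ, h⟩ := hf
  refine ⟨J, -S, hJ, fun w hw => ?_⟩
  obtain ⟨h1, h2⟩ := h w hw
  have e : (fun u => ((- f u : ℤ) : ℝ) * W w u) = fun u => - ((f u : ℝ) * W w u) := by
    funext u; push_cast; ring
  rw [e]
  refine ⟨h1.neg, ?_⟩
  rw [tsum_neg, map_neg, ← h2]
  ring

lemma good_empty (A : Set G) : Good A (ind (∅ : Set G)) := by
  refine ⟨[], 0, by simp, fun w _ => ?_⟩
  simp [ind, summable_zero]

lemma good_cos {A B : Set G} (hB : Cos B) (hBA : B ⊆ A) : Good A (ind B) := by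
  obtain ⟨T, F, hT, hF, rfl⟩ := hB
  obtain ⟨t, ht, htf⟩ := (AddSubmonoid.fg_iff T).1 hT
  rcases F.eq_empty_or_nonempty with rfl | ⟨f0, hf0⟩
  · simpa using good_empty A
  have hfin : (t \ {0}).Finite := htf.subset sdiff_subset
  obtain ⟨l, hl⟩ : ∃ l : List G, {x | x ∈ l} = t \ {0} :=
    ⟨hfin.toFinset.toList, by ext; simp⟩
  have hTl : Tl l = T := by
    rw [Tl, hl, ← ht]
    apply le_antisymm
    · exact AddSubmonoid.closure_mono sdiff_subset
    · rw [AddSubmonoid.closure_le]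
      intro x hx
      by_cases h0 : x = 0
      · rw [h0]; exact zero_mem _
      · exact AddSubmonoid.subset_closure ⟨hx, h0⟩
  obtain ⟨S, hS⟩ := hilbert_serre l (F + (T : Set G)) F hF (by rw [hTl]) (by
    rw [hTl]
    rintro b ⟨f, hf, x, hx, rfl⟩ s hs s' _ _
    exact ⟨f, hf, x + s, T.add_mem hx hs, by simp [add_assoc]⟩)
  refine ⟨l, S, fun x hx => ?_, fun w hw => ?_⟩
  · have hx' : x ∈ t \ {0} := hl ▸ hx
    refine ⟨fun h => hx'.2 (by simpa using h), f0, fun n => hBA ⟨f0, hf0, n • x, ?_, rfl⟩⟩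
    refine nsmul_mem ?_ n
    rw [← ht]
    exact AddSubmonoid.subset_closure hx'.1
  · have hw' := summable_sub w hBA hw
    have e : (fun u => ((ind (F + (T : Set G)) u : ℤ) : ℝ) * W w u) =
        (F + (T : Set G)).indicator (W w) := funext fun u => ind_mul_W w _ u
    rw [e]
    exact ⟨hw', hS w hw'⟩

omit [AddCommGroup G] in
lemma ind_union (X Y : Set G) (u : G) :
    ind (X ∪ Y) u = (ind X u + ind Y u) + - ind (X ∩ Y) u := by
  by_cases h1 : u ∈ X <;> by_cases h2 : u ∈ Y <;> simp [ind, h1, h2]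

lemma good_sUnion (A : Set G) (s : Set (Set G)) (hs : s.Finite) :
    (∀ B ∈ s, Cos B ∧ B ⊆ A) →
      Good A (ind (⋃₀ s)) ∧ ∀ X, Cos X → X ⊆ A → Good A (ind (X ∩ ⋃₀ s)) := by
  induction s, hs using Set.Finite.induction_on with
  | empty =>
    intro _
    have h0 := good_empty A
    exact ⟨by simpa using h0, fun X _ _ => by simpa using h0⟩
  | @insert Y s _ _ ih =>
    intro h
    obtain ⟨hY, hYA⟩ := h Y (mem_insert _ _)
    obtain ⟨ih1, ih2⟩ := ih fun B hB => h B (mem_insert_of_mem _ hB)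
    constructor
    · have := ((good_cos hY hYA).add ih1).add (ih2 Y hY hYA).neg
      have e : ind (⋃₀ insert Y s) = fun u =>
          (ind Y u + ind (⋃₀ s) u) + - ind (Y ∩ ⋃₀ s) u := by
        rw [sUnion_insert]; exact funext fun u => ind_union _ _ u
      rw [e]
      exact this
    · intro X hX hXA
      have h3 : X ∩ Y ⊆ A := inter_subset_left.trans hXA
      have := ((good_cos (hX.inter hY) h3).add (ih2 X hX hXA)).add
        (ih2 (X ∩ Y) (hX.inter hY) h3).neg
      have e : ind (X ∩ ⋃₀ insert Y s) = fun u =>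
          (ind (X ∩ Y) u + ind (X ∩ ⋃₀ s) u) + - ind ((X ∩ Y) ∩ ⋃₀ s) u := by
        rw [sUnion_insert, inter_union_distrib_left]
        funext u
        rw [ind_union]
        congr 3
        ext v
        simp only [mem_inter_iff]
        tauto
      rw [e]
      exact this

lemma good_semilinear (A : Set G) (hA : IsSemilinearSet A) : Good A (ind A) := by
  obtain ⟨s, hs, hl, rfl⟩ := hA
  refine (good_sUnion (⋃₀ s) s hs fun B hB => ⟨?_, subset_sUnion_of_mem hB⟩).1
  obtain ⟨a, t, ht, rfl⟩ := hl B hB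
  refine ⟨AddSubmonoid.closure t, {a}, (AddSubmonoid.fg_iff _).2 ⟨t, rfl, ht⟩,
    finite_singleton a, ?_⟩
  ext u
  constructor
  · rintro ⟨v, hv, rfl⟩
    exact ⟨a, rfl, v, hv, rfl⟩
  · rintro ⟨_, rfl, v, hv, rfl⟩
    exact ⟨v, hv, rfl⟩

end Good

end Pool.Agent.Lib.H70.Top.GenFun

namespace Pool.Agent.Lib.H70.Top

open GenFun

theorem genfun {α : Type} [Finite α] (A : Set (α → ℤ)) (hA : IsSemilinearSet A)
    (e h : (α → ℤ) →+ ℤ) :
    ∃ (J : List (ℤ × ℤ)) (S : List (ℤ × ℤ × ℤ)), ∀ q t : ℝ, 1 < q → 0 < t → t < 1 →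
      (Summable fun u : A => q ^ (e u) * t ^ (h u)) →
      (∀ x ∈ J, q ^ x.1 * t ^ x.2 < 1) ∧
      (∑' u : A, q ^ (e u) * t ^ (h u)) * (J.map fun x => 1 - q ^ x.1 * t ^ x.2).prod
        = (S.map fun x => (x.1 : ℝ) * q ^ x.2.1 * t ^ x.2.2).sum := by
  classical
  obtain ⟨J, S, hJ, hS⟩ := good_semilinear A hA
  refine ⟨J.map fun x => (e x, h x), S.coeff.support.toList.map fun u => (S.coeff u, e u, h u),
    fun q t hq ht0 ht1 hsum => ?_⟩
  have hq0 : q ≠ 0 := by positivity
  have ht0' : t ≠ 0 := ht0.ne'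
  let w : Multiplicative (α → ℤ) →* ℝ :=
    { toFun := fun u => q ^ (e u.toAdd) * t ^ (h u.toAdd)
      map_one' := by simp
      map_mul' := fun u v => by
        simp only [toAdd_mul, map_add, zpow_add₀ hq0, zpow_add₀ ht0']
        ring }
  have hW : ∀ u, W w u = q ^ (e u) * t ^ (h u) := fun u => rfl
  have hA' : Summable (A.indicator (W w)) := by
    rw [← summable_subtype_iff_indicator]
    exact hsum
  obtain ⟨h1, h2⟩ := hS w hA'
  constructor
  · intro x hx
    obtain ⟨y, hy, rfl⟩ := List.mem_map.1 hx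
    obtain ⟨hy0, m, hm⟩ := hJ y hy
    have hinj : Function.Injective fun n : ℕ => (⟨m + n • y, hm n⟩ : A) := by
      intro a b hab
      simp only [Subtype.mk.injEq, add_right_inj] at hab
      obtain ⟨i, hi⟩ := Function.ne_iff.1 hy0
      have hi' : y i ≠ 0 := hi
      have h8 := congrFun hab i
      simp only [Pi.smul_apply, nsmul_eq_mul] at h8
      exact_mod_cast mul_right_cancel₀ hi' h8
    have h3 := hsum.comp_injective hinj
    have h4 : (Summable fun n : ℕ => W w m * W w y ^ n) := by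
      refine h3.congr fun n => ?_
      simp only [Function.comp_apply]
      rw [← hW, W_add, W_nsmul]
    have hm0 : W w m ≠ 0 := by rw [hW]; positivity
    have h5 : Summable fun n : ℕ => W w y ^ n := by
      refine (h4.mul_left (W w m)⁻¹).congr fun n => ?_
      field_simp
    have h6 := summable_geometric_iff_norm_lt_one.1 h5
    have h7 : 0 ≤ W w y := by rw [hW]; positivity
    rw [Real.norm_of_nonneg h7] at h6
    exact h6
  · have e1 : (∑' u : A, q ^ (e u) * t ^ (h u)) = ∑' u, (ind A u : ℝ) * W w u := by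
      rw [tsum_congr (fun u => ind_mul_W w A u), ← tsum_subtype]
      rfl
    rw [e1, List.map_map, List.map_map]
    have e2 : (J.map ((fun x : ℤ × ℤ => 1 - q ^ x.1 * t ^ x.2) ∘ fun x => (e x, h x))) =
        J.map fun a => 1 - W w a := rfl
    rw [e2, h2, ev, AddMonoidAlgebra.lift_apply, Finsupp.sum]
    rw [← Finset.sum_map_toList]
    congr 1
    refine List.map_congr_left fun u _ => ?_
    simp only [Function.comp_apply, zsmul_eq_mul]
    rw [mul_assoc]
    rfl

end Pool.Agent.Lib.H70.Top
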