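import Pool.Agent.Lib.H70.Top.H2

/-!
# Chunk H: from the count of subalgebras to an iterated integral
-/

namespace Pool.Agent.Lib.H70.Top

open MeasureTheory Filter Topology
open scoped ENNReal BigOperators Nat

namespace H

open Matrix

variable {d : ℕ} {O k : Type*} [CommRing O] [IsDomain O] [Field k] (R : HDVR O k)

/-- `O / π^N`. -/
abbrev AN (R : HDVR O k) (N : ℕ) : Type _ := O ⧸ Ideal.span {R.π ^ N}

theorem card_AN [Finite k] {q : ℕ} (hq : Nat.card k = q) (N : ℕ) : Nat.card (AN R N) = q ^ N := by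
  have := isPrincipalIdealRing R
  have hprime : (Ideal.span {R.π}).IsPrime := by
    have : Ideal.span {R.π} = RingHom.ker R.res := by
      ext x
      rw [Ideal.mem_span_singleton, RingHom.mem_ker]
      exact (R.ker x).symm
    rw [this]
    exact RingHom.ker_isPrime _
  have hne : Ideal.span {R.π} ≠ ⊥ := by
    rw [Ne, Ideal.span_singleton_eq_bot]; exact R.π_ne
  have h := cardQuot_pow_of_prime (P := Ideal.span {R.π}) hne (i := N)
  rw [Ideal.span_singleton_pow] at h
  rw [Submodule.cardQuot_apply, Submodule.cardQuot_apply] at h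
  rw [h]
  congr 1
  exact index_span_pi R hq

theorem finite_AN [Finite k] (N : ℕ) : Finite (AN R N) := by
  apply Nat.finite_of_card_ne_zero
  rw [card_AN R rfl]
  exact pow_ne_zero _ Nat.card_pos.ne'

/-- A section of `O → O / π^N`. -/
noncomputable def sec (R : HDVR O k) (N : ℕ) : AN R N → O :=
  Function.surjInv (Ideal.Quotient.mk_surjective (I := Ideal.span {R.π ^ N}))

theorem mk_sec (N : ℕ) (a : AN R N) :
    Ideal.Quotient.mk (Ideal.span {R.π ^ N}) (sec R N a) = a :=
  Function.surjInv_eq _ a

theorem mk_eq_iff (N : ℕ) (x y : O) : Ideal.Quotient.mk (Ideal.span {R.π ^ N}) x =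
    Ideal.Quotient.mk (Ideal.span {R.π ^ N}) y ↔ R.π ^ N ∣ x - y := by
  rw [Ideal.Quotient.eq, Ideal.mem_span_singleton]

theorem sec_mk (N : ℕ) (x : O) :
    R.π ^ N ∣ sec R N (Ideal.Quotient.mk (Ideal.span {R.π ^ N}) x) - x := by
  rw [← mk_eq_iff, mk_sec]

/-- Number of row vectors modulo `π^{n+1}` killed by `y0`. -/
theorem card_rowker [Finite k] {q : ℕ} (hq : Nat.card k = q) (n : ℕ)
    (y0 : Matrix (Fin d) (Fin d) O) {u : O} (hu : IsUnit u) (hy : y0.det = R.π ^ n * u)
    (τ : (Fin d → AN R (n + 1)) →+ (Fin d → AN R (n + 1)))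
    (hτ : ∀ v, τ v = v ᵥ* y0.map (Ideal.Quotient.mk (Ideal.span {R.π ^ (n + 1)}))) :
    Nat.card τ.ker = q ^ n := by
  have hfin := finite_AN R (n + 1)
  set mk := Ideal.Quotient.mk (Ideal.span {R.π ^ (n + 1)}) with hmk
  have h1 : Nat.card τ.ker * Nat.card τ.range = Nat.card (Fin d → AN R (n + 1)) := by
    rw [← AddSubgroup.index_ker]; exact AddSubgroup.card_mul_index _
  have h2 : Nat.card τ.range * τ.range.index = Nat.card (Fin d → AN R (n + 1)) :=
    AddSubgroup.card_mul_index _
  have h3 : 0 < Nat.card τ.range := Nat.card_pos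
  have h4 : Nat.card τ.ker = τ.range.index := by
    have : Nat.card τ.range * Nat.card τ.ker = Nat.card τ.range * τ.range.index := by
      rw [h2, mul_comm, h1]
    exact Nat.eq_of_mul_eq_mul_left h3 this
  rw [h4]
  let π' : (Fin d → O) →+ (Fin d → AN R (n + 1)) :=
    { toFun := fun v i => mk (v i)
      map_zero' := by ext; simp
      map_add' := by intro a b; ext; simp }
  have hπ' : Function.Surjective π' := by
    intro v
    refine ⟨fun i => sec R (n + 1) (v i), ?_⟩
    ext i
    exact mk_sec R (n + 1) (v i)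
  rw [← AddSubgroup.index_comap_of_surjective _ hπ']
  have h5 : τ.range.comap π' = (rs y0).toAddSubgroup := by
    ext v
    rw [AddSubgroup.mem_comap, AddMonoidHom.mem_range, Submodule.mem_toAddSubgroup]
    constructor
    · rintro ⟨w, hw⟩
      obtain ⟨w', rfl⟩ := hπ' w
      have h6 : ∀ i, R.π ^ (n + 1) ∣ v i - (w' ᵥ* y0) i := by
        intro i
        rw [← mk_eq_iff, ← hmk]
        have := congrFun hw i
        rw [hτ] at this
        have e : mk ((w' ᵥ* y0) i) = ((fun j => mk (w' j)) ᵥ* (y0.map mk)) i := by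
          simp only [vecMul, dotProduct, map_sum, map_mul, Matrix.map_apply]
        rw [e]
        exact this.symm
      choose w2 hw2 using h6
      have h7 : v = (w' ᵥ* y0) + R.π ^ (n + 1) • w2 := by
        ext i
        simp only [Pi.add_apply, Pi.smul_apply, smul_eq_mul, ← hw2]
        ring
      obtain ⟨u', rfl⟩ := hu
      have h8 : R.π ^ (n + 1) • w2 = (R.π * ↑(u'⁻¹)) • (y0.det • w2) := by
        rw [smul_smul, hy]
        congr 1
        have : (↑(u'⁻¹) : O) * ↑u' = 1 := by simp
        calc R.π ^ (n + 1) = R.π * R.π ^ n * (↑(u'⁻¹) * ↑u') := by rw [this]; ring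
          _ = _ := by ring
      rw [h7, h8]
      refine Submodule.add_mem _ ((mem_rs _ _).2 ⟨w', rfl⟩) ?_
      exact Submodule.smul_mem _ _ (det_smul_mem_rs _ _)
    · intro h
      obtain ⟨w, rfl⟩ := (mem_rs _ _).1 h
      refine ⟨π' w, ?_⟩
      rw [hτ]
      ext i
      change ((fun j => mk (w j)) ᵥ* (y0.map mk)) i = mk ((w ᵥ* y0) i)
      simp only [vecMul, dotProduct, map_sum, map_mul, Matrix.map_apply]
  rw [h5]
  exact index_rs R hq n y0 u hu hy

/-- Number of matrices modulo `π^{n+1}` with a given row space of index `q^n`. -/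
theorem count [Finite k] {q : ℕ} (hq : Nat.card k = q) (n : ℕ)
    (U : Submodule O (Fin d → O)) (hU : U.toAddSubgroup.index = q ^ n) :
    Nat.card {M : Matrix (Fin d) (Fin d) (AN R (n + 1)) // rs (M.map (sec R (n + 1))) = U} *
        (q ^ n) ^ d =
      Nat.card {M : Matrix (Fin d) (Fin d) (AN R (n + 1)) //
        IsUnit (M.map (sec R (n + 1))).det} := by
  classical
  have hfin := finite_AN R (n + 1)
  have hq1 : 1 < q := by rw [← hq]; exact Finite.one_lt_card
  obtain ⟨y0, hy0, -⟩ := exists_basis R U (by rw [hU]; positivity)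
  obtain ⟨u, hu, hdet⟩ := (index_rs_iff R hq y0 n).1 (by rw [hy0, hU])
  have hdet0 : y0.det ≠ 0 := by rw [hdet]; exact mul_ne_zero (pow_ne_zero _ R.π_ne) hu.ne_zero
  set mk := Ideal.Quotient.mk (Ideal.span {R.π ^ (n + 1)}) with hmk
  set σ := sec R (n + 1) with hσ
  have hmkσ : ∀ a, mk (σ a) = a := mk_sec R (n + 1)
  have hπd : ∀ x : O, R.π ^ (n + 1) ∣ x → R.π ∣ x := fun x h =>
    (dvd_pow_self _ (Nat.succ_ne_zero n)).trans h
  have hmap : ∀ M N : Matrix (Fin d) (Fin d) O, (M * N).map mk = M.map mk * N.map mk :=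
    fun M N => Matrix.map_mul
  have hmkmap : ∀ M : Matrix (Fin d) (Fin d) (AN R (n + 1)), (M.map σ).map mk = M := by
    intro M; ext i j; simp [hmkσ]
  have hcongr : ∀ (y y' : Matrix (Fin d) (Fin d) O), y.map mk = y'.map mk →
      ∀ i j, R.π ^ (n + 1) ∣ y i j - y' i j := by
    intro y y' h i j
    have := congrFun (congrFun h i) j
    simp only [Matrix.map_apply] at this
    rw [← mk_eq_iff]
    exact this
  let T : Matrix (Fin d) (Fin d) (AN R (n + 1)) →+ Matrix (Fin d) (Fin d) (AN R (n + 1)) :=
    AddMonoidHom.mulRight (y0.map mk)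
  have hT : ∀ M, T M = M * y0.map mk := fun M => rfl
  -- Claim 1
  have c1 : ∀ M : Matrix (Fin d) (Fin d) (AN R (n + 1)), IsUnit (M.map σ).det →
      rs ((T M).map σ) = U := by
    intro M hM
    have e1 : rs (M.map σ * y0) = U := by rw [rs_mul_of_isUnit _ _ hM, hy0]
    rw [← e1]
    obtain ⟨u', hu', hd'⟩ := (index_rs_iff R hq (M.map σ * y0) n).1 (by rw [e1, hU])
    apply rs_congr R hu' hd'
    apply hcongr
    rw [hmkmap, hmap, hmkmap, hT]
  -- Claim 2
  have c2 : ∀ z : Matrix (Fin d) (Fin d) (AN R (n + 1)), rs (z.map σ) = U →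
      ∃ M : Matrix (Fin d) (Fin d) (AN R (n + 1)), IsUnit (M.map σ).det ∧ T M = z := by
    intro z hz
    obtain ⟨g, hg⟩ := exists_mul_of_rs_le (y := y0) (z := z.map σ) (by rw [hz, hy0])
    obtain ⟨h, hh⟩ := exists_mul_of_rs_le (y := z.map σ) (z := y0) (by rw [hz, hy0])
    have hgu : IsUnit g.det := by
      have : y0.det = (h.det * g.det) * y0.det := by
        conv_lhs => rw [hh, hg]
        rw [det_mul, det_mul]; ring
      have h1 : (h.det * g.det) = 1 := by
        have h2 : 1 * y0.det = (h.det * g.det) * y0.det := by rw [one_mul]; exact this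
        exact (mul_right_cancel₀ hdet0 h2).symm
      exact IsUnit.of_mul_eq_one_right _ h1
    refine ⟨g.map mk, ?_, ?_⟩
    · apply isUnit_det_of_congr R g _ _ hgu
      intro i j
      apply hπd
      apply hcongr
      rw [hmkmap]
    · rw [hT, ← hmap, ← hg, hmkmap]
  -- Claim 3
  have c3 : ∀ (M K : Matrix (Fin d) (Fin d) (AN R (n + 1))), IsUnit (M.map σ).det → T K = 0 →
      IsUnit ((M + K).map σ).det := by
    intro M K hM hK
    have h1 : ∀ i j, R.π ^ (n + 1) ∣ (K.map σ * y0) i j := by
      intro i j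
      have e : (K.map σ * y0).map mk = (0 : Matrix (Fin d) (Fin d) O).map mk := by
        rw [hmap, hmkmap, ← hT, hK]; ext; simp
      have := hcongr _ _ e i j
      simpa using this
    choose w hw using h1
    have h2 : K.map σ * y0 = R.π ^ (n + 1) • Matrix.of w := by
      ext i j; simp [hw]
    have h3 : y0.det • K.map σ = R.π ^ (n + 1) • (Matrix.of w * y0.adjugate) := by
      rw [← Matrix.smul_mul, ← h2, Matrix.mul_assoc, mul_adjugate, Matrix.mul_smul,
        Matrix.mul_one]
    have h4 : ∀ i j, R.π ∣ (K.map σ) i j := by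
      intro i j
      have h5 := congrFun (congrFun h3 i) j
      simp only [Matrix.smul_apply, smul_eq_mul, hdet] at h5
      have h6 : R.π ^ n * (u * (K.map σ) i j) = R.π ^ n * (R.π * (Matrix.of w * y0.adjugate) i j) := by
        linear_combination h5
      have h7 := mul_left_cancel₀ (pow_ne_zero _ R.π_ne) h6
      have h8 : R.π ∣ u * (K.map σ) i j := ⟨_, h7⟩
      exact (IsUnit.dvd_mul_left hu).1 h8
    apply isUnit_det_of_congr R (M.map σ) _ _ hM
    intro i j
    have h9 : R.π ∣ ((M + K).map σ) i j - (M.map σ + K.map σ) i j := by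
      apply hπd
      apply hcongr
      rw [hmkmap, Matrix.map_add _ (map_add mk), hmkmap, hmkmap]
    have h10 := dvd_add h9 (h4 i j)
    convert h10 using 1
    simp only [Matrix.add_apply]
    ring
  -- the map
  let F : {M : Matrix (Fin d) (Fin d) (AN R (n + 1)) // IsUnit (M.map σ).det} →
      {M : Matrix (Fin d) (Fin d) (AN R (n + 1)) // rs (M.map σ) = U} :=
    fun M => ⟨T M.1, c1 M.1 M.2⟩
  have : Fintype {M : Matrix (Fin d) (Fin d) (AN R (n + 1)) // rs (M.map σ) = U} :=
    Fintype.ofFinite _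
  have hfib : ∀ z, Nat.card {M // F M = z} = Nat.card T.ker := by
    intro z
    obtain ⟨M0, hM0, hM0z⟩ := c2 z.1 z.2
    apply Nat.card_congr
    refine
      { toFun := fun M => ⟨M.1.1 - M0, ?_⟩
        invFun := fun K => ⟨⟨M0 + K.1, c3 M0 K.1 hM0 K.2⟩, ?_⟩
        left_inv := ?_
        right_inv := ?_ }
    · have := congrArg Subtype.val M.2
      simp only [F] at this
      rw [AddMonoidHom.mem_ker, map_sub, this, hM0z, sub_self]
    · apply Subtype.ext
      simp only [F, map_add, hM0z]
      have := K.2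
      rw [AddMonoidHom.mem_ker] at this
      rw [this, add_zero]
    · intro M
      ext
      simp
    · intro K
      ext
      simp
  have hG : Nat.card {M : Matrix (Fin d) (Fin d) (AN R (n + 1)) // IsUnit (M.map σ).det} =
      Nat.card {M : Matrix (Fin d) (Fin d) (AN R (n + 1)) // rs (M.map σ) = U} *
        Nat.card T.ker := by
    rw [← Nat.card_congr (Equiv.sigmaFiberEquiv F), Nat.card_sigma]
    simp only [hfib, Finset.sum_const, smul_eq_mul, Finset.card_univ]
    rw [Nat.card_eq_fintype_card (α := {M : Matrix (Fin d) (Fin d) (AN R (n + 1)) //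
      rs (M.map σ) = U})]
  rw [hG]
  congr 1
  -- kernel of `T`
  let τ : (Fin d → AN R (n + 1)) →+ (Fin d → AN R (n + 1)) :=
    ((y0.map mk).vecMulLinear).toAddMonoidHom
  have hτ : ∀ v, τ v = v ᵥ* y0.map mk := fun v => rfl
  have hk := card_rowker R hq n y0 hu hdet τ hτ
  rw [← hk]
  have : Nat.card T.ker = Nat.card (Fin d → τ.ker) := by
    apply Nat.card_congr
    refine
      { toFun := fun K i => ⟨K.1 i, ?_⟩
        invFun := fun v => ⟨Matrix.of fun i => (v i).1, ?_⟩
        left_inv := ?_
        right_inv := ?_ }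
    · have := K.2
      rw [AddMonoidHom.mem_ker, hT] at this
      rw [AddMonoidHom.mem_ker, hτ]
      exact congrFun this i
    · rw [AddMonoidHom.mem_ker, hT]
      ext i j
      have := (v i).2
      rw [AddMonoidHom.mem_ker, hτ] at this
      exact congrFun this j
    · intro K; rfl
    · intro v; rfl
  rw [this, Nat.card_pi]
  simp

/-! ### Integrals of locally constant functions -/

theorem lint_eq [Finite k] [MeasurableSpace O] {μ : Measure O} {q : ℕ}
    (hμ : IsUnif R.π q μ) (N : ℕ) [Fintype (AN R N)] (g : O → ℝ≥0∞)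
    (hg : ∀ x y, R.π ^ N ∣ x - y → g x = g y) :
    ∫⁻ y, g y ∂μ = (∑ a : AN R N, g (sec R N a)) * ((q : ℝ≥0∞) ^ N)⁻¹ := by
  classical
  have h1 : g = fun x => ∑ a : AN R N,
      Set.indicator {x : O | R.π ^ N ∣ x - sec R N a} (fun _ => g (sec R N a)) x := by
    funext x
    rw [Finset.sum_eq_single (Ideal.Quotient.mk (Ideal.span {R.π ^ N}) x)]
    · have hx : R.π ^ N ∣ x - sec R N (Ideal.Quotient.mk (Ideal.span {R.π ^ N}) x) := by
        rw [← mk_eq_iff, mk_sec]
      rw [Set.indicator_of_mem (by exact hx)]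
      exact hg _ _ hx
    · intro a _ ha
      rw [Set.indicator_of_notMem]
      intro hx
      apply ha
      have hx' : R.π ^ N ∣ x - sec R N a := hx
      rw [← mk_eq_iff, mk_sec] at hx'
      exact hx'.symm
    · intro h; exact absurd (Finset.mem_univ _) h
  conv_lhs => rw [h1]
  rw [lintegral_finsetSum _ (fun a _ => (measurable_const.indicator (hμ.meas _ _)))]
  rw [Finset.sum_mul]
  refine Finset.sum_congr rfl fun a _ => ?_
  rw [lintegral_indicator (hμ.meas _ _), setLIntegral_const, hμ.ball]

theorem iint_eq [Finite k] [MeasurableSpace O] {μ : Measure O} {q : ℕ}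
    (hμ : IsUnif R.π q μ) (N : ℕ) [Fintype (AN R N)] (m : ℕ) :
    ∀ f : (Fin m → O) → ℝ≥0∞, (∀ x y, (∀ i, R.π ^ N ∣ x i - y i) → f x = f y) →
      iint μ m f = (∑ a : Fin m → AN R N, f (fun i => sec R N (a i))) *
        (((q : ℝ≥0∞) ^ N)⁻¹) ^ m := by
  classical
  induction m with
  | zero =>
    intro f _
    simp only [iint, pow_zero, mul_one, Finset.univ_unique, Finset.sum_singleton]
    congr 1
    funext i
    exact i.elim0
  | succ m ih =>
    intro f hf
    have h1 : iint μ (m + 1) f = iint μ m (fun x => (∑ b : AN R N,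
        f (Fin.snoc x (sec R N b))) * ((q : ℝ≥0∞) ^ N)⁻¹) := by
      simp only [iint]
      congr 1
      funext x
      apply lint_eq R hμ N
      intro y z hyz
      apply hf
      intro i
      refine Fin.lastCases ?_ (fun j => ?_) i
      · simpa using hyz
      · simp
    rw [h1, ih]
    · rw [← Finset.sum_mul, mul_assoc, ← pow_succ']
      congr 1
      rw [← Finset.sum_product']
      · refine (Fintype.sum_equiv ((Equiv.prodComm _ _).trans
          (Fin.snocEquiv (fun _ : Fin (m + 1) => AN R N))) _ _ ?_)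
        rintro ⟨a, b⟩
        congr 1
        funext i
        refine Fin.lastCases ?_ (fun j => ?_) i
        · simp [Fin.snocEquiv]
        · simp [Fin.snocEquiv]
    · intro x y hxy
      congr 1
      refine Finset.sum_congr rfl fun b _ => ?_
      apply hf
      intro i
      refine Fin.lastCases ?_ (fun j => ?_) i
      · simp
      · simpa using hxy j

/-- `mat` as an equivalence. -/
def matEquiv (d : ℕ) (A : Type*) : (Fin (d * d) → A) ≃ Matrix (Fin d) (Fin d) A where
  toFun := mat
  invFun M := fun l => M (finProdFinEquiv.symm l).1 (finProdFinEquiv.symm l).2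
  left_inv y := by
    funext l
    simp only [mat, Matrix.of_apply]
    rw [Prod.mk.eta, Equiv.apply_symm_apply]
  right_inv M := by
    ext i j
    simp [mat]

theorem mat_comp {A B : Type*} (g : A → B) (y : Fin (d * d) → A) :
    mat (fun i => g (y i)) = (mat y).map g := by
  ext i j; simp [mat]

theorem card_cond (A : Type*) (P : Matrix (Fin d) (Fin d) A → Prop)
    [Fintype A] [DecidablePred P] (x : ℝ≥0∞) :
    (∑ a : Fin (d * d) → A, if P (mat a) then x else 0) =
      (Nat.card {M : Matrix (Fin d) (Fin d) A // P M} : ℝ≥0∞) * x := by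
  classical
  rw [Finset.sum_ite, Finset.sum_const_zero, add_zero, Finset.sum_const, nsmul_eq_mul]
  congr 2
  rw [← Fintype.card_subtype, ← Nat.card_eq_fintype_card]
  exact Nat.card_congr ((matEquiv d A).subtypeEquiv fun a => Iff.rfl)

end H

open H Matrix

theorem subCount_finite {d : ℕ} (c : Fin d → Fin d → Fin d → ℤ) {O k : Type*} [CommRing O]
    [IsDomain O] [Field k] [Finite k] (R : HDVR O k) (q : ℕ) (hq : Nat.card k = q) (n : ℕ) :
    ∃ F : {U : Submodule O (Fin d → O) // IsSubalg c U ∧ U.toAddSubgroup.index = q ^ n} →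
      Matrix (Fin d) (Fin d) (AN R (n + 1)), Function.Injective F ∧
        ∀ U, rs ((F U).map (sec R (n + 1))) = U.1 := by
  have h : ∀ U : {U : Submodule O (Fin d → O) // IsSubalg c U ∧ U.toAddSubgroup.index = q ^ n},
      ∃ M : Matrix (Fin d) (Fin d) (AN R (n + 1)), rs (M.map (sec R (n + 1))) = U.1 := by
    intro U
    have hq1 : 1 < q := by rw [← hq]; exact Finite.one_lt_card
    obtain ⟨y0, hy0, -⟩ := exists_basis R U.1 (by rw [U.2.2]; positivity)
    obtain ⟨u, hu, hdet⟩ := (index_rs_iff R hq y0 n).1 (by rw [hy0, U.2.2])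
    refine ⟨y0.map (Ideal.Quotient.mk (Ideal.span {R.π ^ (n + 1)})), ?_⟩
    rw [← hy0]
    apply rs_congr R hu hdet
    intro i j
    exact sec_mk R (n + 1) (y0 i j)
  choose F hF using h
  refine ⟨F, ?_, hF⟩
  intro U V hUV
  apply Subtype.ext
  rw [← hF U, ← hF V, hUV]

/-- finiteness and growth, used to sum the series for small `t`. -/
theorem subCount_le {d : ℕ} (c : Fin d → Fin d → Fin d → ℤ) {O k : Type*} [CommRing O]
    [IsDomain O] [Field k] [Finite k] (R : HDVR O k) (q : ℕ) (hq : Nat.card k = q) (n : ℕ) :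
    subCount c O (q ^ n) ≤ q ^ (d * d * (n + 1)) := by
  obtain ⟨F, hF, -⟩ := subCount_finite c R q hq n
  have hfin := finite_AN R (n + 1)
  refine (Nat.card_le_card_of_injective F hF).trans (le_of_eq ?_)
  rw [← Nat.card_congr (matEquiv d _), Nat.card_fun, card_AN R hq, Nat.card_fin, ← pow_mul]
  congr 1
  ring

theorem bridge {d : ℕ} (c : Fin d → Fin d → Fin d → ℤ) {O k : Type*} [CommRing O] [IsDomain O]
    [Field k] [Finite k] (R : HDVR O k) [MeasurableSpace O] (μ : Measure O) (q : ℕ)
    (hq : Nat.card k = q) (hμ : IsUnif R.π q μ) :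
    ∃ C : ℝ≥0∞, C ≠ 0 ∧ C ≠ ∞ ∧ ∀ n : ℕ,
      (subCount c O (q ^ n) : ℝ≥0∞) * C = iint μ (d * d) (fun y => by
        classical exact
          if (∃ u : O, IsUnit u ∧ (mat y).det = R.π ^ n * u) ∧
            (∀ i j l, (mat y).det ∣
              Matrix.vecMul (amul c (mat y i) (mat y j)) (mat y).adjugate l)
          then (q : ℝ≥0∞) ^ (d * n) else 0) := by
  classical
  have hq1 : 1 < q := by rw [← hq]; exact Finite.one_lt_card
  have hq0 : (q : ℝ≥0∞) ≠ 0 := by
    simp only [ne_eq, Nat.cast_eq_zero]; omega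
  have hqt : (q : ℝ≥0∞) ≠ ∞ := ENNReal.natCast_ne_top _
  let C : ℝ≥0∞ := iint μ (d * d) (fun y => if IsUnit (mat y).det then 1 else 0)
  have hC : ∀ n : ℕ, C = (Nat.card {M : Matrix (Fin d) (Fin d) (AN R (n + 1)) //
      IsUnit (M.map (sec R (n + 1))).det} : ℝ≥0∞) * (((q : ℝ≥0∞) ^ (n + 1))⁻¹) ^ (d * d) := by
    intro n
    have := finite_AN R (n + 1)
    have : Fintype (AN R (n + 1)) := Fintype.ofFinite _
    simp only [C]
    rw [iint_eq R hμ (n + 1)]
    · congr 1
      have := card_cond (d := d) (AN R (n + 1))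
        (fun M => IsUnit (M.map (sec R (n + 1))).det) 1
      rw [mul_one] at this
      rw [← this]
      refine Finset.sum_congr rfl fun a _ => ?_
      rw [mat_comp]
    · intro x y hxy
      have h1 : IsUnit (mat x).det ↔ IsUnit (mat y).det := by
        constructor
        · intro h
          apply isUnit_det_of_congr R _ _ _ h
          intro i j
          have := hxy (finProdFinEquiv (i, j))
          have h2 := (dvd_pow_self R.π (Nat.succ_ne_zero n)).trans this
          rw [dvd_sub_comm] at h2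
          exact h2
        · intro h
          apply isUnit_det_of_congr R _ _ _ h
          intro i j
          have := hxy (finProdFinEquiv (i, j))
          exact (dvd_pow_self R.π (Nat.succ_ne_zero n)).trans this
      simp only [h1]
  refine ⟨C, ?_, ?_, ?_⟩
  · rw [hC 0]
    refine mul_ne_zero ?_ (pow_ne_zero _ (ENNReal.inv_ne_zero.2 (ENNReal.pow_ne_top hqt)))
    have := finite_AN R (0 + 1)
    have : Nonempty {M : Matrix (Fin d) (Fin d) (AN R (0 + 1)) //
        IsUnit (M.map (sec R (0 + 1))).det} := by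
      refine ⟨⟨(1 : Matrix (Fin d) (Fin d) O).map
        (Ideal.Quotient.mk (Ideal.span {R.π ^ (0 + 1)})), ?_⟩⟩
      apply isUnit_det_of_congr R 1 _ _ (by simp)
      intro i j
      have := sec_mk R (0 + 1) ((1 : Matrix (Fin d) (Fin d) O) i j)
      exact (dvd_pow_self R.π (Nat.succ_ne_zero 0)).trans this
    have := Nat.card_pos (α := {M : Matrix (Fin d) (Fin d) (AN R (0 + 1)) //
        IsUnit (M.map (sec R (0 + 1))).det})
    exact_mod_cast this.ne'
  · rw [hC 0]
    refine ENNReal.mul_ne_top (ENNReal.natCast_ne_top _) (ENNReal.pow_ne_top ?_)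
    exact ENNReal.inv_ne_top.2 (pow_ne_zero _ hq0)
  · intro n
    have := finite_AN R (n + 1)
    have : Fintype (AN R (n + 1)) := Fintype.ofFinite _
    have hcond : ∀ y : Matrix (Fin d) (Fin d) O,
        ((∃ u : O, IsUnit u ∧ y.det = R.π ^ n * u) ∧
          (∀ i j l, y.det ∣ Matrix.vecMul (amul c (y i) (y j)) y.adjugate l)) ↔
        (IsSubalg c (rs y) ∧ (rs y).toAddSubgroup.index = q ^ n) :=
      fun y => cond_iff R hq c y n
    have h1 : iint μ (d * d) (fun y =>
          if (∃ u : O, IsUnit u ∧ (mat y).det = R.π ^ n * u) ∧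
            (∀ i j l, (mat y).det ∣
              Matrix.vecMul (amul c (mat y i) (mat y j)) (mat y).adjugate l)
          then (q : ℝ≥0∞) ^ (d * n) else 0) =
        (Nat.card {M : Matrix (Fin d) (Fin d) (AN R (n + 1)) //
          IsSubalg c (rs (M.map (sec R (n + 1)))) ∧
            (rs (M.map (sec R (n + 1)))).toAddSubgroup.index = q ^ n} : ℝ≥0∞) *
          (q : ℝ≥0∞) ^ (d * n) * (((q : ℝ≥0∞) ^ (n + 1))⁻¹) ^ (d * d) := by
      rw [iint_eq R hμ (n + 1)]
      · congr 1
        rw [← card_cond (d := d) (AN R (n + 1))]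
        refine Finset.sum_congr rfl fun a _ => ?_
        rw [mat_comp]
        simp only [hcond]
      · intro x y hxy
        simp only [hcond]
        have key : ∀ x y : Fin (d * d) → O, (∀ i, R.π ^ (n + 1) ∣ x i - y i) →
            (IsSubalg c (rs (mat x)) ∧ (rs (mat x)).toAddSubgroup.index = q ^ n) →
            (IsSubalg c (rs (mat y)) ∧ (rs (mat y)).toAddSubgroup.index = q ^ n) := by
          intro x y hxy h
          obtain ⟨u, hu, hd⟩ := (index_rs_iff R hq (mat x) n).1 h.2
          have : rs (mat y) = rs (mat x) := by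
            apply rs_congr R hu hd
            intro i j
            have := hxy (finProdFinEquiv (i, j))
            rw [dvd_sub_comm] at this
            exact this
          rw [this]; exact h
        have h3 : (IsSubalg c (rs (mat x)) ∧ (rs (mat x)).toAddSubgroup.index = q ^ n) ↔
            (IsSubalg c (rs (mat y)) ∧ (rs (mat y)).toAddSubgroup.index = q ^ n) :=
          ⟨key x y hxy, key y x fun i => by rw [dvd_sub_comm]; exact hxy i⟩
        simp only [h3]
    -- partition by the row space
    let S := {U : Submodule O (Fin d → O) // IsSubalg c U ∧ U.toAddSubgroup.index = q ^ n}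
    obtain ⟨F, hF, -⟩ := subCount_finite c R q hq n
    have : Finite S := Finite.of_injective F hF
    have : Fintype S := Fintype.ofFinite _
    let X := {M : Matrix (Fin d) (Fin d) (AN R (n + 1)) //
          IsSubalg c (rs (M.map (sec R (n + 1)))) ∧
            (rs (M.map (sec R (n + 1)))).toAddSubgroup.index = q ^ n}
    let G : X → S := fun M => ⟨rs (M.1.map (sec R (n + 1))), M.2⟩
    have hfib : ∀ U : S, Nat.card {M : X // G M = U} * (q ^ n) ^ d =
        Nat.card {M : Matrix (Fin d) (Fin d) (AN R (n + 1)) //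
          IsUnit (M.map (sec R (n + 1))).det} := by
      intro U
      rw [← count R hq n U.1 U.2.2]
      congr 1
      apply Nat.card_congr
      refine
        { toFun := fun M => ⟨M.1.1, congrArg Subtype.val M.2⟩
          invFun := fun M => ⟨⟨M.1, by rw [M.2]; exact U.2⟩, Subtype.ext M.2⟩
          left_inv := fun M => rfl
          right_inv := fun M => rfl }
    have hcount : Nat.card X * (q ^ n) ^ d = subCount c O (q ^ n) *
        Nat.card {M : Matrix (Fin d) (Fin d) (AN R (n + 1)) //
          IsUnit (M.map (sec R (n + 1))).det} := by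
      rw [← Nat.card_congr (Equiv.sigmaFiberEquiv G), Nat.card_sigma, Finset.sum_mul]
      simp only [hfib, Finset.sum_const, smul_eq_mul, Finset.card_univ]
      rw [← Nat.card_eq_fintype_card]
      rfl
    rw [h1, hC n, ← mul_assoc]
    congr 1
    have h5 : ((Nat.card X * (q ^ n) ^ d : ℕ) : ℝ≥0∞) = ((subCount c O (q ^ n) *
        Nat.card {M : Matrix (Fin d) (Fin d) (AN R (n + 1)) //
          IsUnit (M.map (sec R (n + 1))).det} : ℕ) : ℝ≥0∞) := by rw [hcount]
    push_cast at h5
    rw [← h5]
    congr 1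
    rw [← pow_mul, mul_comm n d]

end Pool.Agent.Lib.H70.Top
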