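import Pool.Agent.Lib.H70.Top.Base

/-!
# Chunk H, part 1: index of the row space over a henselian DVR
-/

namespace Pool.Agent.Lib.H70.Top

namespace H

open Matrix

section basics

variable {O k : Type*} [CommRing O] [IsDomain O] [Field k] (R : HDVR O k)

theorem isUnit_iff (x : O) : IsUnit x ↔ R.res x ≠ 0 :=
  ⟨fun h => (h.map R.res).ne_zero, R.unit x⟩

theorem res_pi : R.res R.π = 0 := (R.ker _).2 dvd_rfl

theorem not_isUnit_pi : ¬ IsUnit R.π := by
  rw [isUnit_iff R]; simp [res_pi R]

theorem isPrincipalIdealRing (R : HDVR O k) : IsPrincipalIdealRing O := by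
  have h : IsDiscreteValuationRing O := by
    apply IsDiscreteValuationRing.ofHasUnitMulPowIrreducibleFactorization
    refine ⟨R.π, ⟨not_isUnit_pi R, ?_⟩, ?_⟩
    · intro a b hab
      by_contra! h
      obtain ⟨ha, hb⟩ := h
      rw [isUnit_iff R, not_not, R.ker] at ha hb
      obtain ⟨a', rfl⟩ := ha
      obtain ⟨b', rfl⟩ := hb
      have : R.π * 1 = R.π * (R.π * (a' * b')) := by rw [mul_one]; conv_lhs => rw [hab]
                                                     ring
      have := mul_left_cancel₀ R.π_ne this
      exact not_isUnit_pi R (IsUnit.of_mul_eq_one _ this.symm)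
    · intro x hx
      obtain ⟨n, u, rfl, hu⟩ := R.fact x hx
      obtain ⟨u', rfl⟩ := R.unit u hu
      exact ⟨n, u', rfl⟩
  infer_instance

theorem pow_dvd_pow_mul_unit {n m : ℕ} {u : O} (hu : IsUnit u) (h : R.π ^ n ∣ R.π ^ m * u) :
    n ≤ m := by
  by_contra hlt
  push Not at hlt
  have h1 : R.π ^ (m + 1) ∣ R.π ^ m * u := (pow_dvd_pow _ hlt).trans h
  rw [pow_succ] at h1
  have h2 := (mul_dvd_mul_iff_left (pow_ne_zero m R.π_ne)).1 h1
  rw [← R.ker] at h2
  exact (isUnit_iff R u).1 hu h2

theorem index_span_pi [Finite k] {q : ℕ} (hq : Nat.card k = q) :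
    (Ideal.span {R.π}).toAddSubgroup.index = q := by
  have h1 : (Ideal.span {R.π}).toAddSubgroup = R.res.toAddMonoidHom.ker := by
    ext x
    simp only [Submodule.mem_toAddSubgroup, Ideal.mem_span_singleton, AddMonoidHom.mem_ker]
    exact (R.ker x).symm
  rw [h1, AddSubgroup.index_ker]
  have : R.res.toAddMonoidHom.range = ⊤ := by
    rw [AddMonoidHom.range_eq_top]; exact R.surj
  rw [this]
  rw [← hq]
  exact Nat.card_congr (Equiv.Set.univ k)

end basics

variable {d : ℕ} {O k : Type*} [CommRing O] [IsDomain O] [Field k] (R : HDVR O k)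

/-- Row space. -/
def rs {d : ℕ} {O : Type*} [CommRing O] (y : Matrix (Fin d) (Fin d) O) : Submodule O (Fin d → O) :=
  LinearMap.range y.vecMulLinear

omit [IsDomain O] in
theorem mem_rs (y : Matrix (Fin d) (Fin d) O) (x : Fin d → O) : x ∈ rs y ↔ ∃ v, v ᵥ* y = x := by
  simp [rs, LinearMap.mem_range]

omit [IsDomain O] in
theorem row_mem_rs (y : Matrix (Fin d) (Fin d) O) (i : Fin d) : y i ∈ rs y := by
  rw [mem_rs]
  exact ⟨Pi.single i 1, by simp; rfl⟩

omit [IsDomain O] in
theorem rs_le_iff (y : Matrix (Fin d) (Fin d) O) (U : Submodule O (Fin d → O)) :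
    rs y ≤ U ↔ ∀ i, y i ∈ U := by
  constructor
  · intro h i
    exact h (row_mem_rs y i)
  · rintro h x hx
    obtain ⟨v, rfl⟩ := (mem_rs y x).1 hx
    rw [vecMul_eq_sum]
    exact Submodule.sum_mem _ fun i _ => Submodule.smul_mem _ _ (h i)

omit [IsDomain O] in
theorem rs_mul_le (g y : Matrix (Fin d) (Fin d) O) : rs (g * y) ≤ rs y := by
  rintro x hx
  obtain ⟨v, rfl⟩ := (mem_rs _ x).1 hx
  rw [mem_rs]
  exact ⟨v ᵥ* g, by rw [vecMul_vecMul]⟩

omit [IsDomain O] in
theorem rs_mul_of_isUnit (g y : Matrix (Fin d) (Fin d) O) (hg : IsUnit g.det) :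
    rs (g * y) = rs y := by
  apply le_antisymm (rs_mul_le g y)
  have : y = g⁻¹ * (g * y) := by rw [← Matrix.mul_assoc, nonsing_inv_mul _ hg, Matrix.one_mul]
  conv_lhs => rw [this]
  exact rs_mul_le _ _

omit [IsDomain O] in
theorem exists_mul_of_rs_le {y z : Matrix (Fin d) (Fin d) O} (h : rs z ≤ rs y) :
    ∃ g : Matrix (Fin d) (Fin d) O, z = g * y := by
  have : ∀ i, ∃ v : Fin d → O, v ᵥ* y = z i := fun i => (mem_rs _ _).1 (h (row_mem_rs z i))
  choose v hv using this
  refine ⟨Matrix.of v, ?_⟩
  ext i j
  rw [← hv i]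
  simp [Matrix.mul_apply, vecMul, dotProduct]

theorem index_rs [Finite k] {q : ℕ} (hq : Nat.card k = q) (m : ℕ) :
    ∀ (y : Matrix (Fin d) (Fin d) O) (u : O), IsUnit u → y.det = R.π ^ m * u →
      (rs y).toAddSubgroup.index = q ^ m := by
  induction m with
  | zero =>
    intro y u hu hy
    have hdet : IsUnit y.det := by rw [hy]; simpa using hu
    have : rs y = ⊤ := by
      rw [eq_top_iff]
      intro x _
      rw [mem_rs]
      exact ⟨x ᵥ* y⁻¹, by rw [vecMul_vecMul, nonsing_inv_mul _ hdet, vecMul_one]⟩
    rw [this]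
    simp
  | succ m ih =>
    intro y u hu hy
    have h0 : (y.map R.res).det = 0 := by
      have := R.res.map_det y
      rw [RingHom.mapMatrix_apply] at this
      rw [← this, hy, map_mul, map_pow, res_pi R]
      simp
    obtain ⟨cb, hcb, hcb0⟩ := exists_vecMul_eq_zero_iff.2 h0
    choose s hs using R.surj
    let c : Fin d → O := fun i => s (cb i)
    have hc : ∀ i, R.res (c i) = cb i := fun i => hs _
    obtain ⟨j, hj⟩ := Function.ne_iff.1 hcb
    have hcj : IsUnit (c j) := R.unit _ (by rw [hc]; simpa using hj)
    have hdvd : ∀ l, R.π ∣ (c ᵥ* y) l := by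
      intro l
      rw [← R.ker]
      have := congrFun hcb0 l
      simp only [vecMul, dotProduct, Pi.zero_apply, Matrix.map_apply] at this ⊢
      rw [map_sum]
      simp only [map_mul, hc]
      exact this
    choose w hw using hdvd
    have hw' : c ᵥ* y = R.π • w := by
      ext l; simp [hw l]
    let y' := y.updateRow j w
    have hdet' : y'.det = R.π ^ m * (c j * u) := by
      have h1 : (y.updateRow j (∑ k, c k • y k)).det = c j • y.det := det_updateRow_sum y j c
      rw [← vecMul_eq_sum, hw', det_updateRow_smul, hy] at h1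
      have h2 : R.π * y'.det = R.π * (R.π ^ m * (c j * u)) := by
        rw [h1]; simp only [smul_eq_mul]; ring
      exact mul_left_cancel₀ R.π_ne h2
    have hidx := ih y' (c j * u) (hcj.mul hu) hdet'
    have hwm : w ∈ rs y' := by
      have := row_mem_rs y' j
      simpa [y'] using this
    have hπw : R.π • w ∈ rs y := by
      rw [← hw', mem_rs]; exact ⟨c, rfl⟩
    -- `rs y' = rs y + O w`
    have hy'dec : ∀ x ∈ rs y', ∃ r : O, x - r • w ∈ rs y := by
      intro x hx
      obtain ⟨v, rfl⟩ := (mem_rs _ _).1 hx
      refine ⟨v j, ?_⟩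
      rw [vecMul_eq_sum, ← Finset.add_sum_erase _ _ (Finset.mem_univ j)]
      have : y' j = w := by simp [y']
      rw [this, add_sub_cancel_left]
      refine Submodule.sum_mem _ fun i hi => Submodule.smul_mem _ _ ?_
      have hij : i ≠ j := (Finset.mem_erase.1 hi).1
      have : y' i = y i := by simp [y', hij]
      rw [this]
      exact row_mem_rs y i
    have hle : rs y ≤ rs y' := by
      rw [rs_le_iff]
      intro i
      by_cases hij : i = j
      · subst hij
        -- c i • y i = π w - ∑ ...
        have h1 : c i • y i = R.π • w - ∑ l ∈ Finset.univ.erase i, c l • y l := by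
          rw [← hw', vecMul_eq_sum, ← Finset.add_sum_erase _ _ (Finset.mem_univ i)]
          simp
        have h2 : c i • y i ∈ rs y' := by
          rw [h1]
          refine Submodule.sub_mem _ (Submodule.smul_mem _ _ hwm) ?_
          refine Submodule.sum_mem _ fun l hl => Submodule.smul_mem _ _ ?_
          have hlj : l ≠ i := (Finset.mem_erase.1 hl).1
          have : y' l = y l := by simp [y', hlj]
          rw [← this]
          exact row_mem_rs y' l
        obtain ⟨ci, hci⟩ := hcj
        have : y i = (↑(ci⁻¹) : O) • (c i • y i) := by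
          rw [smul_smul, ← hci]; simp
        rw [this]
        exact Submodule.smul_mem _ _ h2
      · have : y' i = y i := by simp [y', hij]
        rw [← this]
        exact row_mem_rs y' i
    have hker : ∀ r : O, r • w ∈ rs y ↔ R.π ∣ r := by
      intro r
      constructor
      · intro h
        by_contra hr
        rw [← R.ker] at hr
        obtain ⟨ru, hru⟩ := R.unit r hr
        have hwy : w ∈ rs y := by
          have : w = (↑(ru⁻¹) : O) • (r • w) := by rw [smul_smul, ← hru]; simp
          rw [this]; exact Submodule.smul_mem _ _ h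
        have : rs y' ≤ rs y := by
          intro x hx
          obtain ⟨r', hr'⟩ := hy'dec x hx
          have : x = (x - r' • w) + r' • w := by simp
          rw [this]
          exact Submodule.add_mem _ hr' (Submodule.smul_mem _ _ hwy)
        obtain ⟨g, hg⟩ := exists_mul_of_rs_le this
        have h3 : y'.det = g.det * y.det := by rw [hg, det_mul]
        rw [hdet', hy] at h3
        have h4 : R.π ^ (m + 1) ∣ R.π ^ m * (c j * u) := by
          rw [h3]
          exact Dvd.dvd.mul_left (Dvd.intro _ rfl) _
        have := pow_dvd_pow_mul_unit R (hcj.mul hu) h4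
        omega
      · rintro ⟨r', rfl⟩
        rw [mul_comm, mul_smul]
        exact Submodule.smul_mem _ _ hπw
    -- relative index
    have hrel : (rs y).toAddSubgroup.relIndex (rs y').toAddSubgroup = q := by
      rw [← index_span_pi R hq]
      let φ : O →+ (rs y').toAddSubgroup :=
        { toFun := fun r => ⟨r • w, Submodule.smul_mem _ _ hwm⟩
          map_zero' := by ext; simp
          map_add' := by intro a b; ext; simp [add_mul] }
      have h1 : ((rs y).toAddSubgroup.addSubgroupOf (rs y').toAddSubgroup).comap φ =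
          (Ideal.span {R.π}).toAddSubgroup := by
        ext r
        simp only [AddSubgroup.mem_comap, AddSubgroup.mem_addSubgroupOf,
          Submodule.mem_toAddSubgroup, Ideal.mem_span_singleton]
        exact hker r
      rw [← h1]
      unfold AddSubgroup.relIndex
      -- index of comap along a map whose range together with the subgroup is everything
      let ψ : (rs y').toAddSubgroup →+
          ((rs y').toAddSubgroup ⧸ ((rs y).toAddSubgroup.addSubgroupOf (rs y').toAddSubgroup)) :=
        QuotientAddGroup.mk' _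
      have hker2 : ((rs y).toAddSubgroup.addSubgroupOf (rs y').toAddSubgroup).comap φ =
          (ψ.comp φ).ker := by
        ext r
        simp [ψ, AddMonoidHom.mem_ker]
      rw [hker2, AddSubgroup.index_ker]
      have hsurj : Function.Surjective (ψ.comp φ) := by
        intro z
        obtain ⟨⟨x, hx⟩, rfl⟩ := QuotientAddGroup.mk'_surjective _ z
        obtain ⟨r, hr⟩ := hy'dec x hx
        refine ⟨r, ?_⟩
        simp only [AddMonoidHom.comp_apply, ψ]
        rw [QuotientAddGroup.mk'_eq_mk']
        refine ⟨⟨x - r • w, Submodule.sub_mem _ hx (Submodule.smul_mem _ _ hwm)⟩, ?_, ?_⟩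
        · simpa [AddSubgroup.mem_addSubgroupOf] using hr
        · ext; simp [φ]
      have : (ψ.comp φ).range = ⊤ := by rw [AddMonoidHom.range_eq_top]; exact hsurj
      rw [this]
      unfold AddSubgroup.index
      exact (Nat.card_congr (Equiv.Set.univ _)).symm
    have := AddSubgroup.relIndex_mul_index (H := (rs y).toAddSubgroup)
      (K := (rs y').toAddSubgroup) hle
    rw [← this, hrel, hidx, pow_succ, mul_comm]

end H

end Pool.Agent.Lib.H70.Top
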