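import Pool.Agent.Lib.H70.Top.H1

/-!
# Chunk H, part 2: finite index submodules and their bases
-/

namespace Pool.Agent.Lib.H70.Top

namespace H

open Matrix

variable {d : ℕ} {O k : Type*} [CommRing O] [IsDomain O] [Field k] (R : HDVR O k)

/-- A submodule of finite index contains `π^N V`. -/
theorem exists_pow_smul_mem (U : Submodule O (Fin d → O)) (hU : U.toAddSubgroup.index ≠ 0) :
    ∃ N : ℕ, ∀ v : Fin d → O, R.π ^ N • v ∈ U := by
  have : U.toAddSubgroup.FiniteIndex := ⟨hU⟩
  have : Finite ((Fin d → O) ⧸ U.toAddSubgroup) := inferInstance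
  have h1 : ∀ v : Fin d → O, ∃ n : ℕ, R.π ^ n • v ∈ U := by
    intro v
    obtain ⟨i, j, hij, h⟩ := Finite.exists_ne_map_eq_of_infinite
      (fun n : ℕ => (QuotientAddGroup.mk (R.π ^ n • v) : (Fin d → O) ⧸ U.toAddSubgroup))
    wlog hlt : i < j generalizing i j
    · exact this j i (Ne.symm hij) h.symm (lt_of_le_of_ne (not_lt.1 hlt) (Ne.symm hij))
    rw [QuotientAddGroup.eq] at h
    obtain ⟨e, rfl⟩ := Nat.exists_eq_add_of_lt hlt
    refine ⟨i, ?_⟩
    have h2 : R.π ^ i • v - R.π ^ (i + e + 1) • v ∈ U := by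
      have := U.neg_mem h
      rw [neg_add, neg_neg, ← sub_eq_add_neg] at this
      exact this
    have h3 : R.π ^ i • v - R.π ^ (i + e + 1) • v = (1 - R.π ^ (e + 1)) • (R.π ^ i • v) := by
      rw [sub_smul, one_smul, smul_smul, ← pow_add]; congr 3; ring
    rw [h3] at h2
    have hu : IsUnit (1 - R.π ^ (e + 1)) := by
      apply R.unit
      rw [map_sub, map_pow, res_pi R]; simp
    obtain ⟨u, hu⟩ := hu
    have : R.π ^ i • v = (↑(u⁻¹) : O) • ((1 - R.π ^ (e + 1)) • (R.π ^ i • v)) := by
      rw [smul_smul (↑(u⁻¹) : O), ← hu]; simp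
    rw [this]
    exact U.smul_mem _ h2
  choose n hn using h1
  let N := ∑ i, n (Pi.single i 1)
  refine ⟨N, fun v => ?_⟩
  have hv : R.π ^ N • v = ∑ i, v i • (R.π ^ N • (Pi.single i (1 : O) : Fin d → O)) := by
    ext l
    simp [Finset.sum_apply, Pi.single_apply]
    ring
  rw [hv]
  refine U.sum_mem fun i _ => U.smul_mem _ ?_
  have hle : n (Pi.single i 1) ≤ N := Finset.single_le_sum (f := fun i => n (Pi.single i 1))
    (fun _ _ => Nat.zero_le _) (Finset.mem_univ i)
  obtain ⟨e, he⟩ := Nat.exists_eq_add_of_le hle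
  rw [he, pow_add, mul_comm, mul_smul]
  exact U.smul_mem _ (hn _)

omit [IsDomain O] in
theorem det_smul_mem_rs (y : Matrix (Fin d) (Fin d) O) (v : Fin d → O) : y.det • v ∈ rs y := by
  rw [mem_rs]
  refine ⟨v ᵥ* y.adjugate, ?_⟩
  rw [vecMul_vecMul, adjugate_mul, vecMul_smul, vecMul_one]

include R in
theorem exists_basis (U : Submodule O (Fin d → O)) (hU : U.toAddSubgroup.index ≠ 0) :
    ∃ y : Matrix (Fin d) (Fin d) O, rs y = U ∧ y.det ≠ 0 := by
  have := isPrincipalIdealRing R
  obtain ⟨N, hN⟩ := exists_pow_smul_mem R U hU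
  obtain ⟨m, ⟨b⟩⟩ := Submodule.nonempty_basis_of_pid (Pi.basisFun O (Fin d)) U
  have : Module.Finite O U := Module.Finite.of_basis b
  have hm : Module.finrank O U = m := by
    rw [Module.finrank_eq_card_basis b]; simp
  have h1 : Module.finrank O U ≤ d := by
    have := Submodule.finrank_le U
    simpa using this
  have h2 : d ≤ Module.finrank O U := by
    let φ : (Fin d → O) →ₗ[O] U :=
      LinearMap.codRestrict U (R.π ^ N • LinearMap.id) (fun v => by simpa using hN v)
    have hφ : Function.Injective φ := by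
      intro a b hab
      have := congrArg Subtype.val hab
      simp only [φ, LinearMap.codRestrict_apply, LinearMap.smul_apply, LinearMap.id_apply] at this
      exact smul_right_injective _ (pow_ne_zero N R.π_ne) this
    have := LinearMap.finrank_le_finrank_of_injective hφ
    simpa using this
  have hmd : m = d := by omega
  subst hmd
  let y : Matrix (Fin m) (Fin m) O := Matrix.of fun i => (b i : Fin m → O)
  have hy : rs y = U := by
    apply le_antisymm
    · rw [rs_le_iff]
      intro i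
      exact (b i).2
    · intro x hx
      rw [mem_rs]
      refine ⟨b.repr ⟨x, hx⟩, ?_⟩
      rw [vecMul_eq_sum]
      have h' := congrArg U.subtype (b.sum_repr ⟨x, hx⟩)
      rw [map_sum] at h'
      simp only [map_smul, Submodule.subtype_apply] at h'
      exact h' 
  refine ⟨y, hy, ?_⟩
  have h3 : ∀ i : Fin m, ∃ v : Fin m → O, v ᵥ* y = R.π ^ N • (Pi.single i (1 : O) : Fin m → O) := by
    intro i
    rw [← mem_rs, hy]
    exact hN _
  choose g hg using h3
  have h4 : Matrix.of g * y = (R.π ^ N) • (1 : Matrix (Fin m) (Fin m) O) := by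
    ext i j
    have := congrFun (hg i) j
    simp only [vecMul, dotProduct, Pi.smul_apply] at this
    simp only [Matrix.mul_apply, Matrix.of_apply, Matrix.smul_apply, this]
    rw [Matrix.one_apply, Pi.single_apply]
    simp [eq_comm]
  intro h0
  have h5 := congrArg Matrix.det h4
  rw [det_mul, h0, mul_zero, det_smul, det_one, mul_one] at h5
  exact pow_ne_zero _ (pow_ne_zero N R.π_ne) h5.symm

theorem index_rs_iff [Finite k] {q : ℕ} (hq : Nat.card k = q) (y : Matrix (Fin d) (Fin d) O)
    (n : ℕ) : (rs y).toAddSubgroup.index = q ^ n ↔ ∃ u : O, IsUnit u ∧ y.det = R.π ^ n * u := by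
  have hq1 : 1 < q := by rw [← hq]; exact Finite.one_lt_card
  constructor
  · intro h
    have h0 : (rs y).toAddSubgroup.index ≠ 0 := by rw [h]; positivity
    have hdet : y.det ≠ 0 := by
      obtain ⟨z, hz, hz0⟩ := exists_basis R _ h0
      obtain ⟨g, hg⟩ := exists_mul_of_rs_le (le_of_eq hz)
      intro hy
      rw [hg, det_mul, hy, mul_zero] at hz0
      exact hz0 rfl
    obtain ⟨m, u, hm, hu⟩ := R.fact _ hdet
    have hu' := R.unit u hu
    have := index_rs R hq m y u hu' hm
    rw [this] at h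
    have hmn : m = n := Nat.pow_right_injective hq1 h
    subst hmn
    exact ⟨u, hu', hm⟩
  · rintro ⟨u, hu, h⟩
    exact index_rs R hq n y u hu h

theorem mem_rs_iff_dvd (y : Matrix (Fin d) (Fin d) O) (hy : y.det ≠ 0) (x : Fin d → O) :
    x ∈ rs y ↔ ∀ l, y.det ∣ (x ᵥ* y.adjugate) l := by
  rw [mem_rs]
  constructor
  · rintro ⟨v, rfl⟩ l
    rw [vecMul_vecMul, mul_adjugate, vecMul_smul, vecMul_one]
    simp
  · intro h
    choose v hv using h
    refine ⟨v, ?_⟩
    have h1 : x ᵥ* y.adjugate = y.det • v := by ext l; simp [hv l]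
    have h2 : y.det • x = y.det • (v ᵥ* y) := by
      rw [← smul_vecMul, ← h1, vecMul_vecMul, adjugate_mul, vecMul_smul, vecMul_one]
    exact (smul_right_injective _ hy h2).symm

omit [IsDomain O] in
/-- The product as a bilinear map. -/
theorem exists_bilin (c : Fin d → Fin d → Fin d → ℤ) :
    ∃ B : (Fin d → O) →ₗ[O] (Fin d → O) →ₗ[O] (Fin d → O), ∀ x y, B x y = amul c x y := by
  refine ⟨LinearMap.mk₂ O (amul c) ?_ ?_ ?_ ?_, fun x y => rfl⟩
  · intro a b y; ext l
    simp only [amul, Pi.add_apply, ← Finset.sum_add_distrib]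
    refine Finset.sum_congr rfl fun i _ => Finset.sum_congr rfl fun j _ => by ring
  · intro r x y; ext l
    simp only [amul, Pi.smul_apply, smul_eq_mul, Finset.mul_sum]
    refine Finset.sum_congr rfl fun i _ => Finset.sum_congr rfl fun j _ => by ring
  · intro a b y; ext l
    simp only [amul, Pi.add_apply, ← Finset.sum_add_distrib]
    refine Finset.sum_congr rfl fun i _ => Finset.sum_congr rfl fun j _ => by ring
  · intro r x y; ext l
    simp only [amul, Pi.smul_apply, smul_eq_mul, Finset.mul_sum]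
    refine Finset.sum_congr rfl fun i _ => Finset.sum_congr rfl fun j _ => by ring

omit [IsDomain O] in
theorem isSubalg_rs_iff (c : Fin d → Fin d → Fin d → ℤ) (y : Matrix (Fin d) (Fin d) O) :
    IsSubalg c (rs y) ↔ ∀ i j, amul c (y i) (y j) ∈ rs y := by
  constructor
  · intro h i j
    exact h _ (row_mem_rs y i) _ (row_mem_rs y j)
  · intro h a ha b hb
    obtain ⟨B, hB⟩ := exists_bilin (O := O) c
    obtain ⟨v, rfl⟩ := (mem_rs _ _).1 ha
    obtain ⟨w, rfl⟩ := (mem_rs _ _).1 hb
    have e1 : B (v ᵥ* y) (w ᵥ* y) = ∑ j, w j • ∑ i, v i • B (y i) (y j) := by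
      rw [vecMul_eq_sum, vecMul_eq_sum, map_sum]
      refine Finset.sum_congr rfl fun j _ => ?_
      rw [map_smul]
      congr 1
      rw [map_sum]
      simp only [LinearMap.sum_apply, map_smul, LinearMap.smul_apply]
    rw [← hB, e1]
    refine Submodule.sum_mem _ fun j _ => Submodule.smul_mem _ _ ?_
    refine Submodule.sum_mem _ fun i _ => Submodule.smul_mem _ _ ?_
    rw [hB]
    exact h i j

/-- The integrand condition is a condition on the row space. -/
theorem cond_iff [Finite k] {q : ℕ} (hq : Nat.card k = q) (c : Fin d → Fin d → Fin d → ℤ)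
    (y : Matrix (Fin d) (Fin d) O) (n : ℕ) :
    ((∃ u : O, IsUnit u ∧ y.det = R.π ^ n * u) ∧
      (∀ i j l, y.det ∣ Matrix.vecMul (amul c (y i) (y j)) y.adjugate l)) ↔
    (IsSubalg c (rs y) ∧ (rs y).toAddSubgroup.index = q ^ n) := by
  rw [index_rs_iff R hq]
  constructor
  · rintro ⟨⟨u, hu, h⟩, h2⟩
    refine ⟨?_, u, hu, h⟩
    have h0 : y.det ≠ 0 := by
      rw [h]; exact mul_ne_zero (pow_ne_zero _ R.π_ne) hu.ne_zero
    rw [isSubalg_rs_iff]
    intro i j
    rw [mem_rs_iff_dvd y h0]
    exact h2 i j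
  · rintro ⟨h2, u, hu, h⟩
    refine ⟨⟨u, hu, h⟩, ?_⟩
    have h0 : y.det ≠ 0 := by
      rw [h]; exact mul_ne_zero (pow_ne_zero _ R.π_ne) hu.ne_zero
    rw [isSubalg_rs_iff] at h2
    intro i j
    exact (mem_rs_iff_dvd y h0 _).1 (h2 i j)

theorem isUnit_det_of_congr (g g' : Matrix (Fin d) (Fin d) O) (h : ∀ i j, R.π ∣ g' i j - g i j)
    (hg : IsUnit g.det) : IsUnit g'.det := by
  rw [isUnit_iff R] at hg ⊢
  have h1 : g'.map R.res = g.map R.res := by
    ext i j
    have := (R.ker _).2 (h i j)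
    rw [map_sub, sub_eq_zero] at this
    simpa using this
  have e1 := R.res.map_det g
  have e2 := R.res.map_det g'
  rw [RingHom.mapMatrix_apply] at e1 e2
  rw [e2, h1, ← e1]
  exact hg

/-- The row space of index `q^n` only depends on the matrix modulo `π^{n+1}`. -/
theorem rs_congr {y y' : Matrix (Fin d) (Fin d) O} {n : ℕ} {u : O} (hu : IsUnit u)
    (hy : y.det = R.π ^ n * u) (h : ∀ i j, R.π ^ (n + 1) ∣ y' i j - y i j) : rs y' = rs y := by
  choose w hw using h
  obtain ⟨u', rfl⟩ := hu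
  have h1 : y' = y + R.π ^ (n + 1) • Matrix.of w := by
    ext i j
    simp only [Matrix.add_apply, Matrix.smul_apply, Matrix.of_apply, smul_eq_mul, ← hw]
    ring
  let g : Matrix (Fin d) (Fin d) O := 1 + (R.π * ↑(u'⁻¹)) • (Matrix.of w * y.adjugate)
  have h2 : y' = g * y := by
    simp only [g, Matrix.add_mul, Matrix.one_mul, Matrix.smul_mul, Matrix.mul_assoc,
      adjugate_mul, Matrix.mul_smul, Matrix.mul_one, smul_smul, hy]
    rw [h1]
    congr 2
    have : (↑(u'⁻¹) : O) * ↑u' = 1 := by simp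
    calc R.π ^ (n + 1) = R.π * R.π ^ n * (↑(u'⁻¹) * ↑u') := by rw [this]; ring
      _ = _ := by ring
  have h3 : IsUnit g.det := by
    apply isUnit_det_of_congr R 1 g _ (by simp)
    intro i j
    simp only [g, Matrix.add_apply, Matrix.smul_apply, smul_eq_mul, add_sub_cancel_left]
    exact ⟨↑(u'⁻¹) * (Matrix.of w * y.adjugate) i j, by ring⟩
  rw [h2]
  exact rs_mul_of_isUnit g y h3

end H

end Pool.Agent.Lib.H70.Top
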