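import Pool.Agent.Lib.H70.Top.I

/-!
# The general upper bound `deg ≤ -d`
-/

namespace Pool.Agent.Lib.H70.Top.II

open Filter Topology Polynomial
open scoped BigOperators Nat fwdDiff

/-- all coefficients have norm at most one -/
def N1 {l : ℕ} [Fact l.Prime] (A : PowerSeries ℚ_[l]) : Prop :=
  ∀ n, ‖PowerSeries.coeff n A‖ ≤ 1

lemma N1.mul {l : ℕ} [Fact l.Prime] {A B : PowerSeries ℚ_[l]} (hA : N1 A) (hB : N1 B) :
    N1 (A * B) := by
  intro n
  rw [PowerSeries.coeff_mul]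
  refine IsUltrametricDist.norm_sum_le_of_forall_le_of_nonneg zero_le_one fun i _ => ?_
  rw [norm_mul]
  exact mul_le_one₀ (hA _) (norm_nonneg _) (hB _)

lemma norm_p {p l : ℕ} [Fact p.Prime] [Fact l.Prime] (hpl : p ≠ l) : ‖(p : ℚ_[l])‖ = 1 := by
  have h := Padic.norm_natCast_eq_one_iff (p := l) (n := p)
  rw [h]
  exact (Nat.coprime_primes Fact.out Fact.out).2 (Ne.symm hpl)

lemma N1_den {l : ℕ} [Fact l.Prime] {x : ℚ_[l]} (hx : ‖x‖ = 1) (J : List (ℤ × ℕ)) :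
    N1 ((J.map fun y => (1 - PowerSeries.C (x ^ y.1) * PowerSeries.X ^ y.2 :
      PowerSeries ℚ_[l])).prod) := by
  induction J with
  | nil =>
    intro n
    simp only [List.map_nil, List.prod_nil, PowerSeries.coeff_one]
    split_ifs <;> simp
  | cons y J ih =>
    simp only [List.map_cons, List.prod_cons]
    refine N1.mul ?_ ih
    intro n
    simp only [map_sub, PowerSeries.coeff_C_mul, PowerSeries.coeff_X_pow, PowerSeries.coeff_one]
    rw [sub_eq_add_neg]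
    refine (IsUltrametricDist.norm_add_le_max _ _).trans (max_le ?_ ?_)
    · split_ifs <;> simp
    · rw [norm_neg, norm_mul, norm_zpow, hx, one_zpow, one_mul]
      split_ifs <;> simp

/-- the coefficients of the numerators are integral -/
lemma coeff_norm_le {d : ℕ} (c : Fin d → Fin d → Fin d → ℤ) (p l : ℕ) [Fact p.Prime]
    [Fact l.Prime] (hpl : p ≠ l) (D : ℕ) (J : List (ℤ × ℕ)) (P : ℕ → ℚ[X])
    (hP : ∀ j, zetaSeries c p (D * j !) * (J.map fun x => (1 - PowerSeries.C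
      (((p : ℚ) ^ (D * j !)) ^ x.1) * PowerSeries.X ^ x.2 : PowerSeries ℚ)).prod =
        (P j : PowerSeries ℚ)) (j n : ℕ) :
    ‖((P j).map (algebraMap ℚ ℚ_[l])).coeff n‖ ≤ 1 := by
  have h1 : N1 (PowerSeries.map (algebraMap ℚ ℚ_[l]) (zetaSeries c p (D * j !))) := by
    intro n
    simp only [PowerSeries.coeff_map, zetaSeries, PowerSeries.coeff_mk]
    rw [map_natCast]
    exact_mod_cast Padic.norm_int_le_one (p := l) _
  have h2 : ‖(p : ℚ_[l]) ^ (D * j !)‖ = 1 := by rw [norm_pow, norm_p hpl, one_pow]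
  have h3 := congrArg (PowerSeries.map (algebraMap ℚ ℚ_[l])) (hP j)
  rw [map_mul, map_den] at h3
  have h4 : (algebraMap ℚ ℚ_[l]) ((p : ℚ) ^ (D * j !)) = (p : ℚ_[l]) ^ (D * j !) := by simp
  rw [h4] at h3
  have h5 := (h1.mul (N1_den h2 J)) n
  rw [h3, PowerSeries.coeff_map] at h5
  rw [coeff_map]
  rwa [Polynomial.coeff_coe] at h5

theorem aux_le {d : ℕ} (c : Fin d → Fin d → Fin d → ℤ) (p l : ℕ) [Fact p.Prime]
    [Fact l.Prime] (hpl : p ≠ l) (D : ℕ) (hD : 1 ≤ D) (S : Finset ℤ) (R : RatFunc ℚ)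
    (htop : TopConv c R l p D S)
    (J : List (ℤ × ℕ)) (hJ : ∀ x ∈ J, 1 ≤ x.2) (κ : ℕ) (hlen : J.length = d + κ) (M : ℕ)
    (hrat : ∀ f : ℕ, 1 ≤ f → ∃ P : Polynomial ℚ, P.natDegree ≤ M ∧
      zetaSeries c p f * (J.map fun x => (1 - PowerSeries.C (((p : ℚ) ^ f) ^ x.1) *
        PowerSeries.X ^ x.2 : PowerSeries ℚ)).prod = (P : PowerSeries ℚ)) :
    R = 0 ∨ R.intDegree ≤ -(d : ℤ) := by
  choose P hPM hP using fun j : ℕ => hrat (D * j !)
    (Nat.one_le_iff_ne_zero.2 (mul_ne_zero (by omega) j.factorial_ne_zero))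
  have hcn := coeff_norm_le c p l hpl D J P hP
  obtain ⟨s0, hs0⟩ := exists_s0 S J hJ
  have hx := tendsto_x p l hpl D
  have hD0 : ∀ j : ℕ, D * j ! ≠ 0 := fun j => mul_ne_zero (by omega) j.factorial_ne_zero
  have hx0 : ∀ j : ℕ, (p : ℚ_[l]) ^ (D * j !) ≠ 0 := fun j => x_ne_zero p l _
  have hx1 : ∀ j : ℕ, (p : ℚ_[l]) ^ (D * j !) ≠ 1 := fun j => x_ne_one p l (hD0 j)
  set G : ℕ → ℚ := fun n => R.eval (RingHom.id ℚ) ((s0 + n : ℤ) : ℚ) *
      (J.map fun x => ((x.2 : ℚ) * ((s0 + n : ℤ) : ℚ) - x.1)).prod with hG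
  set Sm : ℕ → ℚ := fun n => ∑ i ∈ Finset.range (κ + 1),
    ((-1 : ℚ) ^ (κ - i) * κ.choose i) * G (n + i) with hSm
  -- the limit of the finite differences
  have hlim : ∀ n : ℕ, Tendsto (fun j => ∑ m ∈ Finset.range (M + 1),
      ((P j).map (algebraMap ℚ ℚ_[l])).coeff m *
        ((p : ℚ_[l]) ^ (D * j !)) ^ (-(m * (s0 + n) : ℤ)) *
        ((((p : ℚ_[l]) ^ (D * j !)) ^ (-(m : ℤ)) - 1) / ((p : ℚ_[l]) ^ (D * j !) - 1)) ^ κ)
      atTop (𝓝 ((Sm n : ℚ) : ℚ_[l])) := by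
    intro n
    have h1 : ∀ i : ℕ, Tendsto (fun j => ((P j).map (algebraMap ℚ ℚ_[l])).eval
        (((p : ℚ_[l]) ^ (D * j !)) ^ (-((s0 + n) + i : ℤ))) / ((p : ℚ_[l]) ^ (D * j !) - 1) ^ κ)
        atTop (𝓝 ((G (n + i) : ℚ) : ℚ_[l])) := by
      intro i
      obtain ⟨h2, h3⟩ := hs0 ((s0 + n) + i) (by omega)
      have h4 := key_limit c p l hpl D hD S R htop J κ hlen P hP ((s0 + n) + i) h2 h3
      have e1 : ((s0 + (n + i : ℕ) : ℤ) : ℚ) = ((s0 + n + i : ℤ) : ℚ) := by push_cast; ring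
      rw [hG]
      simp only [e1]
      exact h4
    have h2 : Tendsto (fun j => ∑ i ∈ Finset.range (κ + 1), ((-1 : ℚ_[l]) ^ (κ - i) * κ.choose i) *
        (((P j).map (algebraMap ℚ ℚ_[l])).eval (((p : ℚ_[l]) ^ (D * j !)) ^ (-((s0 + n) + i : ℤ))) /
          ((p : ℚ_[l]) ^ (D * j !) - 1) ^ κ)) atTop
        (𝓝 (∑ i ∈ Finset.range (κ + 1), ((-1 : ℚ_[l]) ^ (κ - i) * κ.choose i) *
          ((G (n + i) : ℚ) : ℚ_[l]))) :=
      tendsto_finsetSum _ fun i _ => (h1 i).const_mul _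
    have h3 : ∀ j, ∑ i ∈ Finset.range (κ + 1), ((-1 : ℚ_[l]) ^ (κ - i) * κ.choose i) *
        (((P j).map (algebraMap ℚ ℚ_[l])).eval (((p : ℚ_[l]) ^ (D * j !)) ^ (-((s0 + n) + i : ℤ))) /
          ((p : ℚ_[l]) ^ (D * j !) - 1) ^ κ) =
        ∑ m ∈ Finset.range (M + 1), ((P j).map (algebraMap ℚ ℚ_[l])).coeff m *
          ((p : ℚ_[l]) ^ (D * j !)) ^ (-(m * (s0 + n) : ℤ)) *
          ((((p : ℚ_[l]) ^ (D * j !)) ^ (-(m : ℤ)) - 1) / ((p : ℚ_[l]) ^ (D * j !) - 1)) ^ κ :=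
      fun j => fin_diff _ M (natDegree_map_le.trans (hPM j)) κ _ (hx0 j) (s0 + n)
    simp only [h3] at h2
    have h4 : ((Sm n : ℚ) : ℚ_[l]) = ∑ i ∈ Finset.range (κ + 1),
        ((-1 : ℚ_[l]) ^ (κ - i) * κ.choose i) * ((G (n + i) : ℚ) : ℚ_[l]) := by
      rw [hSm]; push_cast; rfl
    rw [h4]
    exact h2
  -- consecutive finite differences agree
  have hstep : ∀ n : ℕ, Sm (n + 1) = Sm n := by
    intro n
    have h1 := (hlim (n + 1)).sub (hlim n)
    have h2 : Tendsto (fun j => (∑ m ∈ Finset.range (M + 1),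
      ((P j).map (algebraMap ℚ ℚ_[l])).coeff m *
        ((p : ℚ_[l]) ^ (D * j !)) ^ (-(m * (s0 + (n + 1 : ℕ)) : ℤ)) *
        ((((p : ℚ_[l]) ^ (D * j !)) ^ (-(m : ℤ)) - 1) / ((p : ℚ_[l]) ^ (D * j !) - 1)) ^ κ) -
        ∑ m ∈ Finset.range (M + 1),
      ((P j).map (algebraMap ℚ ℚ_[l])).coeff m *
        ((p : ℚ_[l]) ^ (D * j !)) ^ (-(m * (s0 + n) : ℤ)) *
        ((((p : ℚ_[l]) ^ (D * j !)) ^ (-(m : ℤ)) - 1) / ((p : ℚ_[l]) ^ (D * j !) - 1)) ^ κ)
      atTop (𝓝 0) := by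
      have h3 : ∀ m : ℕ, Tendsto (fun j => ((P j).map (algebraMap ℚ ℚ_[l])).coeff m *
          ((((p : ℚ_[l]) ^ (D * j !)) ^ (-(m * (s0 + (n + 1 : ℕ)) : ℤ)) -
            ((p : ℚ_[l]) ^ (D * j !)) ^ (-(m * (s0 + n) : ℤ))) *
          ((((p : ℚ_[l]) ^ (D * j !)) ^ (-(m : ℤ)) - 1) / ((p : ℚ_[l]) ^ (D * j !) - 1)) ^ κ))
          atTop (𝓝 0) := by
        intro m
        have h4 := ((tendsto_zpow hx (-(m * (s0 + (n + 1 : ℕ)) : ℤ))).sub
          (tendsto_zpow hx (-(m * (s0 + n) : ℤ)))).mul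
          ((tendsto_quot hx hx0 hx1 (-(m : ℤ))).pow κ)
        rw [sub_self, zero_mul] at h4
        refine squeeze_zero_norm (fun j => ?_) (tendsto_zero_iff_norm_tendsto_zero.1 h4)
        rw [norm_mul]
        exact mul_le_of_le_one_left (norm_nonneg _) (hcn j m)
      have h5 := tendsto_finsetSum (Finset.range (M + 1)) fun m _ => h3 m
      rw [Finset.sum_const_zero] at h5
      refine h5.congr fun j => ?_
      rw [← Finset.sum_sub_distrib]
      refine Finset.sum_congr rfl fun m _ => ?_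
      ring
    have h3 := tendsto_nhds_unique h1 h2
    have h4 : (((Sm (n + 1) - Sm n : ℚ)) : ℚ_[l]) = 0 := by push_cast; exact h3
    have h5 : Sm (n + 1) - Sm n = 0 := by exact_mod_cast h4
    linarith
  have hdiff : ∀ n, ∑ i ∈ Finset.range ((κ + 1) + 1),
      ((-1 : ℚ) ^ ((κ + 1) - i) * (κ + 1).choose i) * G (n + i) = 0 := by
    intro n
    have h1 : ∀ n, (fwdDiff (1 : ℕ))^[κ] G n = Sm n := by
      intro n
      rw [fwdDiff_iter_eq_sum_shift, hSm]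
      refine Finset.sum_congr rfl fun i _ => ?_
      simp
    have h2 : (fwdDiff (1 : ℕ))^[κ + 1] G n = 0 := by
      rw [Function.iterate_succ_apply']
      show (fwdDiff (1 : ℕ))^[κ] G (n + 1) - (fwdDiff (1 : ℕ))^[κ] G n = 0
      rw [h1, h1, hstep, sub_self]
    rw [← h2, fwdDiff_iter_eq_sum_shift]
    refine Finset.sum_congr rfl fun i _ => ?_
    simp
  obtain ⟨Q, hQ1, hQ2⟩ := newton (κ + 1) G hdiff
  rcases ratfunc_concl R J hJ (κ + 1) Q hQ1 s0 hQ2 with h | h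
  · exact Or.inl h
  · right
    rw [hlen] at h
    push_cast at h
    linarith

end Pool.Agent.Lib.H70.Top.II

namespace Pool.Agent.Lib.H70.Top

open Filter Topology II
open scoped BigOperators Nat

/-- The degree is at most `-d`, from uniform rationality. -/
theorem degree_le {d : ℕ} (c : Fin d → Fin d → Fin d → ℤ) (p l : ℕ) [Fact p.Prime]
    [Fact l.Prime] (hpl : p ≠ l) (D : ℕ) (hD : 1 ≤ D) (S : Finset ℤ) (R : RatFunc ℚ)
    (htop : TopConv c R l p D S)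
    (J : List (ℤ × ℕ)) (hJ : ∀ x ∈ J, 1 ≤ x.2) (M : ℕ)
    (hrat : ∀ f : ℕ, 1 ≤ f → ∃ P : Polynomial ℚ, P.natDegree ≤ M ∧
      zetaSeries c p f * (J.map fun x => (1 - PowerSeries.C (((p : ℚ) ^ f) ^ x.1) *
        PowerSeries.X ^ x.2 : PowerSeries ℚ)).prod = (P : PowerSeries ℚ)) :
    R = 0 ∨ R.intDegree ≤ -(d : ℤ) := by
  refine aux_le c p l hpl D hD S R htop (List.replicate d (0, 1) ++ J) ?_ J.length (by simp)
    (M + d) ?_
  · intro x hx
    rcases List.mem_append.1 hx with hx | hx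
    · rw [List.eq_of_mem_replicate hx]
    · exact hJ x hx
  · intro f hf
    obtain ⟨P, hP1, hP2⟩ := hrat f hf
    refine ⟨(1 - Polynomial.X) ^ d * P, ?_, ?_⟩
    · refine (Polynomial.natDegree_mul_le).trans ?_
      have h1 : ((1 - Polynomial.X : Polynomial ℚ) ^ d).natDegree ≤ d := by
        refine (Polynomial.natDegree_pow_le).trans ?_
        have h2 : (1 - Polynomial.X : Polynomial ℚ).natDegree ≤ 1 := by
          refine (Polynomial.natDegree_sub_le _ _).trans ?_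
          simp
        nlinarith
      omega
    · rw [List.map_append, List.prod_append, mul_left_comm, hP2]
      simp

end Pool.Agent.Lib.H70.Top
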