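import Pool.Agent.Lib.H70.Top.JWitt
import Pool.Agent.Lib.H70.Top.G

/-!
# Chunk J: torus congruence
-/

namespace Pool.Agent.Lib.H70.Top

theorem torus (p f : ℕ) [Fact p.Prime] (hf : 1 ≤ f) (n : ℕ) :
    ((p ^ f : ℕ) - 1 : ℤ) ∣ (subCount cA (OO p f) (p ^ (f * n)) : ℤ) -
      gradedCount (OO p f) (p ^ (f * n)) := by
  obtain ⟨R, hR⟩ := exists_HDVR p f hf
  exact J.torus_of_HDVR p f hf R hR n

end Pool.Agent.Lib.H70.Top
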