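import Pool.Agent.Lib.H70.Top.Base

/-!
# Chunk J, part 1: the algebra in blocks
-/

namespace Pool.Agent.Lib.H70.Top.J

open Finset
open scoped BigOperators

variable {O : Type*} [CommRing O]

theorem sum_single (A B : Fin 10) (P : Prop) [Decidable P] (r : O) (x y : Fin 10 → O) :
    ∑ a, ∑ b, (if a = A ∧ b = B ∧ P then r else 0) * (x a * y b)
      = if P then r * (x A * y B) else 0 := by
  rw [sum_eq_single A]
  · rw [sum_eq_single B]
    · simp
    · intro b _ hb
      simp [hb]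
    · intro h; exact absurd (mem_univ _) h
  · intro a _ ha
    simp [ha]
  · intro h; exact absurd (mem_univ _) h

theorem amul_cA (x y : Fin 10 → O) (l : Fin 10) :
    amul cA x y l = ∑ i : Fin 4,
      ((if l = iW i then (x (iH 0) - (bb i : O) * x (iH 1)) * y (iV i) else 0)
        + (if l = iV i then (x (iH 0) - (aa i : O) * x (iH 1)) * y (iW i) else 0)) := by
  have h1 : ∀ a b : Fin 10, ((cA a b l : ℤ) : O) * (x a * y b) = ∑ i : Fin 4,
      ((if a = iH 0 ∧ b = iV i ∧ l = iW i then (1 : O) else 0) * (x a * y b)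
      + (if a = iH 1 ∧ b = iV i ∧ l = iW i then (- bb i : O) else 0) * (x a * y b)
      + (if a = iH 0 ∧ b = iW i ∧ l = iV i then (1 : O) else 0) * (x a * y b)
      + (if a = iH 1 ∧ b = iW i ∧ l = iV i then (- aa i : O) else 0) * (x a * y b)) := by
    intro a b
    unfold cA
    push_cast
    rw [sum_mul]
    refine sum_congr rfl (fun i _ => ?_)
    ring
  unfold amul
  simp only [h1]
  have h2 : ∑ a : Fin 10, ∑ b : Fin 10, ∑ i : Fin 4,
      ((if a = iH 0 ∧ b = iV i ∧ l = iW i then (1 : O) else 0) * (x a * y b)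
      + (if a = iH 1 ∧ b = iV i ∧ l = iW i then (- bb i : O) else 0) * (x a * y b)
      + (if a = iH 0 ∧ b = iW i ∧ l = iV i then (1 : O) else 0) * (x a * y b)
      + (if a = iH 1 ∧ b = iW i ∧ l = iV i then (- aa i : O) else 0) * (x a * y b))
      = ∑ i : Fin 4, ∑ a : Fin 10, ∑ b : Fin 10,
      ((if a = iH 0 ∧ b = iV i ∧ l = iW i then (1 : O) else 0) * (x a * y b)
      + (if a = iH 1 ∧ b = iV i ∧ l = iW i then (- bb i : O) else 0) * (x a * y b)
      + (if a = iH 0 ∧ b = iW i ∧ l = iV i then (1 : O) else 0) * (x a * y b)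
      + (if a = iH 1 ∧ b = iW i ∧ l = iV i then (- aa i : O) else 0) * (x a * y b)) := by
    rw [sum_comm]
    rw [sum_congr rfl (fun b _ => sum_comm), sum_comm]
    refine sum_congr rfl (fun i _ => ?_)
    rw [sum_comm]
  rw [h2]
  refine sum_congr rfl (fun i _ => ?_)
  simp only [sum_add_distrib, sum_single]
  by_cases hW : l = iW i
  · by_cases hV : l = iV i
    · rw [if_pos hW, if_pos hW, if_pos hV, if_pos hV, if_pos hW, if_pos hV]; ring
    · rw [if_pos hW, if_pos hW, if_neg hV, if_neg hV, if_pos hW, if_neg hV]; ring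
  · by_cases hV : l = iV i
    · rw [if_neg hW, if_neg hW, if_pos hV, if_pos hV, if_neg hW, if_pos hV]; ring
    · rw [if_neg hW, if_neg hW, if_neg hV, if_neg hV, if_neg hW, if_neg hV]; ring

theorem iV_inj {i j : Fin 4} : iV i = iV j ↔ i = j := by
  simp only [iV, Fin.ext_iff]; omega

theorem iW_inj {i j : Fin 4} : iW i = iW j ↔ i = j := by
  simp only [iW, Fin.ext_iff]; omega

theorem iV_ne_iW {i j : Fin 4} : iV i ≠ iW j := by
  simp only [iV, iW, ne_eq, Fin.mk.injEq]; omega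

theorem iH_ne_iV {i : Fin 2} {j : Fin 4} : iH i ≠ iV j := by
  have := i.2
  simp only [iV, iH, ne_eq, Fin.mk.injEq]; omega

theorem iH_ne_iW {i : Fin 2} {j : Fin 4} : iH i ≠ iW j := by
  have := i.2
  simp only [iW, iH, ne_eq, Fin.mk.injEq]; omega

/-- the `H`-block -/
def bH (u : Fin 10 → O) : Fin 2 → O := ![u (iH 0), u (iH 1)]

/-- the block `V_i` -/
def bV (i : Fin 4) (u : Fin 10 → O) : Fin 2 → O := ![u (iV i), u (iW i)]

theorem amul_iH (x y : Fin 10 → O) (j : Fin 2) : amul cA x y (iH j) = 0 := by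
  rw [amul_cA]
  refine sum_eq_zero (fun i _ => ?_)
  rw [if_neg iH_ne_iW, if_neg iH_ne_iV, add_zero]

theorem amul_iV (x y : Fin 10 → O) (i : Fin 4) :
    amul cA x y (iV i) = (x (iH 0) - (aa i : O) * x (iH 1)) * y (iW i) := by
  rw [amul_cA, sum_eq_single i]
  · rw [if_neg iV_ne_iW, if_pos rfl, zero_add]
  · intro j _ hj
    rw [if_neg iV_ne_iW, if_neg (fun h => hj (iV_inj.mp h).symm), add_zero]
  · intro h; exact absurd (mem_univ _) h

theorem amul_iW (x y : Fin 10 → O) (i : Fin 4) :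
    amul cA x y (iW i) = (x (iH 0) - (bb i : O) * x (iH 1)) * y (iV i) := by
  rw [amul_cA, sum_eq_single i]
  · rw [if_pos rfl, if_neg iV_ne_iW.symm, add_zero]
  · intro j _ hj
    rw [if_neg (fun h => hj (iW_inj.mp h).symm), if_neg iV_ne_iW.symm, add_zero]
  · intro h; exact absurd (mem_univ _) h

theorem bH_amul (x y : Fin 10 → O) : bH (amul cA x y) = 0 := by
  unfold bH
  rw [amul_iH, amul_iH]
  funext j
  match j with
  | 0 => rfl
  | 1 => rfl

theorem bV_amul (x y : Fin 10 → O) (i : Fin 4) :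
    bV i (amul cA x y) = hact i (bH x) (bV i y) := by
  unfold bV hact bH
  rw [amul_iV, amul_iW]
  simp

/-- the vector with given blocks -/
def mk (h : Fin 2 → O) (m : Fin 4 → Fin 2 → O) : Fin 10 → O :=
  ![h 0, h 1, m 0 0, m 0 1, m 1 0, m 1 1, m 2 0, m 2 1, m 3 0, m 3 1]

theorem bH_mk (h : Fin 2 → O) (m : Fin 4 → Fin 2 → O) : bH (mk h m) = h := by
  funext j
  match j with
  | 0 => rfl
  | 1 => rfl

theorem bV_mk (h : Fin 2 → O) (m : Fin 4 → Fin 2 → O) (i : Fin 4) : bV i (mk h m) = m i := by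
  funext j
  match i, j with
  | 0, 0 => rfl
  | 0, 1 => rfl
  | 1, 0 => rfl
  | 1, 1 => rfl
  | 2, 0 => rfl
  | 2, 1 => rfl
  | 3, 0 => rfl
  | 3, 1 => rfl

theorem mk_blocks (u : Fin 10 → O) : mk (bH u) (fun i => bV i u) = u := by
  funext l
  match l with
  | 0 => rfl
  | 1 => rfl
  | 2 => rfl
  | 3 => rfl
  | 4 => rfl
  | 5 => rfl
  | 6 => rfl
  | 7 => rfl
  | 8 => rfl
  | 9 => rfl

theorem ext_blocks {u v : Fin 10 → O} (h : bH u = bH v) (h' : ∀ i, bV i u = bV i v) : u = v := by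
  rw [← mk_blocks u, ← mk_blocks v, h]
  congr 1
  funext i
  exact h' i

theorem bH_add (u v : Fin 10 → O) : bH (u + v) = bH u + bH v := by
  funext j
  match j with
  | 0 => rfl
  | 1 => rfl

theorem bV_add (i : Fin 4) (u v : Fin 10 → O) : bV i (u + v) = bV i u + bV i v := by
  funext j
  match j with
  | 0 => rfl
  | 1 => rfl

theorem bH_smul (c : O) (u : Fin 10 → O) : bH (c • u) = c • bH u := by
  funext j
  match j with
  | 0 => rfl
  | 1 => rfl

theorem bV_smul (i : Fin 4) (c : O) (u : Fin 10 → O) : bV i (c • u) = c • bV i u := by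
  funext j
  match j with
  | 0 => rfl
  | 1 => rfl

theorem bH_zero : bH (0 : Fin 10 → O) = 0 := by
  funext j
  match j with
  | 0 => rfl
  | 1 => rfl

theorem bV_zero (i : Fin 4) : bV i (0 : Fin 10 → O) = 0 := by
  funext j
  match j with
  | 0 => rfl
  | 1 => rfl

/-! ### Graded submodules -/

/-- the submodule with given blocks -/
def comb (T : Submodule O (Fin 2 → O) × (Fin 4 → Submodule O (Fin 2 → O))) :
    Submodule O (Fin 10 → O) where
  carrier := {u | bH u ∈ T.1 ∧ ∀ i, bV i u ∈ T.2 i}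
  zero_mem' := ⟨by rw [bH_zero]; exact T.1.zero_mem, fun i => by
    rw [bV_zero]; exact (T.2 i).zero_mem⟩
  add_mem' := by
    rintro u v ⟨h1, h2⟩ ⟨h3, h4⟩
    exact ⟨by rw [bH_add]; exact T.1.add_mem h1 h3, fun i => by
      rw [bV_add]; exact (T.2 i).add_mem (h2 i) (h4 i)⟩
  smul_mem' := by
    rintro c u ⟨h1, h2⟩
    exact ⟨by rw [bH_smul]; exact T.1.smul_mem _ h1, fun i => by
      rw [bV_smul]; exact (T.2 i).smul_mem _ (h2 i)⟩

theorem mem_comb {T : Submodule O (Fin 2 → O) × (Fin 4 → Submodule O (Fin 2 → O))}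
    {u : Fin 10 → O} : u ∈ comb T ↔ bH u ∈ T.1 ∧ ∀ i, bV i u ∈ T.2 i := Iff.rfl

theorem mk_mem_comb {T : Submodule O (Fin 2 → O) × (Fin 4 → Submodule O (Fin 2 → O))}
    {h : Fin 2 → O} {m : Fin 4 → Fin 2 → O} :
    mk h m ∈ comb T ↔ h ∈ T.1 ∧ ∀ i, m i ∈ T.2 i := by
  rw [mem_comb, bH_mk]
  simp only [bV_mk]

theorem isSubalg_comb {T : Submodule O (Fin 2 → O) × (Fin 4 → Submodule O (Fin 2 → O))} :
    IsSubalg cA (comb T) ↔ GrClosed T.1 T.2 := by
  constructor
  · intro h i h' hh' m hm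
    have h1 : mk h' (fun _ => 0) ∈ comb T :=
      mk_mem_comb.mpr ⟨hh', fun i => (T.2 i).zero_mem⟩
    have h2 : mk 0 (fun j => if j = i then m else 0) ∈ comb T := by
      refine mk_mem_comb.mpr ⟨T.1.zero_mem, fun j => ?_⟩
      by_cases hj : j = i
      · rw [if_pos hj, hj]; exact hm
      · rw [if_neg hj]; exact (T.2 j).zero_mem
    have h3 := (h _ h1 _ h2).2 i
    rw [bV_amul, bH_mk, bV_mk, if_pos rfl] at h3
    exact h3
  · intro h x hx y hy
    rw [mem_comb, bH_amul]
    refine ⟨T.1.zero_mem, fun i => ?_⟩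
    rw [bV_amul]
    exact h i _ hx.1 _ (hy.2 i)

/-- the block decomposition as an additive isomorphism -/
def E : (Fin 10 → O) ≃+ (Fin 2 → O) × (Fin 4 → Fin 2 → O) where
  toFun := fun u => (bH u, fun i => bV i u)
  invFun := fun p => mk p.1 p.2
  left_inv := mk_blocks
  right_inv := by
    rintro ⟨h, m⟩
    simp only [bH_mk, bV_mk]
  map_add' := by
    intro u v
    simp only [bH_add, bV_add]
    rfl

theorem index_comb (T : Submodule O (Fin 2 → O) × (Fin 4 → Submodule O (Fin 2 → O))) :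
    (comb T).toAddSubgroup.index
      = T.1.toAddSubgroup.index * ∏ i, (T.2 i).toAddSubgroup.index := by
  have h1 : (comb T).toAddSubgroup = AddSubgroup.comap (E (O := O)).toAddMonoidHom
      (T.1.toAddSubgroup.prod (AddSubgroup.pi Set.univ fun i => (T.2 i).toAddSubgroup)) := by
    ext u
    rw [AddSubgroup.mem_comap, AddSubgroup.mem_prod, AddSubgroup.mem_pi]
    constructor
    · intro h
      exact ⟨h.1, fun i _ => h.2 i⟩
    · intro h
      exact ⟨h.1, fun i => h.2 i (Set.mem_univ i)⟩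
  rw [h1, AddSubgroup.index_comap_of_surjective _ (E (O := O)).surjective, AddSubgroup.index_prod,
    AddSubgroup.index_pi]

end Pool.Agent.Lib.H70.Top.J
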