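import Pool.Agent.Lib.H70.Top.JAlg

/-!
# Chunk J, part 2: the torus action and the congruence
-/

namespace Pool.Agent.Lib.H70.Top.J

open Finset
open scoped BigOperators

variable {O : Type*} [CommRing O]

theorem hact_smul_right (i : Fin 4) (z : O) (h m : Fin 2 → O) :
    hact i h (z • m) = z • hact i h m := by
  funext j
  match j with
  | 0 => simp [hact]; ring
  | 1 => simp [hact]; ring

/-- scaling the block `V_i` -/
def scl (i : Fin 4) (z : O) (u : Fin 10 → O) : Fin 10 → O :=
  mk (bH u) (fun j => if j = i then z • bV j u else bV j u)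

theorem bH_scl (i : Fin 4) (z : O) (u : Fin 10 → O) : bH (scl i z u) = bH u := by
  unfold scl; rw [bH_mk]

theorem bV_scl (i j : Fin 4) (z : O) (u : Fin 10 → O) :
    bV j (scl i z u) = if j = i then z • bV j u else bV j u := by
  unfold scl; rw [bV_mk]

theorem scl_one (i : Fin 4) (u : Fin 10 → O) : scl i 1 u = u := by
  refine ext_blocks (bH_scl _ _ _) (fun j => ?_)
  rw [bV_scl]
  by_cases h : j = i
  · rw [if_pos h, one_smul]
  · rw [if_neg h]

theorem scl_mul (i : Fin 4) (z z' : O) (u : Fin 10 → O) :
    scl i (z * z') u = scl i z (scl i z' u) := by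
  refine ext_blocks (by rw [bH_scl, bH_scl, bH_scl]) (fun j => ?_)
  rw [bV_scl, bV_scl, bV_scl]
  by_cases h : j = i
  · rw [if_pos h, if_pos h, if_pos h, mul_smul]
  · rw [if_neg h, if_neg h, if_neg h]

theorem scl_add (i : Fin 4) (z : O) (u v : Fin 10 → O) :
    scl i z (u + v) = scl i z u + scl i z v := by
  refine ext_blocks (by rw [bH_scl, bH_add, bH_add, bH_scl, bH_scl]) (fun j => ?_)
  rw [bV_add, bV_scl, bV_scl, bV_scl, bV_add]
  by_cases h : j = i
  · rw [if_pos h, if_pos h, if_pos h, smul_add]
  · rw [if_neg h, if_neg h, if_neg h]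

theorem scl_smul (i : Fin 4) (z c : O) (u : Fin 10 → O) :
    scl i z (c • u) = c • scl i z u := by
  refine ext_blocks (by rw [bH_scl, bH_smul, bH_smul, bH_scl]) (fun j => ?_)
  rw [bV_smul, bV_scl, bV_scl, bV_smul]
  by_cases h : j = i
  · rw [if_pos h, if_pos h, smul_comm]
  · rw [if_neg h, if_neg h]

theorem amul_scl (i : Fin 4) (z : O) (x y : Fin 10 → O) :
    amul cA (scl i z x) (scl i z y) = scl i z (amul cA x y) := by
  refine ext_blocks (by rw [bH_scl, bH_amul, bH_amul]) (fun j => ?_)
  rw [bV_amul, bH_scl, bV_scl, bV_scl, bV_amul]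
  by_cases h : j = i
  · rw [if_pos h, if_pos h, hact_smul_right]
  · rw [if_neg h, if_neg h]

/-- projection to the block `V_i` -/
def prj (i : Fin 4) (u : Fin 10 → O) : Fin 10 → O :=
  mk 0 (fun j => if j = i then bV j u else 0)

theorem bH_prj (i : Fin 4) (u : Fin 10 → O) : bH (prj i u) = 0 := by
  unfold prj; rw [bH_mk]

theorem bV_prj (i j : Fin 4) (u : Fin 10 → O) :
    bV j (prj i u) = if j = i then bV j u else 0 := by
  unfold prj; rw [bV_mk]

theorem scl_eq (i : Fin 4) (z : O) (u : Fin 10 → O) :
    scl i z u = u + (z - 1) • prj i u := by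
  refine ext_blocks (by rw [bH_scl, bH_add, bH_smul, bH_prj, smul_zero, add_zero]) (fun j => ?_)
  rw [bV_scl, bV_add, bV_smul, bV_prj]
  by_cases h : j = i
  · rw [if_pos h, if_pos h, sub_smul, one_smul]
    abel
  · rw [if_neg h, if_neg h, smul_zero, add_zero]

theorem prj_scl (i j : Fin 4) (z : O) (u : Fin 10 → O) :
    prj j (scl i z u) = scl i z (prj j u) := by
  refine ext_blocks (by rw [bH_prj, bH_scl, bH_prj]) (fun l => ?_)
  rw [bV_prj, bV_scl, bV_scl, bV_prj]
  by_cases h : l = j
  · rw [if_pos h, if_pos h]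
  · rw [if_neg h, if_neg h, smul_zero, ite_self]

/-- the submodule splits off its part in `V_i` -/
def Split (i : Fin 4) (U : Submodule O (Fin 10 → O)) : Prop := ∀ u ∈ U, prj i u ∈ U

/-- scaling as a linear map -/
def sclL (i : Fin 4) (z : O) : (Fin 10 → O) →ₗ[O] (Fin 10 → O) where
  toFun := scl i z
  map_add' := scl_add i z
  map_smul' := fun c u => scl_smul i z c u

theorem sclL_apply (i : Fin 4) (z : O) (u : Fin 10 → O) : sclL i z u = scl i z u := rfl

/-- action on submodules -/
def act (i : Fin 4) (z : Oˣ) (U : Submodule O (Fin 10 → O)) : Submodule O (Fin 10 → O) :=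
  U.comap (sclL i (↑z⁻¹ : O))

theorem mem_act {i : Fin 4} {z : Oˣ} {U : Submodule O (Fin 10 → O)} {u : Fin 10 → O} :
    u ∈ act i z U ↔ scl i (↑z⁻¹ : O) u ∈ U := Iff.rfl

theorem act_one (i : Fin 4) (U : Submodule O (Fin 10 → O)) : act i 1 U = U := by
  ext u
  rw [mem_act, inv_one, Units.val_one, scl_one]

theorem act_mul (i : Fin 4) (z z' : Oˣ) (U : Submodule O (Fin 10 → O)) :
    act i (z * z') U = act i z (act i z' U) := by
  ext u
  rw [mem_act, mem_act, mem_act, mul_inv, Units.val_mul, mul_comm, scl_mul]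

theorem scl_surj (i : Fin 4) (z : Oˣ) : Function.Surjective (scl i (z : O)) := by
  intro u
  refine ⟨scl i (↑z⁻¹ : O) u, ?_⟩
  rw [← scl_mul, Units.mul_inv, scl_one]

theorem index_act (i : Fin 4) (z : Oˣ) (U : Submodule O (Fin 10 → O)) :
    (act i z U).toAddSubgroup.index = U.toAddSubgroup.index := by
  have h1 : (act i z U).toAddSubgroup = AddSubgroup.comap
      (sclL i (↑z⁻¹ : O)).toAddMonoidHom U.toAddSubgroup := by
    ext u
    rfl
  rw [h1, AddSubgroup.index_comap_of_surjective _ (scl_surj i z⁻¹)]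

theorem isSubalg_act (i : Fin 4) (z : Oˣ) {U : Submodule O (Fin 10 → O)} (h : IsSubalg cA U) :
    IsSubalg cA (act i z U) := by
  intro x hx y hy
  rw [mem_act] at hx hy ⊢
  rw [← amul_scl]
  exact h _ hx _ hy

theorem split_act (i j : Fin 4) (z : Oˣ) {U : Submodule O (Fin 10 → O)} (h : Split j U) :
    Split j (act i z U) := by
  intro u hu
  rw [mem_act] at hu ⊢
  rw [← prj_scl]
  exact h _ hu

theorem act_of_split {i : Fin 4} (z : Oˣ) {U : Submodule O (Fin 10 → O)} (h : Split i U) :
    act i z U = U := by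
  have key : ∀ (z : Oˣ) (u : Fin 10 → O), u ∈ U → scl i (z : O) u ∈ U := by
    intro z u hu
    rw [scl_eq]
    exact U.add_mem hu (U.smul_mem _ (h u hu))
  ext u
  rw [mem_act]
  constructor
  · intro hu
    have := key z _ hu
    rwa [← scl_mul, Units.mul_inv, scl_one] at this
  · intro hu
    exact key z⁻¹ u hu

theorem split_of_act {i : Fin 4} {z : Oˣ} (hz : IsUnit ((z : O) - 1))
    {U : Submodule O (Fin 10 → O)} (h : act i z U = U) : Split i U := by
  intro u hu
  have h1 : scl i (z : O) u ∈ U := by
    have h2 : scl i (z : O) u ∈ act i z U := by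
      rw [mem_act, ← scl_mul, Units.inv_mul, scl_one]
      exact hu
    rwa [h] at h2
  rw [scl_eq] at h1
  have h2 : ((z : O) - 1) • prj i u ∈ U := by
    have := U.sub_mem h1 hu
    rwa [add_sub_cancel_left] at this
  obtain ⟨w, hw⟩ := hz
  have h3 := U.smul_mem (↑w⁻¹ : O) h2
  rwa [← hw, smul_smul, Units.inv_mul, one_smul] at h3

/-! ### Counting -/

theorem card_dvd_of_free {G Y : Type*} [Group G] [Finite G] [Finite Y] [MulAction G Y]
    (h : ∀ (g : G) (y : Y), g • y = y → g = 1) : Nat.card G ∣ Nat.card Y := by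
  have e := MulAction.selfEquivSigmaOrbitsQuotientStabilizer G Y
  rw [Nat.card_congr e]
  classical
  have := Fintype.ofFinite (Quotient (MulAction.orbitRel G Y))
  rw [Nat.card_sigma]
  refine Finset.dvd_sum (fun ω _ => ?_)
  have hs : MulAction.stabilizer G ω.out = ⊥ := by
    rw [eq_bot_iff]
    intro g hg
    rw [MulAction.mem_stabilizer_iff] at hg
    rw [Subgroup.mem_bot]
    exact h g _ hg
  rw [hs, Nat.card_congr (QuotientGroup.quotientBot (G := G)).toEquiv]

/-- the subalgebras of index `m` which split in the blocks of `S` -/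
def X (O : Type*) [CommRing O] (m : ℕ) (S : Finset (Fin 4)) : Type _ :=
  {U : Submodule O (Fin 10 → O) //
    (IsSubalg cA U ∧ U.toAddSubgroup.index = m) ∧ ∀ j ∈ S, Split j U}

theorem step {G : Type*} [Group G] [Finite G] (τ : G →* Oˣ)
    (hτ : ∀ g : G, g ≠ 1 → IsUnit (((τ g : Oˣ) : O) - 1)) (m : ℕ)
    (hfin : Finite {U : Submodule O (Fin 10 → O) // U.toAddSubgroup.index = m})
    (S : Finset (Fin 4)) (i : Fin 4) :
    (Nat.card G : ℤ) ∣ (Nat.card (X O m S) : ℤ) - Nat.card (X O m (insert i S)) := by
  classical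
  have hfinX : Finite (X O m S) :=
    Finite.of_injective (β := {U : Submodule O (Fin 10 → O) // U.toAddSubgroup.index = m})
      (fun x => ⟨x.1, x.2.1.2⟩) (fun x y h => by
        simp only [Subtype.mk.injEq] at h
        exact Subtype.ext h)
  have e1 : X O m S ≃ {x : X O m S // Split i x.1} ⊕ {x : X O m S // ¬ Split i x.1} :=
    (Equiv.sumCompl (fun x : X O m S => Split i x.1)).symm
  have e2 : {x : X O m S // Split i x.1} ≃ X O m (insert i S) :=
    { toFun := fun x => ⟨x.1.1, x.1.2.1, fun j hj => by
        rcases Finset.mem_insert.mp hj with h | h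
        · rw [h]; exact x.2
        · exact x.1.2.2 j h⟩
      invFun := fun x => ⟨⟨x.1, x.2.1, fun j hj => x.2.2 j (Finset.mem_insert_of_mem hj)⟩,
        x.2.2 i (Finset.mem_insert_self _ _)⟩
      left_inv := fun x => rfl
      right_inv := fun x => rfl }
  have hcard : Nat.card (X O m S)
      = Nat.card (X O m (insert i S)) + Nat.card {x : X O m S // ¬ Split i x.1} := by
    rw [Nat.card_congr e1, Nat.card_sum, Nat.card_congr e2]
  rw [hcard]
  push_cast
  rw [add_sub_cancel_left]
  norm_cast
  let _ : MulAction G {x : X O m S // ¬ Split i x.1} :=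
    { smul := fun g x => ⟨⟨act i (τ g) x.1.1, ⟨isSubalg_act i _ x.1.2.1.1, by
          rw [index_act]; exact x.1.2.1.2⟩, fun j hj => split_act i j _ (x.1.2.2 j hj)⟩, by
        intro hs
        apply x.2
        have h1 := act_of_split ((τ g)⁻¹) hs
        simp only at h1
        rw [← act_mul, inv_mul_cancel, act_one] at h1
        rw [h1]
        exact hs⟩
      one_smul := by
        intro x
        apply Subtype.ext
        apply Subtype.ext
        change act i (τ 1) x.1.1 = x.1.1
        rw [map_one, act_one]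
      mul_smul := by
        intro g g' x
        apply Subtype.ext
        apply Subtype.ext
        change act i (τ (g * g')) x.1.1 = act i (τ g) (act i (τ g') x.1.1)
        rw [map_mul, act_mul] }
  refine card_dvd_of_free (G := G) (Y := {x : X O m S // ¬ Split i x.1}) (fun g x hgx => ?_)
  by_contra hg
  apply x.2
  have h1 : act i (τ g) x.1.1 = x.1.1 := congrArg (fun y => y.1.1) hgx
  exact split_of_act (hτ g hg) h1

theorem card_X_empty (m : ℕ) : Nat.card (X O m ∅) = subCount cA O m := by
  unfold subCount X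
  refine Nat.card_congr (Equiv.subtypeEquivRight (fun U => ?_))
  simp

theorem comb_split (T : Submodule O (Fin 2 → O) × (Fin 4 → Submodule O (Fin 2 → O)))
    (i : Fin 4) : Split i (comb T) := by
  intro u hu
  rw [mem_comb, bH_prj]
  refine ⟨T.1.zero_mem, fun j => ?_⟩
  rw [bV_prj]
  by_cases h : j = i
  · rw [if_pos h]; exact hu.2 j
  · rw [if_neg h]; exact (T.2 j).zero_mem

theorem comb_inj {T T' : Submodule O (Fin 2 → O) × (Fin 4 → Submodule O (Fin 2 → O))}
    (h : comb T = comb T') : T = T' := by
  have key : ∀ {T T' : Submodule O (Fin 2 → O) × (Fin 4 → Submodule O (Fin 2 → O))},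
      comb T = comb T' → T.1 ≤ T'.1 ∧ ∀ i, T.2 i ≤ T'.2 i := by
    intro T T' h
    refine ⟨fun v hv => ?_, fun i v hv => ?_⟩
    · have h1 : mk v (fun _ => 0) ∈ comb T :=
        mk_mem_comb.mpr ⟨hv, fun i => (T.2 i).zero_mem⟩
      rw [h] at h1
      exact (mk_mem_comb.mp h1).1
    · have h1 : mk 0 (fun j => if j = i then v else 0) ∈ comb T := by
        refine mk_mem_comb.mpr ⟨T.1.zero_mem, fun j => ?_⟩
        by_cases hj : j = i
        · rw [if_pos hj, hj]; exact hv
        · rw [if_neg hj]; exact (T.2 j).zero_mem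
      rw [h] at h1
      have h2 := (mk_mem_comb.mp h1).2 i
      rwa [if_pos rfl] at h2
  have h1 := key h
  have h2 := key h.symm
  exact Prod.ext (le_antisymm h1.1 h2.1) (funext fun i => le_antisymm (h1.2 i) (h2.2 i))

theorem mk_sum_prj (u : Fin 10 → O) : mk (bH u) (fun _ => 0) = u - ∑ i, prj i u := by
  have hH : bH (∑ i, prj i u) = 0 := by
    have : ∀ s : Finset (Fin 4), bH (∑ i ∈ s, prj i u) = 0 := by
      intro s
      classical
      induction s using Finset.induction_on with
      | empty => rw [Finset.sum_empty, bH_zero]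
      | insert a s ha ih => rw [Finset.sum_insert ha, bH_add, ih, bH_prj, add_zero]
    exact this _
  have hV : ∀ j, bV j (∑ i, prj i u) = bV j u := by
    intro j
    have : ∀ s : Finset (Fin 4), bV j (∑ i ∈ s, prj i u) = if j ∈ s then bV j u else 0 := by
      intro s
      classical
      induction s using Finset.induction_on with
      | empty => rw [Finset.sum_empty, bV_zero]; simp
      | insert a s ha ih =>
        rw [Finset.sum_insert ha, bV_add, ih, bV_prj]
        by_cases h : j = a
        · subst h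
          rw [if_pos rfl, if_neg ha, if_pos (Finset.mem_insert_self _ _), add_zero]
        · rw [if_neg h, zero_add]
          by_cases h2 : j ∈ s
          · rw [if_pos h2, if_pos (Finset.mem_insert_of_mem h2)]
          · rw [if_neg h2, if_neg]
            intro h3
            rcases Finset.mem_insert.mp h3 with h4 | h4
            · exact h h4
            · exact h2 h4
    rw [this, if_pos (Finset.mem_univ j)]
  have e : ∀ v w : Fin 10 → O, v = w - (∑ i, prj i u) ↔ v + (∑ i, prj i u) = w := by
    intro v w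
    constructor
    · intro h; rw [h]; abel
    · intro h; rw [← h]; abel
  rw [e]
  refine ext_blocks ?_ (fun j => ?_)
  · rw [bH_add, bH_mk, hH, add_zero]
  · rw [bV_add, bV_mk, hV, zero_add]

/-- a split submodule is graded -/
theorem exists_comb {U : Submodule O (Fin 10 → O)} (h : ∀ i, Split i U) : ∃ T, comb T = U := by
  let incH : (Fin 2 → O) →ₗ[O] (Fin 10 → O) :=
    { toFun := fun v => mk v (fun _ => 0)
      map_add' := by
        intro v w
        refine ext_blocks (by rw [bH_add, bH_mk, bH_mk, bH_mk]) (fun j => ?_)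
        rw [bV_add, bV_mk, bV_mk, bV_mk, add_zero]
      map_smul' := by
        intro c w
        refine ext_blocks (by rw [RingHom.id_apply, bH_smul, bH_mk, bH_mk]) (fun j => ?_)
        rw [RingHom.id_apply, bV_smul, bV_mk, bV_mk, smul_zero] }
  let incV : Fin 4 → (Fin 2 → O) →ₗ[O] (Fin 10 → O) := fun i =>
    { toFun := fun v => mk 0 (fun j => if j = i then v else 0)
      map_add' := by
        intro v w
        refine ext_blocks (by rw [bH_add, bH_mk, bH_mk, bH_mk, add_zero]) (fun j => ?_)
        rw [bV_add, bV_mk, bV_mk, bV_mk]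
        by_cases hj : j = i
        · rw [if_pos hj, if_pos hj, if_pos hj]
        · rw [if_neg hj, if_neg hj, if_neg hj, add_zero]
      map_smul' := by
        intro c w
        refine ext_blocks (by rw [RingHom.id_apply, bH_smul, bH_mk, bH_mk, smul_zero])
          (fun j => ?_)
        rw [RingHom.id_apply, bV_smul, bV_mk, bV_mk]
        by_cases hj : j = i
        · rw [if_pos hj, if_pos hj]
        · rw [if_neg hj, if_neg hj, smul_zero] }
  have hprj : ∀ i (u : Fin 10 → O), incV i (bV i u) = prj i u := by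
    intro i u
    change mk 0 (fun j => if j = i then bV i u else 0) = prj i u
    unfold prj
    congr 1
    funext j
    by_cases hj : j = i
    · rw [if_pos hj, if_pos hj, hj]
    · rw [if_neg hj, if_neg hj]
  refine ⟨(U.comap incH, fun i => U.comap (incV i)), ?_⟩
  ext u
  rw [mem_comb]
  constructor
  · rintro ⟨h1, h2⟩
    have h3 : mk (bH u) (fun _ => 0) ∈ U := h1
    rw [mk_sum_prj] at h3
    have h4 : ∑ i, prj i u ∈ U := by
      refine U.sum_mem (fun i _ => ?_)
      have h5 : incV i (bV i u) ∈ U := h2 i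
      rwa [hprj] at h5
    have h6 := U.add_mem h3 h4
    rwa [sub_add_cancel] at h6
  · intro hu
    refine ⟨?_, fun i => ?_⟩
    · change mk (bH u) (fun _ => 0) ∈ U
      rw [mk_sum_prj]
      exact U.sub_mem hu (U.sum_mem (fun i _ => h i u hu))
    · change incV i (bV i u) ∈ U
      rw [hprj]
      exact h i u hu

theorem card_X_univ (m : ℕ) : Nat.card (X O m univ) = gradedCount O m := by
  unfold gradedCount
  symm
  refine Nat.card_eq_of_bijective
    (fun T => (⟨comb T.1, ⟨isSubalg_comb.mpr T.2.1, by rw [index_comb]; exact T.2.2⟩,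
      fun j _ => comb_split _ j⟩ : X O m univ)) ⟨?_, ?_⟩
  · rintro ⟨T, hT⟩ ⟨T', hT'⟩ h
    have h1 := congrArg Subtype.val h
    exact Subtype.ext (comb_inj h1)
  · rintro ⟨U, ⟨h1, h2⟩, h3⟩
    obtain ⟨T, rfl⟩ := exists_comb (fun i => h3 i (mem_univ i))
    exact ⟨⟨T, isSubalg_comb.mp h1, by rw [← index_comb]; exact h2⟩, rfl⟩

/-- the torus congruence, general form -/
theorem torus_general {G : Type*} [Group G] [Finite G] (τ : G →* Oˣ)
    (hτ : ∀ g : G, g ≠ 1 → IsUnit (((τ g : Oˣ) : O) - 1)) (m : ℕ)
    (hfin : Finite {U : Submodule O (Fin 10 → O) // U.toAddSubgroup.index = m}) :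
    (Nat.card G : ℤ) ∣ (subCount cA O m : ℤ) - gradedCount O m := by
  classical
  have key : ∀ S : Finset (Fin 4),
      (Nat.card G : ℤ) ∣ (Nat.card (X O m ∅) : ℤ) - Nat.card (X O m S) := by
    intro S
    induction S using Finset.induction_on with
    | empty => simp
    | insert i S _ ih =>
      have h1 := step τ hτ m hfin S i
      have h2 := dvd_add ih h1
      have e : ((Nat.card (X O m ∅) : ℤ) - Nat.card (X O m S)
          + ((Nat.card (X O m S) : ℤ) - Nat.card (X O m (insert i S))))
          = (Nat.card (X O m ∅) : ℤ) - Nat.card (X O m (insert i S)) := by ring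
      rwa [e] at h2
  have := key univ
  rwa [card_X_empty, card_X_univ] at this

end Pool.Agent.Lib.H70.Top.J
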