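import Pool.Agent.Lib.H70.Top.Base

/-!
# Chunk K, part 1: representatives modulo powers of the uniformiser
-/

namespace Pool.Agent.Lib.H70.Top.K

open Finset
open scoped BigOperators

variable {O k : Type*} [CommRing O] [IsDomain O] [Field k] (R : HDVR O k)

theorem isUnit_iff {x : O} : IsUnit x ↔ R.res x ≠ 0 :=
  ⟨fun h => (h.map R.res).ne_zero, R.unit x⟩

theorem not_dvd_iff {x : O} : ¬ R.π ∣ x ↔ R.res x ≠ 0 := (R.ker x).symm.not

theorem res_pi : R.res R.π = 0 := (R.ker _).mpr dvd_rfl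

theorem pow_ne (n : ℕ) : R.π ^ n ≠ 0 := pow_ne_zero n R.π_ne

theorem pow_dvd_unit_mul {u x : O} (hu : R.res u ≠ 0) (n : ℕ) :
    R.π ^ n ∣ u * x ↔ R.π ^ n ∣ x :=
  (R.unit u hu).dvd_mul_left

theorem pow_dvd_mul_unit {u x : O} (hu : R.res u ≠ 0) (n : ℕ) :
    R.π ^ n ∣ x * u ↔ R.π ^ n ∣ x :=
  (R.unit u hu).dvd_mul_right

theorem pow_add_dvd {a w : ℕ} {x : O} : R.π ^ (a + w) ∣ R.π ^ a * x ↔ R.π ^ w ∣ x := by
  rw [pow_add]
  exact mul_dvd_mul_iff_left (pow_ne R a)

theorem le_of_pow_dvd {w s : ℕ} {u : O} (hu : R.res u ≠ 0) (h : R.π ^ w ∣ R.π ^ s * u) :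
    w ≤ s := by
  by_contra hcon
  push Not at hcon
  obtain ⟨d, rfl⟩ : ∃ d, w = s + (d + 1) := ⟨w - s - 1, by omega⟩
  rw [pow_add_dvd] at h
  have h1 : R.π ∣ u := dvd_trans (dvd_pow_self _ (by omega)) h
  exact hu ((R.ker u).mpr h1)

theorem pow_dvd_of_le {w s : ℕ} (h : w ≤ s) (x : O) : R.π ^ w ∣ R.π ^ s * x :=
  (pow_dvd_pow _ h).mul_right _

theorem res_eq_of_dvd {n : ℕ} (hn : 1 ≤ n) {x y : O} (h : R.π ^ n ∣ x - y) :
    R.res x = R.res y := by
  have h1 : R.π ∣ x - y := dvd_trans (dvd_pow_self _ (by omega)) h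
  have h2 := (R.ker _).mpr h1
  rw [map_sub, sub_eq_zero] at h2
  exact h2

/-! ### Representatives -/

variable [Fintype k]

open Classical in
/-- representatives of the residue field -/
noncomputable def T : Finset O := (univ : Finset k).image (Function.surjInv R.surj)

open Classical in
/-- representatives modulo `π ^ n` -/
noncomputable def Rep : ℕ → Finset O
  | 0 => {0}
  | n + 1 => (Rep n ×ˢ T R).image fun p => p.1 + R.π ^ n * p.2

theorem exists_T (x : O) : ∃ t ∈ T R, R.π ∣ x - t := by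
  classical
  refine ⟨Function.surjInv R.surj (R.res x), ?_, ?_⟩
  · unfold T
    exact mem_image_of_mem _ (mem_univ _)
  · rw [← R.ker, map_sub, Function.surjInv_eq R.surj, sub_self]

theorem T_unique {t t' : O} (ht : t ∈ T R) (ht' : t' ∈ T R) (h : R.π ∣ t - t') : t = t' := by
  classical
  unfold T at ht ht'
  obtain ⟨c, _, rfl⟩ := mem_image.mp ht
  obtain ⟨c', _, rfl⟩ := mem_image.mp ht'
  rw [← R.ker, map_sub, Function.surjInv_eq R.surj, Function.surjInv_eq R.surj, sub_eq_zero] at h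
  rw [h]

theorem card_T : (T R).card = Fintype.card k := by
  classical
  unfold T
  rw [card_image_of_injective _ (Function.injective_surjInv R.surj)]
  rfl

theorem exists_rep (n : ℕ) (x : O) : ∃ r ∈ Rep R n, R.π ^ n ∣ x - r := by
  classical
  induction n with
  | zero => exact ⟨0, by simp [Rep], by simp⟩
  | succ n ih =>
    obtain ⟨r, hr, y, hy⟩ := ih
    obtain ⟨t, ht, z, hz⟩ := exists_T R y
    refine ⟨r + R.π ^ n * t, ?_, z, ?_⟩
    · unfold Rep
      exact mem_image.mpr ⟨(r, t), mem_product.mpr ⟨hr, ht⟩, rfl⟩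
    · calc x - (r + R.π ^ n * t) = (x - r) - R.π ^ n * t := by ring
        _ = R.π ^ n * (y - t) := by rw [hy]; ring
        _ = R.π ^ (n + 1) * z := by rw [hz]; ring

theorem rep_pair_inj {n : ℕ} (hn : ∀ r ∈ Rep R n, ∀ r' ∈ Rep R n, R.π ^ n ∣ r - r' → r = r')
    {r r' t t' : O} (hr : r ∈ Rep R n) (hr' : r' ∈ Rep R n) (ht : t ∈ T R) (ht' : t' ∈ T R)
    (h : R.π ^ (n + 1) ∣ (r + R.π ^ n * t) - (r' + R.π ^ n * t')) : r = r' ∧ t = t' := by
  have h1 : R.π ^ n ∣ r - r' := by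
    have h2 : R.π ^ n ∣ (r + R.π ^ n * t) - (r' + R.π ^ n * t') :=
      dvd_trans (pow_dvd_pow _ (by omega)) h
    have h3 : r - r' = ((r + R.π ^ n * t) - (r' + R.π ^ n * t')) - R.π ^ n * (t - t') := by ring
    rw [h3]
    exact dvd_sub h2 (dvd_mul_right _ _)
  have h4 := hn r hr r' hr' h1
  subst h4
  refine ⟨rfl, T_unique R ht ht' ?_⟩
  have h5 : (r + R.π ^ n * t) - (r + R.π ^ n * t') = R.π ^ n * (t - t') := by ring
  rw [h5, pow_add_dvd, pow_one] at h
  exact h

theorem rep_unique {n : ℕ} : ∀ r ∈ Rep R n, ∀ r' ∈ Rep R n, R.π ^ n ∣ r - r' → r = r' := by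
  classical
  induction n with
  | zero =>
    intro r hr r' hr' _
    simp only [Rep, mem_singleton] at hr hr'
    rw [hr, hr']
  | succ n ih =>
    intro r hr r' hr' h
    unfold Rep at hr hr'
    obtain ⟨⟨u, t⟩, hut, rfl⟩ := mem_image.mp hr
    obtain ⟨⟨u', t'⟩, hut', rfl⟩ := mem_image.mp hr'
    rw [mem_product] at hut hut'
    obtain ⟨h1, h2⟩ := rep_pair_inj R ih hut.1 hut'.1 hut.2 hut'.2 h
    simp only at h1 h2
    rw [h1, h2]

open Classical in
theorem rep_succ (n : ℕ) :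
    Rep R (n + 1) = (Rep R n ×ˢ T R).image fun p => p.1 + R.π ^ n * p.2 := rfl

theorem sum_rep_succ {M : Type*} [AddCommMonoid M] (n : ℕ) (f : O → M) :
    ∑ z ∈ Rep R (n + 1), f z = ∑ u ∈ Rep R n, ∑ t ∈ T R, f (u + R.π ^ n * t) := by
  classical
  rw [rep_succ, sum_image, sum_product]
  rintro ⟨u, t⟩ hut ⟨u', t'⟩ hut' heq
  rw [mem_coe, mem_product] at hut hut'
  simp only at heq
  obtain ⟨h1, h2⟩ := rep_pair_inj R (rep_unique R) hut.1 hut'.1 hut.2 hut'.2
    (by rw [heq, sub_self]; exact dvd_zero _)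
  simp only at h1 h2
  rw [h1, h2]

theorem sum_rep_lift (f : O → ℤ) {j : ℕ} (hf : ∀ x y, R.π ^ j ∣ x - y → f x = f y) :
    ∀ {n : ℕ}, j ≤ n → ∑ z ∈ Rep R n, f z = (Fintype.card k : ℤ) ^ (n - j) * ∑ z ∈ Rep R j, f z := by
  intro n
  induction n with
  | zero =>
    intro h
    have : j = 0 := by omega
    subst this
    simp
  | succ n ih =>
    intro h
    rcases Nat.lt_or_ge n j with h1 | h1
    · have : j = n + 1 := by omega
      subst this
      simp
    · rw [sum_rep_succ]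
      have h2 : ∀ u ∈ Rep R n, ∑ t ∈ T R, f (u + R.π ^ n * t) = (Fintype.card k : ℤ) * f u := by
        intro u _
        rw [sum_congr rfl (fun t _ => hf _ u ?_), sum_const, card_T, nsmul_eq_mul]
        have : u + R.π ^ n * t - u = R.π ^ n * t := by ring
        rw [this]
        exact pow_dvd_of_le R h1 t
      rw [sum_congr rfl h2, ← mul_sum, ih h1, ← mul_assoc, ← pow_succ',
        show n + 1 - j = n - j + 1 by omega]

theorem card_rep (n : ℕ) : ((Rep R n).card : ℤ) = (Fintype.card k : ℤ) ^ n := by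
  have h := sum_rep_lift R (fun _ => 1) (j := 0) (fun _ _ _ => rfl) (Nat.zero_le n)
  have h0 : ∑ z ∈ Rep R 0, (1 : ℤ) = 1 := by simp [Rep]
  rw [h0] at h
  simpa using h

/-- an invariant sum may be computed with one representative -/
theorem sum_rep_unique {n : ℕ} {P : O → Prop} [DecidablePred P] {x : O}
    (hP : ∀ z, P z ↔ R.π ^ n ∣ z - x) : ∑ z ∈ Rep R n, (if P z then (1 : ℤ) else 0) = 1 := by
  classical
  obtain ⟨r, hr, hrx⟩ := exists_rep R n x
  rw [sum_eq_single_of_mem r hr]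
  · rw [if_pos]
    rw [hP, ← neg_sub]
    exact (dvd_neg).mpr hrx
  · intro z hz hne
    rw [if_neg]
    rw [hP]
    intro hzx
    apply hne
    refine rep_unique R z hz r hr ?_
    have : z - r = (z - x) + (x - r) := by ring
    rw [this]
    exact dvd_add hzx hrx

end Pool.Agent.Lib.H70.Top.K
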