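import Pool.Agent.Lib.H70.Top.JTorus
import Pool.Agent.Lib.H70.Top.KRep

/-!
# Chunk J, part 3: finiteness and the Teichmueller torus
-/

namespace Pool.Agent.Lib.H70.Top.J

open Finset
open scoped BigOperators

/-- finitely many submodules of given index -/
theorem finite_submodules {O k : Type*} [CommRing O] [IsDomain O] [Field k] [Fintype k]
    (R : HDVR O k) {d m j : ℕ} (hm : (m : O) ∣ R.π ^ j) (hm0 : m ≠ 0) :
    Finite {U : Submodule O (Fin d → O) // U.toAddSubgroup.index = m} := by
  classical
  -- every such `U` contains `π^j O^d`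
  have hU : ∀ U : Submodule O (Fin d → O), U.toAddSubgroup.index = m →
      ∀ v : Fin d → O, R.π ^ j • v ∈ U := by
    intro U hidx v
    obtain ⟨c, hc⟩ := hm
    have hfin : Finite ((Fin d → O) ⧸ U.toAddSubgroup) :=
      AddSubgroup.index_ne_zero_iff_finite.mp (by rw [hidx]; exact hm0)
    have h1 : m • (QuotientAddGroup.mk (c • v) : (Fin d → O) ⧸ U.toAddSubgroup) = 0 := by
      rw [← hidx, AddSubgroup.index_eq_card]
      exact card_nsmul_eq_zero'
    have h2 : m • (c • v) ∈ U := by
      rw [← QuotientAddGroup.mk_nsmul, QuotientAddGroup.eq_zero_iff] at h1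
      exact h1
    have h3 : R.π ^ j • v = m • (c • v) := by
      rw [hc, mul_smul, Nat.cast_smul_eq_nsmul]
    rw [h3]
    exact h2
  let F : {U : Submodule O (Fin d → O) // U.toAddSubgroup.index = m} →
      Set (Fin d → K.Rep R j) := fun U => {r | (fun i => (r i : O)) ∈ U.1}
  refine Finite.of_injective F ?_
  have key : ∀ U U' : {U : Submodule O (Fin d → O) // U.toAddSubgroup.index = m},
      F U = F U' → U.1 ≤ U'.1 := by
    intro U U' h v hv
    choose r hr hrd using fun i => K.exists_rep R j (v i)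
    choose y hy using hrd
    have h1 : v = (fun i => r i) + R.π ^ j • y := by
      funext i
      simp only [Pi.add_apply, Pi.smul_apply, smul_eq_mul]
      rw [← hy i]; ring
    have h2 : (fun i => r i) ∈ U.1 := by
      have : (fun i => r i) = v - R.π ^ j • y := by rw [h1]; abel
      rw [this]
      exact U.1.sub_mem hv (hU U.1 U.2 y)
    have h3 : (fun i => (⟨r i, hr i⟩ : K.Rep R j)) ∈ F U := h2
    rw [h] at h3
    have h4 : (fun i => r i) ∈ U'.1 := h3
    rw [h1]
    exact U'.1.add_mem h4 (hU U'.1 U'.2 y)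
  intro U U' h
  exact Subtype.ext (le_antisymm (key U U' h) (key U' U h.symm))

/-- Teichmueller lifts of units -/
noncomputable def tau (p f : ℕ) [Fact p.Prime] : (GaloisField p f)ˣ →* (OO p f)ˣ :=
  Units.map (WittVector.teichmuller p)

theorem tau_sub_one (p f : ℕ) [Fact p.Prime] (g : (GaloisField p f)ˣ) (hg : g ≠ 1) :
    IsUnit (((tau p f g : (OO p f)ˣ) : OO p f) - 1) := by
  apply WittVector.isUnit_of_coeff_zero_ne_zero
  have h1 : ((((tau p f g : (OO p f)ˣ) : OO p f) - 1)).coeff 0
      = WittVector.constantCoeff (((tau p f g : (OO p f)ˣ) : OO p f) - 1) := rfl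
  rw [h1, map_sub, map_one]
  have h2 : WittVector.constantCoeff ((tau p f g : (OO p f)ˣ) : OO p f) = (g : GaloisField p f) := by
    change (WittVector.teichmuller p (g : GaloisField p f)).coeff 0 = _
    exact WittVector.teichmuller_coeff_zero p _
  rw [h2]
  intro h
  apply hg
  exact Units.ext (sub_eq_zero.mp h)

theorem torus_of_HDVR (p f : ℕ) [Fact p.Prime] (hf : 1 ≤ f)
    (R : HDVR (OO p f) (GaloisField p f)) (hR : R.π = (p : OO p f)) (n : ℕ) :
    ((p ^ f : ℕ) - 1 : ℤ) ∣ (subCount cA (OO p f) (p ^ (f * n)) : ℤ) -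
      gradedCount (OO p f) (p ^ (f * n)) := by
  have hfk : Finite (GaloisField p f) := inferInstance
  have := Fintype.ofFinite (GaloisField p f)
  have hp : 0 < p := (Fact.out : p.Prime).pos
  have hfin : Finite {U : Submodule (OO p f) (Fin 10 → OO p f) //
      U.toAddSubgroup.index = p ^ (f * n)} := by
    refine finite_submodules R (j := f * n) ?_ (pow_pos hp _).ne'
    rw [hR]
    push_cast
    exact dvd_rfl
  have h1 := torus_general (tau p f) (tau_sub_one p f) (p ^ (f * n)) hfin
  have h2 : Nat.card (GaloisField p f)ˣ = p ^ f - 1 := by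
    rw [Nat.card_units, GaloisField.card p f (by omega)]
  rw [h2] at h1
  have h3 : ((p ^ f - 1 : ℕ) : ℤ) = ((p ^ f : ℕ) - 1 : ℤ) := by
    have : 1 ≤ p ^ f := Nat.one_le_pow _ _ hp
    push_cast [Nat.cast_sub this]
    ring
  rwa [h3] at h1

end Pool.Agent.Lib.H70.Top.J
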