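import Pool.Agent.Lib.H70.Top.KSum

/-!
# Chunk K, part 5: the bijection
-/

namespace Pool.Agent.Lib.H70.Top.K

open Finset
open scoped BigOperators

variable {O k : Type*} [CommRing O] [IsDomain O] [Field k] (R : HDVR O k) [Fintype k]

/-- the closedness condition -/
def Cond (t : ℕ × ℕ × (Fin 4 → ℕ) × (Fin 4 → ℕ)) (h : Fin 2 → O) (i : Fin 4)
    (m : Fin 2 → O) : Prop :=
  t.2.2.2 i ≤ t.1 + t.2.1 ∧ R.π ^ (t.2.2.2 i) ∣ R.π ^ t.1 * Q i h m

open Classical in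
/-- the set of parameters -/
noncomputable def SS (n : ℕ) :
    Finset (Σ _ : ℕ × ℕ × (Fin 4 → ℕ) × (Fin 4 → ℕ), (Fin 2 → O) × (Fin 4 → Fin 2 → O)) :=
  (boxes n).sigma fun t =>
    ((PV R t.2.1) ×ˢ Fintype.piFinset (fun i => PV R (t.2.2.2 i))).filter
      (fun p => ∀ i, Cond R t p.1 i (p.2 i))

theorem mem_boxes {n : ℕ} {t : ℕ × ℕ × (Fin 4 → ℕ) × (Fin 4 → ℕ)} :
    t ∈ boxes n ↔ 2 * t.1 + t.2.1 + ∑ i, (2 * t.2.2.1 i + t.2.2.2 i) = n := by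
  unfold boxes
  rw [mem_filter, and_iff_right_iff_imp]
  intro h
  have hi : ∀ i, 2 * t.2.2.1 i + t.2.2.2 i ≤ n := by
    intro i
    have := single_le_sum (f := fun i => 2 * t.2.2.1 i + t.2.2.2 i) (s := univ)
      (fun _ _ => Nat.zero_le _) (mem_univ i)
    have h2 : 2 * t.2.2.1 i + t.2.2.2 i ≤ ∑ i, (2 * t.2.2.1 i + t.2.2.2 i) := this
    omega
  simp only [mem_product, mem_range, Fintype.mem_piFinset]
  refine ⟨by omega, by omega, fun i => ?_, fun i => ?_⟩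
  · have := hi i; omega
  · have := hi i; omega

theorem mem_SS {n : ℕ}
    {s : Σ _ : ℕ × ℕ × (Fin 4 → ℕ) × (Fin 4 → ℕ), (Fin 2 → O) × (Fin 4 → Fin 2 → O)} :
    s ∈ SS R n ↔ s.1 ∈ boxes n ∧ s.2.1 ∈ PV R s.1.2.1 ∧ (∀ i, s.2.2 i ∈ PV R (s.1.2.2.2 i)) ∧
      ∀ i, Cond R s.1 s.2.1 i (s.2.2 i) := by
  classical
  unfold SS
  rw [mem_sigma, mem_filter, mem_product, Fintype.mem_piFinset]
  tauto

open Classical in
theorem card_SS (n : ℕ) : ((SS R n).card : ℤ) = ∑ t ∈ boxes n, ∑ h ∈ PV R t.2.1,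
      ∏ i, ∑ m ∈ PV R (t.2.2.2 i), (if Cond R t h i m then (1 : ℤ) else 0) := by
  unfold SS
  rw [card_sigma]
  push_cast
  refine sum_congr rfl (fun t _ => ?_)
  rw [card_filter]
  push_cast
  rw [sum_product]
  refine sum_congr rfl (fun h _ => ?_)
  rw [prod_univ_sum]
  refine sum_congr rfl (fun m _ => ?_)
  rw [prod_boole]
  simp

theorem one_lt_card : 1 < Fintype.card k := Fintype.one_lt_card

/-- the parametrisation map -/
def toT (s : Σ _ : ℕ × ℕ × (Fin 4 → ℕ) × (Fin 4 → ℕ), (Fin 2 → O) × (Fin 4 → Fin 2 → O)) :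
    Submodule O (Fin 2 → O) × (Fin 4 → Submodule O (Fin 2 → O)) :=
  (SL R s.1.1 s.1.2.1 s.2.1, fun i => SL R (s.1.2.2.1 i) (s.1.2.2.2 i) (s.2.2 i))

theorem toT_mem {n : ℕ}
    {s : Σ _ : ℕ × ℕ × (Fin 4 → ℕ) × (Fin 4 → ℕ), (Fin 2 → O) × (Fin 4 → Fin 2 → O)}
    (hs : s ∈ SS R n) :
    GrClosed (toT R s).1 (toT R s).2 ∧
      (toT R s).1.toAddSubgroup.index * ∏ i, ((toT R s).2 i).toAddSubgroup.index
        = Fintype.card k ^ n := by
  rw [mem_SS] at hs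
  obtain ⟨h1, h2, h3, h4⟩ := hs
  refine ⟨fun i => ?_, ?_⟩
  · exact (closed_iff R i (prim_of_mem_PV R h2) (prim_of_mem_PV R (h3 i))).mpr (h4 i)
  · simp only [toT]
    rw [index_SL R (prim_of_mem_PV R h2)]
    rw [prod_congr rfl (fun i _ => index_SL R (prim_of_mem_PV R (h3 i)))]
    rw [prod_pow_eq_pow_sum, ← pow_add, mem_boxes.mp h1]

theorem toT_inj {n : ℕ}
    {s s' : Σ _ : ℕ × ℕ × (Fin 4 → ℕ) × (Fin 4 → ℕ), (Fin 2 → O) × (Fin 4 → Fin 2 → O)}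
    (hs : s ∈ SS R n) (hs' : s' ∈ SS R n) (h : toT R s = toT R s') : s = s' := by
  obtain ⟨⟨x, N, a, w⟩, ⟨v, m⟩⟩ := s
  obtain ⟨⟨x', N', a', w'⟩, ⟨v', m'⟩⟩ := s'
  rw [mem_SS] at hs hs'
  obtain ⟨-, h2, h3, -⟩ := hs
  obtain ⟨-, h2', h3', -⟩ := hs'
  simp only at h2 h3 h2' h3'
  simp only [toT, Prod.mk.injEq] at h
  obtain ⟨hH, hU⟩ := h
  obtain ⟨rfl, rfl, hd⟩ := SL_inj R (prim_of_mem_PV R h2) (prim_of_mem_PV R h2') hH
  have hv := PV_unique R h2 h2' hd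
  have hi : ∀ i, a i = a' i ∧ w i = w' i ∧ R.π ^ w i ∣ dt (m i) (m' i) := fun i =>
    SL_inj R (prim_of_mem_PV R (h3 i)) (prim_of_mem_PV R (h3' i)) (congrFun hU i)
  have ha : a = a' := funext fun i => (hi i).1
  have hw : w = w' := funext fun i => (hi i).2.1
  subst ha hw
  have hm : m = m' := funext fun i => PV_unique R (h3 i) (h3' i) (hi i).2.2
  subst hm hv
  rfl

theorem toT_surj {n : ℕ} {T : Submodule O (Fin 2 → O) × (Fin 4 → Submodule O (Fin 2 → O))}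
    (hT : GrClosed T.1 T.2 ∧ T.1.toAddSubgroup.index * ∏ i, (T.2 i).toAddSubgroup.index
        = Fintype.card k ^ n) : ∃ s ∈ SS R n, toT R s = T := by
  obtain ⟨UH, U⟩ := T
  obtain ⟨hcl, hidx⟩ := hT
  simp only at hcl hidx
  have hq : Fintype.card k ^ n ≠ 0 := pow_ne_zero _ Fintype.card_ne_zero
  have hne : UH.toAddSubgroup.index ≠ 0 ∧ ∏ i, (U i).toAddSubgroup.index ≠ 0 := by
    rw [← hidx] at hq
    exact mul_ne_zero_iff.mp hq
  obtain ⟨x, N, h, hh, rfl⟩ := exists_SL R hne.1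
  have hi : ∀ i, ∃ a w m, m ∈ PV R w ∧ U i = SL R a w m := fun i =>
    exists_SL R (prod_ne_zero_iff.mp hne.2 i (mem_univ i))
  choose a w m hm hU using hi
  have hU' : U = fun i => SL R (a i) (w i) (m i) := funext hU
  subst hU'
  refine ⟨⟨(x, N, a, w), (h, m)⟩, ?_, rfl⟩
  rw [mem_SS]
  refine ⟨?_, hh, hm, fun i => ?_⟩
  · rw [mem_boxes]
    simp only
    rw [index_SL R (prim_of_mem_PV R hh),
      prod_congr rfl (fun i _ => index_SL R (prim_of_mem_PV R (hm i))),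
      prod_pow_eq_pow_sum, ← pow_add] at hidx
    exact Nat.pow_right_injective (one_lt_card (k := k)) hidx
  · exact (closed_iff R i (prim_of_mem_PV R hh) (prim_of_mem_PV R (hm i))).mp (hcl i)

open Classical in
theorem gradedCount_sum (n : ℕ) :
    (gradedCount O (Fintype.card k ^ n) : ℤ) = ∑ t ∈ boxes n, ∑ h ∈ PV R t.2.1,
      ∏ i, ∑ m ∈ PV R (t.2.2.2 i), (if Cond R t h i m then (1 : ℤ) else 0) := by
  rw [← card_SS]
  have h2 : (SS R n).card = Nat.card (SS R n) := by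
    rw [Nat.card_eq_fintype_card, Fintype.card_coe]
  have h1 : Nat.card (SS R n) = gradedCount O (Fintype.card k ^ n) := by
    unfold gradedCount
    refine Nat.card_eq_of_bijective (fun s : SS R n => ⟨toT R s.1, toT_mem R s.2⟩) ⟨?_, ?_⟩
    · rintro ⟨s, hs⟩ ⟨s', hs'⟩ h
      simp only [Subtype.mk.injEq] at h
      exact Subtype.ext (toT_inj R hs hs' h)
    · rintro ⟨T, hT⟩
      obtain ⟨s, hs, hsT⟩ := toT_surj R hT
      exact ⟨⟨s, hs⟩, Subtype.ext hsT⟩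
  rw [h2, h1]

end Pool.Agent.Lib.H70.Top.K
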