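import Pool.Agent.Lib.H70.Top.KBij

/-!
# Chunk K, part 6: counting solutions of the quadratic congruences
-/

namespace Pool.Agent.Lib.H70.Top.K

open Finset
open scoped BigOperators

variable {O k : Type*} [CommRing O] [IsDomain O] [Field k] (R : HDVR O k) [Fintype k]
  [DecidableEq k]

open Classical in
/-- number of normalised `m` modulo `π^j` with `π^j ∣ α m_1^2 - β m_0^2` -/
noncomputable def rr (α β : O) (j : ℕ) : ℤ :=
  ∑ z ∈ Rep R j, (if R.π ^ j ∣ α - β * z ^ 2 then (1 : ℤ) else 0)
    + ∑ z ∈ Rep R j, (if R.π ∣ z then (if R.π ^ j ∣ α * z ^ 2 - β then (1 : ℤ) else 0) else 0)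

open Classical in
/-- sum over one residue class -/
theorem sum_rep_res {N : ℕ} (hN : 1 ≤ N) (c : k) :
    ∑ t ∈ Rep R N, (if R.res t = c then (1 : ℤ) else 0) = (Fintype.card k : ℤ) ^ (N - 1) := by
  have h1 := sum_rep_lift R (fun t => if R.res t = c then (1 : ℤ) else 0) (j := 1) (by
    intro x y h
    simp only [res_eq_of_dvd R le_rfl h]) hN
  rw [h1]
  obtain ⟨x, hx⟩ := R.surj c
  rw [sum_rep_unique R (n := 1) (x := x), mul_one]
  intro z
  rw [pow_one, ← R.ker, map_sub, sub_eq_zero, hx]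

open Classical in
theorem sum_rep_dvd {j : ℕ} (hj : 1 ≤ j) :
    ∑ z ∈ Rep R j, (if R.π ∣ z then (1 : ℤ) else 0) = (Fintype.card k : ℤ) ^ (j - 1) := by
  rw [← sum_rep_res R hj (0 : k)]
  refine sum_congr rfl (fun z _ => ?_)
  have : R.π ∣ z ↔ R.res z = 0 := (R.ker z).symm
  by_cases h : R.res z = 0
  · rw [if_pos (this.mpr h), if_pos h]
  · rw [if_neg (fun hh => h (this.mp hh)), if_neg h]

theorem card_PV (n : ℕ) : ((PV R n).card : ℤ) = (PP (Fintype.card k) n : ℤ) := by
  classical
  rw [card_eq_sum_ones]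
  push_cast
  rcases Nat.eq_zero_or_pos n with rfl | hn
  · rw [sum_PV_zero]; simp [PP]
  · rw [sum_PV_pos R hn, sum_rep_dvd R hn]
    have h1 : ∑ z ∈ Rep R n, (1 : ℤ) = (Fintype.card k : ℤ) ^ n := by
      rw [← card_rep R n]; simp
    rw [h1]
    unfold PP
    rw [if_neg (by omega)]
    push_cast
    obtain ⟨d, rfl⟩ : ∃ d, n = d + 1 := ⟨n - 1, by omega⟩
    rw [Nat.add_sub_cancel, pow_succ]
    ring

omit [Fintype k] [DecidableEq k] in
/-- Hensel for `β z^2 = α` -/
theorem hensel_sq (h2 : (2 : k) ≠ 0) {α β : O} (hα : R.res α ≠ 0) {c : k}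
    (hc : R.res α = R.res β * c ^ 2) : ∃ ζ : O, β * ζ ^ 2 = α ∧ R.res ζ = c := by
  obtain ⟨z₀, hz₀⟩ := R.surj c
  have hβ : R.res β ≠ 0 := by
    intro h; rw [h, zero_mul] at hc; exact hα hc
  have hc0 : c ≠ 0 := by
    intro h; rw [h] at hc; simp at hc; exact hα hc
  obtain ⟨b, hb1, hb2⟩ := R.hensel (Polynomial.C β * Polynomial.X ^ 2 - Polynomial.C α) z₀ (by
    simp only [Polynomial.eval_sub, Polynomial.eval_mul, Polynomial.eval_C, Polynomial.eval_pow,
      Polynomial.eval_X, map_sub, map_mul, map_pow, hz₀]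
    rw [hc, sub_self]) (by
    simp only [Polynomial.derivative_sub, Polynomial.derivative_mul, Polynomial.derivative_C,
      Polynomial.derivative_X_pow, zero_mul, zero_add, sub_zero, Polynomial.eval_mul,
      Polynomial.eval_C, Polynomial.eval_pow, Polynomial.eval_X, map_mul, map_pow, hz₀]
    simp only [Nat.add_one_sub_one, pow_one, Nat.cast_ofNat]
    have h3 : R.res 2 = 2 := by
      rw [show (2 : O) = ((2 : ℕ) : O) by norm_num, map_natCast]; norm_num
    rw [h3]
    exact mul_ne_zero hβ (mul_ne_zero h2 hc0))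
  refine ⟨b, ?_, by rw [hb2, hz₀]⟩
  simp only [Polynomial.eval_sub, Polynomial.eval_mul, Polynomial.eval_C, Polynomial.eval_pow,
      Polynomial.eval_X] at hb1
  exact sub_eq_zero.mp hb1

theorem card_sqrt (h2 : (2 : k) ≠ 0) {a b : k} (ha : a ≠ 0) (hb : b ≠ 0) :
    ∑ c : k, (if a = b * c ^ 2 then (1 : ℤ) else 0) = 1 + quadraticChar k (a * b) := by
  have hF : ringChar k ≠ 2 := by
    intro h
    have := ringChar.Nat.cast_ringChar (R := k)
    rw [h] at this
    exact h2 (by exact_mod_cast this)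
  have h1 := quadraticChar_card_sqrts hF (a / b)
  have h3 : quadraticChar k (a / b) = quadraticChar k (a * b) := by
    have : a * b = (a / b) * b ^ 2 := by field_simp
    rw [this, map_mul, quadraticChar_sq_one' hb, mul_one]
  rw [← h3, add_comm 1, ← h1, sum_boole]
  congr 1
  congr 1
  ext c
  simp only [mem_filter, mem_univ, true_and, Set.mem_toFinset, Set.mem_ofPred_eq]
  rw [eq_div_iff hb]
  constructor
  · intro h; rw [h]; ring
  · intro h; rw [← h]; ring

open Classical in
/-- both coefficients are units -/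
theorem rr_unit (h2 : (2 : k) ≠ 0) {α β : O} (hα : R.res α ≠ 0) (hβ : R.res β ≠ 0) {j : ℕ}
    (hj : 1 ≤ j) : rr R α β j = 1 + quadraticChar k (R.res α * R.res β) := by
  unfold rr
  have hsec : ∑ z ∈ Rep R j, (if R.π ∣ z then
      (if R.π ^ j ∣ α * z ^ 2 - β then (1 : ℤ) else 0) else 0) = 0 := by
    refine sum_eq_zero (fun z _ => ?_)
    by_cases hz : R.π ∣ z
    · rw [if_pos hz, if_neg]
      intro h
      have h1 := res_eq_of_dvd R hj h
      rw [map_mul, map_pow, (R.ker z).mpr hz] at h1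
      simp only [ne_eq, OfNat.ofNat_ne_zero, not_false_eq_true, zero_pow, mul_zero] at h1
      exact hβ h1.symm
    · rw [if_neg hz]
  rw [hsec, add_zero, ← card_sqrt h2 hα hβ]
  -- group by residue
  have hgroup : ∀ z ∈ Rep R j, (if R.π ^ j ∣ α - β * z ^ 2 then (1 : ℤ) else 0)
      = ∑ c : k, (if R.res z = c then
        (if R.π ^ j ∣ α - β * z ^ 2 then (1 : ℤ) else 0) else 0) := by
    intro z _
    rw [sum_ite_eq]
    simp
  rw [sum_congr rfl hgroup, sum_comm]
  refine sum_congr rfl (fun c _ => ?_)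
  by_cases hc : R.res α = R.res β * c ^ 2
  · rw [if_pos hc]
    obtain ⟨ζ, hζ1, hζ2⟩ := hensel_sq R h2 hα hc
    have hc0 : c ≠ 0 := by
      intro h; rw [h] at hc; simp at hc; exact hα hc
    have key : ∀ z, (if R.res z = c then
        (if R.π ^ j ∣ α - β * z ^ 2 then (1 : ℤ) else 0) else 0)
        = if R.π ^ j ∣ z - ζ then (1 : ℤ) else 0 := by
      intro z
      by_cases hz : R.res z = c
      · rw [if_pos hz]
        have h3 : α - β * z ^ 2 = (-(β * (z + ζ))) * (z - ζ) := by rw [← hζ1]; ring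
        have h4 : R.res (-(β * (z + ζ))) ≠ 0 := by
          rw [map_neg, map_mul, map_add, hz, hζ2]
          refine neg_ne_zero.mpr (mul_ne_zero hβ ?_)
          rw [← two_mul]
          exact mul_ne_zero h2 hc0
        have h5 : R.π ^ j ∣ α - β * z ^ 2 ↔ R.π ^ j ∣ z - ζ := by
          rw [h3, pow_dvd_unit_mul R h4]
        by_cases h6 : R.π ^ j ∣ z - ζ
        · rw [if_pos (h5.mpr h6), if_pos h6]
        · rw [if_neg (fun h => h6 (h5.mp h)), if_neg h6]
      · rw [if_neg hz, if_neg]
        intro h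
        apply hz
        rw [res_eq_of_dvd R hj h, hζ2]
    rw [sum_congr rfl (fun z _ => key z)]
    exact sum_rep_unique R (fun z => Iff.rfl)
  · rw [if_neg hc]
    refine sum_eq_zero (fun z _ => ?_)
    by_cases hz : R.res z = c
    · rw [if_pos hz, if_neg]
      intro h
      apply hc
      have h1 := res_eq_of_dvd R hj h
      rw [map_mul, map_pow, hz] at h1
      exact h1
    · rw [if_neg hz]

open Classical in
/-- the key count at a branch point -/
theorem branch_count {a b : O} {j N : ℕ} (hj : 1 ≤ j) (hjN : j ≤ N) (F : O → O → O)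
    (hF0 : ∀ t z, R.π ∣ z → F t z = (t * (1 - z ^ 2) - (a - b * z ^ 2)) ∨
      F t z = -(t * (1 - z ^ 2) - (a - b * z ^ 2))) :
    ∑ t ∈ Rep R N, (if R.res t = R.res a then
      ∑ z ∈ Rep R j, (if R.π ∣ z then (if R.π ^ j ∣ F t z then (1 : ℤ) else 0) else 0) else 0)
      = (Fintype.card k : ℤ) ^ (N - 1) := by
  have h1 : ∀ t ∈ Rep R N, (if R.res t = R.res a then
      ∑ z ∈ Rep R j, (if R.π ∣ z then (if R.π ^ j ∣ F t z then (1 : ℤ) else 0) else 0) else 0)
      = ∑ z ∈ Rep R j, (if R.res t = R.res a then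
        (if R.π ∣ z then (if R.π ^ j ∣ F t z then (1 : ℤ) else 0) else 0) else 0) := by
    intro t _
    by_cases h : R.res t = R.res a
    · simp only [if_pos h]
    · simp only [if_neg h, sum_const_zero]
  rw [sum_congr rfl h1, sum_comm]
  have h2 : ∀ z ∈ Rep R j, ∑ t ∈ Rep R N, (if R.res t = R.res a then
        (if R.π ∣ z then (if R.π ^ j ∣ F t z then (1 : ℤ) else 0) else 0) else 0)
      = (if R.π ∣ z then (1 : ℤ) else 0) * (Fintype.card k : ℤ) ^ (N - j) := by
    intro z _
    by_cases hz : R.π ∣ z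
    · rw [if_pos hz, one_mul]
      have hz0 : R.res z = 0 := (R.ker z).mpr hz
      have hu : R.res (1 - z ^ 2) ≠ 0 := by
        rw [map_sub, map_one, map_pow, hz0]
        simp
      obtain ⟨u, hu'⟩ := R.unit _ hu
      have hinv : (↑u : O) * ↑u⁻¹ = 1 := u.mul_inv
      set x₀ : O := ↑u⁻¹ * (a - b * z ^ 2) with hx₀
      have hres : R.res x₀ = R.res a := by
        have h3 : R.res (↑u : O) = 1 := by
          rw [hu', map_sub, map_one, map_pow, hz0]; simp
        have h4 := congrArg R.res hinv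
        rw [map_mul, h3, one_mul, map_one] at h4
        rw [hx₀, map_mul, h4, one_mul, map_sub, map_mul, map_pow, hz0]
        simp
      have key : ∀ t, (if R.res t = R.res a then
        (if R.π ∣ z then (if R.π ^ j ∣ F t z then (1 : ℤ) else 0) else 0) else 0)
          = if R.π ^ j ∣ t - x₀ then (1 : ℤ) else 0 := by
        intro t
        rw [if_pos hz]
        have h3 : t * (1 - z ^ 2) - (a - b * z ^ 2) = (1 - z ^ 2) * (t - x₀) := by
          rw [hx₀, ← hu']
          linear_combination (- (a - b * z ^ 2)) * (- hinv)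
        have h5 : R.π ^ j ∣ F t z ↔ R.π ^ j ∣ t - x₀ := by
          rcases hF0 t z hz with h | h
          · rw [h, h3, pow_dvd_unit_mul R hu]
          · rw [h, dvd_neg, h3, pow_dvd_unit_mul R hu]
        by_cases h6 : R.π ^ j ∣ t - x₀
        · rw [if_pos (by rw [res_eq_of_dvd R hj h6, hres]), if_pos (h5.mpr h6), if_pos h6]
        · rw [if_neg h6]
          by_cases h7 : R.res t = R.res a
          · rw [if_pos h7, if_neg (fun h => h6 (h5.mp h))]
          · rw [if_neg h7]
      rw [sum_congr rfl (fun t _ => key t)]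
      rw [sum_rep_lift R (fun t => if R.π ^ j ∣ t - x₀ then (1 : ℤ) else 0) (j := j) ?_ hjN,
        sum_rep_unique R (fun z => Iff.rfl), mul_one]
      intro x y hxy
      have h8 : R.π ^ j ∣ x - x₀ ↔ R.π ^ j ∣ y - x₀ := by
        have : x - x₀ = (x - y) + (y - x₀) := by ring
        rw [this]
        exact dvd_add_right hxy
      by_cases h9 : R.π ^ j ∣ y - x₀
      · rw [if_pos (h8.mpr h9), if_pos h9]
      · rw [if_neg (fun h => h9 (h8.mp h)), if_neg h9]
    · rw [if_neg hz, zero_mul]
      refine sum_eq_zero (fun t _ => ?_)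
      simp [hz]
  rw [sum_congr rfl h2, ← sum_mul, sum_rep_dvd R hj, ← pow_add]
  congr 1
  omega

open Classical in
theorem branch_a {a b : O} (hab : R.res a ≠ R.res b) {j N : ℕ} (hj : 1 ≤ j) (hjN : j ≤ N) :
    ∑ t ∈ Rep R N, (if R.res t = R.res a then rr R (t - a) (t - b) j else 0)
      = (Fintype.card k : ℤ) ^ (N - 1) := by
  rw [← branch_count R hj hjN (a := a) (b := b) (fun t z => (t - a) - (t - b) * z ^ 2)
    (fun t z _ => Or.inl (by ring))]
  refine sum_congr rfl (fun t _ => ?_)
  by_cases h : R.res t = R.res a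
  · rw [if_pos h, if_pos h]
    unfold rr
    have hβ : R.res (t - b) ≠ 0 := by
      rw [map_sub, h]; exact sub_ne_zero.mpr hab
    have hsec : ∑ z ∈ Rep R j, (if R.π ∣ z then
        (if R.π ^ j ∣ (t - a) * z ^ 2 - (t - b) then (1 : ℤ) else 0) else 0) = 0 := by
      refine sum_eq_zero (fun z _ => ?_)
      by_cases hz : R.π ∣ z
      · rw [if_pos hz, if_neg]
        intro h'
        have h1 := res_eq_of_dvd R hj h'
        rw [map_mul, map_pow, (R.ker z).mpr hz] at h1
        simp only [ne_eq, OfNat.ofNat_ne_zero, not_false_eq_true, zero_pow, mul_zero] at h1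
        exact hβ h1.symm
      · rw [if_neg hz]
    rw [hsec, add_zero]
    refine sum_congr rfl (fun z _ => ?_)
    by_cases hz : R.π ∣ z
    · rw [if_pos hz]
    · rw [if_neg hz, if_neg]
      intro h'
      have h1 := res_eq_of_dvd R hj h'
      rw [map_mul, map_pow, map_sub R.res t a, h, sub_self] at h1
      rcases mul_eq_zero.mp h1.symm with h2 | h2
      · exact hβ h2
      · exact (not_dvd_iff R).mp hz (pow_eq_zero_iff (by norm_num) |>.mp h2)
  · rw [if_neg h, if_neg h]

open Classical in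
theorem branch_b {a b : O} (hab : R.res a ≠ R.res b) {j N : ℕ} (hj : 1 ≤ j) (hjN : j ≤ N) :
    ∑ t ∈ Rep R N, (if R.res t = R.res b then rr R (t - a) (t - b) j else 0)
      = (Fintype.card k : ℤ) ^ (N - 1) := by
  rw [← branch_count R hj hjN (a := b) (b := a) (fun t z => (t - a) * z ^ 2 - (t - b))
    (fun t z _ => Or.inr (by ring))]
  refine sum_congr rfl (fun t _ => ?_)
  by_cases h : R.res t = R.res b
  · rw [if_pos h, if_pos h]
    unfold rr
    have hα : R.res (t - a) ≠ 0 := by
      rw [map_sub, h]; exact sub_ne_zero.mpr (Ne.symm hab)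
    have hβ : R.res (t - b) = 0 := by rw [map_sub, h, sub_self]
    have hfst : ∑ z ∈ Rep R j, (if R.π ^ j ∣ (t - a) - (t - b) * z ^ 2 then (1 : ℤ) else 0)
        = 0 := by
      refine sum_eq_zero (fun z _ => ?_)
      rw [if_neg]
      intro h'
      have h1 := res_eq_of_dvd R hj h'
      rw [map_mul, hβ, zero_mul] at h1
      exact hα h1
    rw [hfst, zero_add]
  · rw [if_neg h, if_neg h]

end Pool.Agent.Lib.H70.Top.K
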