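import Pool.Agent.Lib.H70.Top.KLat

/-!
# Chunk K, part 3: indices
-/

namespace Pool.Agent.Lib.H70.Top.K

open Finset
open scoped BigOperators

variable {O k : Type*} [CommRing O] [IsDomain O] [Field k] (R : HDVR O k) [Fintype k]

theorem card_quot (n : ℕ) :
    Nat.card (O ⧸ Ideal.span {R.π ^ n}) = Fintype.card k ^ n := by
  have h1 : Nat.card (Rep R n) = Fintype.card k ^ n := by
    rw [Nat.card_eq_fintype_card, Fintype.card_coe]
    exact_mod_cast card_rep R n
  rw [← h1]
  symm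
  refine Nat.card_eq_of_bijective
    (fun r : Rep R n => (Ideal.Quotient.mk (Ideal.span {R.π ^ n}) (r : O))) ⟨?_, ?_⟩
  · rintro ⟨r, hr⟩ ⟨r', hr'⟩ h
    simp only at h
    rw [Ideal.Quotient.eq, Ideal.mem_span_singleton] at h
    exact Subtype.ext (rep_unique R r hr r' hr' h)
  · intro y
    obtain ⟨x, rfl⟩ := Ideal.Quotient.mk_surjective y
    obtain ⟨r, hr, hrx⟩ := exists_rep R n x
    refine ⟨⟨r, hr⟩, ?_⟩
    simp only
    symm
    rw [Ideal.Quotient.eq, Ideal.mem_span_singleton]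
    exact hrx

/-- general index computation -/
theorem index_aux {a b : ℕ} (L : (Fin 2 → O) →+ O × O) (hL : Function.Surjective L)
    (U : Submodule O (Fin 2 → O))
    (hU : ∀ v, v ∈ U ↔ R.π ^ a ∣ (L v).1 ∧ R.π ^ b ∣ (L v).2) :
    U.toAddSubgroup.index = Fintype.card k ^ (a + b) := by
  let f : (Fin 2 → O) →+ (O ⧸ Ideal.span {R.π ^ a}) × (O ⧸ Ideal.span {R.π ^ b}) :=
    (AddMonoidHom.prodMap (Ideal.Quotient.mk (Ideal.span {R.π ^ a})).toAddMonoidHom
      (Ideal.Quotient.mk (Ideal.span {R.π ^ b})).toAddMonoidHom).comp L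
  have hf : Function.Surjective f := by
    rintro ⟨x, y⟩
    obtain ⟨x, rfl⟩ := Ideal.Quotient.mk_surjective x
    obtain ⟨y, rfl⟩ := Ideal.Quotient.mk_surjective y
    obtain ⟨v, hv⟩ := hL (x, y)
    refine ⟨v, ?_⟩
    change (Ideal.Quotient.mk _ (L v).1, Ideal.Quotient.mk _ (L v).2) = _
    rw [hv]
  have hker : U.toAddSubgroup = f.ker := by
    ext v
    rw [AddMonoidHom.mem_ker]
    change v ∈ U ↔ (Ideal.Quotient.mk _ (L v).1, Ideal.Quotient.mk _ (L v).2) = 0
    rw [hU, Prod.mk_eq_zero, Ideal.Quotient.eq_zero_iff_mem, Ideal.Quotient.eq_zero_iff_mem,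
      Ideal.mem_span_singleton, Ideal.mem_span_singleton]
  rw [hker, AddSubgroup.index_ker, AddMonoidHom.range_eq_top.mpr hf]
  have htop : Nat.card (⊤ : AddSubgroup ((O ⧸ Ideal.span {R.π ^ a}) × (O ⧸ Ideal.span {R.π ^ b})))
      = Nat.card ((O ⧸ Ideal.span {R.π ^ a}) × (O ⧸ Ideal.span {R.π ^ b})) :=
    Nat.card_congr AddSubgroup.topEquiv.toEquiv
  rw [htop, Nat.card_prod, card_quot, card_quot, pow_add]

theorem index_SL {a w : ℕ} {m : Fin 2 → O} (hm : Prim R m) :
    (SL R a w m).toAddSubgroup.index = Fintype.card k ^ (2 * a + w) := by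
  have e : 2 * a + w = (a + w) + a := by ring
  rw [e]
  rcases hm with hm | hm
  · let L : (Fin 2 → O) →+ O × O :=
      { toFun := fun v => (dt v m, v 0)
        map_zero' := by simp [dt]
        map_add' := by
          intro u v
          simp only [dt, Pi.add_apply, Prod.mk_add_mk]
          congr 1
          ring }
    refine index_aux R L ?_ _ ?_
    · rintro ⟨x, y⟩
      obtain ⟨u, hu⟩ := R.unit _ hm
      have hinv : (↑u : O) * ↑u⁻¹ = 1 := u.mul_inv
      refine ⟨![y, ↑u⁻¹ * (y * m 1 - x)], ?_⟩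
      change (dt ![y, ↑u⁻¹ * (y * m 1 - x)] m, y) = (x, y)
      congr 1
      simp only [dt, Matrix.cons_val_zero, Matrix.cons_val_one, Matrix.cons_val_fin_one]
      rw [← hu]
      linear_combination (x - y * m 1) * hinv
    · intro v
      rw [mem_SL]
      change _ ↔ R.π ^ (a + w) ∣ dt v m ∧ R.π ^ a ∣ v 0
      constructor
      · rintro ⟨h1, h2⟩
        exact ⟨h2, h1 0⟩
      · rintro ⟨h1, h2⟩
        refine ⟨fun j => ?_, h1⟩
        match j with
        | 0 => exact h2
        | 1 =>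
          rw [← pow_dvd_mul_unit R hm]
          have h3 : v 1 * m 0 = v 0 * m 1 - dt v m := by unfold dt; ring
          rw [h3]
          exact dvd_sub (h2.mul_right _) (dvd_trans (pow_dvd_pow _ (by omega)) h1)
  · let L : (Fin 2 → O) →+ O × O :=
      { toFun := fun v => (dt v m, v 1)
        map_zero' := by simp [dt]
        map_add' := by
          intro u v
          simp only [dt, Pi.add_apply, Prod.mk_add_mk]
          congr 1
          ring }
    refine index_aux R L ?_ _ ?_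
    · rintro ⟨x, y⟩
      obtain ⟨u, hu⟩ := R.unit _ hm
      have hinv : (↑u : O) * ↑u⁻¹ = 1 := u.mul_inv
      refine ⟨![↑u⁻¹ * (y * m 0 + x), y], ?_⟩
      change (dt ![↑u⁻¹ * (y * m 0 + x), y] m, y) = (x, y)
      congr 1
      simp only [dt, Matrix.cons_val_zero, Matrix.cons_val_one, Matrix.cons_val_fin_one]
      rw [← hu]
      linear_combination (x + y * m 0) * hinv
    · intro v
      rw [mem_SL]
      change _ ↔ R.π ^ (a + w) ∣ dt v m ∧ R.π ^ a ∣ v 1
      constructor
      · rintro ⟨h1, h2⟩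
        exact ⟨h2, h1 1⟩
      · rintro ⟨h1, h2⟩
        refine ⟨fun j => ?_, h1⟩
        match j with
        | 1 => exact h2
        | 0 =>
          rw [← pow_dvd_mul_unit R hm]
          have h3 : v 0 * m 1 = v 1 * m 0 + dt v m := by unfold dt; ring
          rw [h3]
          exact dvd_add (h2.mul_right _) (dvd_trans (pow_dvd_pow _ (by omega)) h1)

omit [Fintype k] in
theorem exists_pow_of_index {U : Submodule O (Fin 2 → O)} (hU : U.toAddSubgroup.index ≠ 0) :
    ∃ n, ∀ v : Fin 2 → O, R.π ^ n • v ∈ U := by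
  have hfin : Finite ((Fin 2 → O) ⧸ U.toAddSubgroup) :=
    AddSubgroup.index_ne_zero_iff_finite.mp hU
  have key : ∀ v : Fin 2 → O, ∃ n, R.π ^ n • v ∈ U := by
    intro v
    obtain ⟨i, j, hij, heq⟩ := Finite.exists_ne_map_eq_of_infinite
      (fun i : ℕ => (QuotientAddGroup.mk (R.π ^ i • v) : (Fin 2 → O) ⧸ U.toAddSubgroup))
    have main : ∀ i j : ℕ, i < j →
        (QuotientAddGroup.mk (R.π ^ i • v) : (Fin 2 → O) ⧸ U.toAddSubgroup)
          = QuotientAddGroup.mk (R.π ^ j • v) → R.π ^ i • v ∈ U := by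
      intro i j hij heq
      rw [QuotientAddGroup.eq] at heq
      have h1 : -(R.π ^ i • v) + R.π ^ j • v ∈ U := heq
      obtain ⟨d, rfl⟩ : ∃ d, j = i + (d + 1) := ⟨j - i - 1, by omega⟩
      have h2 : R.res (1 - R.π ^ (d + 1)) ≠ 0 := by
        rw [map_sub, map_one, map_pow, res_pi, zero_pow (by omega), sub_zero]
        exact one_ne_zero
      obtain ⟨u, hu⟩ := R.unit _ h2
      have hinv : (↑u⁻¹ : O) * ↑u = 1 := u.inv_mul
      have h3 : R.π ^ i • v = (-(↑u⁻¹ : O)) • (-(R.π ^ i • v) + R.π ^ (i + (d + 1)) • v) := by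
        have h4 : -(R.π ^ i • v) + R.π ^ (i + (d + 1)) • v = (-(R.π ^ i * ↑u)) • v := by
          rw [hu, ← neg_smul, ← add_smul]
          congr 1
          ring
        rw [h4, smul_smul]
        congr 1
        linear_combination (- R.π ^ i) * hinv
      rw [h3]
      exact U.smul_mem _ h1
    rcases Nat.lt_or_gt_of_ne hij with h | h
    · exact ⟨i, main i j h heq⟩
    · exact ⟨j, main j i h heq.symm⟩
  obtain ⟨n0, h0⟩ := key ![1, 0]
  obtain ⟨n1, h1⟩ := key ![0, 1]
  refine ⟨n0 + n1, fun v => ?_⟩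
  have : R.π ^ (n0 + n1) • v = (v 0 * R.π ^ n1) • (R.π ^ n0 • ![1, 0])
      + (v 1 * R.π ^ n0) • (R.π ^ n1 • ![0, 1]) := by
    funext j
    match j with
    | 0 => simp; ring
    | 1 => simp; ring
  rw [this]
  exact U.add_mem (U.smul_mem _ h0) (U.smul_mem _ h1)

end Pool.Agent.Lib.H70.Top.K
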