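import Pool.Agent.Lib.H70.Top.KRep

/-!
# Chunk K, part 2: classification of the submodules of finite index of `O^2`
-/

namespace Pool.Agent.Lib.H70.Top.K

open Finset
open scoped BigOperators

variable {O k : Type*} [CommRing O] [IsDomain O] [Field k] (R : HDVR O k)

/-- determinant of two vectors -/
def dt (v m : Fin 2 → O) : O := v 0 * m 1 - v 1 * m 0

/-- primitive vectors -/
def Prim (m : Fin 2 → O) : Prop := R.res (m 0) ≠ 0 ∨ R.res (m 1) ≠ 0

/-- the submodule `π^a (O m + π^w O^2)` -/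
def SL (a w : ℕ) (m : Fin 2 → O) : Submodule O (Fin 2 → O) where
  carrier := {v | (∀ j, R.π ^ a ∣ v j) ∧ R.π ^ (a + w) ∣ dt v m}
  zero_mem' := ⟨fun _ => dvd_zero _, by simp [dt]⟩
  add_mem' := by
    rintro u v ⟨h1, h2⟩ ⟨h3, h4⟩
    refine ⟨fun j => dvd_add (h1 j) (h3 j), ?_⟩
    have : dt (u + v) m = dt u m + dt v m := by simp [dt]; ring
    rw [this]
    exact dvd_add h2 h4
  smul_mem' := by
    rintro c v ⟨h1, h2⟩
    refine ⟨fun j => (h1 j).mul_left _, ?_⟩
    have : dt (c • v) m = c * dt v m := by simp [dt]; ring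
    rw [this]
    exact h2.mul_left _

theorem mem_SL {a w : ℕ} {m v : Fin 2 → O} :
    v ∈ SL R a w m ↔ (∀ j, R.π ^ a ∣ v j) ∧ R.π ^ (a + w) ∣ dt v m := Iff.rfl

theorem mem_SL_iff {a w : ℕ} {m v : Fin 2 → O} (hm : Prim R m) :
    v ∈ SL R a w m ↔ ∃ (c : O) (e : Fin 2 → O), v = R.π ^ a • (c • m + R.π ^ w • e) := by
  rw [mem_SL]
  constructor
  · rintro ⟨h1, h2⟩
    choose v' hv' using h1
    have hdt : dt v m = R.π ^ a * dt v' m := by
      unfold dt
      rw [hv' 0, hv' 1]; ring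
    rw [hdt, pow_add_dvd] at h2
    obtain ⟨y, hy⟩ := h2
    unfold dt at hy
    rcases hm with hm | hm
    · obtain ⟨u, hu⟩ := R.unit _ hm
      refine ⟨v' 0 * ↑u⁻¹, ![0, - (↑u⁻¹ * y)], ?_⟩
      have hinv : (↑u : O) * ↑u⁻¹ = 1 := u.mul_inv
      funext j
      match j with
      | 0 =>
        simp only [Pi.smul_apply, Pi.add_apply, smul_eq_mul, Matrix.cons_val_zero]
        rw [hv' 0, ← hu]
        linear_combination (- R.π ^ a * v' 0) * hinv
      | 1 =>
        simp only [Pi.smul_apply, Pi.add_apply, smul_eq_mul, Matrix.cons_val_one,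
          Matrix.cons_val_fin_one]
        rw [hv' 1]
        rw [← hu] at hy
        linear_combination (- R.π ^ a * v' 1) * hinv - (R.π ^ a * ↑u⁻¹) * hy
    · obtain ⟨u, hu⟩ := R.unit _ hm
      refine ⟨v' 1 * ↑u⁻¹, ![↑u⁻¹ * y, 0], ?_⟩
      have hinv : (↑u : O) * ↑u⁻¹ = 1 := u.mul_inv
      funext j
      match j with
      | 0 =>
        simp only [Pi.smul_apply, Pi.add_apply, smul_eq_mul, Matrix.cons_val_zero]
        rw [hv' 0]
        rw [← hu] at hy
        linear_combination (- R.π ^ a * v' 0) * hinv + (R.π ^ a * ↑u⁻¹) * hy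
      | 1 =>
        simp only [Pi.smul_apply, Pi.add_apply, smul_eq_mul, Matrix.cons_val_one,
          Matrix.cons_val_fin_one]
        rw [hv' 1, ← hu]
        linear_combination (- R.π ^ a * v' 1) * hinv
  · rintro ⟨c, e, rfl⟩
    refine ⟨fun j => ?_, ?_⟩
    · simp only [Pi.smul_apply, smul_eq_mul]
      exact dvd_mul_right _ _
    · have : dt (R.π ^ a • (c • m + R.π ^ w • e)) m = R.π ^ a * (R.π ^ w * dt e m) := by
        simp only [dt, Pi.smul_apply, Pi.add_apply, smul_eq_mul]; ring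
      rw [this, pow_add_dvd]
      exact dvd_mul_right _ _

theorem SL_le_of_dvd {a w : ℕ} {m m' : Fin 2 → O} (hm' : Prim R m')
    (h : R.π ^ w ∣ dt m' m) : SL R a w m' ≤ SL R a w m := by
  intro v hv
  rw [mem_SL_iff R hm'] at hv
  obtain ⟨c, e, rfl⟩ := hv
  rw [mem_SL]
  refine ⟨fun j => ?_, ?_⟩
  · simp only [Pi.smul_apply, smul_eq_mul]
    exact dvd_mul_right _ _
  · have : dt (R.π ^ a • (c • m' + R.π ^ w • e)) m = R.π ^ a * (c * dt m' m + R.π ^ w * dt e m) := by
      simp only [dt, Pi.smul_apply, Pi.add_apply, smul_eq_mul]; ring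
    rw [this, pow_add_dvd]
    exact dvd_add (h.mul_left _) (dvd_mul_right _ _)

omit [IsDomain O] in
theorem dt_neg (m m' : Fin 2 → O) : dt m m' = - dt m' m := by unfold dt; ring

theorem SL_eq_of_dvd {a w : ℕ} {m m' : Fin 2 → O} (hm : Prim R m) (hm' : Prim R m')
    (h : R.π ^ w ∣ dt m' m) : SL R a w m' = SL R a w m := by
  refine le_antisymm (SL_le_of_dvd R hm' h) (SL_le_of_dvd R hm ?_)
  rw [dt_neg]
  exact (dvd_neg).mpr h

theorem not_prim {m : Fin 2 → O} (h : ∀ j, R.π ∣ m j) : ¬ Prim R m := by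
  rintro (h1 | h1)
  · exact h1 ((R.ker _).mpr (h 0))
  · exact h1 ((R.ker _).mpr (h 1))

theorem pow_dvd_prim {m : Fin 2 → O} (hm : Prim R m) {a a' : ℕ}
    (h : ∀ j, R.π ^ a' ∣ R.π ^ a * m j) : a' ≤ a := by
  rcases hm with hm | hm
  · exact le_of_pow_dvd R hm (h 0)
  · exact le_of_pow_dvd R hm (h 1)

theorem SL_inj_a {a w a' w' : ℕ} {m m' : Fin 2 → O} (hm : Prim R m) 
    (h : SL R a w m ≤ SL R a' w' m') : a' ≤ a := by
  have h1 : R.π ^ a • m ∈ SL R a w m := by
    rw [mem_SL_iff R hm]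
    exact ⟨1, 0, by simp⟩
  have h2 := h h1
  rw [mem_SL] at h2
  refine pow_dvd_prim R hm (fun j => ?_)
  simpa using h2.1 j

/-- a vector with determinant `unit` -/
theorem exists_dt_unit {m : Fin 2 → O} (hm : Prim R m) : ∃ e : Fin 2 → O, R.res (dt e m) ≠ 0 := by
  rcases hm with hm | hm
  · refine ⟨![0, 1], ?_⟩
    simp [dt, hm]
  · refine ⟨![1, 0], ?_⟩
    simp [dt, hm]

theorem SL_inj_w {a w w' : ℕ} {m m' : Fin 2 → O} (hm' : Prim R m')
    (h : SL R a w m ≤ SL R a w' m') : w' ≤ w := by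
  obtain ⟨e, he⟩ := exists_dt_unit R hm'
  have h1 : R.π ^ (a + w) • e ∈ SL R a w m := by
    rw [mem_SL]
    refine ⟨fun j => ?_, ?_⟩
    · simp only [Pi.smul_apply, smul_eq_mul]
      exact pow_dvd_of_le R (by omega) _
    · have : dt (R.π ^ (a + w) • e) m = R.π ^ (a + w) * dt e m := by
        simp only [dt, Pi.smul_apply, smul_eq_mul]; ring
      rw [this]
      exact dvd_mul_right _ _
  have h2 := (h h1).2
  have h3 : dt (R.π ^ (a + w) • e) m' = R.π ^ (a + w) * dt e m' := by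
    simp only [dt, Pi.smul_apply, smul_eq_mul]; ring
  rw [h3] at h2
  have := le_of_pow_dvd R he h2
  omega

theorem SL_inj_m {a w : ℕ} {m m' : Fin 2 → O} (hm : Prim R m)
    (h : SL R a w m ≤ SL R a w m') : R.π ^ w ∣ dt m m' := by
  have h1 : R.π ^ a • m ∈ SL R a w m := by
    rw [mem_SL_iff R hm]
    exact ⟨1, 0, by simp⟩
  have h2 := (h h1).2
  have h3 : dt (R.π ^ a • m) m' = R.π ^ a * dt m m' := by
    simp only [dt, Pi.smul_apply, smul_eq_mul]; ring
  rw [h3, pow_add_dvd] at h2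
  exact h2

theorem SL_inj {a w a' w' : ℕ} {m m' : Fin 2 → O} (hm : Prim R m) (hm' : Prim R m')
    (h : SL R a w m = SL R a' w' m') : a = a' ∧ w = w' ∧ R.π ^ w ∣ dt m m' := by
  have h1 : a = a' := le_antisymm (SL_inj_a R hm' h.ge) (SL_inj_a R hm h.le)
  subst h1
  have h2 : w = w' := le_antisymm (SL_inj_w R hm h.ge) (SL_inj_w R hm' h.le)
  subst h2
  exact ⟨rfl, rfl, SL_inj_m R hm h.le⟩

/-! ### Classification -/

/-- a submodule containing `π^n O^2` is of the form `SL` -/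
theorem exists_SL_of_pow {U : Submodule O (Fin 2 → O)} {n : ℕ}
    (hn : ∀ v : Fin 2 → O, R.π ^ n • v ∈ U) : ∃ a w m, Prim R m ∧ U = SL R a w m := by
  classical
  -- the largest `a` with `U ⊆ π^a O^2`
  let P : ℕ → Prop := fun a => ∀ u ∈ U, ∀ j, R.π ^ a ∣ u j
  have hbound : ∀ a, P a → a ≤ n := by
    intro a ha
    have h1 := ha _ (hn (fun _ => 1)) 0
    simp only [Pi.smul_apply, smul_eq_mul] at h1
    exact le_of_pow_dvd R (u := 1) (by simp) h1
  have hP0 : P 0 := fun u _ j => by simp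
  set a := Nat.findGreatest P n with ha_def
  have ha : P a := Nat.findGreatest_spec (P := P) (Nat.zero_le n) hP0
  have ha1 : ¬ P (a + 1) := by
    intro hcon
    have h1 := hbound _ hcon
    have h2 := Nat.le_findGreatest (P := P) h1 hcon
    omega
  simp only [P] at ha1
  push Not at ha1
  obtain ⟨u, huU, j₀, hj₀⟩ := ha1
  choose m hm using ha u huU
  have hum : u = R.π ^ a • m := by
    funext j
    simp only [Pi.smul_apply, smul_eq_mul]
    exact hm j
  have hmP : Prim R m := by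
    by_contra hcon
    unfold Prim at hcon
    push Not at hcon
    apply hj₀
    rw [hm j₀, pow_succ]
    apply mul_dvd_mul_left
    rw [← R.ker]
    match j₀ with
    | 0 => exact hcon.1
    | 1 => exact hcon.2
  -- the smallest `w`
  have hex : ∃ w, ∀ v : Fin 2 → O, R.π ^ (a + w) • v ∈ U := by
    refine ⟨n, fun v => ?_⟩
    rw [add_comm, pow_add, mul_smul]
    exact hn _
  set w := Nat.find hex with hw_def
  have hw : ∀ v : Fin 2 → O, R.π ^ (a + w) • v ∈ U := Nat.find_spec hex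
  refine ⟨a, w, m, hmP, le_antisymm ?_ ?_⟩
  · intro v hv
    rw [mem_SL]
    refine ⟨ha v hv, ?_⟩
    choose v' hv' using ha v hv
    have hvv : v = R.π ^ a • v' := by
      funext j
      simp only [Pi.smul_apply, smul_eq_mul]
      exact hv' j
    have hdt : dt v m = R.π ^ a * dt v' m := by
      unfold dt
      rw [hv' 0, hv' 1]; ring
    rw [hdt, pow_add_dvd]
    by_cases hz : dt v' m = 0
    · rw [hz]; exact dvd_zero _
    obtain ⟨s, y, hsy, hy⟩ := R.fact _ hz
    by_cases hsw : w ≤ s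
    · rw [hsy]
      exact pow_dvd_of_le R hsw y
    exfalso
    push Not at hsw
    refine Nat.find_min hex hsw (fun e => ?_)
    obtain ⟨y', hy'⟩ := R.unit y hy
    have hinv : (↑y' : O) * ↑y'⁻¹ = 1 := y'.mul_inv
    have key : R.π ^ (a + s) • e = (↑y'⁻¹ : O) • (dt e m • v - dt e v' • u) := by
      rw [hvv, hum]
      have h2 : dt v' m = R.π ^ s * ↑y' := by rw [hsy, hy']
      unfold dt at h2
      funext j
      simp only [Pi.smul_apply, Pi.sub_apply, smul_eq_mul, dt]
      match j with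
      | 0 =>
        linear_combination (- R.π ^ (a + s) * e 0) * hinv + (R.π ^ a * ↑y'⁻¹ * e 0) * (-h2)
      | 1 =>
        linear_combination (- R.π ^ (a + s) * e 1) * hinv + (R.π ^ a * ↑y'⁻¹ * e 1) * (-h2)
    rw [key]
    exact U.smul_mem _ (U.sub_mem (U.smul_mem _ hv) (U.smul_mem _ huU))
  · intro v hv
    rw [mem_SL_iff R hmP] at hv
    obtain ⟨c, e, rfl⟩ := hv
    have : R.π ^ a • (c • m + R.π ^ w • e) = c • u + R.π ^ (a + w) • e := by
      rw [hum, smul_add, smul_comm, pow_add, mul_smul]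
    rw [this]
    exact U.add_mem (U.smul_mem _ huU) (hw e)

end Pool.Agent.Lib.H70.Top.K
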