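import Pool.Agent.Lib.H70.Top.KIndex

/-!
# Chunk K, part 4: the graded count as a sum over normalised vectors
-/

namespace Pool.Agent.Lib.H70.Top.K

open Finset
open scoped BigOperators

variable {O k : Type*} [CommRing O] [IsDomain O] [Field k] (R : HDVR O k)

section PV

variable [Fintype k]

open Classical in
/-- normalised primitive vectors modulo `π ^ n`, up to units -/
noncomputable def PV (n : ℕ) : Finset (Fin 2 → O) :=
  if n = 0 then {![0, 1]} else
    (Rep R n).image (fun z => ![z, 1]) ∪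
      ((Rep R n).filter (fun z => R.π ∣ z)).image (fun z => ![1, z])

theorem mem_PV_zero {m : Fin 2 → O} : m ∈ PV R 0 ↔ m = ![0, 1] := by
  unfold PV
  rw [if_pos rfl, mem_singleton]

theorem mem_PV_pos {n : ℕ} (hn : 1 ≤ n) {m : Fin 2 → O} :
    m ∈ PV R n ↔ (∃ z ∈ Rep R n, m = ![z, 1]) ∨ (∃ z ∈ Rep R n, R.π ∣ z ∧ m = ![1, z]) := by
  classical
  unfold PV
  rw [if_neg (by omega), mem_union, mem_image, mem_image]
  constructor
  · rintro (⟨z, hz, rfl⟩ | ⟨z, hz, rfl⟩)
    · exact Or.inl ⟨z, hz, rfl⟩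
    · rw [mem_filter] at hz
      exact Or.inr ⟨z, hz.1, hz.2, rfl⟩
  · rintro (⟨z, hz, rfl⟩ | ⟨z, hz, hz2, rfl⟩)
    · exact Or.inl ⟨z, hz, rfl⟩
    · exact Or.inr ⟨z, mem_filter.mpr ⟨hz, hz2⟩, rfl⟩

theorem prim_of_mem_PV {n : ℕ} {m : Fin 2 → O} (hm : m ∈ PV R n) : Prim R m := by
  rcases Nat.eq_zero_or_pos n with rfl | hn
  · rw [mem_PV_zero] at hm
    subst hm
    exact Or.inr (by simp)
  · rw [mem_PV_pos R hn] at hm
    rcases hm with ⟨z, _, rfl⟩ | ⟨z, _, _, rfl⟩
    · exact Or.inr (by simp)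
    · exact Or.inl (by simp)

theorem exists_PV (n : ℕ) {m : Fin 2 → O} (hm : Prim R m) :
    ∃ m' ∈ PV R n, R.π ^ n ∣ dt m' m := by
  rcases Nat.eq_zero_or_pos n with rfl | hn
  · exact ⟨![0, 1], (mem_PV_zero R).mpr rfl, by simp⟩
  by_cases h1 : R.res (m 1) = 0
  · have h0 : R.res (m 0) ≠ 0 := by
      rcases hm with hm | hm
      · exact hm
      · exact absurd h1 hm
    obtain ⟨u, hu⟩ := R.unit _ h0
    have hinv : (↑u⁻¹ : O) * ↑u = 1 := u.inv_mul
    obtain ⟨z, hz, hzd⟩ := exists_rep R n (↑u⁻¹ * m 1)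
    refine ⟨![1, z], (mem_PV_pos R hn).mpr (Or.inr ⟨z, hz, ?_, rfl⟩), ?_⟩
    · rw [← R.ker, ← res_eq_of_dvd R hn hzd, map_mul, h1, mul_zero]
    · have : dt ![1, z] m = (↑u⁻¹ * m 1 - z) * m 0 := by
        simp only [dt, Matrix.cons_val_zero, Matrix.cons_val_one, Matrix.cons_val_fin_one]
        rw [← hu]
        linear_combination (- m 1) * hinv
      rw [this]
      exact hzd.mul_right _
  · obtain ⟨u, hu⟩ := R.unit _ h1
    have hinv : (↑u⁻¹ : O) * ↑u = 1 := u.inv_mul
    obtain ⟨z, hz, hzd⟩ := exists_rep R n (↑u⁻¹ * m 0)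
    refine ⟨![z, 1], (mem_PV_pos R hn).mpr (Or.inl ⟨z, hz, rfl⟩), ?_⟩
    have : dt ![z, 1] m = -((↑u⁻¹ * m 0 - z) * m 1) := by
      simp only [dt, Matrix.cons_val_zero, Matrix.cons_val_one, Matrix.cons_val_fin_one]
      rw [← hu]
      linear_combination (m 0) * hinv
    rw [this]
    exact (dvd_neg).mpr (hzd.mul_right _)

theorem PV_unique {n : ℕ} {m m' : Fin 2 → O} (hm : m ∈ PV R n) (hm' : m' ∈ PV R n)
    (h : R.π ^ n ∣ dt m m') : m = m' := by
  rcases Nat.eq_zero_or_pos n with rfl | hn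
  · rw [mem_PV_zero] at hm hm'
    rw [hm, hm']
  rw [mem_PV_pos R hn] at hm hm'
  have hpi : R.π ∣ dt m m' := dvd_trans (dvd_pow_self _ (by omega)) h
  rcases hm with ⟨z, hz, rfl⟩ | ⟨z, hz, hz2, rfl⟩ <;>
    rcases hm' with ⟨z', hz', rfl⟩ | ⟨z', hz', hz2', rfl⟩ <;>
    simp only [dt, Matrix.cons_val_zero, Matrix.cons_val_one, Matrix.cons_val_fin_one, mul_one,
      one_mul] at h hpi
  · rw [rep_unique R z hz z' hz' h]
  · exfalso
    have h1 : R.π ∣ 1 := by
      have : (1 : O) = z * z' - (z * z' - 1) := by ring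
      rw [this]
      exact dvd_sub (hz2'.mul_left _) hpi
    rw [← R.ker, map_one] at h1
    exact one_ne_zero h1
  · exfalso
    have h1 : R.π ∣ 1 := by
      have : (1 : O) = z * z' + (1 - z * z') := by ring
      rw [this]
      exact dvd_add (hz2.mul_right _) hpi
    rw [← R.ker, map_one] at h1
    exact one_ne_zero h1
  · rw [rep_unique R z' hz' z hz h]

theorem sum_PV_zero {M : Type*} [AddCommMonoid M] (f : (Fin 2 → O) → M) :
    ∑ m ∈ PV R 0, f m = f ![0, 1] := by
  unfold PV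
  rw [if_pos rfl, sum_singleton]

open Classical in
theorem sum_PV_pos {M : Type*} [AddCommMonoid M] {n : ℕ} (hn : 1 ≤ n) (f : (Fin 2 → O) → M) :
    ∑ m ∈ PV R n, f m = ∑ z ∈ Rep R n, f ![z, 1]
      + ∑ z ∈ Rep R n, (if R.π ∣ z then f ![1, z] else 0) := by
  unfold PV
  rw [if_neg (by omega), sum_union, sum_image, sum_image, sum_filter]
  · intro z _ z' _ h
    have := congrFun h 1
    simpa using this
  · intro z _ z' _ h
    have := congrFun h 0
    simpa using this
  · rw [disjoint_left]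
    intro m hm hm'
    rw [mem_image] at hm hm'
    obtain ⟨z, _, rfl⟩ := hm
    obtain ⟨z', hz', heq⟩ := hm'
    rw [mem_filter] at hz'
    have h1 := congrFun heq 1
    simp only [Matrix.cons_val_one, Matrix.cons_val_fin_one] at h1
    rw [h1] at hz'
    have h2 := (R.ker _).mpr hz'.2
    rw [map_one] at h2
    exact one_ne_zero h2

/-- every submodule of finite index is `SL a w m` with `m` normalised -/
theorem exists_SL {U : Submodule O (Fin 2 → O)} (hU : U.toAddSubgroup.index ≠ 0) :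
    ∃ a w m, m ∈ PV R w ∧ U = SL R a w m := by
  obtain ⟨n, hn⟩ := exists_pow_of_index R hU
  obtain ⟨a, w, m, hm, rfl⟩ := exists_SL_of_pow R hn
  obtain ⟨m', hm', hdt⟩ := exists_PV R w hm
  exact ⟨a, w, m', hm', (SL_eq_of_dvd R hm (prim_of_mem_PV R hm') hdt).symm⟩

end PV

/-! ### Closedness -/

/-- the quadratic form -/
def Q (i : Fin 4) (h m : Fin 2 → O) : O :=
  (h 0 - (aa i : O) * h 1) * (m 1) ^ 2 - (h 0 - (bb i : O) * h 1) * (m 0) ^ 2

omit [IsDomain O] in
theorem dt_hact (i : Fin 4) (h m : Fin 2 → O) : dt (hact i h m) m = Q i h m := by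
  simp only [dt, hact, Q, Matrix.cons_val_zero, Matrix.cons_val_one, Matrix.cons_val_fin_one]
  ring

theorem closed_iff (i : Fin 4) {x N a w : ℕ} {h m : Fin 2 → O} (hh : Prim R h) (hm : Prim R m) :
    (∀ h' ∈ SL R x N h, ∀ m' ∈ SL R a w m, hact i h' m' ∈ SL R a w m) ↔
      (w ≤ x + N ∧ R.π ^ w ∣ R.π ^ x * Q i h m) := by
  have hm0 : R.π ^ a • m ∈ SL R a w m := by
    rw [mem_SL_iff R hm]
    exact ⟨1, 0, by simp⟩
  have hact_smul : ∀ (s t : O) (u v : Fin 2 → O), hact i (s • u) (t • v) = (s * t) • hact i u v := by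
    intro s t u v
    funext j
    match j with
    | 0 => simp [hact]; ring
    | 1 => simp [hact]; ring
  constructor
  · intro hcl
    constructor
    · have h1 : ∀ e : Fin 2 → O, R.π ^ w ∣ R.π ^ (x + N) * Q i e m := by
        intro e
        have he : R.π ^ (x + N) • e ∈ SL R x N h := by
          rw [mem_SL]
          refine ⟨fun j => ?_, ?_⟩
          · simp only [Pi.smul_apply, smul_eq_mul]
            exact pow_dvd_of_le R (by omega) _
          · have : dt (R.π ^ (x + N) • e) h = R.π ^ (x + N) * dt e h := by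
              simp only [dt, Pi.smul_apply, smul_eq_mul]; ring
            rw [this]
            exact dvd_mul_right _ _
        have h2 := (hcl _ he _ hm0).2
        rw [hact_smul] at h2
        have h3 : dt ((R.π ^ (x + N) * R.π ^ a) • hact i e m) m
            = R.π ^ a * (R.π ^ (x + N) * Q i e m) := by
          rw [← dt_hact]
          simp only [dt, Pi.smul_apply, smul_eq_mul]; ring
        rw [h3, pow_add_dvd] at h2
        exact h2
      have e0 := h1 ![1, 0]
      have e1 := h1 ![0, 1]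
      have hab : (bb i : O) = (aa i : O) + 1 := by simp [aa, bb]
      simp only [Q, Matrix.cons_val_zero, Matrix.cons_val_one, Matrix.cons_val_fin_one, hab] at e0 e1
      rcases hm with hm | hm
      · have h4 : R.π ^ w ∣ R.π ^ (x + N) * (m 0) ^ 2 := by
          have : R.π ^ (x + N) * (m 0) ^ 2
              = (aa i : O) * (R.π ^ (x + N) * ((1 - (aa i : O) * 0) * (m 1) ^ 2
                - (1 - ((aa i : O) + 1) * 0) * (m 0) ^ 2))
              + (R.π ^ (x + N) * ((0 - (aa i : O) * 1) * (m 1) ^ 2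
                - (0 - ((aa i : O) + 1) * 1) * (m 0) ^ 2)) := by ring
          rw [this]
          exact dvd_add (e0.mul_left _) e1
        refine le_of_pow_dvd R (u := (m 0) ^ 2) ?_ h4
        rw [map_pow]
        exact pow_ne_zero _ hm
      · have h4 : R.π ^ w ∣ R.π ^ (x + N) * (m 1) ^ 2 := by
          have : R.π ^ (x + N) * (m 1) ^ 2
              = ((aa i : O) + 1) * (R.π ^ (x + N) * ((1 - (aa i : O) * 0) * (m 1) ^ 2
                - (1 - ((aa i : O) + 1) * 0) * (m 0) ^ 2))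
              + (R.π ^ (x + N) * ((0 - (aa i : O) * 1) * (m 1) ^ 2
                - (0 - ((aa i : O) + 1) * 1) * (m 0) ^ 2)) := by ring
          rw [this]
          exact dvd_add (e0.mul_left _) e1
        refine le_of_pow_dvd R (u := (m 1) ^ 2) ?_ h4
        rw [map_pow]
        exact pow_ne_zero _ hm
    · have hh0 : R.π ^ x • h ∈ SL R x N h := by
        rw [mem_SL_iff R hh]
        exact ⟨1, 0, by simp⟩
      have h2 := (hcl _ hh0 _ hm0).2
      rw [hact_smul] at h2
      have h3 : dt ((R.π ^ x * R.π ^ a) • hact i h m) m = R.π ^ a * (R.π ^ x * Q i h m) := by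
        rw [← dt_hact]
        simp only [dt, Pi.smul_apply, smul_eq_mul]; ring
      rw [h3, pow_add_dvd] at h2
      exact h2
  · rintro ⟨hw, hQ⟩ h' hh' m' hm'
    rw [mem_SL_iff R hh] at hh'
    rw [mem_SL_iff R hm] at hm'
    obtain ⟨c, e, rfl⟩ := hh'
    obtain ⟨c', e', rfl⟩ := hm'
    rw [hact_smul, mem_SL]
    refine ⟨fun j => ?_, ?_⟩
    · simp only [Pi.smul_apply, smul_eq_mul]
      exact Dvd.intro (R.π ^ x * hact i (c • h + R.π ^ N • e) (c' • m + R.π ^ w • e') j) (by ring)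
    · have h3 : dt ((R.π ^ x * R.π ^ a) •
            hact i (c • h + R.π ^ N • e) (c' • m + R.π ^ w • e')) m
          = R.π ^ a * (c * c' * (R.π ^ x * Q i h m) + (c' * Q i e m) * R.π ^ (x + N)
            + R.π ^ w * (R.π ^ x * dt (hact i (c • h + R.π ^ N • e) e') m)) := by
        simp only [dt, hact, Q, Pi.smul_apply, Pi.add_apply, smul_eq_mul, Matrix.cons_val_zero,
          Matrix.cons_val_one, Matrix.cons_val_fin_one]
        ring
      rw [h3, pow_add_dvd]
      refine dvd_add (dvd_add (hQ.mul_left _) ?_) (dvd_mul_right _ _)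
      exact (pow_dvd_pow _ hw).mul_left _

end Pool.Agent.Lib.H70.Top.K
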