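import Mathlib

/-!
# The `L`-function of a quadratic character sum over `F[X]`
-/

namespace Pool.Agent.Lib.H70.Top.L

open Polynomial Finset UniqueFactorizationMonoid
open scoped BigOperators Classical

variable (F : Type*) [Field F] [Fintype F]

/-- monic polynomials of degree `n` -/
noncomputable def Mon (n : ℕ) : Finset F[X] :=
  (Finset.univ : Finset (Fin n → F)).image fun c =>
    X ^ n + (((degreeLTEquiv F n).symm c : degreeLT F n) : F[X])

variable {F}

theorem mem_Mon {n : ℕ} {h : F[X]} : h ∈ Mon F n ↔ h.Monic ∧ h.natDegree = n := by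
  rw [Mon, Finset.mem_image]
  constructor
  · rintro ⟨c, -, rfl⟩
    have hlt := mem_degreeLT.1 ((degreeLTEquiv F n).symm c).2
    refine ⟨monic_X_pow_add hlt, ?_⟩
    apply natDegree_eq_of_degree_eq_some
    rw [degree_add_eq_left_of_degree_lt (by rwa [degree_X_pow]), degree_X_pow]
  · rintro ⟨hm, hd⟩
    have hlt : (h - X ^ n).degree < ((n : ℕ) : WithBot ℕ) := by
      have h1 : h.degree = (X ^ n : F[X]).degree := by
        rw [degree_X_pow, degree_eq_natDegree hm.ne_zero, hd]
      have := degree_sub_lt_left h1 hm.ne_zero (by rw [hm.leadingCoeff, leadingCoeff_X_pow])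
      rwa [degree_eq_natDegree hm.ne_zero, hd] at this
    refine ⟨degreeLTEquiv F n ⟨h - X ^ n, mem_degreeLT.2 hlt⟩, Finset.mem_univ _, ?_⟩
    rw [LinearEquiv.symm_apply_apply]
    ring

theorem card_Mon (n : ℕ) : (Mon F n).card = Fintype.card F ^ n := by
  rw [Mon, Finset.card_image_of_injective, Finset.card_univ, Fintype.card_fun, Fintype.card_fin]
  intro c c' h
  have h1 := add_left_cancel h
  exact (degreeLTEquiv F n).symm.injective (Subtype.ext h1)

variable (F) in
/-- monic irreducible polynomials of degree at most `N` -/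
noncomputable def Irr (N : ℕ) : Finset F[X] :=
  ((Finset.range (N + 1)).biUnion fun n => Mon F n).filter fun P => Irreducible P

theorem mem_Irr {N : ℕ} {P : F[X]} :
    P ∈ Irr F N ↔ P.Monic ∧ Irreducible P ∧ P.natDegree ≤ N := by
  rw [Irr, Finset.mem_filter, Finset.mem_biUnion]
  constructor
  · rintro ⟨⟨n, hn, hP⟩, hi⟩
    rw [mem_Mon] at hP
    rw [Finset.mem_range] at hn
    exact ⟨hP.1, hi, by omega⟩
  · rintro ⟨hm, hi, hd⟩
    exact ⟨⟨P.natDegree, by rw [Finset.mem_range]; omega, mem_Mon.2 ⟨hm, rfl⟩⟩, hi⟩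

/-- the degree is the sum of `deg P` over the prime powers `P^j` dividing `h` -/
theorem natDegree_eq_sum {n : ℕ} {h : F[X]} (hh : h ∈ Mon F n) :
    n = ∑ P ∈ Irr F n, ∑ j ∈ Finset.Icc 1 n, if P ^ j ∣ h then P.natDegree else 0 := by
  obtain ⟨hm, hd⟩ := mem_Mon.1 hh
  have h0 := hm.ne_zero
  have hprod : (normalizedFactors h).prod = h := by
    have h1 := prod_normalizedFactors_eq h0
    rwa [hm.normalize_eq_self] at h1
  have hmem : ∀ P ∈ normalizedFactors h, Irreducible P ∧ P.Monic ∧ P ∣ h := by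
    intro P hP
    exact (Polynomial.mem_normalizedFactors_iff h0).1 hP
  have hsum : n = ((normalizedFactors h).map natDegree).sum := by
    conv_lhs => rw [← hd, ← hprod]
    rw [natDegree_multiset_prod_of_monic]
    intro P hP
    exact (hmem P hP).2.1
  have hsum2 := hsum
  rw [Finset.sum_multiset_map_count] at hsum2
  rw [eq_comm, eq_comm.trans (Eq.congr_left hsum2)]
  have hsub : (normalizedFactors h).toFinset ⊆ Irr F n := by
    intro P hP
    rw [Multiset.mem_toFinset] at hP
    obtain ⟨h1, h2, h3⟩ := hmem P hP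
    exact mem_Irr.2 ⟨h2, h1, hd ▸ natDegree_le_of_dvd h3 h0⟩
  rw [Finset.sum_subset hsub]
  · apply Finset.sum_congr rfl
    intro P hP
    obtain ⟨h1, h2, h3⟩ := mem_Irr.1 hP
    rw [← Finset.sum_filter, Finset.sum_const]
    congr 1
    have hc : ∀ j, P ^ j ∣ h ↔ j ≤ (normalizedFactors h).count P := by
      intro j
      rw [pow_dvd_iff_le_emultiplicity, emultiplicity_eq_count_normalizedFactors h2 h0,
        h1.normalize_eq_self, Nat.cast_le]
    have hle : (normalizedFactors h).count P ≤ n := by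
      have h4 : P ^ (normalizedFactors h).count P ∣ h := (hc _).2 le_rfl
      have h5 := natDegree_le_of_dvd h4 h0
      rw [natDegree_pow, hd] at h5
      have h6 := h2.natDegree_pos
      nlinarith
    have : (Finset.Icc 1 n).filter (fun j => P ^ j ∣ h) =
        Finset.Icc 1 ((normalizedFactors h).count P) := by
      ext j
      rw [Finset.mem_filter, Finset.mem_Icc, Finset.mem_Icc, hc]
      omega
    rw [this, Nat.card_Icc]
    omega
  · intro P _ hP
    rw [Multiset.mem_toFinset] at hP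
    rw [Multiset.count_eq_zero_of_notMem hP, zero_smul]

/-- `χ(h) = ∏_{β ∈ B} χ(h(β))` -/
noncomputable def chi (B : Finset F) (h : F[X]) : ℤ := ∏ β ∈ B, quadraticChar F (h.eval β)

theorem chi_mul (B : Finset F) (g h : F[X]) : chi B (g * h) = chi B g * chi B h := by
  rw [chi, chi, chi, ← Finset.prod_mul_distrib]
  apply Finset.prod_congr rfl
  intro β _
  rw [eval_mul, map_mul]

theorem chi_one (B : Finset F) : chi B 1 = 1 := by
  rw [chi]
  apply Finset.prod_eq_one
  intro β _
  rw [eval_one, map_one]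

theorem chi_pow (B : Finset F) (g : F[X]) (n : ℕ) : chi B (g ^ n) = chi B g ^ n := by
  induction n with
  | zero => rw [pow_zero, pow_zero, chi_one]
  | succ n ih => rw [pow_succ, pow_succ, chi_mul, ih]

/-- coefficients of the `L`-function -/
noncomputable def LL (B : Finset F) (n : ℕ) : ℤ := ∑ h ∈ Mon F n, chi B h

theorem LL_zero (B : Finset F) : LL B 0 = 1 := by
  have : Mon F 0 = {1} := by
    ext h
    rw [mem_Mon, Finset.mem_singleton]
    constructor
    · rintro ⟨h1, h2⟩
      exact h1.natDegree_eq_zero.1 h2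
    · rintro rfl
      exact ⟨monic_one, natDegree_one⟩
  rw [LL, this, Finset.sum_singleton, chi_one]

theorem sum_chi_dvd (B : Finset F) {n : ℕ} {G : F[X]} (hG : G.Monic) :
    ∑ h ∈ (Mon F n).filter (fun h => G ∣ h), chi B h =
      if G.natDegree ≤ n then chi B G * LL B (n - G.natDegree) else 0 := by
  split_ifs with hle
  · rw [LL, Finset.mul_sum]
    symm
    apply Finset.sum_bij (fun h' _ => G * h')
    · intro h' hh'
      obtain ⟨h1, h2⟩ := mem_Mon.1 hh'
      rw [Finset.mem_filter, mem_Mon]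
      refine ⟨⟨hG.mul h1, ?_⟩, dvd_mul_right _ _⟩
      rw [hG.natDegree_mul h1, h2]
      omega
    · intro a _ b _ hab
      exact mul_left_cancel₀ hG.ne_zero hab
    · intro h hh
      rw [Finset.mem_filter, mem_Mon] at hh
      obtain ⟨⟨h1, h2⟩, h', rfl⟩ := hh
      have h3 : h'.Monic := hG.of_mul_monic_left h1
      refine ⟨h', mem_Mon.2 ⟨h3, ?_⟩, rfl⟩
      rw [hG.natDegree_mul h3] at h2
      omega
    · intro h' _
      rw [chi_mul]
  · rw [Finset.filter_false_of_mem, Finset.sum_empty]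
    intro h hh hdvd
    obtain ⟨h1, h2⟩ := mem_Mon.1 hh
    exact hle (h2 ▸ natDegree_le_of_dvd hdvd h1.ne_zero)

/-- the sums over closed points -/
noncomputable def SS (B : Finset F) (k : ℕ) : ℤ :=
  ∑ P ∈ Irr F k, if P.natDegree ∣ k then (P.natDegree : ℤ) * chi B P ^ (k / P.natDegree) else 0

theorem SS_eq (B : Finset F) {k N : ℕ} (hk : 1 ≤ k) (hkN : k ≤ N) : SS B k =
    ∑ P ∈ Irr F N, if P.natDegree ∣ k then (P.natDegree : ℤ) * chi B P ^ (k / P.natDegree)
      else 0 := by
  rw [SS]
  apply Finset.sum_subset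
  · intro P hP
    obtain ⟨h1, h2, h3⟩ := mem_Irr.1 hP
    exact mem_Irr.2 ⟨h1, h2, h3.trans hkN⟩
  · intro P hP hP'
    rw [if_neg]
    intro hdvd
    obtain ⟨h1, h2, h3⟩ := mem_Irr.1 hP
    exact hP' (mem_Irr.2 ⟨h1, h2, Nat.le_of_dvd (by omega) hdvd⟩)

/-- von Mangoldt identity -/
theorem mangoldt (B : Finset F) (n : ℕ) :
    (n : ℤ) * LL B n = ∑ k ∈ Finset.Icc 1 n, SS B k * LL B (n - k) := by
  have h1 : (n : ℤ) * LL B n = ∑ P ∈ Irr F n, ∑ j ∈ Finset.Icc 1 n,
      if j * P.natDegree ≤ n then (P.natDegree : ℤ) * (chi B P ^ j * LL B (n - j * P.natDegree))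
        else 0 := by
    rw [LL, Finset.mul_sum]
    have : ∀ h ∈ Mon F n, (n : ℤ) * chi B h = ∑ P ∈ Irr F n, ∑ j ∈ Finset.Icc 1 n,
        if P ^ j ∣ h then (P.natDegree : ℤ) * chi B h else 0 := by
      intro h hh
      have h2 := congrArg (Nat.cast : ℕ → ℤ) (natDegree_eq_sum hh)
      push_cast at h2
      conv_lhs => rw [h2]
      rw [Finset.sum_mul]
      apply Finset.sum_congr rfl
      intro P _
      rw [Finset.sum_mul]
      apply Finset.sum_congr rfl
      intro j _
      split_ifs <;> simp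
    rw [Finset.sum_congr rfl this, Finset.sum_comm]
    apply Finset.sum_congr rfl
    intro P hP
    obtain ⟨hP1, hP2, hP3⟩ := mem_Irr.1 hP
    rw [Finset.sum_comm]
    apply Finset.sum_congr rfl
    intro j _
    rw [← Finset.sum_filter, ← Finset.mul_sum, sum_chi_dvd B (hP1.pow j), hP1.natDegree_pow,
      chi_pow]
    split_ifs <;> simp
  rw [h1]
  have h2 : ∀ k ∈ Finset.Icc 1 n, SS B k * LL B (n - k) = ∑ P ∈ Irr F n,
      if P.natDegree ∣ k then (P.natDegree : ℤ) * (chi B P ^ (k / P.natDegree) * LL B (n - k))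
        else 0 := by
    intro k hk
    rw [Finset.mem_Icc] at hk
    rw [SS_eq B hk.1 hk.2, Finset.sum_mul]
    apply Finset.sum_congr rfl
    intro P _
    split_ifs
    · ring
    · simp
  rw [Finset.sum_congr rfl h2]
  conv_rhs => rw [Finset.sum_comm]
  apply Finset.sum_congr rfl
  intro P hP
  obtain ⟨hP1, hP2, hP3⟩ := mem_Irr.1 hP
  have hd := hP2.natDegree_pos
  rw [← Finset.sum_filter, ← Finset.sum_filter]
  apply Finset.sum_bij (fun j _ => j * P.natDegree)
  · intro j hj
    rw [Finset.mem_filter, Finset.mem_Icc] at hj ⊢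
    refine ⟨⟨?_, hj.2⟩, dvd_mul_left _ _⟩
    have := Nat.mul_pos (show 0 < j by omega) hd
    omega
  · intro a _ b _ hab
    exact Nat.eq_of_mul_eq_mul_right hd hab
  · intro k hk
    rw [Finset.mem_filter, Finset.mem_Icc] at hk
    obtain ⟨⟨hk1, hk2⟩, j, rfl⟩ := hk
    refine ⟨j, ?_, by ring⟩
    rw [Finset.mem_filter, Finset.mem_Icc]
    have h3 : j ≠ 0 := by rintro rfl; omega
    refine ⟨⟨by omega, ?_⟩, by rwa [mul_comm]⟩
    calc j = 1 * j := (one_mul j).symm
      _ ≤ P.natDegree * j := Nat.mul_le_mul_right j hd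
      _ ≤ n := hk2
  · intro j hj
    rw [Nat.mul_div_cancel _ hd]

end Pool.Agent.Lib.H70.Top.L
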