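import Pool.Agent.Lib.H70.Top.CellsDefs

/-!
# Normal form of tame predicates
-/

namespace Pool.Agent.Lib.H70.Top

open Set

section

variable {ι : Type*} {Ω : ι → Type*} {k : ι → Type*} {B : Type*}

/-- the reindexed set -/
def reSet {J K : Type*} (f : J → K) (A : Set (J → ℤ)) : Set (K → ℤ) := {γ | (fun j => γ (f j)) ∈ A}

theorem reSet_semi {J K : Type*} [Finite J] [Finite K] (f : J → K) {A : Set (J → ℤ)}
    (hA : IsSemilinearSet A) : IsSemilinearSet (reSet f A) :=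
  (SemiFun.pi (fun j => SemiFun.eval (f j))).preimage hA

/-- Normal form of tame predicates. -/
theorem TP.normal' {T : Coord Ω k B} {D : ∀ i, Ω i → Prop} (hD : TP T D) :
    ∃ (S : Finset B) (E : ∀ i, (S → k i) → Set (S → ℤ)),
      (Set.range fun x : (Σ i, (S → k i)) => E x.1 x.2).Finite ∧
      (∀ i b, IsSemilinearSet (E i b)) ∧
      ∀ i x, D i x ↔ (fun s : S => T.u s i x) ∈ E i (fun s : S => T.w s i x) := by
  classical
  induction hD with
  | semi S A hA =>
    refine ⟨S, fun _ _ => A, (Set.finite_singleton A).subset ?_, fun _ _ => hA,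
      fun _ _ => Iff.rfl⟩
    rintro _ ⟨_, rfl⟩
    exact rfl
  | arb S ρ =>
    refine ⟨S, fun i b => if ρ i b then univ else ∅,
      (Set.toFinite ({univ, ∅} : Set (Set (S → ℤ)))).subset ?_, fun i b => ?_, fun i x => ?_⟩
    · rintro _ ⟨x, rfl⟩
      by_cases h : ρ x.1 x.2
      · simp [h]
      · simp [h]
    · by_cases h : ρ i b
      · simp only [h, if_true]; exact IsSemilinearSet.univ
      · simp only [h, if_false]; exact IsSemilinearSet.empty
    · by_cases h : ρ i (fun s : S => T.w s i x)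
      · simp [h]
      · simp [h]
  | and P Q _ _ ihP ihQ =>
    obtain ⟨S1, E1, h1, h2, h3⟩ := ihP
    obtain ⟨S2, E2, h4, h5, h6⟩ := ihQ
    let f1 : S1 → ↥(S1 ∪ S2) := fun s => ⟨s, Finset.mem_union_left _ s.2⟩
    let f2 : S2 → ↥(S1 ∪ S2) := fun s => ⟨s, Finset.mem_union_right _ s.2⟩
    refine ⟨S1 ∪ S2, fun i b => reSet f1 (E1 i (fun s => b (f1 s))) ∩
      reSet f2 (E2 i (fun s => b (f2 s))), ?_, fun i b => ?_, fun i x => ?_⟩
    · refine (Set.Finite.image2 (fun A A' => A ∩ A') (h1.image (reSet f1))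
        (h4.image (reSet f2))).subset ?_
      rintro _ ⟨x, rfl⟩
      exact ⟨_, ⟨_, ⟨⟨x.1, fun s => x.2 (f1 s)⟩, rfl⟩, rfl⟩, _,
        ⟨_, ⟨⟨x.1, fun s => x.2 (f2 s)⟩, rfl⟩, rfl⟩, rfl⟩
    · exact (reSet_semi f1 (h2 _ _)).inter (reSet_semi f2 (h5 _ _))
    · exact and_congr (h3 i x) (h6 i x)
  | not P _ ih =>
    obtain ⟨S, E, h1, h2, h3⟩ := ih
    refine ⟨S, fun i b => (E i b)ᶜ, ?_, fun i b => (h2 i b).compl, fun i x => ?_⟩
    · refine (h1.image compl).subset ?_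
      rintro _ ⟨x, rfl⟩
      exact ⟨_, ⟨x, rfl⟩, rfl⟩
    · exact not_congr (h3 i x)

end

section

variable {ι : Type} {k : ι → Type} {X : ι → Type} {B : Type} (T : Coord X k B)

theorem TP.normal {J : Type} [Finite J] {D : ∀ i, X i × (J → ℤ) × (J → k i) → Prop}
    (hD : TP (T.ext J) D) :
    ∃ (S : Finset B) (E : ∀ i, ((S ⊕ J) → k i) → Set ((S ⊕ J) → ℤ)),
      (Set.range fun x : (Σ i, ((S ⊕ J) → k i)) => E x.1 x.2).Finite ∧
      (∀ i b, IsSemilinearSet (E i b)) ∧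
      ∀ i x γ b, D i (x, γ, b) ↔
        Sum.elim (fun s : S => T.u s i x) γ ∈ E i (Sum.elim (fun s : S => T.w s i x) b) := by
  classical
  obtain ⟨S', E', h1, h2, h3⟩ := TP.normal' hD
  have key : ∀ s : S', ∃ t : ↥(S'.toLeft) ⊕ J, Sum.elim (fun b : ↥(S'.toLeft) => Sum.inl b.1)
      Sum.inr t = s.1 := by
    rintro ⟨s, hs⟩
    rcases s with b | j
    · exact ⟨Sum.inl ⟨b, Finset.mem_toLeft.2 hs⟩, rfl⟩
    · exact ⟨Sum.inr j, rfl⟩
  choose f hf using key
  refine ⟨S'.toLeft, fun i b => reSet f (E' i (fun s => b (f s))), ?_, fun i b => ?_,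
    fun i x γ b => ?_⟩
  · refine (h1.image (reSet f)).subset ?_
    rintro _ ⟨x, rfl⟩
    exact ⟨_, ⟨⟨x.1, fun s => x.2 (f s)⟩, rfl⟩, rfl⟩
  · exact reSet_semi f (h2 _ _)
  · rw [h3]
    have e1 : (fun s : S' => (T.ext J).u s i (x, γ, b)) =
        fun s => Sum.elim (fun s : ↥(S'.toLeft) => T.u s i x) γ (f s) := by
      funext s
      rw [← hf s]
      rcases f s with t | j <;> rfl
    have e2 : (fun s : S' => (T.ext J).w s i (x, γ, b)) =
        fun s => Sum.elim (fun s : ↥(S'.toLeft) => T.w s i x) b (f s) := by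
      funext s
      rw [← hf s]
      rcases f s with t | j <;> rfl
    rw [e1, e2]
    rfl

end

end Pool.Agent.Lib.H70.Top
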