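import Pool.Agent.Lib.H70.Top.Fibre
import Pool.Agent.Lib.H70.Top.Normal

/-!
# Law of the leading terms of finitely many polynomials on `O^m`
-/

namespace Pool.Agent.Lib.H70.Top

open Polynomial MeasureTheory
open scoped BigOperators ENNReal

namespace Law

section

variable {ι : Type} {O k : ι → Type} [∀ i, CommRing (O i)] [∀ i, IsDomain (O i)]
  [∀ i, Field (k i)] (R : ∀ i, HDVR (O i) (k i))

/-- polynomials as functions -/
noncomputable def fn (O : ι → Type) [∀ i, CommRing (O i)] (m : ℕ) :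
    MvPolynomial (Fin m) ℤ →+* (∀ i, (Fin m → O i) → O i) :=
  RingHom.pi fun i => RingHom.pi fun x =>
    (MvPolynomial.aeval x : MvPolynomial (Fin m) ℤ →ₐ[ℤ] O i).toRingHom

omit [∀ i, IsDomain (O i)] in
theorem fn_apply (m : ℕ) (P : MvPolynomial (Fin m) ℤ) (i : ι) (x : Fin m → O i) :
    fn O m P i x = MvPolynomial.aeval x P := rfl

theorem tameAlg_fn (m : ℕ) : TameAlg R (polyCoord R m) (fn O m).range := by
  rintro g ⟨P, rfl⟩
  exact ⟨TF.coord P, TK.coord P⟩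

/-- the last variable separated -/
noncomputable def sep (m : ℕ) :
    MvPolynomial (Fin (m + 1)) ℤ →ₐ[ℤ] Polynomial (MvPolynomial (Fin m) ℤ) :=
  MvPolynomial.aeval (Fin.snoc (α := fun _ => Polynomial (MvPolynomial (Fin m) ℤ))
    (fun j => Polynomial.C (MvPolynomial.X j)) Polynomial.X)

omit [∀ i, IsDomain (O i)] in
theorem sep_eval (m : ℕ) (P : MvPolynomial (Fin (m + 1)) ℤ) (i : ι) (x : Fin m → O i) (y : O i) :
    (((sep m P).map (fn O m)).map (pt i x)).eval y =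
      MvPolynomial.aeval (Fin.snoc x y : Fin (m + 1) → O i) P := by
  induction P using MvPolynomial.induction_on with
  | C a => simp [sep]
  | add p q hp hq =>
    rw [map_add, Polynomial.map_add, Polynomial.map_add, Polynomial.eval_add, hp, hq, map_add]
  | mul_X p j hp =>
    rw [map_mul, Polynomial.map_mul, Polynomial.map_mul, Polynomial.eval_mul, hp, map_mul]
    congr 1
    rw [sep, MvPolynomial.aeval_X, MvPolynomial.aeval_X]
    refine Fin.lastCases ?_ (fun j => ?_) j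
    · simp
    · rw [Fin.snoc_castSucc, Fin.snoc_castSucc, Polynomial.map_C, Polynomial.map_C,
        Polynomial.eval_C, pt_apply, fn_apply, MvPolynomial.aeval_X]

theorem fibre_normal (ch : ι → ℕ) (hch : ∀ (i : ι) (j : ℕ), 1 ≤ j → j < ch i → (j : k i) ≠ 0)
    [∀ i, MeasurableSpace (O i)] (μ : ∀ i, Measure (O i)) (q : ι → ℕ)
    (hq : ∀ i, Nat.card (k i) = q i) [∀ i, Finite (k i)]
    (hμ : ∀ i, IsUnif (R i).π (q i) (μ i)) {m r : ℕ} (P : Fin r → MvPolynomial (Fin (m + 1)) ℤ) :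
    ∃ (n s : ℕ) (Q : Fin s → MvPolynomial (Fin m) ℤ) (κ : Type) (_ : Fintype κ)
      (E : κ → ∀ i, ((Fin s ⊕ Option (Fin r)) → k i) → Set ((Fin s ⊕ Option (Fin r)) → ℤ)),
      (∀ c, (Set.range fun x : (Σ i, ((Fin s ⊕ Option (Fin r)) → k i)) => E c x.1 x.2).Finite) ∧
      (∀ c i b, IsSemilinearSet (E c i b)) ∧
      ∀ i, n ≤ ch i → ∀ (x : Fin m → O i) (Φ : (Fin r → ℤ) → (Fin r → k i) → ℝ≥0∞),
        ∫⁻ y, Φ (fun l => ((R i).v
            (MvPolynomial.aeval (Fin.snoc x y : Fin (m + 1) → O i) (P l)) : ℤ))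
          (fun l => (R i).ac
            (MvPolynomial.aeval (Fin.snoc x y : Fin (m + 1) → O i) (P l))) ∂(μ i) =
          ∑ c : κ, ∑' (b : Option (Fin r) → k i), ∑' (γ : Option (Fin r) → ℤ),
            Set.indicator {γ' | Sum.elim (fun j => ((R i).v (MvPolynomial.aeval x (Q j)) : ℤ)) γ' ∈
              E c i (Sum.elim (fun j => (R i).ac (MvPolynomial.aeval x (Q j))) b)}
              (fun γ' => (q i : ℝ≥0∞) ^ (-(γ' none + 1)) *
                Φ (fun l => γ' (some l)) (fun l => b (some l))) γ := by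
  classical
  -- the degree bound
  set n : ℕ := Finset.univ.sup fun l => (sep m (P l)).natDegree with hndef
  have hdeg : ∀ l, (sep m (P l)).natDegree ≤ n := fun l =>
    Finset.le_sup (f := fun l => (sep m (P l)).natDegree) (Finset.mem_univ l)
  -- the subfamily
  let ι' : Type := {i : ι // n < ch i}
  let R' : ∀ i : ι', HDVR (O i.1) (k i.1) := fun i => R i.1
  obtain ⟨κ, hκ, D, hD, hint⟩ := fibre (ι := ι') (O := fun i => O i.1) (k := fun i => k i.1) R'
    (X := fun i => Fin m → O i.1) (polyCoord R' m) (fn (fun i : ι' => O i.1) m).range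
    (tameAlg_fn R' m) n (fun i j h1 h2 => hch i.1 j h1 (lt_of_le_of_lt h2 i.2))
    (fun l => (sep m (P l)).map (fn (fun i : ι' => O i.1) m))
    (fun l j => by rw [Polynomial.coeff_map]; exact ⟨_, rfl⟩)
    (fun l => (Polynomial.natDegree_map_le).trans (hdeg l)) (fun i => μ i.1) (fun i => q i.1)
    (fun i => hq i.1) (fun i => hμ i.1)
  choose S E0 hfin hsemi hmem using fun c => TP.normal (polyCoord R' m) (hD c)
  -- common finite set of polynomials
  let S' : Finset (MvPolynomial (Fin m) ℤ) := Finset.univ.biUnion S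
  have hS' : ∀ c, S c ⊆ S' := fun c => Finset.subset_biUnion_of_mem S (Finset.mem_univ c)
  let e : S' ≃ Fin S'.card := S'.equivFin
  let g : ∀ c, (S c ⊕ Option (Fin r)) → (Fin S'.card ⊕ Option (Fin r)) := fun c =>
    Sum.map (fun s : S c => e ⟨s.1, hS' c s.2⟩) id
  refine ⟨n + 1, S'.card, fun j => (e.symm j).1, κ, hκ,
    fun c i b => if h : n < ch i then {γ | (fun x => γ (g c x)) ∈
      E0 c ⟨i, h⟩ (fun x => b (g c x))} else ∅, ?_, ?_, ?_⟩
  · intro c
    refine (((hfin c).image (fun A : Set ((S c ⊕ Option (Fin r)) → ℤ) =>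
      {γ : (Fin S'.card ⊕ Option (Fin r)) → ℤ | (fun x => γ (g c x)) ∈ A})).insert ∅).subset ?_
    rintro _ ⟨⟨i, b⟩, rfl⟩
    by_cases h : n < ch i
    · right
      refine ⟨_, ⟨⟨⟨i, h⟩, fun x => b (g c x)⟩, rfl⟩, ?_⟩
      simp only [dif_pos h]
    · left
      simp only [dif_neg h]
  · intro c i b
    by_cases h : n < ch i
    · simp only [dif_pos h]
      exact (hsemi c ⟨i, h⟩ _).preimage
        (AddMonoidHom.mk' (fun (γ : (Fin S'.card ⊕ Option (Fin r)) → ℤ) => fun x => γ (g c x))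
          (fun _ _ => rfl))
    · simp only [dif_neg h]
      exact IsSemilinearSet.empty
  · intro i hi x Φ
    have h : n < ch i := hi
    have key : ∀ (l : Fin r) (y : O i),
        (((sep m (P l)).map (fn (fun i : ι' => O i.1) m)).map
          (pt (O := fun i : ι' => O i.1) (X := fun i : ι' => Fin m → O i.1) ⟨i, h⟩ x)).eval y =
        MvPolynomial.aeval (Fin.snoc x y : Fin (m + 1) → O i) (P l) := fun l y =>
      sep_eval (ι := ι') (O := fun i : ι' => O i.1) m (P l) ⟨i, h⟩ x y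
    have h1 := hint ⟨i, h⟩ x Φ
    have h2 : ∀ y : O i, Φ (fun l => ((R i).v
            (MvPolynomial.aeval (Fin.snoc x y : Fin (m + 1) → O i) (P l)) : ℤ))
          (fun l => (R i).ac
            (MvPolynomial.aeval (Fin.snoc x y : Fin (m + 1) → O i) (P l))) =
        Φ (fun l => ((R' ⟨i, h⟩).v ((((sep m (P l)).map (fn (fun i : ι' => O i.1) m)).map
          (pt (O := fun i : ι' => O i.1) (X := fun i : ι' => Fin m → O i.1)
            ⟨i, h⟩ x)).eval y) : ℤ))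
          (fun l => (R' ⟨i, h⟩).ac ((((sep m (P l)).map (fn (fun i : ι' => O i.1) m)).map
          (pt (O := fun i : ι' => O i.1) (X := fun i : ι' => Fin m → O i.1)
            ⟨i, h⟩ x)).eval y)) := by
      intro y
      congr 1
      · funext l; rw [key l y]
      · funext l; rw [key l y]
    rw [lintegral_congr h2]
    refine h1.trans ?_
    refine Finset.sum_congr rfl fun c _ => tsum_congr fun b => tsum_congr fun γ => ?_
    have h3 := hmem c ⟨i, h⟩ x γ b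
    rw [Set.indicator_apply]
    refine if_congr ?_ rfl rfl
    rw [h3]
    simp only [dif_pos h, Set.mem_ofPred_eq]
    have h4 : ∀ (Z : Type) (f : MvPolynomial (Fin m) ℤ → Z) (δ : Option (Fin r) → Z),
        (fun x => Sum.elim (fun j => f (e.symm j).1) δ (g c x)) =
          Sum.elim (fun s : S c => f s.1) δ := by
      intro Z f δ
      funext x
      rcases x with s | o
      · simp [g]
      · simp [g]
    have h5 := h4 ℤ (fun Q => ((R i).v (MvPolynomial.aeval x Q) : ℤ)) γ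
    have h6 := h4 (k i) (fun Q => (R i).ac (MvPolynomial.aeval x Q)) b
    rw [h5, h6]
    rfl

theorem int_rv {O k : Type} [CommRing O] [IsDomain O] [Field k] (R : HDVR O k) {ch : ℕ}
    (hch : ∀ j : ℕ, 1 ≤ j → j < ch → (j : k) ≠ 0) (a : ℤ) (ha : a.natAbs < ch) :
    R.v (a : O) = 0 ∧ R.ac (a : O) = (a : k) := by
  by_cases h0 : a = 0
  · subst h0; simp
  · have h1 : ((a.natAbs : ℕ) : k) ≠ 0 := hch _ (by omega) ha
    have h2 : (a : k) ≠ 0 := by
      rcases Int.natAbs_eq a with h | h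
      · rw [h, Int.cast_natCast]; exact h1
      · rw [h, Int.cast_neg, Int.cast_natCast, neg_ne_zero]; exact h1
    have h3 : R.res (a : O) ≠ 0 := by rw [map_intCast]; exact h2
    exact ⟨R.v_unit h3, by rw [R.ac_unit h3, map_intCast]⟩

theorem base (ch : ι → ℕ) (hch : ∀ (i : ι) (j : ℕ), 1 ≤ j → j < ch i → (j : k i) ≠ 0)
    [∀ i, MeasurableSpace (O i)] (μ : ∀ i, Measure (O i)) (q : ι → ℕ)
    {r : ℕ} (P : Fin r → MvPolynomial (Fin 0) ℤ) :
    ∃ (n0 : ℕ) (J κ : Type) (_ : Fintype J) (_ : Fintype κ)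
      (E : κ → ∀ i, ((Fin r ⊕ J) → k i) → Set ((Fin r ⊕ J) → ℤ))
      (ℓ : κ → ((Fin r ⊕ J) → ℤ) →+ ℤ),
      (∀ c, (Set.range fun x : (Σ i, ((Fin r ⊕ J) → k i)) => E c x.1 x.2).Finite) ∧
      (∀ c i b, IsSemilinearSet (E c i b)) ∧
      ∀ i, n0 ≤ ch i → ∀ Φ : (Fin r → ℤ) → (Fin r → k i) → ℝ≥0∞,
        iint (μ i) 0 (fun y => Φ (fun l => ((R i).v (MvPolynomial.aeval y (P l)) : ℤ))
          (fun l => (R i).ac (MvPolynomial.aeval y (P l)))) =
        ((q i : ℝ≥0∞) ^ 0)⁻¹ * ∑ c : κ, ∑' (b : (Fin r ⊕ J) → k i), ∑' (γ : (Fin r ⊕ J) → ℤ),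
          (E c i b).indicator (fun γ => (q i : ℝ≥0∞) ^ (-(ℓ c γ)) *
            Φ (fun l => γ (Sum.inl l)) (fun l => b (Sum.inl l))) γ := by
  classical
  let a : Fin r → ℤ := fun l => (P l).coeff 0
  have hP : ∀ l, P l = MvPolynomial.C (a l) := fun l => MvPolynomial.eq_C_of_isEmpty (P l)
  let b0 : ∀ i, (Fin r ⊕ Empty) → k i := fun i => Sum.elim (fun l => (a l : k i)) Empty.elim
  refine ⟨1 + ∑ l, (a l).natAbs, Empty, Unit, inferInstance, inferInstance,
    fun _ i b => if b = b0 i then {0} else ∅, fun _ => 0, ?_, ?_, ?_⟩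
  · intro _
    refine (Set.toFinite {({0} : Set ((Fin r ⊕ Empty) → ℤ)), ∅}).subset ?_
    rintro _ ⟨⟨i, b⟩, rfl⟩
    by_cases h : b = b0 i
    · simp [h]
    · simp [h]
  · intro _ i b
    by_cases h : b = b0 i
    · simp only [if_pos h]; exact IsSemilinearSet.singleton 0
    · simp only [if_neg h]; exact IsSemilinearSet.empty
  · intro i hi Φ
    have h1 : ∀ l, (a l).natAbs < ch i := fun l => by
      have := Finset.single_le_sum (f := fun l => (a l).natAbs) (fun _ _ => Nat.zero_le _)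
        (Finset.mem_univ l)
      omega
    have h2 : ∀ l, MvPolynomial.aeval (Fin.elim0 : Fin 0 → O i) (P l) = ((a l : ℤ) : O i) := by
      intro l
      rw [hP l, MvPolynomial.aeval_C]
      simp
    have h3 := fun l => int_rv (R i) (hch i) (a l) (h1 l)
    simp only [iint, h2, (h3 _).1, (h3 _).2]
    rw [pow_zero, inv_one, one_mul, Finset.univ_unique, Finset.sum_singleton,
      tsum_eq_single (b0 i), tsum_eq_single (0 : (Fin r ⊕ Empty) → ℤ)]
    · simp [b0]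
    · intro γ hγ
      rw [if_pos rfl, Set.indicator_of_notMem]
      exact hγ
    · intro b hb
      rw [if_neg hb]
      simp

/-- index map -/
def g1 (r : ℕ) (K : Type) : Option (Fin r) → (Fin r ⊕ (Unit ⊕ K))
  | none => Sum.inr (Sum.inl ())
  | some l => Sum.inl l

/-- index map -/
def g2 (r : ℕ) (K : Type) : K → (Fin r ⊕ (Unit ⊕ K)) := fun x => Sum.inr (Sum.inr x)

/-- index map -/
def g0 (r s : ℕ) (J : Type) : (Fin s ⊕ Option (Fin r)) → (Fin r ⊕ (Unit ⊕ (Fin s ⊕ J))) :=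
  Sum.elim (fun j => g2 r _ (Sum.inl j)) (g1 r _)

/-- reindexing as an additive map -/
def pull {A B : Type} (g : A → B) : (B → ℤ) →+ (A → ℤ) :=
  AddMonoidHom.mk' (fun γ => fun x => γ (g x)) (fun _ _ => rfl)

/-- the new exponent -/
def expo {r : ℕ} {K : Type} (ℓ : (K → ℤ) →+ ℤ) : ((Fin r ⊕ (Unit ⊕ K)) → ℤ) →+ ℤ :=
  ℓ.comp (pull (g2 r K)) + Pi.evalAddMonoidHom (fun _ => ℤ) (g1 r K none)

theorem expo_apply {r : ℕ} {K : Type} (ℓ : (K → ℤ) →+ ℤ) (γ : (Fin r ⊕ (Unit ⊕ K)) → ℤ) :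
    expo ℓ γ = ℓ (fun x => γ (g2 r K x)) + γ (g1 r K none) := rfl

/-- the coordinates regrouped -/
def regroup (r : ℕ) (K Z : Type) :
    ((Fin r ⊕ (Unit ⊕ K)) → Z) ≃ (K → Z) × (Option (Fin r) → Z) where
  toFun γ := (fun x => γ (g2 r K x), fun o => γ (g1 r K o))
  invFun p := Sum.elim (fun l => p.2 (some l)) (Sum.elim (fun _ => p.2 none) p.1)
  left_inv γ := by
    funext x
    rcases x with l | u | y <;> rfl
  right_inv p := by
    refine Prod.ext ?_ ?_
    · rfl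
    · funext o
      rcases o with _ | l <;> rfl

theorem step (ch : ι → ℕ) (hch : ∀ (i : ι) (j : ℕ), 1 ≤ j → j < ch i → (j : k i) ≠ 0)
    [∀ i, MeasurableSpace (O i)] (μ : ∀ i, Measure (O i)) (q : ι → ℕ)
    (hq : ∀ i, Nat.card (k i) = q i) [∀ i, Finite (k i)]
    (hμ : ∀ i, IsUnif (R i).π (q i) (μ i)) {m : ℕ}
    (ih : ∀ {r : ℕ} (P : Fin r → MvPolynomial (Fin m) ℤ),
      ∃ (n0 : ℕ) (J κ : Type) (_ : Fintype J) (_ : Fintype κ)
      (E : κ → ∀ i, ((Fin r ⊕ J) → k i) → Set ((Fin r ⊕ J) → ℤ))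
      (ℓ : κ → ((Fin r ⊕ J) → ℤ) →+ ℤ),
      (∀ c, (Set.range fun x : (Σ i, ((Fin r ⊕ J) → k i)) => E c x.1 x.2).Finite) ∧
      (∀ c i b, IsSemilinearSet (E c i b)) ∧
      ∀ i, n0 ≤ ch i → ∀ Φ : (Fin r → ℤ) → (Fin r → k i) → ℝ≥0∞,
        iint (μ i) m (fun y => Φ (fun l => ((R i).v (MvPolynomial.aeval y (P l)) : ℤ))
          (fun l => (R i).ac (MvPolynomial.aeval y (P l)))) =
        ((q i : ℝ≥0∞) ^ m)⁻¹ * ∑ c : κ, ∑' (b : (Fin r ⊕ J) → k i), ∑' (γ : (Fin r ⊕ J) → ℤ),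
          (E c i b).indicator (fun γ => (q i : ℝ≥0∞) ^ (-(ℓ c γ)) *
            Φ (fun l => γ (Sum.inl l)) (fun l => b (Sum.inl l))) γ)
    {r : ℕ} (P : Fin r → MvPolynomial (Fin (m + 1)) ℤ) :
    ∃ (n0 : ℕ) (J κ : Type) (_ : Fintype J) (_ : Fintype κ)
      (E : κ → ∀ i, ((Fin r ⊕ J) → k i) → Set ((Fin r ⊕ J) → ℤ))
      (ℓ : κ → ((Fin r ⊕ J) → ℤ) →+ ℤ),
      (∀ c, (Set.range fun x : (Σ i, ((Fin r ⊕ J) → k i)) => E c x.1 x.2).Finite) ∧
      (∀ c i b, IsSemilinearSet (E c i b)) ∧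
      ∀ i, n0 ≤ ch i → ∀ Φ : (Fin r → ℤ) → (Fin r → k i) → ℝ≥0∞,
        iint (μ i) (m + 1) (fun y => Φ (fun l => ((R i).v (MvPolynomial.aeval y (P l)) : ℤ))
          (fun l => (R i).ac (MvPolynomial.aeval y (P l)))) =
        ((q i : ℝ≥0∞) ^ (m + 1))⁻¹ *
          ∑ c : κ, ∑' (b : (Fin r ⊕ J) → k i), ∑' (γ : (Fin r ⊕ J) → ℤ),
          (E c i b).indicator (fun γ => (q i : ℝ≥0∞) ^ (-(ℓ c γ)) *
            Φ (fun l => γ (Sum.inl l)) (fun l => b (Sum.inl l))) γ := by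
  classical
  obtain ⟨n, s, Q, κ, hκ, E, hEf, hEs, hE⟩ := fibre_normal R ch hch μ q hq hμ P
  obtain ⟨n0, J, κ', hJ, hκ', E', ℓ', hE'f, hE's, hE'⟩ := ih Q
  refine ⟨max n n0, Unit ⊕ (Fin s ⊕ J), κ' × κ, inferInstance, inferInstance,
    fun c i b => {γ | (fun x => γ (g2 r _ x)) ∈ E' c.1 i (fun x => b (g2 r _ x))} ∩
      {γ | (fun x => γ (g0 r s J x)) ∈ E c.2 i (fun x => b (g0 r s J x))},
    fun c => expo (ℓ' c.1), ?_, ?_, ?_⟩
  · rintro ⟨c', c⟩
    refine (Set.Finite.image2 (fun (A : Set ((Fin s ⊕ J) → ℤ))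
      (A' : Set ((Fin s ⊕ Option (Fin r)) → ℤ)) =>
        {γ : (Fin r ⊕ (Unit ⊕ (Fin s ⊕ J))) → ℤ | (fun x => γ (g2 r _ x)) ∈ A} ∩
        {γ | (fun x => γ (g0 r s J x)) ∈ A'}) (hE'f c') (hEf c)).subset ?_
    rintro _ ⟨⟨i, b⟩, rfl⟩
    exact ⟨_, ⟨⟨i, fun x => b (g2 r _ x)⟩, rfl⟩, _, ⟨⟨i, fun x => b (g0 r s J x)⟩, rfl⟩, rfl⟩
  · rintro ⟨c', c⟩ i b
    refine IsSemilinearSet.inter ?_ ?_
    · exact (hE's c' i _).preimage
        (pull (g2 r (Fin s ⊕ J)))
    · exact (hEs c i _).preimage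
        (pull (g0 r s J))
  · intro i hi Φ
    have hi1 : n ≤ ch i := le_trans (le_max_left _ _) hi
    have hi2 : n0 ≤ ch i := le_trans (le_max_right _ _) hi
    have hq0 : (q i : ℝ≥0∞) ≠ 0 := by
      rw [← hq i]
      have : 0 < Nat.card (k i) := Nat.card_pos
      exact_mod_cast this.ne'
    have hqt : (q i : ℝ≥0∞) ≠ ⊤ := ENNReal.natCast_ne_top _
    -- the function of the leading terms of `Q`
    let Φ' : (Fin s → ℤ) → (Fin s → k i) → ℝ≥0∞ := fun δ β =>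
      ∑ c : κ, ∑' (b : Option (Fin r) → k i), ∑' (γ : Option (Fin r) → ℤ),
            Set.indicator {γ' | Sum.elim δ γ' ∈ E c i (Sum.elim β b)}
              (fun γ' => (q i : ℝ≥0∞) ^ (-(γ' none + 1)) *
                Φ (fun l => γ' (some l)) (fun l => b (some l))) γ
    let G : κ' → κ → ((Fin s ⊕ J) → k i) → (Option (Fin r) → k i) → ((Fin s ⊕ J) → ℤ) →
        (Option (Fin r) → ℤ) → ℝ≥0∞ := fun c' c b' b γ' γ =>
      if γ' ∈ E' c' i b' ∧ Sum.elim (fun j => γ' (Sum.inl j)) γ ∈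
          E c i (Sum.elim (fun j => b' (Sum.inl j)) b) then
        (q i : ℝ≥0∞) ^ (-(ℓ' c' γ' + γ none)) * Φ (fun l => γ (some l)) (fun l => b (some l))
      else 0
    have h1 : iint (μ i) (m + 1)
        (fun y => Φ (fun l => ((R i).v (MvPolynomial.aeval y (P l)) : ℤ))
          (fun l => (R i).ac (MvPolynomial.aeval y (P l)))) =
        iint (μ i) m (fun y => Φ' (fun l => ((R i).v (MvPolynomial.aeval y (Q l)) : ℤ))
          (fun l => (R i).ac (MvPolynomial.aeval y (Q l)))) := by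
      rw [iint]
      congr 1
      funext x
      exact hE i hi1 x Φ
    rw [h1, hE' i hi2 Φ']
    have h2 : ∀ (c' : κ') (b' : (Fin s ⊕ J) → k i) (γ' : (Fin s ⊕ J) → ℤ),
        (E' c' i b').indicator (fun γ => (q i : ℝ≥0∞) ^ (-(ℓ' c' γ)) *
            Φ' (fun l => γ (Sum.inl l)) (fun l => b' (Sum.inl l))) γ' =
        (q i : ℝ≥0∞)⁻¹ * ∑' c : κ, ∑' (b : Option (Fin r) → k i), ∑' (γ : Option (Fin r) → ℤ),
          G c' c b' b γ' γ := by
      intro c' b' γ'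
      by_cases hγ : γ' ∈ E' c' i b'
      · rw [Set.indicator_of_mem hγ]
        show (q i : ℝ≥0∞) ^ (-(ℓ' c' γ')) * (∑ c : κ, ∑' (b : Option (Fin r) → k i),
          ∑' (γ : Option (Fin r) → ℤ), _) = _
        rw [← tsum_fintype (L := SummationFilter.unconditional _), ← ENNReal.tsum_mul_left,
          ← ENNReal.tsum_mul_left]
        refine tsum_congr fun c => ?_
        rw [← ENNReal.tsum_mul_left, ← ENNReal.tsum_mul_left]
        refine tsum_congr fun b => ?_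
        rw [← ENNReal.tsum_mul_left, ← ENNReal.tsum_mul_left]
        refine tsum_congr fun γ => ?_
        show (q i : ℝ≥0∞) ^ (-(ℓ' c' γ')) * _ = (q i : ℝ≥0∞)⁻¹ * (if _ then _ else 0)
        by_cases hm : Sum.elim (fun j => γ' (Sum.inl j)) γ ∈
          E c i (Sum.elim (fun j => b' (Sum.inl j)) b)
        · rw [if_pos ⟨hγ, hm⟩, Set.indicator_of_mem (by exact hm), ← mul_assoc, ← mul_assoc,
            ← ENNReal.zpow_add hq0 hqt]
          congr 1
          rw [← zpow_neg_one, ← ENNReal.zpow_add hq0 hqt]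
          congr 1
          ring
        · rw [if_neg (fun h => hm h.2), Set.indicator_of_notMem (by exact hm), mul_zero, mul_zero]
      · rw [Set.indicator_of_notMem hγ]
        symm
        have : ∀ c b γ, G c' c b' b γ' γ = 0 := fun c b γ => if_neg (fun h => hγ h.1)
        simp only [this, tsum_zero, mul_zero]
    have h3 : ∀ (c' : κ') (c : κ), (∑' (b : (Fin r ⊕ (Unit ⊕ (Fin s ⊕ J))) → k i),
        ∑' (γ : (Fin r ⊕ (Unit ⊕ (Fin s ⊕ J))) → ℤ),
          ({γ | (fun x => γ (g2 r _ x)) ∈ E' c' i (fun x => b (g2 r _ x))} ∩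
            {γ | (fun x => γ (g0 r s J x)) ∈ E c i (fun x => b (g0 r s J x))}).indicator
          (fun γ => (q i : ℝ≥0∞) ^ (-(expo (ℓ' c') γ)) *
            Φ (fun l => γ (Sum.inl l)) (fun l => b (Sum.inl l))) γ) =
        ∑' b' : (Fin s ⊕ J) → k i, ∑' (b : Option (Fin r) → k i), ∑' γ' : (Fin s ⊕ J) → ℤ,
          ∑' (γ : Option (Fin r) → ℤ), G c' c b' b γ' γ := by
      intro c' c
      rw [← ENNReal.tsum_prod (f := fun b' b => ∑' γ' : (Fin s ⊕ J) → ℤ,
          ∑' (γ : Option (Fin r) → ℤ), G c' c b' b γ' γ),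
        ← (regroup r (Fin s ⊕ J) (k i)).tsum_eq]
      refine tsum_congr fun b => ?_
      rw [← ENNReal.tsum_prod (f := fun γ' γ => G c' c _ _ γ' γ),
        ← (regroup r (Fin s ⊕ J) ℤ).tsum_eq]
      refine tsum_congr fun γ => ?_
      have e1 : ∀ (Z : Type) (δ : (Fin r ⊕ (Unit ⊕ (Fin s ⊕ J))) → Z),
          Sum.elim (fun j => (regroup r (Fin s ⊕ J) Z δ).1 (Sum.inl j))
            (regroup r (Fin s ⊕ J) Z δ).2 = fun x => δ (g0 r s J x) := by
        intro Z δ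
        funext x
        rcases x with j | o
        · rfl
        · rfl
      rw [Set.indicator_apply]
      refine if_congr ?_ rfl rfl
      rw [e1, e1]
      rfl
    have h4 : ∀ (c' : κ'), (∑' b' : (Fin s ⊕ J) → k i, ∑' γ' : (Fin s ⊕ J) → ℤ,
        ((q i : ℝ≥0∞)⁻¹ * ∑' c : κ, ∑' (b : Option (Fin r) → k i),
          ∑' (γ : Option (Fin r) → ℤ), G c' c b' b γ' γ)) =
        (q i : ℝ≥0∞)⁻¹ * ∑' c : κ, ∑' b' : (Fin s ⊕ J) → k i, ∑' (b : Option (Fin r) → k i),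
          ∑' γ' : (Fin s ⊕ J) → ℤ, ∑' (γ : Option (Fin r) → ℤ), G c' c b' b γ' γ := by
      intro c'
      simp only [ENNReal.tsum_mul_left]
      congr 1
      calc (∑' b' : (Fin s ⊕ J) → k i, ∑' γ' : (Fin s ⊕ J) → ℤ, ∑' c : κ,
            ∑' (b : Option (Fin r) → k i), ∑' (γ : Option (Fin r) → ℤ), G c' c b' b γ' γ)
          = ∑' b' : (Fin s ⊕ J) → k i, ∑' c : κ, ∑' γ' : (Fin s ⊕ J) → ℤ,
            ∑' (b : Option (Fin r) → k i), ∑' (γ : Option (Fin r) → ℤ), G c' c b' b γ' γ :=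
            tsum_congr fun b' => ENNReal.tsum_comm
        _ = ∑' c : κ, ∑' b' : (Fin s ⊕ J) → k i, ∑' γ' : (Fin s ⊕ J) → ℤ,
            ∑' (b : Option (Fin r) → k i), ∑' (γ : Option (Fin r) → ℤ), G c' c b' b γ' γ :=
            ENNReal.tsum_comm
        _ = _ := tsum_congr fun c => tsum_congr fun b' => ENNReal.tsum_comm
    have h5 : (∑ c' : κ', ∑' (b' : (Fin s ⊕ J) → k i), ∑' (γ' : (Fin s ⊕ J) → ℤ),
        (E' c' i b').indicator (fun γ => (q i : ℝ≥0∞) ^ (-(ℓ' c' γ)) *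
            Φ' (fun l => γ (Sum.inl l)) (fun l => b' (Sum.inl l))) γ') =
        (q i : ℝ≥0∞)⁻¹ * ∑ c' : κ', ∑ c : κ, ∑' b' : (Fin s ⊕ J) → k i,
          ∑' (b : Option (Fin r) → k i), ∑' γ' : (Fin s ⊕ J) → ℤ,
            ∑' (γ : Option (Fin r) → ℤ), G c' c b' b γ' γ := by
      rw [Finset.mul_sum]
      refine Finset.sum_congr rfl fun c' _ => ?_
      rw [← tsum_fintype (L := SummationFilter.unconditional κ), ← h4 c']
      exact tsum_congr fun b' => tsum_congr fun γ' => h2 c' b' γ'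
    rw [h5, Fintype.sum_prod_type, ← mul_assoc]
    have h6 : ((q i : ℝ≥0∞) ^ m)⁻¹ * (q i : ℝ≥0∞)⁻¹ = ((q i : ℝ≥0∞) ^ (m + 1))⁻¹ := by
      rw [pow_succ, ENNReal.mul_inv (Or.inr hqt) (Or.inr hq0)]
    rw [h6]
    congr 1
    refine Finset.sum_congr rfl fun c' _ => Finset.sum_congr rfl fun c _ => ?_
    exact (h3 c' c).symm

end

end Law

section

variable {ι : Type} {O k : ι → Type} [∀ i, CommRing (O i)] [∀ i, IsDomain (O i)]
  [∀ i, Field (k i)] (R : ∀ i, HDVR (O i) (k i))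

theorem law (ch : ι → ℕ) (hch : ∀ (i : ι) (j : ℕ), 1 ≤ j → j < ch i → (j : k i) ≠ 0)
    [∀ i, MeasurableSpace (O i)] (μ : ∀ i, Measure (O i)) (q : ι → ℕ)
    (hq : ∀ i, Nat.card (k i) = q i) [∀ i, Finite (k i)]
    (hμ : ∀ i, IsUnif (R i).π (q i) (μ i)) {m r : ℕ} (P : Fin r → MvPolynomial (Fin m) ℤ) :
    ∃ (n0 : ℕ) (J κ : Type) (_ : Fintype J) (_ : Fintype κ)
      (E : κ → ∀ i, ((Fin r ⊕ J) → k i) → Set ((Fin r ⊕ J) → ℤ))
      (ℓ : κ → ((Fin r ⊕ J) → ℤ) →+ ℤ),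
      (∀ c, (Set.range fun x : (Σ i, ((Fin r ⊕ J) → k i)) => E c x.1 x.2).Finite) ∧
      (∀ c i b, IsSemilinearSet (E c i b)) ∧
      ∀ i, n0 ≤ ch i → ∀ Φ : (Fin r → ℤ) → (Fin r → k i) → ℝ≥0∞,
        iint (μ i) m (fun y => Φ (fun l => ((R i).v (MvPolynomial.aeval y (P l)) : ℤ))
          (fun l => (R i).ac (MvPolynomial.aeval y (P l)))) =
        ((q i : ℝ≥0∞) ^ m)⁻¹ * ∑ c : κ, ∑' (b : (Fin r ⊕ J) → k i), ∑' (γ : (Fin r ⊕ J) → ℤ),
          (E c i b).indicator (fun γ => (q i : ℝ≥0∞) ^ (-(ℓ c γ)) *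
            Φ (fun l => γ (Sum.inl l)) (fun l => b (Sum.inl l))) γ := by
  induction m generalizing r with
  | zero => exact Law.base R ch hch μ q P
  | succ m ih => exact Law.step R ch hch μ q hq hμ (fun P => ih P) P

end

end Pool.Agent.Lib.H70.Top
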