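import Pool.Agent.Lib.H70.Top.GenFun

/-!
# Chunk RATIONAL, part 1: Laurent polynomial functions and families of generating functions
-/

namespace Pool.Agent.Lib.H70.Top

open scoped BigOperators

namespace Rat

/-- `g` is a Laurent polynomial function on `t > 0` with exponents in `[-K, K]`. -/
def Lau (K : ℕ) (g : ℝ → ℝ) : Prop :=
  ∃ Q : Polynomial ℝ, Q.natDegree ≤ 2 * K ∧ ∀ t : ℝ, 0 < t → t ^ K * g t = Q.eval t

theorem Lau.mono {K K' : ℕ} {g : ℝ → ℝ} (h : Lau K g) (hK : K ≤ K') : Lau K' g := by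
  obtain ⟨Q, hQ, hg⟩ := h
  obtain ⟨e, rfl⟩ := Nat.exists_eq_add_of_le hK
  refine ⟨Polynomial.X ^ e * Q, ?_, ?_⟩
  · refine Polynomial.natDegree_mul_le.trans ?_
    rw [Polynomial.natDegree_X_pow]
    omega
  · intro t ht
    rw [Polynomial.eval_mul, Polynomial.eval_pow, Polynomial.eval_X, ← hg t ht]
    ring

theorem Lau.add {K : ℕ} {g h : ℝ → ℝ} (hg : Lau K g) (hh : Lau K h) :
    Lau K (fun t => g t + h t) := by
  obtain ⟨Q, hQ, hQg⟩ := hg
  obtain ⟨Q', hQ', hQg'⟩ := hh
  refine ⟨Q + Q', (Polynomial.natDegree_add_le _ _).trans (max_le hQ hQ'), ?_⟩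
  intro t ht
  rw [Polynomial.eval_add, ← hQg t ht, ← hQg' t ht]
  ring

theorem Lau.zero (K : ℕ) : Lau K (fun _ => 0) := ⟨0, by simp, fun t _ => by simp⟩

theorem Lau.sum {α : Type*} {K : ℕ} (s : Finset α) (g : α → ℝ → ℝ) (hg : ∀ a ∈ s, Lau K (g a)) :
    Lau K (fun t => ∑ a ∈ s, g a t) := by
  classical
  induction s using Finset.induction_on with
  | empty => simpa using Lau.zero K
  | insert a s ha ih =>
    simp only [Finset.sum_insert ha]
    exact (hg a (Finset.mem_insert_self _ _)).add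
      (ih fun b hb => hg b (Finset.mem_insert_of_mem hb))

theorem Lau.listSum {α : Type*} {K : ℕ} (s : List α) (g : α → ℝ → ℝ) (hg : ∀ a ∈ s, Lau K (g a)) :
    Lau K (fun t => (s.map fun a => g a t).sum) := by
  induction s with
  | nil => simpa using Lau.zero K
  | cons a s ih =>
    simp only [List.map_cons, List.sum_cons]
    exact (hg a (by simp)).add (ih fun b hb => hg b (by simp [hb]))

theorem Lau.mul {K K' : ℕ} {g h : ℝ → ℝ} (hg : Lau K g) (hh : Lau K' h) :
    Lau (K + K') (fun t => g t * h t) := by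
  obtain ⟨Q, hQ, hQg⟩ := hg
  obtain ⟨Q', hQ', hQg'⟩ := hh
  refine ⟨Q * Q', Polynomial.natDegree_mul_le.trans (by omega), ?_⟩
  intro t ht
  rw [Polynomial.eval_mul, ← hQg t ht, ← hQg' t ht]
  ring

theorem Lau.one : Lau 0 (fun _ => 1) := ⟨1, by simp, fun t _ => by simp⟩

theorem Lau.monomial (c : ℝ) (z : ℤ) {K : ℕ} (hz : z.natAbs ≤ K) :
    Lau K (fun t => c * t ^ z) := by
  refine ⟨Polynomial.C c * Polynomial.X ^ ((K : ℤ) + z).toNat, ?_, ?_⟩
  · refine (Polynomial.natDegree_C_mul_X_pow_le _ _).trans ?_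
    omega
  · intro t ht
    simp only [Polynomial.eval_mul, Polynomial.eval_C, Polynomial.eval_pow, Polynomial.eval_X]
    have h1 : t ^ ((K : ℤ) + z).toNat = t ^ K * t ^ z := by
      rw [← zpow_natCast t (((K : ℤ) + z).toNat), Int.toNat_of_nonneg (by omega),
        zpow_add₀ ht.ne', zpow_natCast]
    rw [h1]; ring

theorem Lau.const_mul {K : ℕ} {g : ℝ → ℝ} (c : ℝ) (hg : Lau K g) : Lau K (fun t => c * g t) := by
  have h := (Lau.monomial c 0 (K := 0) (by simp)).mul hg
  simpa using h

theorem Lau.factor (c : ℝ) (m : ℕ) : Lau m (fun t => 1 - c * t ^ m) := by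
  have h1 : Lau m (fun _ => (1 : ℝ)) := Lau.one.mono (Nat.zero_le _)
  have h2 : Lau m (fun t => (-c) * t ^ (m : ℤ)) := Lau.monomial (-c) m (by simp)
  have h3 := h1.add h2
  simpa [sub_eq_add_neg] using h3

/-- the product of the factors `1 - q^a t^b` -/
noncomputable def fac (J : List (ℤ × ℕ)) (q t : ℝ) : ℝ :=
  (J.map fun x => 1 - q ^ x.1 * t ^ x.2).prod

theorem fac_append (J J' : List (ℤ × ℕ)) (q t : ℝ) : fac (J ++ J') q t = fac J q t * fac J' q t := by
  simp [fac]

theorem Lau.fac (J : List (ℤ × ℕ)) (q : ℝ) : Lau (J.map Prod.snd).sum (fun t => Rat.fac J q t) := by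
  induction J with
  | nil => simpa [Rat.fac] using Lau.one
  | cons x J ih =>
    have := (Lau.factor (q ^ x.1) x.2).mul ih
    simpa [Rat.fac] using this

/-- one semilinear set -/
theorem genfun_one {α : Type} [Finite α] (A : Set (α → ℤ)) (hA : IsSemilinearSet A)
    (e h : (α → ℤ) →+ ℤ) :
    ∃ (J : List (ℤ × ℕ)) (K : ℕ), (∀ x ∈ J, 1 ≤ x.2) ∧ ∀ q t0 : ℝ, 1 < q → 0 < t0 → t0 ≤ 1 →
      (∀ t : ℝ, 0 < t → t < t0 → Summable fun u : A => q ^ (e u) * t ^ (h u)) →
      ∃ g : ℝ → ℝ, Lau K g ∧ ∀ t : ℝ, 0 < t → t < t0 →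
        (∑' u : A, q ^ (e u) * t ^ (h u)) * fac J q t = g t := by
  obtain ⟨J, S, hJS⟩ := genfun A hA e h
  refine ⟨(J.filter fun x => 1 ≤ x.2).map fun x => (x.1, x.2.toNat),
    (S.map fun x => x.2.2.natAbs).sum, ?_, ?_⟩
  · intro x hx
    simp only [List.mem_map, List.mem_filter, decide_eq_true_eq] at hx
    obtain ⟨y, ⟨_, hy⟩, rfl⟩ := hx
    simp only
    omega
  intro q t0 hq ht0 ht01 hsum
  have hq0 : 0 < q := by linarith
  -- all exponents are nonnegative
  have hnn : ∀ x ∈ J, 0 ≤ x.2 := by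
    intro x hx
    by_contra hneg
    push Not at hneg
    -- `q^{x.1} t^{x.2} < 1` for all small `t`
    have hlt : ∀ t : ℝ, 0 < t → t < t0 → q ^ x.1 * t ^ x.2 < 1 := fun t h0 h1 =>
      (hJS q t hq h0 (h1.trans_le ht01) (hsum t h0 h1)).1 x hx
    obtain ⟨m, hm⟩ : ∃ m : ℕ, x.2 = -((m : ℤ) + 1) := ⟨(-x.2 - 1).toNat, by omega⟩
    set Q := q ^ x.1 with hQ
    have hQ0 : 0 < Q := by positivity
    set t := min (t0 / 2) (Q / 2) with ht
    have htp : 0 < t := by positivity
    have htt0 : t < t0 := (min_le_left _ _).trans_lt (by linarith)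
    have htQ : t < Q := (min_le_right _ _).trans_lt (by linarith)
    have ht1 : t ≤ 1 := htt0.le.trans ht01
    have h1 := hlt t htp htt0
    rw [hm, zpow_neg, ← div_eq_mul_inv, div_lt_one (by positivity)] at h1
    have h2 : t ^ ((m : ℤ) + 1) ≤ t := by
      have : t ^ ((m : ℤ) + 1) = t ^ (m + 1) := by
        rw [← zpow_natCast]; push_cast; rfl
      rw [this, pow_succ]
      have := pow_le_one₀ (n := m) htp.le ht1
      nlinarith
    linarith
  set c0 : ℝ := ((J.filter fun x => ¬ 1 ≤ x.2).map fun x => 1 - q ^ x.1).prod with hc0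
  have hprod : ∀ t : ℝ, 0 < t → (J.map fun x => 1 - q ^ x.1 * t ^ x.2).prod =
      fac ((J.filter fun x => 1 ≤ x.2).map fun x => (x.1, x.2.toNat)) q t * c0 := by
    intro t ht
    rw [hc0]
    clear hJS hsum hc0 c0
    induction J with
    | nil => simp [fac]
    | cons x J ih =>
      have hnn' : ∀ x ∈ J, 0 ≤ x.2 := fun y hy => hnn y (List.mem_cons_of_mem _ hy)
      have hx := hnn x (by simp)
      have ih' := ih hnn'
      rw [List.map_cons, List.prod_cons, ih']
      by_cases h1 : 1 ≤ x.2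
      · rw [List.filter_cons_of_pos (by simpa using h1), List.filter_cons_of_neg (by simpa using h1)]
        simp only [fac, List.map_cons, List.prod_cons]
        have : t ^ x.2 = t ^ x.2.toNat := by
          conv_lhs => rw [← Int.toNat_of_nonneg hx]
          rw [zpow_natCast]
        rw [this]; ring
      · rw [List.filter_cons_of_neg (by simpa using h1), List.filter_cons_of_pos (by simpa using h1)]
        have h2 : x.2 = 0 := by omega
        simp only [List.map_cons, List.prod_cons, h2, zpow_zero, mul_one]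
        ring
  have hc0' : c0 ≠ 0 := by
    rw [hc0]
    apply List.prod_ne_zero
    intro hmem
    simp only [List.mem_map, List.mem_filter] at hmem
    obtain ⟨x, ⟨hx, hx1⟩, hx2⟩ := hmem
    have hx3 : x.2 = 0 := by
      have := hnn x hx
      have h5 : ¬ (1 ≤ x.2) := by simpa using hx1
      omega
    have := (hJS q (t0 / 2) hq (by positivity) (by linarith)
      (hsum _ (by positivity) (by linarith))).1 x hx
    rw [hx3, zpow_zero, mul_one] at this
    linarith
  refine ⟨fun t => c0⁻¹ * (S.map fun x => (x.1 : ℝ) * q ^ x.2.1 * t ^ x.2.2).sum, ?_, ?_⟩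
  · apply Lau.const_mul
    apply Lau.listSum
    intro x hx
    apply Lau.monomial
    exact List.single_le_sum (by simp) _ (List.mem_map.2 ⟨x, hx, rfl⟩)
  · intro t ht0' ht1'
    have h1 := (hJS q t hq ht0' (ht1'.trans_le ht01) (hsum t ht0' ht1')).2
    rw [hprod t ht0'] at h1
    beta_reduce
    rw [← h1]
    field_simp

/-- a finite family of semilinear sets, common denominator -/
theorem genfun_family {Λ : Type*} [Finite Λ] {α : Type} [Finite α] (A : Λ → Set (α → ℤ))
    (hA : ∀ a, IsSemilinearSet (A a)) (e : Λ → (α → ℤ) →+ ℤ) (h : (α → ℤ) →+ ℤ) :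
    ∃ (J : List (ℤ × ℕ)) (K : ℕ), (∀ x ∈ J, 1 ≤ x.2) ∧ ∀ (a : Λ) (q t0 : ℝ), 1 < q → 0 < t0 →
      t0 ≤ 1 →
      (∀ t : ℝ, 0 < t → t < t0 → Summable fun u : A a => q ^ (e a u) * t ^ (h u)) →
      ∃ g : ℝ → ℝ, Lau K g ∧ ∀ t : ℝ, 0 < t → t < t0 →
        (∑' u : A a, q ^ (e a u) * t ^ (h u)) * fac J q t = g t := by
  classical
  have := Fintype.ofFinite Λ
  choose J K hJ1 hJ using fun a => genfun_one (A a) (hA a) (e a) h
  -- concatenate
  have key : ∀ s : Finset Λ, ∃ (J' : List (ℤ × ℕ)), (∀ x ∈ J', 1 ≤ x.2) ∧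
      ∀ a ∈ s, ∃ J'' : List (ℤ × ℕ), ∀ q t : ℝ, fac J' q t = fac (J a) q t * fac J'' q t := by
    intro s
    induction s using Finset.induction_on with
    | empty => exact ⟨[], by simp, by simp⟩
    | insert b s hb ih =>
      obtain ⟨J', h1, h2⟩ := ih
      refine ⟨J b ++ J', ?_, ?_⟩
      · intro x hx
        rcases List.mem_append.1 hx with hx | hx
        · exact hJ1 b x hx
        · exact h1 x hx
      · intro a ha
        rcases Finset.mem_insert.1 ha with rfl | ha
        · exact ⟨J', fun q t => fac_append _ _ _ _⟩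
        · obtain ⟨J'', h3⟩ := h2 a ha
          refine ⟨J b ++ J'', fun q t => ?_⟩
          rw [fac_append, h3, fac_append]; ring
  obtain ⟨J', hJ'1, hJ'⟩ := key Finset.univ
  choose J'' hJ'' using fun a => hJ' a (Finset.mem_univ a)
  refine ⟨J', ∑ a, (K a + ((J'' a).map Prod.snd).sum), hJ'1, ?_⟩
  intro a q t0 hq ht0 ht01 hsum
  obtain ⟨g, hg, hg'⟩ := hJ a q t0 hq ht0 ht01 hsum
  refine ⟨fun t => g t * fac (J'' a) q t, ?_, ?_⟩
  · refine (hg.mul (Lau.fac (J'' a) q)).mono ?_
    exact Finset.single_le_sum (f := fun a => K a + ((J'' a).map Prod.snd).sum)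
      (fun _ _ => Nat.zero_le _) (Finset.mem_univ a)
  · intro t h0 h1
    beta_reduce
    rw [← hg' t h0 h1, hJ'']
    ring

/-! ### Power series -/

theorem hs_congr {f g : ℕ → ℝ} {s : ℝ} (h : HasSum f s) (e : ∀ n, f n = g n) : HasSum g s := by
  rwa [funext e] at h

theorem hasSum_mul_factor (G : PowerSeries ℝ) (c t s : ℝ) (m : ℕ)
    (h : HasSum (fun n => PowerSeries.coeff n G * t ^ n) s) :
    HasSum (fun n => PowerSeries.coeff n
      (G * (1 - PowerSeries.C c * PowerSeries.X ^ m)) * t ^ n) (s * (1 - c * t ^ m)) := by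
  have h1 : ∀ n, PowerSeries.coeff n (G * (1 - PowerSeries.C c * PowerSeries.X ^ m)) * t ^ n =
      PowerSeries.coeff n G * t ^ n -
        c * (if m ≤ n then PowerSeries.coeff (n - m) G * t ^ n else 0) := by
    intro n
    rw [mul_sub, mul_one, map_sub, sub_mul]
    congr 1
    rw [show G * (PowerSeries.C c * PowerSeries.X ^ m) = PowerSeries.C c * (G * PowerSeries.X ^ m) by
      ring, PowerSeries.coeff_C_mul, PowerSeries.coeff_mul_X_pow']
    split_ifs <;> ring
  simp only [h1]
  have h2 : HasSum (fun n => if m ≤ n then PowerSeries.coeff (n - m) G * t ^ n else 0)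
      (s * t ^ m) := by
    have hinj : Function.Injective (fun n : ℕ => n + m) := fun a b h => by simpa using h
    rw [← hinj.hasSum_iff]
    · have := h.mul_right (t ^ m)
      refine hs_congr this fun n => ?_
      simp only [Function.comp, Nat.le_add_left, if_true, Nat.add_sub_cancel]
      ring
    · intro n hn
      rw [if_neg]
      intro hmn
      exact hn ⟨n - m, by simp [Nat.sub_add_cancel hmn]⟩
  have h3 := h.sub (h2.mul_left c)
  have h4 : s * (1 - c * t ^ m) = s - c * (s * t ^ m) := by ring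
  rw [h4]
  exact h3

theorem hasSum_mul_fac (G : PowerSeries ℝ) (q t s : ℝ) (J : List (ℤ × ℕ))
    (h : HasSum (fun n => PowerSeries.coeff n G * t ^ n) s) :
    HasSum (fun n => PowerSeries.coeff n
      (G * (J.map fun x => (1 - PowerSeries.C (q ^ x.1) * PowerSeries.X ^ x.2)).prod) * t ^ n)
      (s * fac J q t) := by
  induction J generalizing G s with
  | nil => simpa [fac] using h
  | cons x J ih =>
    have h1 := hasSum_mul_factor G (q ^ x.1) t s x.2 h
    have h2 := ih _ _ h1
    simp only [List.map_cons, List.prod_cons, fac] at h2 ⊢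
    rw [← mul_assoc, ← mul_assoc]
    exact h2

/-- uniqueness of coefficients -/
theorem coeff_eq_zero_of_hasSum (a : ℕ → ℝ) (t0 : ℝ) (ht0 : 0 < t0)
    (h : ∀ t : ℝ, 0 < t → t < t0 → HasSum (fun n => a n * t ^ n) 0) : ∀ n, a n = 0 := by
  intro n
  induction n using Nat.strong_induction_on with
  | _ n ih =>
    by_contra hn
    -- at t1 = t0 / 2 the terms are bounded
    set t1 := t0 / 2 with ht1
    have ht1p : 0 < t1 := by positivity
    have hs1 := (h t1 ht1p (by linarith)).summable
    obtain ⟨B, hB⟩ : ∃ B : ℝ, ∀ m, |a m * t1 ^ m| ≤ B := by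
      have := hs1.tendsto_atTop_zero
      obtain ⟨B, hB⟩ := this.abs.bddAbove_range
      exact ⟨B, fun m => hB ⟨m, rfl⟩⟩
    have hB0 : 0 ≤ B := (abs_nonneg _).trans (hB 0)
    -- for t = x t1 with small x
    have key : ∀ x : ℝ, 0 < x → x ≤ 1 / 2 → |a n * t1 ^ n| ≤ 2 * B * x := by
      intro x hx hx1
      have h1 := h (x * t1) (by positivity) (by nlinarith)
      have h2 : HasSum (fun m => a (m + n) * (x * t1) ^ (m + n)) 0 := by
        have := (hasSum_nat_add_iff (f := fun n => a n * (x * t1) ^ n) n (g := 0)).2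
        apply this
        rw [Finset.sum_eq_zero]
        · simpa using h1
        · intro i hi
          rw [ih i (Finset.mem_range.1 hi)]; simp
      have h3 : HasSum (fun m => a (m + n) * t1 ^ (m + n) * x ^ m) 0 := by
        have := h2.mul_right ((x ^ n)⁻¹)
        rw [zero_mul] at this
        refine hs_congr this fun m => ?_
        rw [mul_pow, pow_add x]
        field_simp
      have h4 : HasSum (fun m => a (m + 1 + n) * t1 ^ (m + 1 + n) * x ^ (m + 1))
          (-(a n * t1 ^ n)) := by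
        have := (hasSum_nat_add_iff (f := fun m => a (m + n) * t1 ^ (m + n) * x ^ m) 1
          (g := -(a n * t1 ^ n))).2
        apply this
        simpa using h3
      have h5 : HasSum (fun m => B * x ^ (m + 1)) (B * x * (1 - x)⁻¹) := by
        have := (hasSum_geometric_of_lt_one hx.le (by linarith : x < 1)).mul_left (B * x)
        refine hs_congr this fun m => ?_
        ring
      have h6 : |-(a n * t1 ^ n)| ≤ B * x * (1 - x)⁻¹ := by
        have h7 : ∀ m, ‖a (m + 1 + n) * t1 ^ (m + 1 + n) * x ^ (m + 1)‖ ≤ B * x ^ (m + 1) := by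
          intro m
          rw [Real.norm_eq_abs, abs_mul, abs_of_pos (pow_pos hx (m + 1))]
          exact mul_le_mul_of_nonneg_right (hB _) (pow_pos hx (m + 1)).le
        have h8 := tsum_of_norm_bounded h5 h7
        rw [h4.tsum_eq] at h8
        exact h8
      rw [abs_neg] at h6
      refine h6.trans ?_
      have h8 : (1 - x)⁻¹ ≤ 2 := by
        rw [inv_le_comm₀ (by linarith) (by norm_num)]
        linarith
      nlinarith [mul_nonneg hB0 hx.le]
    have hpos : 0 < |a n * t1 ^ n| := by
      rw [abs_pos]; exact mul_ne_zero hn (by positivity)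
    set x := min (1 / 2) (|a n * t1 ^ n| / (2 * B + 1) / 2) with hx
    have hxp : 0 < x := by positivity
    have h1 := key x hxp (min_le_left _ _)
    have h2 : x ≤ |a n * t1 ^ n| / (2 * B + 1) / 2 := min_le_right _ _
    have h3 : x * (2 * B + 1) ≤ |a n * t1 ^ n| / 2 := by
      calc x * (2 * B + 1) ≤ |a n * t1 ^ n| / (2 * B + 1) / 2 * (2 * B + 1) :=
            mul_le_mul_of_nonneg_right h2 (by linarith)
        _ = _ := by field_simp
    nlinarith

/-- a power series which agrees with a Laurent polynomial function for small `t` -/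
theorem coeff_eq_zero_of_lau (a : ℕ → ℝ) (t0 : ℝ) (ht0 : 0 < t0) (K : ℕ) (g : ℝ → ℝ)
    (hg : Lau K g) (h : ∀ t : ℝ, 0 < t → t < t0 → HasSum (fun n => a n * t ^ n) (g t)) :
    ∀ n, K < n → a n = 0 := by
  obtain ⟨Q, hQ, hQg⟩ := hg
  have h1 : ∀ n, (if K ≤ n then a (n - K) else 0) - Q.coeff n = 0 := by
    apply coeff_eq_zero_of_hasSum _ t0 ht0
    intro t ht ht'
    have h2 : HasSum (fun n => (if K ≤ n then a (n - K) else 0) * t ^ n) (t ^ K * g t) := by
      have hinj : Function.Injective (fun n : ℕ => n + K) := fun a b h => by simpa using h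
      rw [← hinj.hasSum_iff]
      · have := (h t ht ht').mul_left (t ^ K)
        refine hs_congr this fun n => ?_
        simp only [Function.comp, Nat.le_add_left, if_true, Nat.add_sub_cancel]
        ring
      · intro n hn
        rw [if_neg, zero_mul]
        intro hmn
        exact hn ⟨n - K, by simp [Nat.sub_add_cancel hmn]⟩
    have h3 : HasSum (fun n => Q.coeff n * t ^ n) (Q.eval t) := by
      rw [Polynomial.eval_eq_sum_range]
      apply hasSum_sum_of_ne_finset_zero
      intro n hn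
      rw [Polynomial.coeff_eq_zero_of_natDegree_lt, zero_mul]
      simpa using hn
    have h4 := h2.sub h3
    rw [hQg t ht, sub_self] at h4
    refine hs_congr h4 fun n => ?_
    ring
  intro n hn
  have h2 := h1 (n + K)
  rw [if_pos (by omega), Nat.add_sub_cancel, Polynomial.coeff_eq_zero_of_natDegree_lt (by omega),
    sub_zero] at h2
  exact h2

end Rat

end Pool.Agent.Lib.H70.Top
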