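import Pool.Agent.Lib.H70.Top.Law
import Pool.Agent.Lib.H70.Top.Rat1
import Pool.Agent.Lib.H70.Top.H
import Pool.Agent.Lib.H70.Top.G

/-!
# Chunk RATIONAL: uniform rationality
-/

namespace Pool.Agent.Lib.H70.Top

open MeasureTheory
open scoped BigOperators ENNReal

namespace Rat

theorem ofReal_zpow {q : ℝ} (hq : 0 < q) (z : ℤ) :
    ENNReal.ofReal (q ^ z) = (ENNReal.ofReal q) ^ z := by
  cases z with
  | ofNat n => simp [ENNReal.ofReal_pow hq.le]
  | negSucc n =>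
    rw [zpow_negSucc, zpow_negSucc, ENNReal.ofReal_inv_of_pos (by positivity),
      ENNReal.ofReal_pow hq.le]

theorem dvd_iff_rv {O k : Type*} [CommRing O] [IsDomain O] [Field k] (R : HDVR O k) {x y : O}
    (hx : x ≠ 0) : x ∣ y ↔ R.ac y = 0 ∨ (R.v x : ℤ) ≤ R.v y := by
  obtain ⟨u, hu, _, hu3⟩ := R.exists_rep hx
  have hunit := R.unit u hu3
  have h1 : x ∣ y ↔ R.π ^ R.v x ∣ y := by
    constructor
    · intro h
      exact (R.dvd_v x).trans h
    · intro h
      rw [hu]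
      exact (IsUnit.mul_right_dvd hunit).2 h
  rw [h1]
  by_cases hy : y = 0
  · subst hy; simp
  · rw [R.dvd_iff hy]
    have : R.ac y ≠ 0 := R.ac_ne hy
    simp [this]

theorem det_iff_rv {O k : Type*} [CommRing O] [IsDomain O] [Field k] (R : HDVR O k) (x : O)
    (n : ℕ) : (∃ u : O, IsUnit u ∧ x = R.π ^ n * u) ↔ R.ac x ≠ 0 ∧ (R.v x : ℤ) = n := by
  constructor
  · rintro ⟨u, hu, rfl⟩
    have hu' : R.res u ≠ 0 := (hu.map R.res).ne_zero
    refine ⟨?_, by rw [R.v_eq hu']⟩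
    rw [R.ac_eq hu']
    exact hu'
  · rintro ⟨h1, h2⟩
    have hx : x ≠ 0 := fun h => h1 (by rw [h, R.ac_zero])
    obtain ⟨u, hu, _, hu3⟩ := R.exists_rep hx
    refine ⟨u, R.unit u hu3, ?_⟩
    have : R.v x = n := by exact_mod_cast h2
    rw [this] at hu
    exact hu

/-- the generic determinant and the closedness polynomials -/
noncomputable def gen {d : ℕ} (c : Fin d → Fin d → Fin d → ℤ) :
    Option (Fin d × Fin d × Fin d) → MvPolynomial (Fin (d * d)) ℤ
  | none => (mat (fun l => MvPolynomial.X l : Fin (d * d) → MvPolynomial (Fin (d * d)) ℤ)).det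
  | some (i, j, l) =>
    let Y := mat (fun l => MvPolynomial.X l : Fin (d * d) → MvPolynomial (Fin (d * d)) ℤ)
    Matrix.vecMul (amul c (Y i) (Y j)) Y.adjugate l

theorem aeval_mat {d : ℕ} {O : Type*} [CommRing O] (y : Fin (d * d) → O) :
    (mat (fun l => MvPolynomial.X l : Fin (d * d) → MvPolynomial (Fin (d * d)) ℤ)).map
      (MvPolynomial.aeval y : MvPolynomial (Fin (d * d)) ℤ →ₐ[ℤ] O) = mat y := by
  ext i j
  simp [mat]

theorem aeval_det {d : ℕ} {O : Type*} [CommRing O] (c : Fin d → Fin d → Fin d → ℤ)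
    (y : Fin (d * d) → O) : MvPolynomial.aeval y (gen c none) = (mat y).det := by
  have h := RingHom.map_det ((MvPolynomial.aeval y : MvPolynomial (Fin (d * d)) ℤ →ₐ[ℤ] O) :
    MvPolynomial (Fin (d * d)) ℤ →+* O)
    (mat (fun l => MvPolynomial.X l : Fin (d * d) → MvPolynomial (Fin (d * d)) ℤ))
  rw [← aeval_mat y]
  exact h

theorem aeval_clo {d : ℕ} {O : Type*} [CommRing O] (c : Fin d → Fin d → Fin d → ℤ)
    (y : Fin (d * d) → O) (i j l : Fin d) : MvPolynomial.aeval y (gen c (some (i, j, l))) =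
      Matrix.vecMul (amul c (mat y i) (mat y j)) (mat y).adjugate l := by
  set φ : MvPolynomial (Fin (d * d)) ℤ →+* O :=
    ((MvPolynomial.aeval y : MvPolynomial (Fin (d * d)) ℤ →ₐ[ℤ] O) :
    MvPolynomial (Fin (d * d)) ℤ →+* O) with hφ
  set Y := mat (fun l => MvPolynomial.X l : Fin (d * d) → MvPolynomial (Fin (d * d)) ℤ) with hY
  have h1 : φ (Matrix.vecMul (amul c (Y i) (Y j)) Y.adjugate l) =
      Matrix.vecMul (φ ∘ amul c (Y i) (Y j)) (Y.adjugate.map φ) l := RingHom.map_vecMul φ _ _ _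
  have h2 : Y.adjugate.map φ = (mat y).adjugate := by
    have := RingHom.map_adjugate φ Y
    rw [RingHom.mapMatrix_apply, RingHom.mapMatrix_apply] at this
    rw [this]
    congr 1
    exact aeval_mat y
  have hent : ∀ a b, φ (Y a b) = mat y a b := by
    intro a b
    have := congrFun (congrFun (aeval_mat y) a) b
    exact this
  have h3 : φ ∘ amul c (Y i) (Y j) = amul c (mat y i) (mat y j) := by
    funext m
    simp only [Function.comp, amul, map_sum, map_mul, map_intCast, hent]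
  have h4 : MvPolynomial.aeval y (gen c (some (i, j, l))) =
    φ (Matrix.vecMul (amul c (Y i) (Y j)) Y.adjugate l) := rfl
  rw [h4, h1, h2, h3]

theorem tsum_swap {κ β Γ : Type*} [Fintype κ] (X : ℕ → κ → β → Γ → ℝ≥0∞) (x : κ → β → Γ → ℝ≥0∞)
    (h : ∀ c b γ, ∑' n, X n c b γ = x c b γ) :
    ∑' n, ∑ c, ∑' b, ∑' γ, X n c b γ = ∑ c, ∑' b, ∑' γ, x c b γ := by
  simp only [← tsum_fintype (L := SummationFilter.unconditional κ)]
  rw [ENNReal.tsum_comm]
  refine tsum_congr fun c => ?_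
  rw [ENNReal.tsum_comm]
  refine tsum_congr fun b => ?_
  rw [ENNReal.tsum_comm]
  exact tsum_congr fun γ => h c b γ

open Classical in
/-- the semilinear set attached to a cell and a residue datum -/
def cut {r : ℕ} {J k : Type*} [Field k] (D : Fin r) (E : Set ((Fin r ⊕ J) → ℤ))
    (b : (Fin r ⊕ J) → k) : Set ((Fin r ⊕ J) → ℤ) :=
  if b (Sum.inl D) = 0 then ∅ else
    E ∩ ({γ | 0 ≤ γ (Sum.inl D)} ∩ ⋂ l : Fin r,
      (if b (Sum.inl l) = 0 then Set.univ else {γ | γ (Sum.inl D) ≤ γ (Sum.inl l)}))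

theorem mem_cut {r : ℕ} {J k : Type*} [Field k] (D : Fin r) (E : Set ((Fin r ⊕ J) → ℤ))
    (b : (Fin r ⊕ J) → k) (γ : (Fin r ⊕ J) → ℤ) : γ ∈ cut D E b ↔ γ ∈ E ∧ b (Sum.inl D) ≠ 0 ∧
      0 ≤ γ (Sum.inl D) ∧ ∀ l : Fin r, b (Sum.inl l) = 0 ∨ γ (Sum.inl D) ≤ γ (Sum.inl l) := by
  classical
  unfold cut
  by_cases h : b (Sum.inl D) = 0
  · simp [h]
  · rw [if_neg h]
    simp only [Set.mem_inter_iff, Set.mem_iInter]
    have h1 : ∀ l : Fin r, (γ ∈ (if b (Sum.inl l) = 0 then Set.univ else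
        {γ : (Fin r ⊕ J) → ℤ | γ (Sum.inl D) ≤ γ (Sum.inl l)})) ↔
        (b (Sum.inl l) = 0 ∨ γ (Sum.inl D) ≤ γ (Sum.inl l)) := by
      intro l
      by_cases hl : b (Sum.inl l) = 0
      · simp [hl]
      · rw [if_neg hl]
        simp only [hl, false_or]
        exact Iff.rfl
    have h2 : (γ ∈ {γ : (Fin r ⊕ J) → ℤ | 0 ≤ γ (Sum.inl D)}) ↔ 0 ≤ γ (Sum.inl D) := Iff.rfl
    rw [h2]
    constructor
    · rintro ⟨h3, h4, h5⟩
      exact ⟨h3, h, h4, fun l => (h1 l).1 (h5 l)⟩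
    · rintro ⟨h3, _, h4, h5⟩
      exact ⟨h3, h4, fun l => (h1 l).2 (h5 l)⟩

theorem isSemilinearSet_cut {r : ℕ} {J k : Type*} [Field k] [Finite J] (D : Fin r)
    (E : Set ((Fin r ⊕ J) → ℤ)) (b : (Fin r ⊕ J) → k) (hE : IsSemilinearSet E) :
    IsSemilinearSet (cut D E b) := by
  classical
  unfold cut
  split_ifs with h
  · exact IsSemilinearSet.empty
  · refine hE.inter (IsSemilinearSet.inter ?_ (IsSemilinearSet.iInter fun l => ?_))
    · exact (SemiFun.eval (J := Fin r ⊕ J) (Sum.inl D)).preimage isSemilinearSet_nonneg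
    · split_ifs with hl
      · exact IsSemilinearSet.univ
      · have h1 : SemiFun (fun γ : (Fin r ⊕ J) → ℤ => γ (Sum.inl l) + γ (Sum.inl D) * (-1)) :=
          (SemiFun.eval (J := Fin r ⊕ J) (Sum.inl l)).add
            ((SemiFun.eval (J := Fin r ⊕ J) (Sum.inl D)).mul_const (-1))
        refine semi_congr (h1.preimage isSemilinearSet_nonneg) ?_
        intro γ
        show γ (Sum.inl D) ≤ γ (Sum.inl l) ↔ 0 ≤ γ (Sum.inl l) + γ (Sum.inl D) * (-1)
        constructor <;> intro h <;> linarith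

theorem finite_cut {ι : Type*} {r : ℕ} {J : Type*} {k : ι → Type*} [∀ i, Field (k i)]
    (D : Fin r) (E : ∀ i, ((Fin r ⊕ J) → k i) → Set ((Fin r ⊕ J) → ℤ))
    (hE : (Set.range fun x : (Σ i, ((Fin r ⊕ J) → k i)) => E x.1 x.2).Finite) :
    (Set.range fun x : (Σ i, ((Fin r ⊕ J) → k i)) => cut D (E x.1 x.2) x.2).Finite := by
  classical
  let H : Set (Fin r) → Set ((Fin r ⊕ J) → ℤ) := fun s =>
    {γ | 0 ≤ γ (Sum.inl D)} ∩ ⋂ l : Fin r,
      (if l ∈ s then Set.univ else {γ | γ (Sum.inl D) ≤ γ (Sum.inl l)})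
  have h1 : (insert ∅ (Set.image2 (fun A B => A ∩ B)
      (Set.range fun x : (Σ i, ((Fin r ⊕ J) → k i)) => E x.1 x.2) (Set.range H))).Finite :=
    (Set.Finite.image2 _ hE (Set.finite_range H)).insert _
  refine h1.subset ?_
  rintro _ ⟨x, rfl⟩
  simp only
  by_cases h : x.2 (Sum.inl D) = 0
  · left
    simp [cut, h]
  · right
    refine ⟨E x.1 x.2, ⟨x, rfl⟩, H {l | x.2 (Sum.inl l) = 0}, ⟨_, rfl⟩, ?_⟩
    simp only [cut, if_neg h, H]
    rfl

/-- The inner computation: from the law to real generating functions. -/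
theorem real_identity {d r : ℕ} {J κ k : Type} [Fintype J] [Fintype κ] [Field k] [Finite k]
    (D : Fin r) (E : κ → ((Fin r ⊕ J) → k) → Set ((Fin r ⊕ J) → ℤ))
    (ℓ : κ → ((Fin r ⊕ J) → ℤ) →+ ℤ) (a : ℕ → ℕ) (C : ℝ≥0∞) (hC0 : C ≠ 0) (hCt : C ≠ ∞)
    (q m : ℕ) (hq : 1 < q)
    (hlaw : ∀ n : ℕ, (a n : ℝ≥0∞) * C = ((q : ℝ≥0∞) ^ m)⁻¹ * ∑ c : κ, ∑' (b : (Fin r ⊕ J) → k),
      ∑' (γ : (Fin r ⊕ J) → ℤ), (E c b).indicator (fun γ => (q : ℝ≥0∞) ^ (-(ℓ c γ)) *
        (by classical exact (if b (Sum.inl D) ≠ 0 ∧ γ (Sum.inl D) = n ∧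
          ∀ l : Fin r, b (Sum.inl l) = 0 ∨ γ (Sum.inl D) ≤ γ (Sum.inl l)
          then (q : ℝ≥0∞) ^ (d * n) else 0))) γ)
    (hgrow : ∀ n, a n ≤ q ^ (d * d * (n + 1))) (t : ℝ) (ht : 0 < t)
    (ht0 : t < ((q : ℝ) ^ (d * d))⁻¹) :
    (∀ c b, Summable fun u : cut D (E c b) b =>
      (q : ℝ) ^ ((d : ℤ) * u.1 (Sum.inl D) - ℓ c u.1) * t ^ (u.1 (Sum.inl D))) ∧
    HasSum (fun n => (a n : ℝ) * t ^ n)
      ((C.toReal * (q : ℝ) ^ m)⁻¹ * ∑ c : κ, ∑ᶠ b : (Fin r ⊕ J) → k,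
        ∑' u : cut D (E c b) b,
          (q : ℝ) ^ ((d : ℤ) * u.1 (Sum.inl D) - ℓ c u.1) * t ^ (u.1 (Sum.inl D))) := by
  classical
  have hq0 : (0 : ℝ) < q := by exact_mod_cast (by omega : 0 < q)
  have hqE0 : (q : ℝ≥0∞) ≠ 0 := by simp only [ne_eq, Nat.cast_eq_zero]; omega
  have hqEt : (q : ℝ≥0∞) ≠ ∞ := ENNReal.natCast_ne_top _
  have hqof : ENNReal.ofReal (q : ℝ) = (q : ℝ≥0∞) := ENNReal.ofReal_natCast q
  set w : κ → ((Fin r ⊕ J) → ℤ) → ℝ := fun c γ =>
    (q : ℝ) ^ ((d : ℤ) * γ (Sum.inl D) - ℓ c γ) * t ^ (γ (Sum.inl D)) with hw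
  have hwpos : ∀ c γ, 0 < w c γ := fun c γ => by positivity
  -- summability of the left-hand side
  have hsumL : Summable fun n => (a n : ℝ) * t ^ n := by
    have hQ : (0 : ℝ) < (q : ℝ) ^ (d * d) := by positivity
    have h1 : (q : ℝ) ^ (d * d) * t < 1 := by
      have := mul_lt_mul_of_pos_left ht0 hQ
      rwa [mul_inv_cancel₀ hQ.ne'] at this
    have h2 := (summable_geometric_of_lt_one (by positivity) h1).mul_left ((q : ℝ) ^ (d * d))
    refine Summable.of_nonneg_of_le (fun n => by positivity) (fun n => ?_) h2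
    have h3 : (a n : ℝ) ≤ (q : ℝ) ^ (d * d * (n + 1)) := by exact_mod_cast hgrow n
    calc (a n : ℝ) * t ^ n ≤ (q : ℝ) ^ (d * d * (n + 1)) * t ^ n :=
          mul_le_mul_of_nonneg_right h3 (by positivity)
      _ = _ := by rw [mul_add, mul_one, pow_add, pow_mul, mul_pow]; ring
  -- the ENNReal identity
  have hmain : ENNReal.ofReal (∑' n, (a n : ℝ) * t ^ n) * C * (q : ℝ≥0∞) ^ m =
      ∑ c : κ, ∑' (b : (Fin r ⊕ J) → k), ∑' (γ : (Fin r ⊕ J) → ℤ),
        (cut D (E c b) b).indicator (fun γ => ENNReal.ofReal (w c γ)) γ := by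
    rw [← tsum_swap (fun n c b γ => ENNReal.ofReal (t ^ n) *
      (E c b).indicator (fun γ => (q : ℝ≥0∞) ^ (-(ℓ c γ)) *
        (if b (Sum.inl D) ≠ 0 ∧ γ (Sum.inl D) = n ∧
          ∀ l : Fin r, b (Sum.inl l) = 0 ∨ γ (Sum.inl D) ≤ γ (Sum.inl l)
          then (q : ℝ≥0∞) ^ (d * n) else 0)) γ)]
    · rw [ENNReal.ofReal_tsum_of_nonneg (fun n => by positivity) hsumL,
        ← ENNReal.tsum_mul_right, ← ENNReal.tsum_mul_right]
      refine tsum_congr fun n => ?_
      have h1 : (∑ c : κ, ∑' (b : (Fin r ⊕ J) → k), ∑' (γ : (Fin r ⊕ J) → ℤ),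
          ENNReal.ofReal (t ^ n) * (E c b).indicator (fun γ => (q : ℝ≥0∞) ^ (-(ℓ c γ)) *
          (if b (Sum.inl D) ≠ 0 ∧ γ (Sum.inl D) = n ∧
            ∀ l : Fin r, b (Sum.inl l) = 0 ∨ γ (Sum.inl D) ≤ γ (Sum.inl l)
            then (q : ℝ≥0∞) ^ (d * n) else 0)) γ) =
          ENNReal.ofReal (t ^ n) * ((a n : ℝ≥0∞) * C * (q : ℝ≥0∞) ^ m) := by
        simp only [ENNReal.tsum_mul_left, ← Finset.mul_sum]
        congr 1
        rw [hlaw n, mul_comm ((q : ℝ≥0∞) ^ m)⁻¹, mul_assoc, ENNReal.inv_mul_cancel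
          (pow_ne_zero _ hqE0) (ENNReal.pow_ne_top hqEt), mul_one]
      rw [h1, ENNReal.ofReal_mul (by positivity), ENNReal.ofReal_natCast]
      ring
    · intro c b γ
      by_cases hγ : γ ∈ cut D (E c b) b
      · rw [Set.indicator_of_mem hγ]
        obtain ⟨h1, h2, h3, h4⟩ := (mem_cut D (E c b) b γ).1 hγ
        obtain ⟨n, hn⟩ : ∃ n : ℕ, γ (Sum.inl D) = n := ⟨(γ (Sum.inl D)).toNat, by omega⟩
        rw [tsum_eq_single n]
        · rw [Set.indicator_of_mem h1, if_pos ⟨h2, hn, h4⟩]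
          simp only [hw, hn]
          rw [ENNReal.ofReal_mul (by positivity), ofReal_zpow hq0, hqof, zpow_natCast,
            sub_eq_add_neg, ENNReal.zpow_add hqE0 hqEt]
          have h5 : (q : ℝ≥0∞) ^ ((d : ℤ) * (n : ℤ)) = (q : ℝ≥0∞) ^ (d * n) := by
            rw [← zpow_natCast]; push_cast; rfl
          rw [h5]
          ring
        · intro n' hn'
          have : ¬ (b (Sum.inl D) ≠ 0 ∧ γ (Sum.inl D) = n' ∧
            ∀ l : Fin r, b (Sum.inl l) = 0 ∨ γ (Sum.inl D) ≤ γ (Sum.inl l)) := by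
            rintro ⟨_, h6, _⟩
            apply hn'
            rw [hn] at h6
            exact_mod_cast h6.symm
          rw [Set.indicator_of_mem h1, if_neg this]
          simp
      · rw [Set.indicator_of_notMem hγ]
        rw [ENNReal.tsum_eq_zero]
        intro n
        by_cases h1 : γ ∈ E c b
        · have : ¬ (b (Sum.inl D) ≠ 0 ∧ γ (Sum.inl D) = n ∧
            ∀ l : Fin r, b (Sum.inl l) = 0 ∨ γ (Sum.inl D) ≤ γ (Sum.inl l)) := by
            rintro ⟨h2, h3, h4⟩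
            exact hγ ((mem_cut D (E c b) b γ).2 ⟨h1, h2, by omega, h4⟩)
          rw [Set.indicator_of_mem h1, if_neg this]
          simp
        · rw [Set.indicator_of_notMem h1]
          simp
  have : Fintype ((Fin r ⊕ J) → k) := Fintype.ofFinite _
  have hfin : ENNReal.ofReal (∑' n, (a n : ℝ) * t ^ n) * C * (q : ℝ≥0∞) ^ m ≠ ∞ :=
    ENNReal.mul_ne_top (ENNReal.mul_ne_top ENNReal.ofReal_ne_top hCt) (ENNReal.pow_ne_top hqEt)
  rw [hmain] at hfin
  have hfin' : ∀ c b, ∑' (γ : (Fin r ⊕ J) → ℤ),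
      (cut D (E c b) b).indicator (fun γ => ENNReal.ofReal (w c γ)) γ ≠ ∞ := by
    intro c b
    have h1 := (ENNReal.sum_ne_top).1 hfin c (Finset.mem_univ c)
    exact ENNReal.ne_top_of_tsum_ne_top h1 b
  have hsub : ∀ c b, ∑' (γ : (Fin r ⊕ J) → ℤ),
      (cut D (E c b) b).indicator (fun γ => ENNReal.ofReal (w c γ)) γ =
      ∑' u : cut D (E c b) b, ENNReal.ofReal (w c u.1) := fun c b =>
    (tsum_subtype (cut D (E c b) b) (fun γ => ENNReal.ofReal (w c γ))).symm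
  have hsummable : ∀ c b, Summable fun u : cut D (E c b) b => w c u.1 := by
    intro c b
    have h1 := hfin' c b
    rw [hsub] at h1
    have h2 := ENNReal.summable_toReal h1
    refine h2.congr fun u => ?_
    exact ENNReal.toReal_ofReal (hwpos _ _).le
  refine ⟨hsummable, ?_⟩
  have hreal : (∑' n, (a n : ℝ) * t ^ n) * (C.toReal * (q : ℝ) ^ m) =
      ∑ c : κ, ∑ᶠ b : (Fin r ⊕ J) → k, ∑' u : cut D (E c b) b, w c u.1 := by
    have h1 := congrArg ENNReal.toReal hmain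
    rw [ENNReal.toReal_mul, ENNReal.toReal_mul, ENNReal.toReal_ofReal
      (tsum_nonneg fun n => by positivity), ENNReal.toReal_pow, ENNReal.toReal_natCast] at h1
    rw [← mul_assoc, h1]
    rw [ENNReal.toReal_sum (fun c _ => (ENNReal.sum_ne_top).1 hfin c (Finset.mem_univ c))]
    refine Finset.sum_congr rfl fun c _ => ?_
    rw [tsum_fintype, ENNReal.toReal_sum (fun b _ => hfin' c b), finsum_eq_sum_of_fintype]
    refine Finset.sum_congr rfl fun b _ => ?_
    rw [hsub, ← ENNReal.ofReal_tsum_of_nonneg (fun u => (hwpos _ _).le) (hsummable c b),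
      ENNReal.toReal_ofReal (tsum_nonneg fun u => (hwpos _ _).le)]
  have hCpos : 0 < C.toReal := ENNReal.toReal_pos hC0 hCt
  have hne : C.toReal * (q : ℝ) ^ m ≠ 0 := by positivity
  have h2 : (C.toReal * (q : ℝ) ^ m)⁻¹ * ∑ c : κ, ∑ᶠ b : (Fin r ⊕ J) → k,
      ∑' u : cut D (E c b) b, w c u.1 = ∑' n, (a n : ℝ) * t ^ n := by
    rw [← hreal]; field_simp
  change HasSum (fun n => (a n : ℝ) * t ^ n) ((C.toReal * (q : ℝ) ^ m)⁻¹ *
    ∑ c : κ, ∑ᶠ b : (Fin r ⊕ J) → k, ∑' u : cut D (E c b) b, w c u.1)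
  rw [h2]
  exact hsumL.hasSum

end Rat

open Pool.Agent.Lib.H70.Top.Rat

theorem uniform_rationality {d : ℕ} (c : Fin d → Fin d → Fin d → ℤ) :
    ∃ (p0 : ℕ) (J : List (ℤ × ℕ)) (M : ℕ), (∀ x ∈ J, 1 ≤ x.2) ∧
      ∀ (p : ℕ) (_ : Fact p.Prime), p0 ≤ p → ∀ f : ℕ, 1 ≤ f →
        ∃ P : Polynomial ℚ, P.natDegree ≤ M ∧
          zetaSeries c p f * (J.map fun x => (1 - PowerSeries.C (((p : ℚ) ^ f) ^ x.1) *
            PowerSeries.X ^ x.2 : PowerSeries ℚ)).prod = (P : PowerSeries ℚ) := by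
  classical
  -- the family of rings
  let ι := {x : ℕ × ℕ // x.1.Prime ∧ 1 ≤ x.2}
  have hprime : ∀ i : ι, Fact i.1.1.Prime := fun i => ⟨i.2.1⟩
  choose R hR using fun i : ι => exists_HDVR i.1.1 i.1.2 i.2.2
  choose ms μ hμ using fun i : ι => exists_unif i.1.1 i.1.2 i.2.2
  have hcard : ∀ i : ι, Nat.card (GaloisField i.1.1 i.1.2) = i.1.1 ^ i.1.2 := fun i =>
    GaloisField.card i.1.1 i.1.2 (by have := i.2.2; omega)
  have hch : ∀ (i : ι) (j : ℕ), 1 ≤ j → j < i.1.1 → (j : GaloisField i.1.1 i.1.2) ≠ 0 := by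
    intro i j h1 h2 h3
    rw [CharP.cast_eq_zero_iff (GaloisField i.1.1 i.1.2) i.1.1] at h3
    exact absurd (Nat.le_of_dvd (by omega) h3) (by omega)
  -- polynomials
  let e := Fintype.equivFin (Option (Fin d × Fin d × Fin d))
  obtain ⟨n0, J, κ, _, _, E, ℓ, hEfin, hEsemi, hlaw⟩ := law R (fun i : ι => i.1.1) hch μ
    (fun i => i.1.1 ^ i.1.2) hcard (fun i => by have := hμ i; rw [← hR i] at this; exact this)
    (m := d * d) (fun l => gen c (e.symm l))
  let D := e none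
  -- the finite family of semilinear sets
  let 𝒮 : Set (κ × Set ((Fin (Fintype.card (Option (Fin d × Fin d × Fin d))) ⊕ J) → ℤ)) :=
    Set.range fun x : (Σ (_ : κ) (i : ι),
      ((Fin (Fintype.card (Option (Fin d × Fin d × Fin d))) ⊕ J) → GaloisField i.1.1 i.1.2)) =>
        (x.1, cut D (E x.1 x.2.1 x.2.2) x.2.2)
  have h𝒮 : 𝒮.Finite := by
    have h1 : ∀ c' : κ, (Set.range fun x : (Σ i : ι,
      ((Fin (Fintype.card (Option (Fin d × Fin d × Fin d))) ⊕ J) → GaloisField i.1.1 i.1.2)) =>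
        (c', cut D (E c' x.1 x.2) x.2)).Finite := by
      intro c'
      have := (finite_cut D (E c') (hEfin c')).image (fun A => (c', A))
      refine this.subset ?_
      rintro _ ⟨x, rfl⟩
      exact ⟨_, ⟨x, rfl⟩, rfl⟩
    refine (Set.finite_iUnion h1).subset ?_
    rintro _ ⟨⟨c', x⟩, rfl⟩
    exact Set.mem_iUnion.2 ⟨c', ⟨x, rfl⟩⟩
  have : Finite 𝒮 := h𝒮
  let evD : ((Fin (Fintype.card (Option (Fin d × Fin d × Fin d))) ⊕ J) → ℤ) →+ ℤ :=
    Pi.evalAddMonoidHom (fun _ => ℤ) (Sum.inl D)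
  obtain ⟨JJ, K, hJJ, hfam⟩ := genfun_family (Λ := 𝒮) (fun x => x.1.2)
    (by
      rintro ⟨_, ⟨x, rfl⟩⟩
      exact isSemilinearSet_cut D _ _ (hEsemi _ _ _))
    (fun x => (AddMonoidHom.mulLeft (d : ℤ)).comp evD - ℓ x.1.1) evD
  refine ⟨n0, JJ, K, hJJ, ?_⟩
  intro p hp hp0 f hf
  -- the chosen member of the family
  let i : ι := ⟨(p, f), hp.out, hf⟩
  let q : ℕ := p ^ f
  have hq1 : 1 < q := Nat.one_lt_pow (by omega) hp.out.one_lt
  have hqc : Nat.card (GaloisField p f) = q := hcard i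
  let F : PowerSeries ℚ := zetaSeries c p f *
    (JJ.map fun x => (1 - PowerSeries.C (((p : ℚ) ^ f) ^ x.1) *
            PowerSeries.X ^ x.2 : PowerSeries ℚ)).prod
  suffices hvan : ∀ n, K < n → PowerSeries.coeff n F = 0 by
    refine ⟨PowerSeries.trunc (K + 1) F, ?_, ?_⟩
    · have := PowerSeries.natDegree_trunc_lt F K
      omega
    · ext n
      rw [Polynomial.coeff_coe, PowerSeries.coeff_trunc]
      split_ifs with h
      · rfl
      · exact hvan n (by omega)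
  let _ : MeasurableSpace (OO p f) := ms i
  have hμi : IsUnif (R i).π q (μ i) := by
    have := hμ i; rw [← hR i] at this; exact this
  obtain ⟨C, hC0, hCt, hbr⟩ := bridge c (R i) (μ i) q hqc hμi
  have hgrow := fun n => subCount_le c (R i) q hqc n
  have hq0 : (0 : ℝ) < q := by exact_mod_cast (by omega : 0 < q)
  have hlaw' : ∀ n : ℕ, (subCount c (OO p f) (q ^ n) : ℝ≥0∞) * C =
      ((q : ℝ≥0∞) ^ (d * d))⁻¹ * ∑ c' : κ, ∑' (b : (Fin _ ⊕ J) → GaloisField p f),
      ∑' (γ : (Fin _ ⊕ J) → ℤ), (E c' i b).indicator (fun γ => (q : ℝ≥0∞) ^ (-(ℓ c' γ)) *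
        (if b (Sum.inl D) ≠ 0 ∧ γ (Sum.inl D) = n ∧
          ∀ l : Fin _, b (Sum.inl l) = 0 ∨ γ (Sum.inl D) ≤ γ (Sum.inl l)
          then (q : ℝ≥0∞) ^ (d * n) else 0)) γ := by
    intro n
    rw [hbr n]
    have h1 := hlaw i hp0 (fun γ b => if b D ≠ 0 ∧ γ D = n ∧ ∀ l, b l = 0 ∨ γ D ≤ γ l
      then (q : ℝ≥0∞) ^ (d * n) else 0)
    have h2 : (fun y : Fin (d * d) → OO p f => (if (∃ u : OO p f, IsUnit u ∧
          (mat y).det = (R i).π ^ n * u) ∧
            (∀ i j l, (mat y).det ∣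
              Matrix.vecMul (amul c (mat y i) (mat y j)) (mat y).adjugate l)
          then (q : ℝ≥0∞) ^ (d * n) else 0)) =
        (fun y : Fin (d * d) → OO p f =>
          if ((R i).ac (MvPolynomial.aeval y (gen c (e.symm D))) ≠ 0 ∧
            ((R i).v (MvPolynomial.aeval y (gen c (e.symm D))) : ℤ) = n ∧
            ∀ l, (R i).ac (MvPolynomial.aeval y (gen c (e.symm l))) = 0 ∨
              ((R i).v (MvPolynomial.aeval y (gen c (e.symm D))) : ℤ) ≤
              (R i).v (MvPolynomial.aeval y (gen c (e.symm l)))) then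
            (q : ℝ≥0∞) ^ (d * n) else 0) := by
      funext y
      have hD : MvPolynomial.aeval y (gen c (e.symm D)) = (mat y).det := by
        simp only [D, Equiv.symm_apply_apply]
        exact aeval_det c y
      have hiff : ((∃ u : OO p f, IsUnit u ∧ (mat y).det = (R i).π ^ n * u) ∧
            (∀ i j l, (mat y).det ∣
              Matrix.vecMul (amul c (mat y i) (mat y j)) (mat y).adjugate l)) ↔
          ((R i).ac (MvPolynomial.aeval y (gen c (e.symm D))) ≠ 0 ∧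
            ((R i).v (MvPolynomial.aeval y (gen c (e.symm D))) : ℤ) = n ∧
            ∀ l, (R i).ac (MvPolynomial.aeval y (gen c (e.symm l))) = 0 ∨
              ((R i).v (MvPolynomial.aeval y (gen c (e.symm D))) : ℤ) ≤
              (R i).v (MvPolynomial.aeval y (gen c (e.symm l)))) := by
        rw [hD, det_iff_rv, and_assoc]
        refine and_congr_right fun h0 => and_congr_right fun _ => ?_
        have hne : (mat y).det ≠ 0 := fun h => h0 (by rw [h, (R i).ac_zero])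
        constructor
        · intro h l
          rw [← dvd_iff_rv (R i) hne]
          obtain ⟨o, rfl⟩ := e.surjective l
          rw [Equiv.symm_apply_apply]
          cases o with
          | none => rw [aeval_det]
          | some x =>
            obtain ⟨a, b, l⟩ := x
            rw [aeval_clo]
            exact h a b l
        · intro h a b l
          have := h (e (some (a, b, l)))
          rw [← dvd_iff_rv (R i) hne, Equiv.symm_apply_apply, aeval_clo] at this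
          exact this
      simp only [hiff]
    have h3 := congrArg (iint (μ i) (d * d)) h2
    refine Eq.trans ?_ h1
    refine Eq.trans ?_ h3
    rfl
  -- real generating functions
  set t0 : ℝ := ((q : ℝ) ^ (d * d))⁻¹ with ht0def
  have ht0 : 0 < t0 := by positivity
  have ht01 : t0 ≤ 1 := by
    apply inv_le_one_of_one_le₀
    exact one_le_pow₀ (by exact_mod_cast hq1.le)
  have hreal := fun (t : ℝ) (h0 : 0 < t) (h1 : t < t0) =>
    real_identity (d := d) D (fun c' => E c' i) ℓ (fun n => subCount c (OO p f) (q ^ n)) C hC0 hCt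
      q (d * d) hq1 hlaw' hgrow t h0 h1
  have hfam' : ∀ (c' : κ) (b : (Fin _ ⊕ J) → GaloisField p f), ∃ g : ℝ → ℝ, Lau K g ∧
      ∀ t : ℝ, 0 < t → t < t0 → (∑' u : cut D (E c' i b) b,
        (q : ℝ) ^ ((d : ℤ) * u.1 (Sum.inl D) - ℓ c' u.1) * t ^ (u.1 (Sum.inl D))) *
          fac JJ q t = g t := by
    intro c' b
    have hmem : (c', cut D (E c' i b) b) ∈ 𝒮 := ⟨⟨c', i, b⟩, rfl⟩
    have := hfam ⟨_, hmem⟩ (q : ℝ) t0 (by exact_mod_cast hq1) ht0 ht01
      (fun t h0 h1 => (hreal t h0 h1).1 c' b)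
    exact this
  choose g hgL hg using hfam'
  have : Fintype ((Fin (Fintype.card (Option (Fin d × Fin d × Fin d))) ⊕ J) → GaloisField p f) :=
    Fintype.ofFinite _
  -- the power series over the reals
  let G : PowerSeries ℝ := PowerSeries.map (algebraMap ℚ ℝ) (zetaSeries c p f)
  have hGF : PowerSeries.map (algebraMap ℚ ℝ) F = G *
      (JJ.map fun x => (1 - PowerSeries.C ((q : ℝ) ^ x.1) * PowerSeries.X ^ x.2)).prod := by
    simp only [F, G, map_mul, map_list_prod, List.map_map]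
    congr 2
    apply List.map_congr_left
    intro x _
    simp [q]
  have hlau := coeff_eq_zero_of_lau
    (fun n => PowerSeries.coeff n (PowerSeries.map (algebraMap ℚ ℝ) F)) t0 ht0 K
    (fun t => (C.toReal * (q : ℝ) ^ (d * d))⁻¹ * ∑ c' : κ, ∑ b, g c' b t)
    (Lau.const_mul _ (Lau.sum _ _ fun c' _ => Lau.sum _ _ fun b _ => hgL c' b)) ?_
  · intro n hn
    have h1 := hlau n hn
    rw [PowerSeries.coeff_map] at h1
    exact (map_eq_zero_iff _ (algebraMap ℚ ℝ).injective).1 h1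
  · intro t h0 h1
    rw [hGF]
    have h2 := (hreal t h0 h1).2
    have h3 : HasSum (fun n => PowerSeries.coeff n G * t ^ n) ((C.toReal * (q : ℝ) ^ (d * d))⁻¹ *
        ∑ c' : κ, ∑ᶠ b : (Fin _ ⊕ J) → GaloisField p f, ∑' u : cut D (E c' i b) b,
          (q : ℝ) ^ ((d : ℤ) * u.1 (Sum.inl D) - ℓ c' u.1) * t ^ (u.1 (Sum.inl D))) := by
      refine hs_congr h2 fun n => ?_
      simp only [G, PowerSeries.coeff_map, zetaSeries, PowerSeries.coeff_mk]
      have : p ^ (f * n) = q ^ n := by simp only [q]; rw [← pow_mul]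
      rw [this]
      simp
    have h4 := hasSum_mul_fac G (q : ℝ) t _ JJ h3
    convert h4 using 1
    rw [mul_assoc, Finset.sum_mul]
    congr 1
    refine Finset.sum_congr rfl fun c' _ => ?_
    rw [finsum_eq_sum_of_fintype, Finset.sum_mul]
    refine Finset.sum_congr rfl fun b _ => ?_
    exact (hg c' b t h0 h1).symm

end Pool.Agent.Lib.H70.Top
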