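import Mathlib

/-!
# Functions with semilinear graph
-/

namespace Pool.Agent.Lib.H70.Top

open Set

/-- functions with semilinear graph -/
def SemiFun {M N : Type*} [AddCommMonoid M] [AddCommMonoid N] (φ : M → N) : Prop :=
  IsSemilinearSet {p : M × N | φ p.1 = p.2}

theorem semi_congr {M : Type*} [AddCommMonoid M] {s t : Set M} (h : IsSemilinearSet s)
    (he : ∀ x, x ∈ t ↔ x ∈ s) : IsSemilinearSet t := by rwa [Set.ext he]

section

variable {M N P : Type*} [AddCommMonoid M] [AddCommMonoid N] [AddCommMonoid P]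
  [AddMonoid.FG M] [AddMonoid.FG N] [AddMonoid.FG P]

theorem SemiFun.hom (f : M →+ N) : SemiFun f := by
  have h := isSemilinearSet_setOfPred_eq (0 : N) 0 (f.comp (AddMonoidHom.fst M N))
    (AddMonoidHom.snd M N)
  simp only [zero_add] at h
  exact h

theorem SemiFun.const (a : N) : SemiFun (fun _ : M => a) := by
  have h := isSemilinearSet_setOfPred_eq (a : N) 0 (0 : M × N →+ N)
    (AddMonoidHom.snd M N)
  simp only [zero_add, AddMonoidHom.zero_apply, add_zero] at h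
  exact h

theorem SemiFun.preimage {φ : M → N} (h : SemiFun φ) {A : Set N} (hA : IsSemilinearSet A) :
    IsSemilinearSet {m | φ m ∈ A} := by
  have h1 := (h.inter (hA.preimage (AddMonoidHom.snd M N))).image (AddMonoidHom.fst M N)
  have h2 : {m | φ m ∈ A} = (AddMonoidHom.fst M N) '' ({p : M × N | φ p.1 = p.2} ∩
      (AddMonoidHom.snd M N) ⁻¹' A) := by
    ext m
    constructor
    · intro hm
      exact ⟨(m, φ m), ⟨rfl, hm⟩, rfl⟩
    · rintro ⟨⟨m', n⟩, ⟨h3, h4⟩, rfl⟩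
      have h5 : φ m' = n := h3
      have h6 : n ∈ A := h4
      show φ m' ∈ A
      rw [h5]; exact h6
  rw [h2]; exact h1

theorem SemiFun.comp {φ : M → N} {ψ : N → P} (hψ : SemiFun ψ) (hφ : SemiFun φ) :
    SemiFun (fun m => ψ (φ m)) := by
  have h1 := IsSemilinearSet.preimage hφ
    (AddMonoidHom.prod (AddMonoidHom.fst M (N × P))
      ((AddMonoidHom.fst N P).comp (AddMonoidHom.snd M (N × P))))
  have h2 := IsSemilinearSet.preimage hψ (AddMonoidHom.snd M (N × P))
  have h3 := (h1.inter h2).image (AddMonoidHom.prod (AddMonoidHom.fst M (N × P))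
      ((AddMonoidHom.snd N P).comp (AddMonoidHom.snd M (N × P))))
  refine semi_congr h3 ?_
  rintro ⟨m, p⟩
  constructor
  · intro (h : ψ (φ m) = p)
    exact ⟨(m, (φ m, p)), ⟨rfl, h⟩, rfl⟩
  · rintro ⟨⟨m', n, p'⟩, ⟨h5, h6⟩, h7⟩
    have h5' : φ m' = n := h5
    have h6' : ψ n = p' := h6
    have h7' : (m', p') = (m, p) := h7
    have h8 : m' = m := congrArg Prod.fst h7'
    have h9 : p' = p := congrArg Prod.snd h7'
    show ψ (φ m) = p
    rw [← h8, ← h9, h5', h6']

theorem SemiFun.prod {φ : M → N} {ψ : M → P} (hφ : SemiFun φ) (hψ : SemiFun ψ) :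
    SemiFun (fun m => (φ m, ψ m)) := by
  have h1 := IsSemilinearSet.preimage hφ
    (AddMonoidHom.prod (AddMonoidHom.fst M (N × P))
      ((AddMonoidHom.fst N P).comp (AddMonoidHom.snd M (N × P))))
  have h2 := IsSemilinearSet.preimage hψ
    (AddMonoidHom.prod (AddMonoidHom.fst M (N × P))
      ((AddMonoidHom.snd N P).comp (AddMonoidHom.snd M (N × P))))
  refine semi_congr (h1.inter h2) ?_
  rintro ⟨m, n, p⟩
  show (φ m, ψ m) = (n, p) ↔ (φ m = n ∧ ψ m = p)
  rw [Prod.ext_iff]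

theorem SemiFun.pi {J : Type*} [Finite J] {φ : J → M → N} (hφ : ∀ j, SemiFun (φ j)) :
    SemiFun (fun m => fun j => φ j m) := by
  have h1 : ∀ j, IsSemilinearSet {p : M × (J → N) | φ j p.1 = p.2 j} := fun j =>
    IsSemilinearSet.preimage (hφ j)
      (AddMonoidHom.prod (AddMonoidHom.fst M (J → N))
        ((Pi.evalAddMonoidHom (fun _ : J => N) j).comp (AddMonoidHom.snd M (J → N))))
  have h4 : {p : M × (J → N) | (fun j => φ j p.1) = p.2} =
      ⋂ j, {p : M × (J → N) | φ j p.1 = p.2 j} := by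
    ext ⟨m, n⟩
    simp only [mem_iInter]
    show (fun j => φ j m) = n ↔ ∀ j, φ j m = n j
    rw [funext_iff]
  rw [SemiFun, h4]
  exact IsSemilinearSet.iInter h1

open Classical in
theorem SemiFun.ite {φ ψ : M → N} (hφ : SemiFun φ) (hψ : SemiFun ψ) {A : Set M}
    (hA : IsSemilinearSet A) : SemiFun (fun m => if m ∈ A then φ m else ψ m) := by
  have h1 := (IsSemilinearSet.preimage hA (AddMonoidHom.fst M N)).inter hφ
  have h2 := (IsSemilinearSet.preimage hA.compl (AddMonoidHom.fst M N)).inter hψ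
  refine semi_congr (h1.union h2) ?_
  rintro ⟨m, n⟩
  show (if m ∈ A then φ m else ψ m) = n ↔ (m ∈ A ∧ φ m = n) ∨ (m ∉ A ∧ ψ m = n)
  by_cases hm : m ∈ A <;> simp [hm]

/-- composition with a function of several variables -/
theorem SemiFun.compPi {J : Type*} [Finite J] {φ : J → M → N} (hφ : ∀ j, SemiFun (φ j))
    {ψ : (J → N) → P} (hψ : SemiFun ψ) : SemiFun (fun m => ψ (fun j => φ j m)) :=
  hψ.comp (SemiFun.pi hφ)

end

theorem SemiFun.add {M : Type*} [AddCommMonoid M] [AddMonoid.FG M] {φ ψ : M → ℤ}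
    (hφ : SemiFun φ) (hψ : SemiFun ψ) : SemiFun (fun m => φ m + ψ m) :=
  (SemiFun.hom (AddMonoidHom.fst ℤ ℤ + AddMonoidHom.snd ℤ ℤ)).comp (hφ.prod hψ)

theorem SemiFun.mul_const {M : Type*} [AddCommMonoid M] [AddMonoid.FG M] {φ : M → ℤ}
    (hφ : SemiFun φ) (a : ℤ) : SemiFun (fun m => φ m * a) :=
  (SemiFun.hom (AddMonoidHom.mulRight a)).comp hφ

theorem SemiFun.eval {J : Type*} [Finite J] (j : J) : SemiFun (fun γ : J → ℤ => γ j) :=
  SemiFun.hom (Pi.evalAddMonoidHom (fun _ : J => ℤ) j)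

/-- exact division (floor division by a positive constant) -/
theorem SemiFun.div {M : Type*} [AddCommMonoid M] [AddMonoid.FG M] {φ : M → ℤ}
    (hφ : SemiFun φ) (d : ℕ) (hd : 0 < d) : SemiFun (fun m => φ m / (d : ℤ)) := by
  have h0 : SemiFun (fun z : ℤ => z / (d : ℤ)) := by
    have h1 : ∀ r : Fin d, IsSemilinearSet {p : ℤ × ℤ | (0 : ℤ) + AddMonoidHom.fst ℤ ℤ p =
        ((r : ℕ) : ℤ) + ((AddMonoidHom.mulLeft (d : ℤ)).comp (AddMonoidHom.snd ℤ ℤ)) p} :=
      fun r => isSemilinearSet_setOfPred_eq _ _ _ _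
    have h2 : {p : ℤ × ℤ | p.1 / (d : ℤ) = p.2} = ⋃ r : Fin d, {p : ℤ × ℤ | (0 : ℤ) +
        AddMonoidHom.fst ℤ ℤ p =
        ((r : ℕ) : ℤ) + ((AddMonoidHom.mulLeft (d : ℤ)).comp (AddMonoidHom.snd ℤ ℤ)) p} := by
      ext ⟨z, w⟩
      simp only [mem_iUnion]
      show z / (d : ℤ) = w ↔ ∃ r : Fin d, (0 : ℤ) + z = ((r : ℕ) : ℤ) + (d : ℤ) * w
      have hd' : (0 : ℤ) < d := by exact_mod_cast hd
      constructor
      · intro h
        have h3 := Int.emod_nonneg z (ne_of_gt hd')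
        have h4 := Int.emod_lt_of_pos z hd'
        have h5 := Int.emod_add_mul_ediv z (d : ℤ)
        refine ⟨⟨(z % d).toNat, by omega⟩, ?_⟩
        rw [← h]
        show (0 : ℤ) + z = (((z % d).toNat : ℕ) : ℤ) + (d : ℤ) * (z / d)
        rw [Int.toNat_of_nonneg h3]
        omega
      · rintro ⟨r, hr⟩
        have hr2 : z = (r : ℕ) + (d : ℤ) * w := by linarith
        have hr3 : ((r : ℕ) : ℤ) < d := by exact_mod_cast r.2
        rw [hr2, Int.add_mul_ediv_left _ _ (ne_of_gt hd'),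
          Int.ediv_eq_zero_of_lt (by positivity) hr3, zero_add]
    rw [SemiFun, h2]
    exact IsSemilinearSet.iUnion h1
  exact h0.comp hφ

theorem isSemilinearSet_nonneg : IsSemilinearSet {z : ℤ | 0 ≤ z} := by
  have h := (IsSemilinearSet.univ : IsSemilinearSet (univ : Set ℕ)).image
    (Nat.castAddMonoidHom ℤ)
  have h2 : {z : ℤ | 0 ≤ z} = (Nat.castAddMonoidHom ℤ) '' univ := by
    ext z
    constructor
    · intro (hz : 0 ≤ z)
      exact ⟨z.toNat, trivial, Int.toNat_of_nonneg hz⟩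
    · rintro ⟨n, _, rfl⟩
      show (0 : ℤ) ≤ (n : ℤ)
      positivity
  rw [h2]; exact h

end Pool.Agent.Lib.H70.Top
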