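import Pool.Agent.Lib.H70.Top.Base

/-!
# Valuation and angular component on a henselian DVR
-/

namespace Pool.Agent.Lib.H70.Top

open scoped BigOperators

namespace HDVR

variable {O k : Type*} [CommRing O] [IsDomain O] [Field k] (R : HDVR O k)

theorem res_pi : R.res R.π = 0 := (R.ker _).2 dvd_rfl

theorem res_pi_pow {n : ℕ} (hn : n ≠ 0) : R.res (R.π ^ n) = 0 := by
  rw [map_pow, R.res_pi, zero_pow hn]

theorem ne_zero_of_res {x : O} (h : R.res x ≠ 0) : x ≠ 0 := by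
  rintro rfl; exact h (map_zero _)

theorem pi_pow_ne (n : ℕ) : R.π ^ n ≠ 0 := pow_ne_zero _ R.π_ne

theorem unique_aux {n m : ℕ} {u w : O} (hnm : n ≤ m) (h : R.π ^ n * u = R.π ^ m * w)
    (hu : R.res u ≠ 0) : n = m ∧ u = w := by
  obtain ⟨d, rfl⟩ := Nat.exists_eq_add_of_le hnm
  rw [pow_add, mul_assoc] at h
  have h' := mul_left_cancel₀ (R.pi_pow_ne n) h
  rcases Nat.eq_zero_or_pos d with hd | hd
  · subst hd; simpa using h'
  · exfalso; apply hu; rw [h', map_mul, R.res_pi_pow (by omega), zero_mul]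

theorem unique {n m : ℕ} {u w : O} (h : R.π ^ n * u = R.π ^ m * w)
    (hu : R.res u ≠ 0) (hw : R.res w ≠ 0) : n = m ∧ u = w := by
  rcases le_total n m with hnm | hnm
  · exact R.unique_aux hnm h hu
  · obtain ⟨h1, h2⟩ := R.unique_aux hnm h.symm hw
    exact ⟨h1.symm, h2.symm⟩

open Classical in
/-- valuation, `0` at `0` -/
noncomputable def v (x : O) : ℕ := if h : x = 0 then 0 else (R.fact x h).choose

open Classical in
/-- angular component, `0` at `0` -/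
noncomputable def ac (x : O) : k :=
  if h : x = 0 then 0 else R.res (R.fact x h).choose_spec.choose

@[simp] theorem v_zero : R.v 0 = 0 := by simp [v]

@[simp] theorem ac_zero : R.ac 0 = 0 := by simp [ac]

theorem exists_rep {x : O} (hx : x ≠ 0) : ∃ u, x = R.π ^ R.v x * u ∧ R.res u = R.ac x ∧
    R.res u ≠ 0 := by
  refine ⟨(R.fact x hx).choose_spec.choose, ?_, ?_, ?_⟩
  · have := (R.fact x hx).choose_spec.choose_spec.1
    rw [v, dif_neg hx]; exact this
  · rw [ac, dif_neg hx]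
  · exact (R.fact x hx).choose_spec.choose_spec.2

theorem v_ac_eq {n : ℕ} {u : O} (hu : R.res u ≠ 0) :
    R.v (R.π ^ n * u) = n ∧ R.ac (R.π ^ n * u) = R.res u := by
  have hx : R.π ^ n * u ≠ 0 := mul_ne_zero (R.pi_pow_ne n) (R.ne_zero_of_res hu)
  obtain ⟨w, hw, hw2, hw3⟩ := R.exists_rep hx
  obtain ⟨h1, h2⟩ := R.unique hw hu hw3
  exact ⟨h1.symm, by rw [← hw2, h2]⟩

theorem v_eq {n : ℕ} {u : O} (hu : R.res u ≠ 0) : R.v (R.π ^ n * u) = n := (R.v_ac_eq hu).1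

theorem ac_eq {n : ℕ} {u : O} (hu : R.res u ≠ 0) : R.ac (R.π ^ n * u) = R.res u :=
  (R.v_ac_eq hu).2

theorem v_unit {u : O} (hu : R.res u ≠ 0) : R.v u = 0 := by
  have := R.v_eq (n := 0) hu; simpa using this

theorem ac_unit {u : O} (hu : R.res u ≠ 0) : R.ac u = R.res u := by
  have := R.ac_eq (n := 0) hu; simpa using this

theorem ac_ne {x : O} (hx : x ≠ 0) : R.ac x ≠ 0 := by
  obtain ⟨u, _, h2, h3⟩ := R.exists_rep hx
  rwa [← h2]

@[simp] theorem ac_eq_zero {x : O} : R.ac x = 0 ↔ x = 0 :=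
  ⟨fun h => by by_contra hx; exact R.ac_ne hx h, fun h => by rw [h, ac_zero]⟩

theorem v_mul {x y : O} (hx : x ≠ 0) (hy : y ≠ 0) : R.v (x * y) = R.v x + R.v y := by
  obtain ⟨u, hu, _, hu3⟩ := R.exists_rep hx
  obtain ⟨w, hw, _, hw3⟩ := R.exists_rep hy
  have : x * y = R.π ^ (R.v x + R.v y) * (u * w) := by
    rw [pow_add]
    conv_lhs => rw [hu, hw]
    ring
  rw [this, R.v_eq (by rw [map_mul]; exact mul_ne_zero hu3 hw3)]

@[simp] theorem ac_mul (x y : O) : R.ac (x * y) = R.ac x * R.ac y := by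
  by_cases hx : x = 0
  · simp [hx]
  by_cases hy : y = 0
  · simp [hy]
  obtain ⟨u, hu, hu2, hu3⟩ := R.exists_rep hx
  obtain ⟨w, hw, hw2, hw3⟩ := R.exists_rep hy
  have : x * y = R.π ^ (R.v x + R.v y) * (u * w) := by
    rw [pow_add]
    conv_lhs => rw [hu, hw]
    ring
  rw [this, R.ac_eq (by rw [map_mul]; exact mul_ne_zero hu3 hw3), map_mul, hu2, hw2]

@[simp] theorem ac_one : R.ac 1 = 1 := by
  rw [R.ac_unit (by rw [map_one]; exact one_ne_zero), map_one]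

@[simp] theorem v_one : R.v 1 = 0 := R.v_unit (by rw [map_one]; exact one_ne_zero)

@[simp] theorem ac_pow (x : O) (n : ℕ) : R.ac (x ^ n) = R.ac x ^ n := by
  induction n with
  | zero => simp
  | succ n ih => rw [pow_succ, pow_succ, R.ac_mul, ih]

theorem v_pow {x : O} (hx : x ≠ 0) (n : ℕ) : R.v (x ^ n) = n * R.v x := by
  induction n with
  | zero => simp
  | succ n ih => rw [pow_succ, R.v_mul (pow_ne_zero _ hx) hx, ih]; ring

@[simp] theorem ac_pi : R.ac R.π = 1 := by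
  have h := R.v_ac_eq (n := 1) (u := 1) (by rw [map_one]; exact one_ne_zero)
  rw [pow_one, mul_one] at h
  rw [h.2, map_one]

@[simp] theorem v_pi : R.v R.π = 1 := by
  have h := R.v_ac_eq (n := 1) (u := 1) (by rw [map_one]; exact one_ne_zero)
  rw [pow_one, mul_one] at h
  exact h.1

theorem v_pi_pow (n : ℕ) : R.v (R.π ^ n) = n := by
  rw [R.v_pow R.π_ne, R.v_pi, mul_one]

theorem v_neg (x : O) : R.v (-x) = R.v x := by
  by_cases hx : x = 0
  · simp [hx]
  obtain ⟨u, hu, _, hu3⟩ := R.exists_rep hx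
  have : -x = R.π ^ R.v x * (-u) := by
    conv_lhs => rw [hu]
    ring
  rw [this, R.v_eq (by rwa [map_neg, neg_ne_zero])]

@[simp] theorem ac_neg (x : O) : R.ac (-x) = - R.ac x := by
  by_cases hx : x = 0
  · simp [hx]
  obtain ⟨u, hu, hu2, hu3⟩ := R.exists_rep hx
  have : -x = R.π ^ R.v x * (-u) := by
    conv_lhs => rw [hu]
    ring
  rw [this, R.ac_eq (by rwa [map_neg, neg_ne_zero]), map_neg, hu2]

theorem dvd_iff {x : O} (hx : x ≠ 0) (n : ℕ) : R.π ^ n ∣ x ↔ n ≤ R.v x := by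
  obtain ⟨u, hu, _, hu3⟩ := R.exists_rep hx
  constructor
  · rintro ⟨y, hy⟩
    have hy0 : y ≠ 0 := by rintro rfl; exact hx (by rw [hy, mul_zero])
    rw [hy, R.v_mul (R.pi_pow_ne n) hy0, R.v_pi_pow]; omega
  · intro h
    rw [hu]; exact (pow_dvd_pow _ h).mul_right _

theorem dvd_v (x : O) : R.π ^ R.v x ∣ x := by
  by_cases hx : x = 0
  · simp [hx]
  · exact (R.dvd_iff hx _).2 le_rfl

/-- `π ^ m * t` with residue of `t` known -/
theorem rv_of_res_ne {x t : O} {m : ℕ} (h : x = R.π ^ m * t) (ht : R.res t ≠ 0) :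
    x ≠ 0 ∧ R.v x = m ∧ R.ac x = R.res t := by
  refine ⟨?_, ?_, ?_⟩
  · rw [h]; exact mul_ne_zero (R.pi_pow_ne m) (R.ne_zero_of_res ht)
  · rw [h, R.v_eq ht]
  · rw [h, R.ac_eq ht]

/-- scaled residue: if `π ^ m ∣ x`, `x = π ^ m t`, then `res t = ac x` if `v x = m`, else `0`. -/
theorem res_scaled {x t : O} {m : ℕ} (h : x = R.π ^ m * t) :
    R.res t = if R.v x = m then R.ac x else 0 := by
  by_cases ht : R.res t = 0
  · rw [ht]
    by_cases hx : x = 0
    · simp [hx]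
    rw [if_neg]
    intro hv
    obtain ⟨s, hs⟩ := (R.ker t).1 ht
    have : R.π ^ (m + 1) ∣ x := ⟨s, by rw [h, hs, pow_succ]; ring⟩
    rw [R.dvd_iff hx] at this
    omega
  · obtain ⟨_, h2, h3⟩ := R.rv_of_res_ne h ht
    rw [if_pos h2, h3]

/-- same leading term -/
theorem rv_congr {x y : O} (hx : x ≠ 0) (h : R.π ^ (R.v x + 1) ∣ y - x) :
    y ≠ 0 ∧ R.v y = R.v x ∧ R.ac y = R.ac x := by
  obtain ⟨u, hu, hu2, hu3⟩ := R.exists_rep hx
  obtain ⟨s, hs⟩ := h
  have hy : y = R.π ^ R.v x * (u + R.π * s) := by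
    have : y = x + R.π ^ (R.v x + 1) * s := by rw [← hs]; ring
    rw [this, pow_succ]
    conv_lhs => rw [hu]
    ring_nf
    rw [R.v_mul (R.pi_pow_ne _) (R.ne_zero_of_res hu3), R.v_pi_pow, R.v_unit hu3, add_zero]
  have hr : R.res (u + R.π * s) = R.res u := by
    rw [map_add, map_mul, R.res_pi, zero_mul, add_zero]
  obtain ⟨h1, h2, h3⟩ := R.rv_of_res_ne hy (by rwa [hr])
  exact ⟨h1, h2, by rw [h3, hr, hu2]⟩

/-- equal leading terms: the difference has larger valuation -/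
theorem dvd_sub_of_rv {x y : O} (hv : R.v x = R.v y) (ha : R.ac x = R.ac y) :
    R.π ^ (R.v x + 1) ∣ y - x := by
  by_cases hx : x = 0
  · have hy : y = 0 := by rw [← R.ac_eq_zero, ← ha, hx, R.ac_zero]
    simp [hx, hy]
  have hy : y ≠ 0 := by
    rintro rfl; exact R.ac_ne hx (by rw [ha, R.ac_zero])
  obtain ⟨u, hu, hu2, _⟩ := R.exists_rep hx
  obtain ⟨w, hw, hw2, _⟩ := R.exists_rep hy
  have : R.res (w - u) = 0 := by rw [map_sub, hu2, hw2, ha, sub_self]
  obtain ⟨s, hs⟩ := (R.ker _).1 this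
  refine ⟨s, ?_⟩
  have : y - x = R.π ^ R.v x * (w - u) := by
    rw [mul_sub, ← hu]
    congr 1
    rw [hv]; exact hw
  rw [this, hs, pow_succ]; ring

/-- the difference of `x` and `y` when leading terms differ; valuations `a`, `b`. -/
theorem rv_sub_lt {x y : O} (hx : x ≠ 0) (h : y = 0 ∨ R.v x < R.v y) :
    x - y ≠ 0 ∧ R.v (x - y) = R.v x ∧ R.ac (x - y) = R.ac x := by
  apply R.rv_congr hx
  have : x - y - x = -y := by ring
  rw [this, dvd_neg]
  rcases h with h | h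
  · simp [h]
  · by_cases hy : y = 0
    · simp [hy]
    · rw [R.dvd_iff hy]; omega

theorem rv_sub_eq {x y : O} (hx : x ≠ 0) (hy : y ≠ 0) (hv : R.v x = R.v y)
    (ha : R.ac x ≠ R.ac y) :
    x - y ≠ 0 ∧ R.v (x - y) = R.v x ∧ R.ac (x - y) = R.ac x - R.ac y := by
  obtain ⟨u, hu, hu2, _⟩ := R.exists_rep hx
  obtain ⟨w, hw, hw2, _⟩ := R.exists_rep hy
  have h : x - y = R.π ^ R.v x * (u - w) := by
    rw [mul_sub, ← hu]
    congr 1
    rw [hv]; exact hw
  have hr : R.res (u - w) = R.ac x - R.ac y := by rw [map_sub, hu2, hw2]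
  obtain ⟨h1, h2, h3⟩ := R.rv_of_res_ne h (by rw [hr]; exact sub_ne_zero.2 ha)
  exact ⟨h1, h2, by rw [h3, hr]⟩

end HDVR

end Pool.Agent.Lib.H70.Top
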