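import Pool.Agent.Lib.H70.Top.Base

/-!
# Chunk W: asymptotics of the limiting series
-/

namespace Pool.Agent.Lib.H70.Top.WW

open Filter Topology
open scoped BigOperators

/-! ### Sums over `Fin k → ℕ` -/

theorem hasSum_pi (k : ℕ) : ∀ (f : Fin k → ℕ → ℝ) (s : Fin k → ℝ),
    (∀ i n, 0 ≤ f i n) → (∀ i, HasSum (f i) (s i)) →
    HasSum (fun w : Fin k → ℕ => ∏ i, f i (w i)) (∏ i, s i) := by
  induction k with
  | zero =>
    intro f s _ _
    simp only [Finset.univ_eq_empty, Finset.prod_empty]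
    have := hasSum_single (f := fun _ : Fin 0 → ℕ => (1 : ℝ)) (fun i => i.elim0)
      (fun b hb => absurd (Subsingleton.elim _ _) hb)
    exact this
  | succ k ihk =>
    intro f s h0 h
    have ih := ihk (fun i => f i.succ) (fun i => s i.succ) (fun i n => h0 _ n)
      (fun i => h _)
    generalize hG : (fun w : Fin k → ℕ => ∏ i, f (Fin.succ i) (w i)) = G at ih
    have hG0 : (0 : (Fin k → ℕ) → ℝ) ≤ G := by
      rw [← hG]; intro w; exact Finset.prod_nonneg fun i _ => h0 _ _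
    have hf0 : (0 : ℕ → ℝ) ≤ f 0 := fun n => h0 0 n
    have hs : Summable fun x : ℕ × (Fin k → ℕ) => f 0 x.1 * G x.2 :=
      Summable.mul_of_nonneg (h 0).summable ih.summable hf0 hG0
    have h2 := (h 0).mul ih hs
    rw [← (Fin.consEquiv (fun _ : Fin (k + 1) => ℕ)).hasSum_iff, Fin.prod_univ_succ]
    have e : ((fun w : Fin (k + 1) → ℕ => ∏ i, f i (w i)) ∘
        (Fin.consEquiv (fun _ : Fin (k + 1) => ℕ))) =
        fun x : ℕ × (Fin k → ℕ) => f 0 x.1 * G x.2 := by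
      funext x
      rw [← hG]
      simp only [Function.comp_apply, Fin.consEquiv_apply, Fin.prod_univ_succ, Fin.cons_zero,
        Fin.cons_succ]
    rw [e]
    exact h2

/-! ### The weights -/

lemma wt_nonneg (w : ℕ) : (0 : ℝ) ≤ (wt w : ℝ) := by
  unfold wt; split_ifs <;> norm_num

lemma wt_le (w : ℕ) : (wt w : ℝ) ≤ 2 := by
  unfold wt; split_ifs <;> norm_num

/-- truncated weight -/
noncomputable def F (t : ℝ) (m w : ℕ) : ℝ := if w ≤ m then (wt w : ℝ) * t ^ w else 0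

/-- weight in a window -/
noncomputable def H (t : ℝ) (x N w : ℕ) : ℝ :=
  if x < w ∧ w ≤ x + N then (wt w : ℝ) * t ^ w else 0

/-- The sum of `F`. -/
noncomputable def C (t : ℝ) (m : ℕ) : ℝ := (1 + t - 2 * t * t ^ m) / (1 - t)

lemma F_nonneg {t : ℝ} (ht : 0 ≤ t) (m w : ℕ) : 0 ≤ F t m w := by
  unfold F; split_ifs
  · exact mul_nonneg (wt_nonneg w) (pow_nonneg ht _)
  · exact le_rfl

lemma H_nonneg {t : ℝ} (ht : 0 ≤ t) (x N w : ℕ) : 0 ≤ H t x N w := by
  unfold H; split_ifs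
  · exact mul_nonneg (wt_nonneg w) (pow_nonneg ht _)
  · exact le_rfl

lemma hasSum_F {t : ℝ} (ht : t ≠ 1) (m : ℕ) : HasSum (F t m) (C t m) := by
  have h1 : (1 - t) ≠ 0 := sub_ne_zero.2 ht.symm
  have h2 : C t m = ∑ w ∈ Finset.range (m + 1), F t m w := by
    have h3 : ∀ k, ∑ w ∈ Finset.range (k + 1), (wt w : ℝ) * t ^ w = C t k := by
      intro k
      induction k with
      | zero => simp [wt, C]; field_simp; ring
      | succ k ih =>
        rw [Finset.sum_range_succ, ih]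
        simp only [C, wt]
        simp
        field_simp
        ring
    rw [← h3]
    refine Finset.sum_congr rfl fun w hw => ?_
    rw [F, if_pos (by simpa [Nat.lt_succ_iff] using hw)]
  rw [h2]
  refine hasSum_sum_of_ne_finset_zero fun w hw => ?_
  rw [F, if_neg]
  simpa [Nat.lt_succ_iff] using hw

lemma hasSum_H {t : ℝ} (ht : t ≠ 1) (x N : ℕ) : HasSum (H t x N) (C t (x + N) - C t x) := by
  have h := (hasSum_F ht (x + N)).sub (hasSum_F ht x)
  have e : H t x N = fun w => F t (x + N) w - F t x w := by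
    funext w
    unfold H F
    by_cases h1 : w ≤ x
    · have h2 : w ≤ x + N := by omega
      have h3 : ¬ x < w := by omega
      simp [h1, h2, h3]
    · have h3 : x < w := by omega
      by_cases h2 : w ≤ x + N
      · simp [h1, h2, h3]
      · simp [h1, h2]
  rw [e]; exact h

/-- The value of the fibre sum over `w`. -/
noncomputable def V (t : ℝ) (x N : ℕ) : ℝ :=
  (2 * C t (x + N) ^ 4 - 4 * ((C t (x + N) - C t x) * C t (x + N) ^ 3))
    - (if N = 0 then C t x ^ 4 else 0)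

lemma eTerm_zero (x : ℕ) (w : Fin 4 → ℕ) (t : ℝ) :
    (eTerm x 0 w : ℝ) * t ^ (∑ i, w i) = ∏ i, F t x (w i) := by
  rw [← Finset.prod_pow_eq_pow_sum]
  by_cases h : ∀ i, w i ≤ x
  · rw [eTerm, if_pos rfl, if_pos h]
    push_cast
    rw [← Finset.prod_mul_distrib]
    refine Finset.prod_congr rfl fun i _ => ?_
    rw [F, if_pos (h i)]
  · rw [eTerm, if_pos rfl, if_neg h]
    obtain ⟨i, hi⟩ := not_forall.1 h
    have h1 : ∏ i, F t x (w i) = 0 :=
      Finset.prod_eq_zero (Finset.mem_univ i) (by rw [F, if_neg hi])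
    rw [h1]
    simp

lemma eTerm_pos (x N : ℕ) (hN : N ≠ 0) (w : Fin 4 → ℕ) (t : ℝ) :
    (eTerm x N w : ℝ) * t ^ (∑ i, w i) = 2 * ∏ i, F t (x + N) (w i) -
      ∑ j, ∏ i, (if i = j then H t x N (w i) else F t (x + N) (w i)) := by
  rw [← Finset.prod_pow_eq_pow_sum]
  by_cases h : ∀ i, w i ≤ x + N
  · rw [eTerm, if_neg hN, if_pos h]
    have e1 : ((∏ i ∈ Finset.univ.filter (fun i => w i ≤ x), wt (w i)) *
      (2 ^ (Finset.univ.filter (fun i => x < w i)).card *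
        (2 - ((Finset.univ.filter (fun i => x < w i)).card : ℤ)))) =
        (∏ i, wt (w i)) * (2 - ((Finset.univ.filter (fun i => x < w i)).card : ℤ)) := by
      rw [← mul_assoc]
      congr 1
      rw [← Finset.prod_filter_mul_prod_filter_not Finset.univ (fun i => w i ≤ x)]
      congr 1
      rw [← Finset.prod_const]
      refine Finset.prod_congr (by ext i; simp) fun i hi => ?_
      have hi' : x < w i := by simpa using hi
      have : w i ≠ 0 := by omega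
      simp [wt, this]
    rw [e1]
    push_cast
    have e2 : ((Finset.univ.filter (fun i => x < w i)).card : ℝ) =
        ∑ j : Fin 4, (if x < w j then (1 : ℝ) else 0) := by
      rw [Finset.sum_boole]
    have e3 : ∏ i, F t (x + N) (w i) = (∏ i, (wt (w i) : ℝ)) * ∏ i, t ^ (w i) := by
      rw [← Finset.prod_mul_distrib]
      refine Finset.prod_congr rfl fun i _ => ?_
      rw [F, if_pos (h i)]
    have e4 : ∀ j : Fin 4, ∏ i, (if i = j then H t x N (w i) else F t (x + N) (w i)) =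
        (if x < w j then (1 : ℝ) else 0) * ((∏ i, (wt (w i) : ℝ)) * ∏ i, t ^ (w i)) := by
      intro j
      rw [← e3, ← Finset.mul_prod_erase _ _ (Finset.mem_univ j),
        ← Finset.mul_prod_erase Finset.univ (fun i => F t (x + N) (w i)) (Finset.mem_univ j),
        if_pos rfl, ← mul_assoc]
      congr 1
      · rw [H, F, if_pos (h j)]
        simp [h j]
      · refine Finset.prod_congr rfl fun i hi => ?_
        rw [if_neg (Finset.ne_of_mem_erase hi)]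
    rw [e3, Finset.sum_congr rfl fun j _ => e4 j, ← Finset.sum_mul, ← e2]
    ring
  · rw [eTerm, if_neg hN, if_neg h]
    obtain ⟨i, hi⟩ := not_forall.1 h
    have h1 : F t (x + N) (w i) = 0 := by rw [F, if_neg hi]
    have h2 : H t x N (w i) = 0 := by rw [H, if_neg (fun h => hi h.2)]
    have h3 : ∏ i, F t (x + N) (w i) = 0 := Finset.prod_eq_zero (Finset.mem_univ i) h1
    rw [h3, Finset.sum_eq_zero]
    · simp
    · intro j _
      refine Finset.prod_eq_zero (Finset.mem_univ i) ?_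
      split_ifs
      · exact h2
      · exact h1

lemma hasSum_w {t : ℝ} (ht0 : 0 ≤ t) (ht : t ≠ 1) (x N : ℕ) :
    HasSum (fun w : Fin 4 → ℕ => (eTerm x N w : ℝ) * t ^ (∑ i, w i)) (V t x N) := by
  by_cases hN : N = 0
  · subst hN
    have h := hasSum_pi 4 (fun _ => F t x) (fun _ => C t x) (fun _ n => F_nonneg ht0 x n)
      (fun _ => hasSum_F ht x)
    have e : V t x 0 = ∏ _i : Fin 4, C t x := by
      simp [V]; ring
    rw [e]
    refine h.congr_fun ?_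
    intro w
    exact eTerm_zero x w t
  · have h := hasSum_pi 4 (fun _ => F t (x + N)) (fun _ => C t (x + N))
      (fun _ n => F_nonneg ht0 _ n) (fun _ => hasSum_F ht _)
    have h' : ∀ j : Fin 4, HasSum (fun w : Fin 4 → ℕ =>
        ∏ i, (if i = j then H t x N (w i) else F t (x + N) (w i)))
        ((C t (x + N) - C t x) * C t (x + N) ^ 3) := by
      intro j
      have h1 := hasSum_pi 4 (fun i => if i = j then H t x N else F t (x + N))
        (fun i => if i = j then C t (x + N) - C t x else C t (x + N)) (fun i n => by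
          split_ifs
          · exact H_nonneg ht0 _ _ _
          · exact F_nonneg ht0 _ _) (fun i => by
          split_ifs
          · exact hasSum_H ht _ _
          · exact hasSum_F ht _)
      have e1 : (∏ i, if i = j then C t (x + N) - C t x else C t (x + N)) =
          (C t (x + N) - C t x) * C t (x + N) ^ 3 := by
        rw [← Finset.mul_prod_erase _ _ (Finset.mem_univ j), if_pos rfl]
        congr 1
        rw [Finset.prod_congr rfl (g := fun _ => C t (x + N))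
          (fun i hi => if_neg (Finset.ne_of_mem_erase hi))]
        simp
      rw [e1] at h1
      refine h1.congr_fun ?_
      intro w
      refine Finset.prod_congr rfl fun i _ => ?_
      split_ifs <;> rfl
    have h2 := (h.mul_left 2).sub (hasSum_sum (s := Finset.univ) fun j _ => h' j)
    have e : V t x N = 2 * ∏ _i : Fin 4, C t (x + N) -
        ∑ _j : Fin 4, (C t (x + N) - C t x) * C t (x + N) ^ 3 := by
      simp [V, hN]
    rw [e]
    refine h2.congr_fun ?_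
    intro w
    exact eTerm_pos x N hN w t

/-! ### Summability -/

/-- degree -/
def deg (τ : ℕ × ℕ × (Fin 4 → ℕ) × (Fin 4 → ℕ)) : ℕ :=
  2 * τ.1 + τ.2.1 + ∑ i, (2 * τ.2.2.1 i + τ.2.2.2 i)

lemma mem_boxes (n : ℕ) (τ : ℕ × ℕ × (Fin 4 → ℕ) × (Fin 4 → ℕ)) :
    τ ∈ boxes n ↔ deg τ = n := by
  obtain ⟨x, N, a, w⟩ := τ
  simp only [boxes, deg, Finset.mem_filter, Finset.mem_product, Finset.mem_range,
    Fintype.mem_piFinset]
  constructor
  · exact fun h => h.2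
  · intro h
    have h1 : ∀ i : Fin 4, 2 * a i + w i ≤ ∑ i, (2 * a i + w i) := fun i =>
      Finset.single_le_sum (f := fun i => 2 * a i + w i) (fun _ _ => Nat.zero_le _)
        (Finset.mem_univ i)
    refine ⟨⟨by omega, by omega, fun i => ?_, fun i => ?_⟩, h⟩
    · have := h1 i; omega
    · have := h1 i; omega

/-- The summand. -/
noncomputable def g (t : ℝ) (τ : ℕ × ℕ × (Fin 4 → ℕ) × (Fin 4 → ℕ)) : ℝ :=
  (eTerm τ.1 τ.2.1 τ.2.2.2 : ℝ) * t ^ deg τ

lemma F_one_le (m w : ℕ) : F 1 m w ≤ 2 := by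
  unfold F; split_ifs
  · simpa using wt_le w
  · norm_num

lemma H_one_le (x N w : ℕ) : H 1 x N w ≤ 2 := by
  unfold H; split_ifs
  · simpa using wt_le w
  · norm_num

lemma abs_eTerm_le (x N : ℕ) (w : Fin 4 → ℕ) : |(eTerm x N w : ℝ)| ≤ 96 := by
  have hp : ∀ m, 0 ≤ ∏ i, F 1 m (w i) ∧ ∏ i, F 1 m (w i) ≤ 16 := by
    intro m
    refine ⟨Finset.prod_nonneg fun i _ => F_nonneg zero_le_one _ _, ?_⟩
    calc ∏ i, F 1 m (w i) ≤ ∏ _i : Fin 4, (2 : ℝ) :=
          Finset.prod_le_prod (fun i _ => F_nonneg zero_le_one _ _) fun i _ => F_one_le _ _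
      _ = 16 := by simp; norm_num
  by_cases hN : N = 0
  · subst hN
    have h := eTerm_zero x w 1
    rw [one_pow, mul_one] at h
    rw [h, abs_of_nonneg (hp x).1]
    linarith [(hp x).2]
  · have h := eTerm_pos x N hN w 1
    rw [one_pow, mul_one] at h
    have hq : ∀ j : Fin 4, 0 ≤ ∏ i, (if i = j then H 1 x N (w i) else F 1 (x + N) (w i)) ∧
        ∏ i, (if i = j then H 1 x N (w i) else F 1 (x + N) (w i)) ≤ 16 := by
      intro j
      have h0 : ∀ i, 0 ≤ (if i = j then H 1 x N (w i) else F 1 (x + N) (w i)) := by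
        intro i; split_ifs
        · exact H_nonneg zero_le_one _ _ _
        · exact F_nonneg zero_le_one _ _
      refine ⟨Finset.prod_nonneg fun i _ => h0 i, ?_⟩
      calc ∏ i, (if i = j then H 1 x N (w i) else F 1 (x + N) (w i)) ≤ ∏ _i : Fin 4, (2 : ℝ) :=
            Finset.prod_le_prod (fun i _ => h0 i) fun i _ => by
              split_ifs
              · exact H_one_le _ _ _
              · exact F_one_le _ _
        _ = 16 := by simp; norm_num
    have hs1 : 0 ≤ ∑ j : Fin 4, ∏ i, (if i = j then H 1 x N (w i) else F 1 (x + N) (w i)) :=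
      Finset.sum_nonneg fun j _ => (hq j).1
    have hs2 : ∑ j : Fin 4, ∏ i, (if i = j then H 1 x N (w i) else F 1 (x + N) (w i)) ≤ 64 := by
      calc ∑ j : Fin 4, ∏ i, (if i = j then H 1 x N (w i) else F 1 (x + N) (w i))
          ≤ ∑ _j : Fin 4, (16 : ℝ) := Finset.sum_le_sum fun j _ => (hq j).2
        _ = 64 := by simp; norm_num
    rw [h, abs_le]
    have := hp (x + N)
    constructor <;> linarith [this.1, this.2]

lemma pow_deg (t : ℝ) (x N : ℕ) (a w : Fin 4 → ℕ) :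
    t ^ deg (x, N, a, w) = t ^ (2 * x + N) * ((∏ i, (t ^ 2) ^ (a i)) * t ^ (∑ i, w i)) := by
  have h : deg (x, N, a, w) = (2 * x + N) + ((∑ i, 2 * a i) + ∑ i, w i) := by
    simp [deg, Finset.sum_add_distrib]
  rw [h, pow_add _ (2 * x + N), pow_add _ (∑ i, 2 * a i),
    ← Finset.prod_pow_eq_pow_sum Finset.univ (fun i => 2 * a i)]
  simp only [pow_mul]

lemma hasSum_geo {t : ℝ} (ht0 : 0 ≤ t) (ht1 : t < 1) {k : ℕ} (hk : k ≠ 0) :
    HasSum (fun n : ℕ => (t ^ k) ^ n) (1 - t ^ k)⁻¹ :=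
  hasSum_geometric_of_lt_one (pow_nonneg ht0 _) (pow_lt_one₀ ht0 ht1 hk)

lemma hasSum_a {t : ℝ} (ht0 : 0 ≤ t) (ht1 : t < 1) :
    HasSum (fun a : Fin 4 → ℕ => ∏ i, (t ^ 2) ^ (a i)) ((1 - t ^ 2)⁻¹ ^ 4) := by
  have h := hasSum_pi 4 (fun _ n => (t ^ 2) ^ n) (fun _ => (1 - t ^ 2)⁻¹)
    (fun _ n => pow_nonneg (pow_nonneg ht0 _) _)
    (fun _ => hasSum_geo ht0 ht1 two_ne_zero)
  simpa using h

lemma summable_g {t : ℝ} (ht0 : 0 ≤ t) (ht1 : t < 1) : Summable (g t) := by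
  have h1 : Summable fun x : ℕ => (t ^ 2) ^ x := (hasSum_geo ht0 ht1 two_ne_zero).summable
  have h2 : Summable fun x : ℕ => t ^ x := summable_geometric_of_lt_one ht0 ht1
  have h3 := (hasSum_a ht0 ht1).summable
  have h4 : Summable fun w : Fin 4 → ℕ => t ^ (∑ i, w i) := by
    have h := (hasSum_pi 4 (fun _ n => t ^ n) (fun _ => (1 - t)⁻¹)
      (fun _ n => pow_nonneg ht0 _) (fun _ => hasSum_geometric_of_lt_one ht0 ht1)).summable
    refine h.congr fun w => ?_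
    rw [Finset.prod_pow_eq_pow_sum]
  generalize hA : (fun a : Fin 4 → ℕ => ∏ i, (t ^ 2) ^ (a i)) = A at h3
  generalize hB : (fun w : Fin 4 → ℕ => t ^ (∑ i, w i)) = B at h4
  have hA0 : 0 ≤ A := by
    rw [← hA]; intro a; exact Finset.prod_nonneg fun i _ => pow_nonneg (pow_nonneg ht0 _) _
  have hB0 : 0 ≤ B := by
    rw [← hB]; intro a; exact pow_nonneg ht0 _
  have h5 : Summable fun z : (Fin 4 → ℕ) × (Fin 4 → ℕ) => A z.1 * B z.2 :=
    Summable.mul_of_nonneg h3 h4 hA0 hB0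
  generalize hD : (fun z : (Fin 4 → ℕ) × (Fin 4 → ℕ) => A z.1 * B z.2) = D at h5
  have hD0 : 0 ≤ D := by
    rw [← hD]; intro a; exact mul_nonneg (hA0 _) (hB0 _)
  have h6 : Summable fun z : ℕ × ((Fin 4 → ℕ) × (Fin 4 → ℕ)) => t ^ z.1 * D z.2 :=
    Summable.mul_of_nonneg h2 h5 (fun n => pow_nonneg ht0 _) hD0
  generalize hE : (fun z : ℕ × ((Fin 4 → ℕ) × (Fin 4 → ℕ)) => t ^ z.1 * D z.2) = E at h6
  have hE0 : 0 ≤ E := by
    rw [← hE]; intro a; exact mul_nonneg (pow_nonneg ht0 _) (hD0 _)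
  have h7 : Summable fun z : ℕ × (ℕ × ((Fin 4 → ℕ) × (Fin 4 → ℕ))) => (t ^ 2) ^ z.1 * E z.2 :=
    Summable.mul_of_nonneg h1 h6 (fun n => pow_nonneg (pow_nonneg ht0 _) _) hE0
  refine Summable.of_norm_bounded (h7.mul_left 96) ?_
  rintro ⟨x, N, a, w⟩
  rw [g, pow_deg, norm_mul, Real.norm_eq_abs, Real.norm_eq_abs]
  have e : (t ^ 2) ^ x * E (N, a, w) = t ^ (2 * x + N) * ((∏ i, (t ^ 2) ^ (a i)) *
      t ^ (∑ i, w i)) := by
    rw [← hE, ← hD, ← hA, ← hB, pow_add, pow_mul]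
    ring
  rw [abs_of_nonneg (a := t ^ (2 * x + N) * _), ← e]
  · exact mul_le_mul_of_nonneg_right (abs_eTerm_le _ _ _)
      (mul_nonneg (pow_nonneg (pow_nonneg ht0 _) _) (hE0 _))
  · exact mul_nonneg (pow_nonneg ht0 _) (mul_nonneg (Finset.prod_nonneg fun i _ =>
      pow_nonneg (pow_nonneg ht0 _) _) (pow_nonneg ht0 _))

lemma hasSum_fib {t : ℝ} (ht0 : 0 ≤ t) (ht1 : t < 1) (x N : ℕ) :
    HasSum (fun z : (Fin 4 → ℕ) × (Fin 4 → ℕ) => g t (x, N, z.1, z.2))
      (t ^ (2 * x + N) * ((1 - t ^ 2)⁻¹ ^ 4 * V t x N)) := by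
  have h1 := hasSum_a ht0 ht1
  have h2 := hasSum_w ht0 ht1.ne x N
  generalize hA : (fun a : Fin 4 → ℕ => ∏ i, (t ^ 2) ^ (a i)) = A at h1
  generalize hB : (fun w : Fin 4 → ℕ => (eTerm x N w : ℝ) * t ^ (∑ i, w i)) = B at h2
  have h3 : Summable fun z : (Fin 4 → ℕ) × (Fin 4 → ℕ) => A z.1 * B z.2 :=
    summable_mul_of_summable_norm h1.summable.norm h2.summable.norm
  have h4 := (h1.mul h2 h3).mul_left (t ^ (2 * x + N))
  refine h4.congr_fun ?_
  rintro ⟨a, w⟩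
  rw [← hA, ← hB, g, pow_deg]
  ring

/-! ### The explicit sum -/

lemma hasSum_M {t : ℝ} (ht0 : 0 ≤ t) (ht1 : t < 1) (a b : ℕ) :
    HasSum (fun z : ℕ × ℕ => t ^ (2 * z.1 + z.2) * (t ^ z.1) ^ a * (t ^ (z.1 + z.2)) ^ b)
      ((1 - t ^ (2 + a + b))⁻¹ * (1 - t ^ (1 + b))⁻¹) := by
  have h1 := hasSum_geo ht0 ht1 (k := 2 + a + b) (by omega)
  have h2 := hasSum_geo ht0 ht1 (k := 1 + b) (by omega)
  have h3 := h1.mul h2 (summable_mul_of_summable_norm h1.summable.norm h2.summable.norm)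
  refine h3.congr_fun ?_
  rintro ⟨x, N⟩
  simp only [← pow_mul, ← pow_add]
  congr 1
  ring

/-- indicator of zero -/
noncomputable def dl (n : ℕ) : ℝ := if n = 0 then 1 else 0

lemma hasSum_dl : HasSum dl 1 := hasSum_ite_eq (0 : ℕ) (1 : ℝ)

lemma hasSum_D {t : ℝ} (ht0 : 0 ≤ t) (ht1 : t < 1) (a : ℕ) :
    HasSum (fun z : ℕ × ℕ => dl z.2 * (t ^ (2 * z.1) * (t ^ z.1) ^ a))
      ((1 - t ^ (2 + a))⁻¹) := by
  have h1 := hasSum_geo ht0 ht1 (k := 2 + a) (by omega)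
  have h2 := hasSum_dl
  have h3 := h1.mul h2 (summable_mul_of_summable_norm h1.summable.norm h2.summable.norm)
  rw [mul_one] at h3
  refine h3.congr_fun ?_
  intro z
  rw [mul_comm]
  congr 1
  simp only [← pow_mul, ← pow_add]
  congr 1
  ring

/-- abbreviation -/
noncomputable def m (t : ℝ) (a b : ℕ) : ℝ := (1 - t ^ (2 + a + b))⁻¹ * (1 - t ^ (1 + b))⁻¹

/-- abbreviation -/
noncomputable def dd (t : ℝ) (a : ℕ) : ℝ := (1 - t ^ (2 + a))⁻¹

/-- The bracket. -/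
noncomputable def Br (t : ℝ) : ℝ :=
  (2 * (1 + t) ^ 4 * m t 0 0 + (-8 * (1 + t) ^ 3 * t) * m t 0 1 + (32 * (1 + t) * t ^ 3) * m t 0 3
    + (-32 * t ^ 4) * m t 0 4 + (-8 * t * (1 + t) ^ 3) * m t 1 0
    + (48 * t ^ 2 * (1 + t) ^ 2) * m t 1 1 + (-96 * t ^ 3 * (1 + t)) * m t 1 2
    + (64 * t ^ 4) * m t 1 3)
  - ((1 + t) ^ 4 * dd t 0 + (-8 * (1 + t) ^ 3 * t) * dd t 1 + (24 * (1 + t) ^ 2 * t ^ 2) * dd t 2
    + (-32 * (1 + t) * t ^ 3) * dd t 3 + (16 * t ^ 4) * dd t 4)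

lemma hasSum_V {t : ℝ} (ht0 : 0 ≤ t) (ht1 : t < 1) :
    HasSum (fun z : ℕ × ℕ => t ^ (2 * z.1 + z.2) * V t z.1 z.2) ((1 - t)⁻¹ ^ 4 * Br t) := by
  have h1 : (1 - t) ≠ 0 := (sub_pos.2 ht1).ne'
  have hM := fun a b => hasSum_M ht0 ht1 a b
  have hD := fun a => hasSum_D ht0 ht1 a
  have h := ((((((((hM 0 0).mul_left (2 * (1 + t) ^ 4)).add
    ((hM 0 1).mul_left (-8 * (1 + t) ^ 3 * t))).add
    ((hM 0 3).mul_left (32 * (1 + t) * t ^ 3))).add
    ((hM 0 4).mul_left (-32 * t ^ 4))).add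
    ((hM 1 0).mul_left (-8 * t * (1 + t) ^ 3))).add
    ((hM 1 1).mul_left (48 * t ^ 2 * (1 + t) ^ 2))).add
    ((hM 1 2).mul_left (-96 * t ^ 3 * (1 + t)))).add
    ((hM 1 3).mul_left (64 * t ^ 4))
  have h' := (((((hD 0).mul_left ((1 + t) ^ 4)).add
    ((hD 1).mul_left (-8 * (1 + t) ^ 3 * t))).add
    ((hD 2).mul_left (24 * (1 + t) ^ 2 * t ^ 2))).add
    ((hD 3).mul_left (-32 * (1 + t) * t ^ 3))).add
    ((hD 4).mul_left (16 * t ^ 4))
  have h2 := (h.sub h').mul_left ((1 - t)⁻¹ ^ 4)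
  refine h2.congr_fun ?_
  rintro ⟨x, N⟩
  simp only [V, C, dl]
  by_cases hN : N = 0
  · subst hN
    simp only [if_true, add_zero]
    generalize t ^ (2 * x) = T
    generalize t ^ x = X
    field_simp
    ring
  · simp only [hN, if_false]
    generalize t ^ (2 * x + N) = T
    generalize t ^ (2 * x) = T'
    generalize t ^ (x + N) = Y
    generalize t ^ x = X
    field_simp
    ring

lemma tsum_g {t : ℝ} (ht0 : 0 ≤ t) (ht1 : t < 1) :
    ∑' τ, g t τ = (1 - t ^ 2)⁻¹ ^ 4 * ((1 - t)⁻¹ ^ 4 * Br t) := by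
  have h1 := (summable_g ht0 ht1).hasSum
  rw [← (Equiv.prodAssoc ℕ ℕ ((Fin 4 → ℕ) × (Fin 4 → ℕ))).hasSum_iff] at h1
  have h2 := h1.prod_fiberwise (g := fun z : ℕ × ℕ =>
    t ^ (2 * z.1 + z.2) * ((1 - t ^ 2)⁻¹ ^ 4 * V t z.1 z.2))
    (fun z => hasSum_fib ht0 ht1 z.1 z.2)
  have h3 := (hasSum_V ht0 ht1).mul_left ((1 - t ^ 2)⁻¹ ^ 4)
  refine h2.unique (h3.congr_fun ?_)
  intro z
  ring

lemma hasSum_eCoef {t : ℝ} (ht0 : 0 ≤ t) (ht1 : t < 1) :
    HasSum (fun n => (eCoef n : ℝ) * t ^ n)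
      ((1 - t ^ 2)⁻¹ ^ 4 * ((1 - t)⁻¹ ^ 4 * Br t)) := by
  have h1 := (summable_g ht0 ht1).hasSum
  rw [tsum_g ht0 ht1] at h1
  have h2 := h1.tsum_fiberwise deg
  refine h2.congr_fun ?_
  intro n
  have e : deg ⁻¹' {n} = (↑(boxes n) : Set (ℕ × ℕ × (Fin 4 → ℕ) × (Fin 4 → ℕ))) := by
    ext τ
    simp only [Set.mem_preimage, Set.mem_singleton_iff, Finset.mem_coe]
    exact (mem_boxes n τ).symm
  rw [e, Finset.tsum_subtype' (boxes n) (g t), eCoef]
  push_cast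
  rw [Finset.sum_mul]
  refine Finset.sum_congr rfl fun τ hτ => ?_
  rw [g, (mem_boxes n τ).1 hτ]

/-! ### The limit -/

/-- `1 + t + ... + t^(k-1)` -/
noncomputable def q (t : ℝ) (k : ℕ) : ℝ := ∑ i ∈ Finset.range k, t ^ i

lemma one_sub_pow_eq (t : ℝ) (k : ℕ) : 1 - t ^ k = (1 - t) * q t k := by
  rw [q, mul_neg_geom_sum]

/-- The limit function. -/
noncomputable def Phi (t : ℝ) : ℝ :=
  ((1 + t) ^ 4)⁻¹ * ((2 * (1 + t) ^ 4 * (q t 2 * q t 1)⁻¹
    + (-8 * (1 + t) ^ 3 * t) * (q t 3 * q t 2)⁻¹ + (32 * (1 + t) * t ^ 3) * (q t 5 * q t 4)⁻¹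
    + (-32 * t ^ 4) * (q t 6 * q t 5)⁻¹ + (-8 * t * (1 + t) ^ 3) * (q t 3 * q t 1)⁻¹
    + (48 * t ^ 2 * (1 + t) ^ 2) * (q t 4 * q t 2)⁻¹ + (-96 * t ^ 3 * (1 + t)) * (q t 5 * q t 3)⁻¹
    + (64 * t ^ 4) * (q t 6 * q t 4)⁻¹)
  - (1 - t) * ((1 + t) ^ 4 * (q t 2)⁻¹ + (-8 * (1 + t) ^ 3 * t) * (q t 3)⁻¹
    + (24 * (1 + t) ^ 2 * t ^ 2) * (q t 4)⁻¹
    + (-32 * (1 + t) * t ^ 3) * (q t 5)⁻¹ + (16 * t ^ 4) * (q t 6)⁻¹))

lemma q_one (k : ℕ) : q 1 k = k := by simp [q]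

lemma q_cont (k : ℕ) : Continuous fun t => q t k := by
  unfold q; fun_prop

lemma Phi_cont : ContinuousAt Phi 1 := by
  have h : ∀ k : ℕ, k ≠ 0 → q 1 k ≠ 0 := fun k hk => by rw [q_one]; exact_mod_cast hk
  have hc : ∀ k : ℕ, k ≠ 0 → ContinuousAt (fun t => (q t k)⁻¹) 1 := fun k hk =>
    (q_cont k).continuousAt.inv₀ (h k hk)
  have hc2 : ∀ k l : ℕ, k ≠ 0 → l ≠ 0 → ContinuousAt (fun t => (q t k * q t l)⁻¹) 1 :=
    fun k l hk hl => ((q_cont k).mul (q_cont l)).continuousAt.inv₀ (mul_ne_zero (h k hk) (h l hl))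
  have a1 := hc2 2 1 (by norm_num) (by norm_num)
  have a2 := hc2 3 2 (by norm_num) (by norm_num)
  have a3 := hc2 5 4 (by norm_num) (by norm_num)
  have a4 := hc2 6 5 (by norm_num) (by norm_num)
  have a5 := hc2 3 1 (by norm_num) (by norm_num)
  have a6 := hc2 4 2 (by norm_num) (by norm_num)
  have a7 := hc2 5 3 (by norm_num) (by norm_num)
  have a8 := hc2 6 4 (by norm_num) (by norm_num)
  have b2 := hc 2 (by norm_num)
  have b3 := hc 3 (by norm_num)
  have b4 := hc 4 (by norm_num)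
  have b5 := hc 5 (by norm_num)
  have b6 := hc 6 (by norm_num)
  have c1 : ContinuousAt (fun t : ℝ => ((1 + t) ^ 4)⁻¹) 1 :=
    ContinuousAt.inv₀ (by fun_prop) (by norm_num)
  unfold Phi
  fun_prop

lemma Phi_one : Phi 1 = 0 := by
  simp only [Phi, q_one]
  norm_num

lemma main_eq {t : ℝ} (ht0 : 0 < t) (ht1 : t < 1) :
    (1 - t) ^ 10 * ∑' n, (eCoef n : ℝ) * t ^ n = Phi t := by
  rw [(hasSum_eCoef ht0.le ht1).tsum_eq]
  have h1 : (1 - t) ≠ 0 := (sub_pos.2 ht1).ne'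
  have h2 : (1 + t) ≠ 0 := by positivity
  have hq : ∀ k : ℕ, k ≠ 0 → q t k ≠ 0 := fun k hk => by
    have : 0 < q t k := Finset.sum_pos (fun i _ => pow_pos ht0 _) ⟨0, by simpa using hk.bot_lt⟩
    exact this.ne'
  have q1 := hq 1 (by norm_num)
  have q2 := hq 2 (by norm_num)
  have q3 := hq 3 (by norm_num)
  have q4 := hq 4 (by norm_num)
  have q5 := hq 5 (by norm_num)
  have q6 := hq 6 (by norm_num)
  have e2 : (1 - t ^ 2)⁻¹ = (1 - t)⁻¹ * (1 + t)⁻¹ := by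
    rw [← mul_inv]; congr 1; ring
  rw [e2]
  simp only [Br, m, dd, Phi, one_sub_pow_eq, mul_inv]
  norm_num only
  field_simp

end Pool.Agent.Lib.H70.Top.WW

namespace Pool.Agent.Lib.H70.Top

open Filter Topology WW

theorem eCoef_summable (t : ℝ) (h0 : 0 < t) (h1 : t < 1) :
    Summable fun n => (eCoef n : ℝ) * t ^ n :=
  (hasSum_eCoef h0.le h1).summable

theorem eCoef_asymp : Tendsto (fun t : ℝ => (1 - t) ^ 10 * ∑' n, (eCoef n : ℝ) * t ^ n)
    (𝓝[<] 1) (𝓝 0) := by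
  have h : Tendsto Phi (𝓝[<] 1) (𝓝 0) := by
    have := Phi_cont.tendsto
    rw [Phi_one] at this
    exact this.mono_left nhdsWithin_le_nhds
  refine h.congr' ?_
  filter_upwards [Ioo_mem_nhdsLT (zero_lt_one' ℝ)] with t ht
  exact (main_eq ht.1 ht.2).symm

end Pool.Agent.Lib.H70.Top
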